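import Mathlib

/-!
# A function field model of the etale fundamental group of a curve and of its Galois sections

`K/k` is a field extension of characteristic zero (in the applications the function field of a
smooth projective geometrically connected curve `X` over `k`) and `Ω = AlgebraicClosure K`.

* `InInertia W σ` : `σ` lies in the inertia group of the valuation ring `W` of `Ω`.
* `Kur k K` : the maximal extension of `K` inside `Ω` which is unramified at all places of `K/k`,
  that is, the fixed field of all inertia groups of all valuation rings of `Ω` containing `k`.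
  Its Galois group over `K` is `π₁(X)`.
* `GaloisSection k K` : continuous sections of `π₁(X) → Gal(k̄/k)`.
-/

universe u

namespace Pool.Agent.Helper91.Sect

open IntermediateField

noncomputable section

section Defs

variable (k K : Type u) [Field k] [Field K] [Algebra k K]

/-- `σ` belongs to the inertia group of the valuation ring `W` of the algebraic closure of `K`:
`σ` maps `W` onto itself and acts trivially on the residue field of `W`. -/
def InInertia {K : Type u} [Field K] (W : ValuationSubring (AlgebraicClosure K))
    (σ : AlgebraicClosure K ≃ₐ[K] AlgebraicClosure K) : Prop :=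
  (∀ z, σ z ∈ W ↔ z ∈ W) ∧ ∀ z ∈ W, W.valuation (σ z - z) < 1

/-- The maximal extension of `K` (inside the algebraic closure of `K`) unramified at all places of
`K/k`: the common fixed field of the inertia groups of all valuation rings containing `k`. -/
def Kur : IntermediateField K (AlgebraicClosure K) where
  carrier := {z | ∀ W : ValuationSubring (AlgebraicClosure K),
    (∀ c : k, algebraMap k (AlgebraicClosure K) c ∈ W) →
    ∀ σ : AlgebraicClosure K ≃ₐ[K] AlgebraicClosure K, InInertia W σ → σ z = z}
  mul_mem' := by
    intro a b ha hb W hW σ hσ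
    rw [map_mul, ha W hW σ hσ, hb W hW σ hσ]
  one_mem' := by
    intro W hW σ hσ
    exact map_one σ
  add_mem' := by
    intro a b ha hb W hW σ hσ
    rw [map_add, ha W hW σ hσ, hb W hW σ hσ]
  zero_mem' := by
    intro W hW σ hσ
    exact map_zero σ
  algebraMap_mem' := by
    intro c W hW σ hσ
    exact σ.commutes c
  inv_mem' := by
    intro a ha W hW σ hσ
    rw [map_inv₀, ha W hW σ hσ]

/-- The algebraic closure of `k` inside the algebraic closure of `K`. -/
abbrev kbar : IntermediateField k (AlgebraicClosure K) := algebraicClosure k (AlgebraicClosure K)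

/-- The absolute Galois group of `k`. -/
abbrev Gk := (kbar k K) ≃ₐ[k] (kbar k K)

/-- The etale fundamental group of the smooth projective curve with function field `K/k`. -/
abbrev Pi1 := (Kur k K) ≃ₐ[K] (Kur k K)

/-- A Galois section: a continuous homomorphism `s : Gal(k̄/k) → π₁(X) = Gal(Kur/K)` such that
`s σ` acts on the constants as `σ`. -/
structure GaloisSection where
  /-- the underlying homomorphism -/
  toHom : Gk k K →* Pi1 k K
  continuous_toHom : Continuous toHom
  isSection : ∀ (σ : Gk k K) (z : kbar k K) (w : Kur k K),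
    (w : AlgebraicClosure K) = z → (toHom σ w : AlgebraicClosure K) = σ z

end Defs

variable {k K : Type u} [Field k] [Field K] [Algebra k K]


section Constants

theorem const_mem {W : ValuationSubring (AlgebraicClosure K)}
    (hW : ∀ c : k, algebraMap k (AlgebraicClosure K) c ∈ W) {z : AlgebraicClosure K}
    (hz : IsAlgebraic k z) : z ∈ W := by
  have hint : IsIntegral k z := hz.isIntegral
  obtain ⟨p, hp, hz0⟩ := hint
  -- lift the polynomial to `W`
  let f : k →+* W := (algebraMap k (AlgebraicClosure K)).codRestrict W.toSubring hW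
  have h1 : IsIntegral W z := by
    refine ⟨p.map f, hp.map f, ?_⟩
    rw [Polynomial.eval₂_map]
    exact hz0
  obtain ⟨w, hw⟩ := IsIntegrallyClosed.algebraMap_eq_of_integral h1
  rw [← hw]
  exact w.2

theorem const_val_eq_one {W : ValuationSubring (AlgebraicClosure K)}
    (hW : ∀ c : k, algebraMap k (AlgebraicClosure K) c ∈ W) {z : AlgebraicClosure K}
    (hz : IsAlgebraic k z) (h0 : z ≠ 0) : W.valuation z = 1 := by
  have h1 : W.valuation z ≤ 1 := (W.valuation_le_one_iff z).2 (const_mem hW hz)
  have h2 : W.valuation z⁻¹ ≤ 1 := (W.valuation_le_one_iff _).2 (const_mem hW hz.inv)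
  rw [map_inv₀] at h2
  have h3 : W.valuation z ≠ 0 := by simpa using h0
  refine le_antisymm h1 ?_
  exact (inv_le_one₀ (zero_lt_iff.2 h3)).1 h2

theorem isAlgebraic_map {z : AlgebraicClosure K} (hz : IsAlgebraic k z)
    (σ : AlgebraicClosure K ≃ₐ[K] AlgebraicClosure K) : IsAlgebraic k (σ z) := by
  have := hz.algHom ((σ : AlgebraicClosure K →ₐ[K] AlgebraicClosure K).restrictScalars k)
  exact this

theorem inertia_const {W : ValuationSubring (AlgebraicClosure K)}
    (hW : ∀ c : k, algebraMap k (AlgebraicClosure K) c ∈ W)
    {σ : AlgebraicClosure K ≃ₐ[K] AlgebraicClosure K} (hσ : InInertia W σ)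
    {z : AlgebraicClosure K} (hz : IsAlgebraic k z) : σ z = z := by
  by_contra hne
  have h0 : σ z - z ≠ 0 := sub_ne_zero.2 hne
  have h1 := hσ.2 z (const_mem hW hz)
  rw [const_val_eq_one hW ((isAlgebraic_map hz σ).sub hz) h0] at h1
  exact lt_irrefl _ h1

theorem algebraic_mem_Kur {z : AlgebraicClosure K} (hz : IsAlgebraic k z) : z ∈ Kur k K :=
  fun _ hW _ hσ => inertia_const hW hσ hz

theorem kbar_mem_Kur (z : kbar k K) : (z : AlgebraicClosure K) ∈ Kur k K :=
  algebraic_mem_Kur ((mem_algebraicClosure_iff).1 z.2)

/-- The unramifiedness criterion: an element some power of which is fixed by an inertia element,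
and which has the same value as a fixed element, is fixed. -/
theorem unit_crit {W : ValuationSubring (AlgebraicClosure K)}
    (hW : ∀ c : k, algebraMap k (AlgebraicClosure K) c ∈ W)
    {σ : AlgebraicClosure K ≃ₐ[K] AlgebraicClosure K} (hσ : InInertia W σ)
    {g b : AlgebraicClosure K} (hb : σ b = b) (hgb : W.valuation g = W.valuation b)
    {N : ℕ} (hN : 0 < N) (hg : σ (g ^ N) = g ^ N) : σ g = g := by
  by_cases hg0 : g = 0
  · rw [hg0, map_zero]
  have hb0 : b ≠ 0 := by
    intro h
    rw [h, map_zero] at hgb
    exact hg0 (by simpa using hgb)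
  set ζ := σ g / g with hζ
  have hσg : σ g = ζ * g := by rw [hζ]; field_simp
  have hζN : ζ ^ N = 1 := by
    rw [hζ, div_pow, ← map_pow, hg]
    exact div_self (pow_ne_zero _ hg0)
  have hζalg : IsAlgebraic k ζ := by
    refine IsIntegral.isAlgebraic ?_
    exact IsIntegral.of_pow hN (by rw [hζN]; exact isIntegral_one)
  have h1 : W.valuation (g / b) = 1 := by
    rw [map_div₀, hgb]
    exact div_self (by simpa using hb0)
  have h2 : g / b ∈ W := (W.valuation_le_one_iff _).1 h1.le
  have h3 := hσ.2 _ h2
  have h4 : σ (g / b) - g / b = (ζ - 1) * (g / b) := by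
    rw [map_div₀, hb, hσg]; ring
  rw [h4, map_mul, h1, mul_one] at h3
  by_cases h5 : ζ - 1 = 0
  · rw [hσg, sub_eq_zero.1 h5, one_mul]
  · rw [const_val_eq_one hW (hζalg.sub isAlgebraic_one) h5] at h3
    exact absurd h3 (lt_irrefl _)

end Constants

section Ext

variable (s : GaloisSection k K)

/-- Every `s σ` extends to an automorphism of the algebraic closure of `K`. -/
theorem exists_ext (σ : Gk k K) : ∃ ρ : AlgebraicClosure K ≃ₐ[K] AlgebraicClosure K,
    ∀ w : Kur k K, ρ w = s.toHom σ w := by
  refine ⟨(s.toHom σ).liftNormal (AlgebraicClosure K), fun w => ?_⟩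
  have := (s.toHom σ).liftNormal_commutes (AlgebraicClosure K) w
  exact this

theorem ext_const {σ : Gk k K} {ρ : AlgebraicClosure K ≃ₐ[K] AlgebraicClosure K}
    (hρ : ∀ w : Kur k K, ρ w = s.toHom σ w) (z : kbar k K) :
    ρ z = σ z := by
  have h1 := hρ ⟨z, kbar_mem_Kur z⟩
  have h2 := s.isSection σ z ⟨z, kbar_mem_Kur z⟩ rfl
  rw [← h2, ← h1]

/-- The action through `s` on a fixed element of `Kur` factors through a finite extension. -/
theorem exists_finite_level (w : Kur k K) :
    ∃ L : IntermediateField k (kbar k K), FiniteDimensional k L ∧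
      ∀ σ ∈ L.fixingSubgroup, s.toHom σ w = w := by
  have h1 : (MulAction.stabilizer (Pi1 k K) w : Set (Pi1 k K)) ∈ nhds (1 : Pi1 k K) := by
    have := stabilizer_isOpen_of_isIntegral (K := K) (L := Kur k K) w
    exact this.mem_nhds (one_mem _)
  have h2 : s.toHom ⁻¹' (MulAction.stabilizer (Pi1 k K) w : Set (Pi1 k K)) ∈
      nhds (1 : Gk k K) := by
    apply s.continuous_toHom.continuousAt
    rw [map_one]
    exact h1
  rw [krullTopology_mem_nhds_one_iff] at h2
  obtain ⟨L, hL, hsub⟩ := h2
  exact ⟨L, hL, fun σ hσ => hsub hσ⟩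

end Ext

end

end Pool.Agent.Helper91.Sect
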