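import Pool.Agent.Helper91.Section.Tame

/-!
# A rational place

`O` is a valuation ring of `k` containing a subfield `F` which maps onto the residue field.
Then every element of the Galois group of the algebraic closure of `F` is induced by an element of
the decomposition group.
-/

universe u

namespace Pool.Agent.Helper91.Sect

open scoped Pointwise IntermediateField
open Polynomial

section Above

variable {k C : Type u} [Field k] [Field C] [Algebra k C] {O : ValuationSubring k}

theorem exists_above : ∃ Q : Ideal (integralClosure O C), Q.IsPrime ∧ Above Q := by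
  have hinj : Function.Injective (algebraMap O (integralClosure O C)) := by
    intro a b h
    have h1 : algebraMap k C a = algebraMap k C b := congrArg Subtype.val h
    exact Subtype.ext ((algebraMap k C).injective h1)
  obtain ⟨Q, hQ, hcomap⟩ := Ideal.exists_ideal_over_maximal_of_isIntegral
    (S := integralClosure O C) (IsLocalRing.maximalIdeal O) (by
      rw [(RingHom.injective_iff_ker_eq_bot _).1 hinj]; exact bot_le)
  refine ⟨Q, hQ.isPrime, fun c => ?_⟩
  rw [← O.valuation_lt_one_iff, ← hcomap, Ideal.mem_comap]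

end Above

section Coeff

variable {F k C : Type u} [Field F] [Field k] [Field C] [Algebra F k] [Algebra k C] [Algebra F C]
  [IsScalarTower F k C] {O : ValuationSubring k} (hFO : ∀ a : F, algebraMap F k a ∈ O)

include hFO

theorem integral_of_algF {z : C} (hz : IsAlgebraic F z) : IsIntegral O z := by
  obtain ⟨p, hp, hz0⟩ := hz.isIntegral
  let f : F →+* O := (algebraMap F k).codRestrict O.toSubring hFO
  refine ⟨p.map f, hp.map f, ?_⟩
  rw [eval₂_map]
  have : (algebraMap O C).comp f = algebraMap F C := by
    ext a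
    exact (IsScalarTower.algebraMap_apply F k C a).symm
  rw [this]; exact hz0

variable (Q : Ideal (integralClosure O C)) [hQ : Q.IsPrime]

theorem val_algF [IsGalois k C] {z : C} (hz : IsAlgebraic F z) (h0 : z ≠ 0) :
    (locW Q).valuation z = 1 := by
  have h1 : ∀ {z : C}, IsAlgebraic F z → (locW Q).valuation z ≤ 1 := fun {z} hz =>
    coeB_le Q ⟨z, integral_of_algF hFO hz⟩
  have h2 := h1 hz.inv
  rw [map_inv₀] at h2
  have h3 : (locW Q).valuation z ≠ 0 := by simpa using h0
  exact le_antisymm (h1 hz) ((inv_le_one₀ (zero_lt_iff.2 h3)).1 h2)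

theorem eq_of_cong_algF [IsGalois k C] {z z' : C} (hz : IsAlgebraic F z) (hz' : IsAlgebraic F z')
    (h : (locW Q).valuation (z - z') < 1) : z = z' := by
  by_contra hne
  rw [val_algF hFO Q (hz.sub hz') (sub_ne_zero.2 hne)] at h
  exact lt_irrefl _ h

variable (hA : Above Q) (hresF : ∀ z ∈ O, ∃ a : F, O.valuation (z - algebraMap F k a) < 1)

include hA hresF

theorem exists_algF_cong [IsGalois k C] [IsAlgClosed C] (b : integralClosure O C) :
    ∃ z : C, IsAlgebraic F z ∧ (locW Q).valuation ((b : C) - z) < 1 := by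
  obtain ⟨p, hp, hb⟩ := b.2
  -- choose residues of the coefficients
  choose! r hr using hresF
  have hr' : ∀ c : O, (locW Q).valuation (algebraMap k C c - algebraMap F C (r c)) < 1 := by
    intro c
    have h1 := hr (c : k) c.2
    have h2 := locW_algebraMap_lt Q hA h1
    rwa [map_sub, ← IsScalarTower.algebraMap_apply] at h2
  set n := p.natDegree with hn
  -- the reduced polynomial
  let q : F[X] := X ^ n + ∑ i ∈ Finset.range n, Polynomial.C (r (p.coeff i)) * X ^ i
  have hq : q.Monic := by
    apply monic_X_pow_add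
    refine (degree_sum_le _ _).trans_lt ?_
    rw [Finset.sup_lt_iff]
    · intro i hi
      refine (degree_C_mul_X_pow_le i _).trans_lt ?_
      exact_mod_cast Finset.mem_range.1 hi
    · exact WithBot.bot_lt_coe n
  have heval : (locW Q).valuation (aeval (b : C) q) < 1 := by
    have h1 : aeval (b : C) q = (b : C) ^ n +
        ∑ i ∈ Finset.range n, algebraMap F C (r (p.coeff i)) * (b : C) ^ i := by
      simp [q]
    have h2 : (0 : C) = (b : C) ^ n +
        ∑ i ∈ Finset.range n, algebraMap k C (p.coeff i) * (b : C) ^ i := by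
      rw [← hb, eval₂_eq_sum_range, Finset.sum_range_succ, add_comm]
      have h3 : p.coeff p.natDegree = 1 := hp
      rw [h3, map_one, one_mul]
      rfl
    have h3 : aeval (b : C) q = ∑ i ∈ Finset.range n,
        - (algebraMap k C (p.coeff i) - algebraMap F C (r (p.coeff i))) * (b : C) ^ i := by
      rw [h1, ← sub_zero (_ + _), h2, add_sub_add_left_eq_sub, ← Finset.sum_sub_distrib]
      refine Finset.sum_congr rfl fun i _ => ?_
      ring
    rw [h3]
    refine Valuation.map_sum_lt' _ zero_lt_one fun i _ => ?_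
    rw [map_mul, Valuation.map_neg]
    refine (mul_le_of_le_one_right' ?_).trans_lt (hr' (p.coeff i))
    rw [map_pow]
    exact pow_le_one' (coeB_le Q b) i
  -- factor `q` over the algebraic closure
  have hsplit : (q.map (algebraMap F C)).Splits := IsAlgClosed.splits _
  have hprod := hsplit.eq_prod_roots_of_monic (hq.map _)
  have h4 : aeval (b : C) q = ((q.map (algebraMap F C)).roots.map fun z => (b : C) - z).prod := by
    have h5 : aeval (b : C) q = eval (b : C) (q.map (algebraMap F C)) := by
      rw [eval_map_algebraMap]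
    rw [h5]
    conv_lhs => rw [hprod]
    rw [eval_multiset_prod, Multiset.map_map]
    congr 1
    refine Multiset.map_congr rfl fun z _ => ?_
    simp
  by_contra hcon
  push Not at hcon
  rw [h4, map_multiset_prod, Multiset.map_map] at heval
  have h6 : (Multiset.map ((locW Q).valuation ∘ fun z => (b : C) - z)
      (q.map (algebraMap F C)).roots).prod = 1 := by
    apply Multiset.prod_eq_one
    intro x hx
    rw [Multiset.mem_map] at hx
    obtain ⟨z, hz, rfl⟩ := hx
    have hzalg : IsAlgebraic F z := by
      refine ⟨q, hq.ne_zero, ?_⟩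
      have := (mem_roots'.1 hz).2
      rwa [IsRoot.def, eval_map_algebraMap] at this
    have hz1 : (locW Q).valuation z ≤ 1 := coeB_le Q ⟨z, integral_of_algF hFO hzalg⟩
    exact le_antisymm ((Valuation.map_sub _ _ _).trans (max_le (coeB_le Q b) hz1))
      (hcon z hzalg)
  rw [h6] at heval
  exact lt_irrefl _ heval

theorem exists_lift_algF [IsGalois k C] [IsAlgClosed C]
    (γ : algebraicClosure F C ≃ₐ[F] algebraicClosure F C) :
    ∃ σ : C ≃ₐ[k] C, InD Q σ ∧ ∀ z : algebraicClosure F C, σ z = γ z := by
  -- the isomorphism `𝔽 ≃ B/Q`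
  have hB : ∀ z : algebraicClosure F C, IsIntegral O (z : C) := fun z =>
    integral_of_algF hFO (mem_algebraicClosure_iff.1 z.2)
  let j : algebraicClosure F C →+* integralClosure O C :=
    { toFun := fun z => ⟨z, hB z⟩
      map_one' := rfl
      map_mul' := fun _ _ => rfl
      map_zero' := rfl
      map_add' := fun _ _ => rfl }
  let e0 : algebraicClosure F C →+* integralClosure O C ⧸ Q := (Ideal.Quotient.mk Q).comp j
  have he0 : Function.Bijective e0 := by
    constructor
    · intro z z' h
      have h1 : j z - j z' ∈ Q := Ideal.Quotient.eq.1 h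
      rw [← val_coe_lt_one_iff Q] at h1
      exact Subtype.ext (eq_of_cong_algF hFO Q (mem_algebraicClosure_iff.1 z.2)
        (mem_algebraicClosure_iff.1 z'.2) h1)
    · intro x
      obtain ⟨b, rfl⟩ := Ideal.Quotient.mk_surjective x
      obtain ⟨z, hz, hbz⟩ := exists_algF_cong hFO Q hA hresF b
      refine ⟨⟨z, mem_algebraicClosure_iff.2 hz⟩, ?_⟩
      refine (Ideal.Quotient.eq.2 ?_).symm
      rw [← val_coe_lt_one_iff Q]
      exact hbz
  let e : algebraicClosure F C ≃+* integralClosure O C ⧸ Q := RingEquiv.ofBijective e0 he0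
  let φ : (integralClosure O C ⧸ Q) ≃+* (integralClosure O C ⧸ Q) :=
    e.symm.trans ((γ : algebraicClosure F C ≃+* algebraicClosure F C).trans e)
  have hφ : ∀ z : algebraicClosure F C, φ (Ideal.Quotient.mk Q (j z)) =
      Ideal.Quotient.mk Q (j (γ z)) := by
    intro z
    change e (γ (e.symm (e z))) = e (γ z)
    rw [e.symm_apply_apply]
  obtain ⟨σ, -, hσD, hσ⟩ := exists_lift (⊤ : Subgroup (C ≃ₐ[k] C)) isClosed_univ Q φ (by
    intro b hb
    have h1 : ∀ f : C ≃ₐ[k] C, f (b : C) = b := fun f =>
      congrArg Subtype.val (hb f (Subgroup.mem_top f))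
    obtain ⟨c, hc⟩ := (InfiniteGalois.mem_range_algebraMap_iff_fixed (k := k) (b : C)).2 h1
    have hcO : c ∈ O := by
      have h2 : IsIntegral O (algebraMap k C c) := by rw [hc]; exact b.2
      have h3 : IsIntegral O c := by
        rwa [isIntegral_algebraMap_iff (algebraMap k C).injective] at h2
      obtain ⟨c', hc'⟩ := IsIntegrallyClosed.algebraMap_eq_of_integral h3
      rw [← hc']; exact c'.2
    obtain ⟨a, ha⟩ := hresF c hcO
    have h4 : Ideal.Quotient.mk Q b =
        Ideal.Quotient.mk Q (j (algebraMap F (algebraicClosure F C) a)) := by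
      rw [Ideal.Quotient.eq, ← val_coe_lt_one_iff Q]
      have h5 := locW_algebraMap_lt Q hA ha
      rw [map_sub, ← IsScalarTower.algebraMap_apply, hc] at h5
      exact h5
    rw [h4, hφ, AlgEquiv.commutes])
  refine ⟨σ, hσD, fun z => ?_⟩
  have h1 : Ideal.Quotient.mk Q (σ • (j z)) = Ideal.Quotient.mk Q (j (γ z)) := by
    rw [hσ, hφ]
  rw [Ideal.Quotient.eq, ← val_coe_lt_one_iff Q] at h1
  refine eq_of_cong_algF hFO Q ?_ (mem_algebraicClosure_iff.1 (γ z).2) h1
  have h2 : IsAlgebraic F (z : C) := mem_algebraicClosure_iff.1 z.2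
  exact h2.algHom ((σ : C →ₐ[k] C).restrictScalars F)

theorem mem_F_of_fixed [IsGalois k C] [IsAlgClosed C] [CharZero F] {z : C}
    (hz : IsAlgebraic F z) (h : ∀ σ : C ≃ₐ[k] C, InD Q σ → σ z = z) :
    ∃ a : F, algebraMap F C a = z := by
  have hgal : IsGalois F (algebraicClosure F C) := by
    have : IsAlgClosure F (algebraicClosure F C) := inferInstance
    exact IsAlgClosure.isGalois F (algebraicClosure F C)
  have h1 : ∀ γ : algebraicClosure F C ≃ₐ[F] algebraicClosure F C,
      γ ⟨z, mem_algebraicClosure_iff.2 hz⟩ = ⟨z, mem_algebraicClosure_iff.2 hz⟩ := by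
    intro γ
    obtain ⟨σ, hσD, hσ⟩ := exists_lift_algF hFO Q hA hresF γ
    apply Subtype.ext
    rw [← hσ]
    exact h σ hσD
  obtain ⟨a, ha⟩ := (InfiniteGalois.mem_range_algebraMap_iff_fixed (k := F) _).2 h1
  refine ⟨a, ?_⟩
  have := congrArg Subtype.val ha
  exact this

end Coeff

end Pool.Agent.Helper91.Sect
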