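import Pool.Agent.Helper91.Section.Tame

/-!
# The tame relation

For `γ` in the decomposition group and `τ` in the inertia group of `Q`, with residue
characteristic zero, `γ τ γ⁻¹` agrees on every finite level with `τ ^ a`, where `a` is a
value of the cyclotomic character of `γ`.
-/

universe u

namespace Pool.Agent.Helper91.Sect

open scoped Pointwise IntermediateField
open Polynomial

section Pair

variable {k C : Type u} [Field k] [Field C] [Algebra k C]
  {Γ : Type*} [LinearOrderedCommGroupWithZero Γ] (v : Valuation C Γ)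

theorem exists_pair {p : k[X]} (hp : p ≠ 0) {x : C} (hx : x ≠ 0) (h : aeval x p = 0) :
    ∃ i j, i < j ∧ j ≤ p.natDegree ∧ p.coeff i ≠ 0 ∧ p.coeff j ≠ 0 ∧
      v (algebraMap k C (p.coeff i) * x ^ i) = v (algebraMap k C (p.coeff j) * x ^ j) := by
  classical
  have hne : p.support.Nonempty := by rwa [nonempty_support_iff]
  obtain ⟨i, hi, hmax⟩ := p.support.exists_max_image
    (fun n => v (algebraMap k C (p.coeff n) * x ^ n)) hne
  have hi0 : p.coeff i ≠ 0 := by rwa [mem_support_iff] at hi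
  obtain ⟨j, hj, hji, hval⟩ : ∃ j ∈ p.support, j ≠ i ∧
      v (algebraMap k C (p.coeff j) * x ^ j) = v (algebraMap k C (p.coeff i) * x ^ i) := by
    by_contra hcon
    push Not at hcon
    have hlt : ∀ j ∈ p.support.erase i, v (algebraMap k C (p.coeff j) * x ^ j) <
        v (algebraMap k C (p.coeff i) * x ^ i) := fun j hj =>
      lt_of_le_of_ne (hmax j (Finset.mem_of_mem_erase hj))
        (hcon j (Finset.mem_of_mem_erase hj) (Finset.ne_of_mem_erase hj))
    have hnz : v (algebraMap k C (p.coeff i) * x ^ i) ≠ 0 := by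
      rw [Ne, Valuation.zero_iff]
      exact mul_ne_zero (by simpa using hi0) (pow_ne_zero _ hx)
    have h1 := v.map_sum_lt hnz hlt
    have h2 : ∑ n ∈ p.support, algebraMap k C (p.coeff n) * x ^ n = 0 := by
      rw [← h, aeval_def, eval₂_eq_sum, sum_def]
    rw [← Finset.add_sum_erase _ _ hi] at h2
    rw [eq_neg_of_add_eq_zero_right h2, Valuation.map_neg] at h1
    exact lt_irrefl _ h1
  have hj0 : p.coeff j ≠ 0 := by rwa [mem_support_iff] at hj
  rcases lt_or_gt_of_ne hji with hlt | hlt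
  · exact ⟨j, i, hlt, le_natDegree_of_ne_zero hi0, hj0, hi0, hval⟩
  · exact ⟨i, j, hlt, le_natDegree_of_ne_zero hj0, hi0, hj0, hval.symm⟩

theorem exists_pow_val {x : C} (hx : x ≠ 0) (hint : IsIntegral k x) {n : ℕ}
    (hn : (minpoly k x).natDegree ≤ n) :
    ∃ α : k, α ≠ 0 ∧ v (x ^ n.factorial) = v (algebraMap k C α) := by
  obtain ⟨i, j, hij, hj, hi0, hj0, hval⟩ :=
    exists_pair v (minpoly.ne_zero hint) hx (minpoly.aeval k x)
  set p := minpoly k x
  have hdvd : (j - i) ∣ n.factorial := Nat.dvd_factorial (by omega) (by omega)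
  obtain ⟨m, hm⟩ := hdvd
  refine ⟨(p.coeff i / p.coeff j) ^ m, pow_ne_zero _ (div_ne_zero hi0 hj0), ?_⟩
  have hj0' : v (algebraMap k C (p.coeff j)) ≠ 0 := by simpa using hj0
  have hx0 : v x ≠ 0 := by simpa using hx
  have h1 : v (x ^ (j - i)) = v (algebraMap k C (p.coeff i / p.coeff j)) := by
    rw [map_mul, map_mul, map_pow, map_pow] at hval
    rw [map_div₀, map_div₀, map_pow]
    have h2 : v x ^ j = v x ^ (j - i) * v x ^ i := by rw [← pow_add]; congr 1; omega
    rw [h2] at hval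
    have h3 : v x ^ i ≠ 0 := pow_ne_zero _ hx0
    rw [eq_div_iff hj0']
    have h4 : v x ^ (j - i) * v (algebraMap k C (p.coeff j)) * v x ^ i =
        v (algebraMap k C (p.coeff i)) * v x ^ i := by
      rw [hval]; ac_rfl
    exact mul_right_cancel₀ h3 h4
  rw [hm, pow_mul, map_pow, h1, ← map_pow, ← map_pow (algebraMap k C)]

end Pair

section Cg

variable {C : Type u} [Field C] {Γ : Type*} [LinearOrderedCommGroupWithZero Γ]
  (v : Valuation C Γ)

/-- congruence modulo the maximal ideal, for elements of the valuation ring -/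
def Cg (x y : C) : Prop := v x ≤ 1 ∧ v y ≤ 1 ∧ v (x - y) < 1

variable {v}

theorem Cg.refl {x : C} (h : v x ≤ 1) : Cg v x x := ⟨h, h, by simp⟩

theorem Cg.symm {x y : C} (h : Cg v x y) : Cg v y x :=
  ⟨h.2.1, h.1, by rw [← Valuation.map_neg, neg_sub]; exact h.2.2⟩

theorem Cg.trans {x y z : C} (h : Cg v x y) (h' : Cg v y z) : Cg v x z :=
  ⟨h.1, h'.2.1, by
    have : x - z = (x - y) + (y - z) := by ring
    rw [this]; exact v.map_add_lt h.2.2 h'.2.2⟩

theorem Cg.mul {x y x' y' : C} (h : Cg v x y) (h' : Cg v x' y') : Cg v (x * x') (y * y') := by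
  refine ⟨by rw [map_mul]; exact mul_le_one' h.1 h'.1,
    by rw [map_mul]; exact mul_le_one' h.2.1 h'.2.1, ?_⟩
  have : x * x' - y * y' = x * (x' - y') + (x - y) * y' := by ring
  rw [this]
  refine v.map_add_lt ?_ ?_
  · rw [map_mul]; exact (mul_le_of_le_one_left' h.1).trans_lt h'.2.2
  · rw [map_mul]; exact (mul_le_of_le_one_right' h'.2.1).trans_lt h.2.2

theorem Cg.pow {x y : C} (h : Cg v x y) (n : ℕ) : Cg v (x ^ n) (y ^ n) := by
  induction n with
  | zero => simpa using Cg.refl (v := v) (x := (1 : C)) (by simp)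
  | succ n ih => rw [pow_succ, pow_succ]; exact ih.mul h

theorem Cg.unit {x y : C} (h : Cg v x y) (hy : v y = 1) : v x = 1 := by
  have h1 : x = (x - y) + y := by ring
  have h2 : v (x - y) < v y := by rw [hy]; exact h.2.2
  rw [h1, Valuation.map_add_eq_of_lt_right v h2, hy]

theorem Cg.inv {x y : C} (h : Cg v x y) (hy : v y = 1) : Cg v x⁻¹ y⁻¹ := by
  have hx := h.unit hy
  have hx0 : x ≠ 0 := by rintro rfl; simp at hx
  have hy0 : y ≠ 0 := by rintro rfl; simp at hy
  refine ⟨by rw [map_inv₀, hx, inv_one], by rw [map_inv₀, hy, inv_one], ?_⟩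
  have : x⁻¹ - y⁻¹ = - (x - y) * (x⁻¹ * y⁻¹) := by field_simp; ring
  rw [this, map_mul, Valuation.map_neg, map_mul, map_inv₀, map_inv₀, hx, hy]
  simpa using h.2.2

theorem Cg.div {x y x' y' : C} (h : Cg v x y) (h' : Cg v x' y') (hy' : v y' = 1) :
    Cg v (x / x') (y / y') := by
  rw [div_eq_mul_inv, div_eq_mul_inv]; exact h.mul (h'.inv hy')

end Cg

section Relation

variable {k C : Type u} [Field k] [Field C] [Algebra k C] [IsGalois k C]
  {O : ValuationSubring k} (Q : Ideal (integralClosure O C)) [hQ : Q.IsPrime]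

theorem Cg.mapD {σ : C ≃ₐ[k] C} (hσ : InD Q σ) {x y : C} (h : Cg (locW Q).valuation x y) :
    Cg (locW Q).valuation (σ x) (σ y) :=
  ⟨(val_le_one_D Q hσ x).2 h.1, (val_le_one_D Q hσ y).2 h.2.1, by
    rw [← map_sub]; exact (val_lt_one_D Q hσ _).2 h.2.2⟩

theorem cg_inertia {σ : C ≃ₐ[k] C} (hσ : InI Q σ) {x : C} (hx : (locW Q).valuation x ≤ 1) :
    Cg (locW Q).valuation (σ x) x :=
  ⟨(val_le_one_D Q hσ.1 x).2 hx, hx, val_inertia Q hσ hx⟩

/-- elements of the decomposition group preserve values -/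
theorem val_D {σ : C ≃ₐ[k] C} (hσ : InD Q σ) (x : C) :
    (locW Q).valuation (σ x) = (locW Q).valuation x := by
  by_cases hx : x = 0
  · rw [hx, map_zero]
  obtain ⟨α, hα, hval⟩ := exists_pow_val (locW Q).valuation hx
    (Algebra.IsIntegral.isIntegral (R := k) x) le_rfl
  set M := (minpoly k x).natDegree.factorial with hM
  have hM0 : M ≠ 0 := Nat.factorial_ne_zero _
  have hα' : algebraMap k C α ≠ 0 := by simpa using hα
  have hvα : (locW Q).valuation (algebraMap k C α) ≠ 0 := by simpa using hα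
  have h1 : (locW Q).valuation (x ^ M / algebraMap k C α) = 1 := by
    rw [map_div₀, hval, div_self hvα]
  have h2 := (val_eq_one_D Q hσ _).2 h1
  rw [map_div₀ σ, map_pow, AlgEquiv.commutes, map_div₀, div_eq_one_iff_eq hvα, ← hval, map_pow,
    map_pow] at h2
  exact (pow_left_inj₀ zero_le zero_le hM0).1 h2

variable [CharZero C] [IsAlgClosed C] (hres : ∀ n : ℕ, n ≠ 0 → (locW Q).valuation (n : C) = 1)

include hres in
/-- the ratio `τ u / u` is congruent to a root of unity -/
theorem exists_root_cong {τ : C ≃ₐ[k] C} (hτ : InI Q τ) {u : C} (hu : u ≠ 0) {n : ℕ}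
    (hn : (minpoly k u).natDegree ≤ n) :
    ∃ ζ : C, ζ ^ n.factorial = 1 ∧ Cg (locW Q).valuation (τ u / u) ζ := by
  obtain ⟨α, hα, hval⟩ := exists_pow_val (locW Q).valuation hu
    (Algebra.IsIntegral.isIntegral (R := k) u) hn
  set M := n.factorial with hM
  have hM0 : M ≠ 0 := Nat.factorial_ne_zero _
  have hα' : algebraMap k C α ≠ 0 := by simpa using hα
  have hvα : (locW Q).valuation (algebraMap k C α) ≠ 0 := by simpa using hα
  set e := u ^ M / algebraMap k C α with he
  have h1 : (locW Q).valuation e = 1 := by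
    rw [he, map_div₀, hval, div_self hvα]
  have he0 : e ≠ 0 := div_ne_zero (pow_ne_zero _ hu) hα'
  set ξ := τ u / u with hξ
  have hvξ : (locW Q).valuation ξ = 1 := by
    rw [hξ, map_div₀, val_D Q hτ.1, div_self (by simpa using hu)]
  have h2 : ξ ^ M = τ e / e := by
    rw [he, hξ, map_div₀, map_pow, AlgEquiv.commutes, div_pow, div_div_div_cancel_right₀ hα']
  have h3 : Cg (locW Q).valuation (ξ ^ M) 1 := by
    rw [h2]
    have := (cg_inertia Q hτ h1.le).div (Cg.refl h1.le) h1
    rwa [div_self he0] at this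
  have : NeZero M := ⟨hM0⟩
  obtain ⟨ζ0, hζ0⟩ := HasEnoughRootsOfUnity.exists_primitiveRoot C M
  have h4 := X_pow_sub_one_eq_prod (Nat.pos_of_ne_zero hM0) hζ0
  have h5 : ξ ^ M - 1 = ∏ ζ ∈ nthRootsFinset M (1 : C), (ξ - ζ) := by
    have := congrArg (eval ξ) h4
    simpa [eval_prod] using this
  by_contra hcon
  push Not at hcon
  have h6 : ∀ ζ ∈ nthRootsFinset M (1 : C), (locW Q).valuation (ξ - ζ) = 1 := by
    intro ζ hζ
    rw [mem_nthRootsFinset (Nat.pos_of_ne_zero hM0)] at hζ
    have hvζ : (locW Q).valuation ζ = 1 := by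
      have : (locW Q).valuation ζ ^ M = 1 := by rw [← map_pow, hζ, map_one]
      exact (pow_eq_one_iff_of_nonneg zero_le hM0).1 this
    have h7 := hcon ζ hζ
    refine le_antisymm ((Valuation.map_sub _ _ _).trans (max_le hvξ.le hvζ.le)) ?_
    by_contra hlt
    exact h7 ⟨hvξ.le, hvζ.le, not_le.1 hlt⟩
  have h8 := h3.2.2
  rw [h5, map_prod, Finset.prod_eq_one h6] at h8
  exact lt_irrefl _ h8

include hres in
/-- **Tame relation.** -/
theorem tame_relation {γ τ : C ≃ₐ[k] C} (hγ : InD Q γ) (hτ : InI Q τ)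
    (L : IntermediateField k C) [FiniteDimensional k L] [Normal k L] (N : ℕ) (hN : N ≠ 0) :
    ∃ a : ℕ, (∀ ζ : C, ζ ^ N = 1 → γ ζ = ζ ^ a) ∧
      ∀ z ∈ L, (γ * τ * γ⁻¹) z = (τ ^ a) z := by
  classical
  set n := Module.finrank k L with hn
  set M := n.factorial with hM
  have hM0 : M ≠ 0 := Nat.factorial_ne_zero _
  have hMN : M * N ≠ 0 := mul_ne_zero hM0 hN
  have : NeZero (M * N) := ⟨hMN⟩
  obtain ⟨ζ0, hζ0⟩ := HasEnoughRootsOfUnity.exists_primitiveRoot C (M * N)
  obtain ⟨a, -, ha⟩ : ∃ a < M * N, ζ0 ^ a = γ ζ0 := by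
    apply hζ0.eq_pow_of_pow_eq_one
    rw [← map_pow, hζ0.pow_eq_one, map_one]
  have hroot : ∀ ζ : C, ζ ^ (M * N) = 1 → γ ζ = ζ ^ a := by
    intro ζ hζ
    obtain ⟨b, -, rfl⟩ := hζ0.eq_pow_of_pow_eq_one hζ
    rw [map_pow, ← ha, ← pow_mul, ← pow_mul, mul_comm]
  refine ⟨a, fun ζ hζ => hroot ζ (by rw [mul_comm, pow_mul, hζ, one_pow]), ?_⟩
  have hdeg : ∀ u ∈ L, (minpoly k u).natDegree ≤ n := by
    intro u hu
    have h1 := minpoly.natDegree_le (A := k) (⟨u, hu⟩ : L)
    rwa [← minpoly.algHom_eq L.val L.val.injective] at h1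
  -- the two ratios
  have hratio : ∀ u ∈ L, u ≠ 0 →
      Cg (locW Q).valuation ((γ * τ * γ⁻¹) u / u) ((τ ^ a) u / u) := by
    intro u hu hu0
    obtain ⟨ζ, hζ, hcg⟩ := exists_root_cong Q hres hτ hu0 (hdeg u hu)
    have hvζ : (locW Q).valuation ζ = 1 := by
      have : (locW Q).valuation ζ ^ M = 1 := by rw [← map_pow, hζ, map_one]
      exact (pow_eq_one_iff_of_nonneg zero_le hM0).1 this
    -- second ratio
    have h2 : ∀ b : ℕ, Cg (locW Q).valuation ((τ ^ b) u / u) (ζ ^ b) := by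
      intro b
      induction b with
      | zero =>
        rw [pow_zero, pow_zero, AlgEquiv.one_apply, div_self hu0]
        exact Cg.refl (by simp)
      | succ b ih =>
        have h3 : (τ ^ (b + 1)) u / u = τ ((τ ^ b) u / u) * (τ u / u) := by
          have h5 : τ u ≠ 0 := by simpa using hu0
          rw [pow_succ', AlgEquiv.mul_apply, map_div₀]
          field_simp
        rw [h3, pow_succ]
        have h4 : Cg (locW Q).valuation (τ ((τ ^ b) u / u)) (ζ ^ b) :=
          (cg_inertia Q hτ ih.1).trans ih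
        exact h4.mul hcg
    -- first ratio
    set u' := γ⁻¹ u with hu'
    have hu'0 : u' ≠ 0 := by simpa [hu'] using hu0
    set f := u' / u with hf
    have hvf : (locW Q).valuation f = 1 := by
      rw [hf, map_div₀, hu', val_D Q hγ.inv, div_self (by simpa using hu0)]
    have hf0 : f ≠ 0 := div_ne_zero hu'0 hu0
    have h5 : τ u' / u' = (τ f / f) * (τ u / u) := by
      have h6 : u' = f * u := by rw [hf]; field_simp
      rw [h6, map_mul]; field_simp
    have h6 : Cg (locW Q).valuation (τ u' / u') ζ := by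
      rw [h5]
      have h7 : Cg (locW Q).valuation (τ f / f) 1 := by
        have := (cg_inertia Q hτ hvf.le).div (Cg.refl hvf.le) hvf
        rwa [div_self hf0] at this
      simpa using h7.mul hcg
    have h7 : (γ * τ * γ⁻¹) u / u = γ (τ u' / u') := by
      rw [AlgEquiv.mul_apply, AlgEquiv.mul_apply, map_div₀]
      congr 1
      rw [hu']
      change u = (γ * γ⁻¹) u
      rw [mul_inv_cancel]; rfl
    rw [h7]
    have h8 : Cg (locW Q).valuation (γ (τ u' / u')) (γ ζ) := h6.mapD Q hγ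
    rw [hroot ζ (by rw [pow_mul, hζ, one_pow])] at h8
    exact h8.trans (h2 a).symm
  -- the quotient automorphism
  set σ : C ≃ₐ[k] C := (τ ^ a)⁻¹ * (γ * τ * γ⁻¹) with hσ
  have hσI : InI Q σ := (hτ.pow a).inv.mul (hτ.conj hγ)
  clear_value σ
  have hσL : ∀ (ρ : C ≃ₐ[k] C), ∀ z ∈ L, ρ z ∈ L := by
    intro ρ z hz
    exact (IntermediateField.normal_iff_forall_map_le.1 ‹Normal k L› (ρ : C →ₐ[k] C))
      ⟨z, hz, rfl⟩
  have hσ1 : ∀ u ∈ L, u ≠ 0 → Cg (locW Q).valuation (σ u / u) 1 := by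
    intro u hu hu0
    have h1 := hratio u hu hu0
    set x := (γ * τ * γ⁻¹) u / u with hx
    set y := (τ ^ a) u / u with hy
    clear_value x y
    have hvy : (locW Q).valuation y = 1 := by
      rw [hy, map_div₀, val_D Q (hτ.pow a).1, div_self (by simpa using hu0)]
    have hy0 : y ≠ 0 := by
      intro h0; rw [h0, map_zero] at hvy; exact zero_ne_one hvy
    have h2 : σ u / u = (τ ^ a)⁻¹ (x / y) := by
      have h3 : (γ * τ * γ⁻¹) u = x * u := by rw [hx]; field_simp
      have h4 : (τ ^ a) u = y * u := by rw [hy]; field_simp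
      have h5 : (τ ^ a)⁻¹ (y * u) = u := by
        rw [← h4]
        change ((τ ^ a)⁻¹ * (τ ^ a)) u = u
        rw [inv_mul_cancel]; rfl
      rw [map_mul] at h5
      have h6 : (τ ^ a)⁻¹ y ≠ 0 := by simpa using hy0
      rw [hσ, AlgEquiv.mul_apply, h3, map_mul, map_div₀]
      rw [div_eq_div_iff hu0 h6]
      calc (τ ^ a)⁻¹ x * (τ ^ a)⁻¹ u * (τ ^ a)⁻¹ y
          = (τ ^ a)⁻¹ x * ((τ ^ a)⁻¹ y * (τ ^ a)⁻¹ u) := by ring
        _ = _ := by rw [h5]
    rw [h2]
    have h3 : Cg (locW Q).valuation (x / y) 1 := by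
      have := h1.div (Cg.refl hvy.le) hvy
      rwa [div_self hy0] at this
    have h4 := h3.mapD Q (hτ.pow a).1.inv
    rwa [map_one] at h4
  -- iterate
  have hiter : ∀ u ∈ L, u ≠ 0 → ∀ i : ℕ, Cg (locW Q).valuation ((σ ^ i) u / u) 1 := by
    intro u hu hu0 i
    induction i with
    | zero =>
      rw [pow_zero, AlgEquiv.one_apply, div_self hu0]; exact Cg.refl (by simp)
    | succ i ih =>
      have h5 : σ u ≠ 0 := by simpa using hu0
      have h3 : (σ ^ (i + 1)) u / u = σ ((σ ^ i) u / u) * (σ u / u) := by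
        rw [pow_succ', AlgEquiv.mul_apply, map_div₀]
        field_simp
      rw [h3]
      have h4 := (ih.mapD Q hσI.1)
      rw [map_one] at h4
      simpa using h4.mul (hσ1 u hu hu0)
  -- `σ` is trivial on `L`
  have hσtriv : ∀ u ∈ L, σ u = u := by
    intro u hu
    obtain ⟨m, hm0, hm⟩ : ∃ m : ℕ, m ≠ 0 ∧ (σ ^ m) u = u := by
      have hfin : Set.Finite (Set.range fun i : ℕ => (σ ^ i) u) := by
        refine (rootSet_finite (minpoly k u) C).subset ?_
        rintro _ ⟨i, rfl⟩
        rw [mem_rootSet]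
        refine ⟨minpoly.ne_zero (Algebra.IsIntegral.isIntegral u), ?_⟩
        have := minpoly.aeval k u
        change aeval ((σ ^ i : C ≃ₐ[k] C) u) (minpoly k u) = 0
        rw [← AlgEquiv.coe_toAlgHom, aeval_algHom_apply, this, map_zero]
      obtain ⟨i, j, hij, heq⟩ : ∃ i j : ℕ, i < j ∧ (σ ^ i) u = (σ ^ j) u := by
        have hninj : ¬ Function.Injective (fun i : ℕ => (σ ^ i) u) := fun hinj =>
          (Set.infinite_range_of_injective hinj) hfin
        rw [Function.not_injective_iff] at hninj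
        obtain ⟨i, j, h1, h2⟩ := hninj
        rcases lt_or_gt_of_ne h2 with h3 | h3
        · exact ⟨i, j, h3, h1⟩
        · exact ⟨j, i, h3, h1.symm⟩
      refine ⟨j - i, by omega, ?_⟩
      have h1 : σ ^ j = σ ^ i * σ ^ (j - i) := by rw [← pow_add]; congr 1; omega
      rw [h1, AlgEquiv.mul_apply] at heq
      exact ((σ ^ i).injective heq).symm
    set S := ∑ i ∈ Finset.range m, (σ ^ i) u with hS
    have hσS : σ S = S := by
      rw [hS, map_sum]
      have h1 : ∀ i, σ ((σ ^ i) u) = (σ ^ (i + 1)) u := fun i => by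
        rw [pow_succ', AlgEquiv.mul_apply]
      simp_rw [h1]
      have h2 := Finset.sum_range_succ' (fun i => (σ ^ i) u) m
      have h3 := Finset.sum_range_succ (fun i => (σ ^ i) u) m
      rw [hm] at h3
      rw [h3, pow_zero, AlgEquiv.one_apply] at h2
      exact (add_right_cancel h2).symm
    have hSL : S ∈ L := by
      rw [hS]; exact L.sum_mem fun i _ => hσL _ u hu
    have hmC : (m : C) ≠ 0 := by exact_mod_cast hm0
    set z := u - (m : C)⁻¹ * S with hz
    have hzL : z ∈ L := L.sub_mem hu (L.mul_mem (L.inv_mem (L.natCast_mem m)) hSL)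
    have hσiS : ∀ i, (σ ^ i) S = S := by
      intro i
      induction i with
      | zero => rw [pow_zero, AlgEquiv.one_apply]
      | succ i ih => rw [pow_succ', AlgEquiv.mul_apply, ih, hσS]
    have hsum : ∑ i ∈ Finset.range m, (σ ^ i) z = 0 := by
      have h1 : ∀ i, (σ ^ i) z = (σ ^ i) u - (m : C)⁻¹ * S := fun i => by
        rw [hz, map_sub, map_mul, hσiS, map_inv₀, map_natCast]
      simp_rw [h1]
      rw [Finset.sum_sub_distrib, ← hS, Finset.sum_const, Finset.card_range, nsmul_eq_mul,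
        ← mul_assoc, mul_inv_cancel₀ hmC, one_mul, sub_self]
    have hz0 : z = 0 := by
      by_contra hz0
      have h1 : ∑ i ∈ Finset.range m, ((σ ^ i) z / z - 1) = -(m : C) := by
        rw [Finset.sum_sub_distrib, ← Finset.sum_div, hsum]; simp
      have h2 : (locW Q).valuation (∑ i ∈ Finset.range m, ((σ ^ i) z / z - 1)) < 1 :=
        Valuation.map_sum_lt' _ zero_lt_one fun i _ => (hiter z hzL hz0 i).2.2
      rw [h1, Valuation.map_neg, hres m hm0] at h2
      exact lt_irrefl _ h2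
    have h1 : u = (m : C)⁻¹ * S := sub_eq_zero.1 hz0
    rw [h1, map_mul, hσS, map_inv₀, map_natCast]
  intro z hz
  have h1 := hσtriv z hz
  rw [hσ, AlgEquiv.mul_apply] at h1
  have h2 := congrArg (τ ^ a) h1
  have h3 : (τ ^ a) ((τ ^ a)⁻¹ ((γ * τ * γ⁻¹) z)) = (γ * τ * γ⁻¹) z := by
    change (τ ^ a * (τ ^ a)⁻¹) _ = _
    rw [mul_inv_cancel]; rfl
  rw [← h3]; exact h2

end Relation

end Pool.Agent.Helper91.Sect
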