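import Pool.Agent.Helper91.Section.Basic
import Pool.Agent.Helper91.Section.Coeff
import Pool.Agent.Helper91.Section.Tame2

/-!
# Square roots of products of two linear forms are unramified
-/

universe u

namespace Pool.Agent.Helper91.Sect

open Polynomial

section Quad

variable {k K : Type u} [Field k] [Field K] [Algebra k K]

theorem const_val_le {W : ValuationSubring (AlgebraicClosure K)}
    (hW : ∀ c : k, algebraMap k (AlgebraicClosure K) c ∈ W) {z : AlgebraicClosure K}
    (hz : IsAlgebraic k z) : W.valuation z ≤ 1 := (W.valuation_le_one_iff _).2 (const_mem hW hz)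

/-- at a finite place, only one of the linear forms can be small -/
theorem val_other {W : ValuationSubring (AlgebraicClosure K)}
    (hW : ∀ c : k, algebraMap k (AlgebraicClosure K) c ∈ W) {x r r' : AlgebraicClosure K}
    (hr : IsAlgebraic k r) (hr' : IsAlgebraic k r') (hne : r' ≠ r)
    (h : W.valuation (x - r) < 1) : W.valuation (x - r') = 1 := by
  have h1 : x - r' = (x - r) + (r - r') := by ring
  have h2 : W.valuation (r - r') = 1 :=
    const_val_eq_one hW (hr.sub hr') (sub_ne_zero.2 hne.symm)
  rw [h1, Valuation.map_add_eq_of_lt_right _ (by rw [h2]; exact h), h2]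

theorem pair_mem_Kur {x y : K} {a₀ c₀ : AlgebraicClosure K}
    (ha₀ : IsAlgebraic k a₀) (ha₀' : a₀ ≠ 0) (hc₀ : IsAlgebraic k c₀) (hc₀' : c₀ ≠ 0)
    {R : Finset (AlgebraicClosure K)} (hR : ∀ r ∈ R, IsAlgebraic k r)
    (heq : c₀ * (algebraMap K (AlgebraicClosure K) y) ^ 2 =
      a₀ * ∏ r ∈ R, (algebraMap K (AlgebraicClosure K) x - r))
    {r r' : AlgebraicClosure K} (hr : r ∈ R) (hr' : r' ∈ R) (hne : r' ≠ r)
    {u : AlgebraicClosure K}
    (hu : u ^ 2 = (algebraMap K (AlgebraicClosure K) x - r) *
      (algebraMap K (AlgebraicClosure K) x - r')) : u ∈ Kur k K := by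
  classical
  intro W hW σ hσ
  set X := algebraMap K (AlgebraicClosure K) x with hX
  set Y := algebraMap K (AlgebraicClosure K) y with hY
  have hσX : σ X = X := σ.commutes x
  have hσY : σ Y = Y := σ.commutes y
  have hra := hR r hr
  have hra' := hR r' hr'
  have hσu : σ (u ^ 2) = u ^ 2 := by
    rw [hu, map_mul, map_sub, map_sub, hσX, inertia_const hW hσ hra, inertia_const hW hσ hra']
  have hsq : ∀ {b : AlgebraicClosure K}, W.valuation u ^ 2 = W.valuation b ^ 2 →
      W.valuation u = W.valuation b := fun {b} h => (pow_left_inj₀ zero_le zero_le two_ne_zero).1 h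
  have hvu : W.valuation u ^ 2 = W.valuation (X - r) * W.valuation (X - r') := by
    rw [← map_pow, hu, map_mul]
  rcases lt_or_ge 1 (W.valuation X) with hx | hx
  · have h1 : ∀ {r : AlgebraicClosure K}, IsAlgebraic k r →
        W.valuation (X - r) = W.valuation X := fun {r} hr =>
      Valuation.map_sub_eq_of_lt_left _ ((const_val_le hW hr).trans_lt hx)
    refine unit_crit hW hσ hσX (hsq ?_) two_pos hσu
    rw [hvu, h1 hra, h1 hra', pow_two]
  have hle : ∀ {r : AlgebraicClosure K}, IsAlgebraic k r → W.valuation (X - r) ≤ 1 :=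
    fun {r} hr => (Valuation.map_sub _ _ _).trans (max_le hx (const_val_le hW hr))
  -- the value of `Y` when one form is small
  have hvY : ∀ s ∈ R, W.valuation (X - s) < 1 → W.valuation Y ^ 2 = W.valuation (X - s) := by
    intro s hs hlt
    have h1 := congrArg W.valuation heq
    rw [map_mul, map_mul, map_pow, const_val_eq_one hW hc₀ hc₀', const_val_eq_one hW ha₀ ha₀',
      one_mul, one_mul, map_prod, ← Finset.mul_prod_erase R _ hs] at h1
    rw [h1, Finset.prod_eq_one, mul_one]
    intro s' hs'
    exact val_other hW (hR s hs) (hR s' (Finset.mem_of_mem_erase hs'))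
      (Finset.ne_of_mem_erase hs') hlt
  rcases (hle hra).lt_or_eq with h1 | h1
  · have h2 := val_other hW hra hra' hne h1
    refine unit_crit hW hσ hσY (hsq ?_) two_pos hσu
    rw [hvu, h2, mul_one, hvY r hr h1]
  · rcases (hle hra').lt_or_eq with h2 | h2
    · refine unit_crit hW hσ hσY (hsq ?_) two_pos hσu
      rw [hvu, h1, one_mul, hvY r' hr' h2]
    · refine unit_crit hW hσ (map_one σ) (hsq ?_) two_pos hσu
      rw [hvu, h1, h2, map_one, one_pow, one_mul]

end Quad

section Tame

variable {k K : Type u} [Field k] [Field K] [Algebra k K] [CharZero k]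

instance instGalKbar : IsGalois k (kbar k K) := by
  have : IsAlgClosure k (kbar k K) := inferInstance
  exact IsAlgClosure.isGalois k (kbar k K)

instance instAlgClosedKbar : IsAlgClosed (kbar k K) :=
  (inferInstance : IsAlgClosure k (kbar k K)).isAlgClosed

instance instCharZeroKbar : CharZero (kbar k K) :=
  charZero_of_injective_algebraMap (algebraMap k (kbar k K)).injective

/-- Ideals of the integral closure of the valuation ring `O` in a field `C`. -/
abbrev IC {k : Type u} [Field k] (O : ValuationSubring k) (C : Type u) [Field C] [Algebra k C] :=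
  Ideal (integralClosure O C)

/-- The tame relation transported through a section. -/
theorem section_tame (s : GaloisSection k K) {O : ValuationSubring k}
    (Q : IC O (kbar k K)) [hQ : Q.IsPrime]
    (hres : ∀ n : ℕ, n ≠ 0 → (locW Q).valuation (n : kbar k K) = 1)
    {γ τ : Gk k K} (hγ : InD Q γ) (hτ : InI Q τ) (w : Kur k K) (N : ℕ) (hN : N ≠ 0) :
    ∃ a : ℕ, (∀ ζ : kbar k K, ζ ^ N = 1 → γ ζ = ζ ^ a) ∧
      s.toHom (γ * τ * γ⁻¹) w = (s.toHom τ ^ a) w := by
  obtain ⟨L, hL, hfix⟩ := exists_finite_level s w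
  set L' := IntermediateField.normalClosure k L (kbar k K) with hL'
  have hle : L ≤ L' := IntermediateField.le_normalClosure L
  have hfd : FiniteDimensional k L' := normalClosure.is_finiteDimensional k L (kbar k K)
  have hnorm : Normal k L' := normalClosure.normal k L (kbar k K)
  obtain ⟨a, ha1, ha2⟩ := tame_relation Q hres hγ hτ L' N hN
  refine ⟨a, ha1, ?_⟩
  set σ := (τ ^ a)⁻¹ * (γ * τ * γ⁻¹) with hσ
  have hσL : σ ∈ L.fixingSubgroup := by
    rw [IntermediateField.mem_fixingSubgroup_iff]
    intro z hz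
    have h1 := ha2 z (hle hz)
    rw [hσ]
    change (τ ^ a)⁻¹ ((γ * τ * γ⁻¹) z) = z
    rw [h1]
    change ((τ ^ a)⁻¹ * (τ ^ a)) z = z
    rw [inv_mul_cancel]; rfl
  have h2 : γ * τ * γ⁻¹ = τ ^ a * σ := by rw [hσ, mul_inv_cancel_left]
  rw [h2, map_mul, map_pow]
  change (s.toHom τ ^ a) (s.toHom σ w) = _
  rw [hfix σ hσL]

end Tame

end Pool.Agent.Helper91.Sect
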