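import Pool.Agent.Helper91.Section.Val

/-!
# Decomposition and inertia

Transitivity and lifting of residue automorphisms for closed subgroups of an (infinite) Galois
group, in the elementwise form in which they are used.
-/

universe u

namespace Pool.Agent.Helper91.Sect

open scoped Pointwise

section Abstract

variable {A B : Type*} [CommRing A] [CommRing B] [Algebra A B]
variable {G : Type u} [Group G] [MulSemiringAction G B] [SMulCommClass G A B]
variable [TopologicalSpace G] [CompactSpace G] [TotallyDisconnectedSpace G]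
variable [IsTopologicalGroup G] [TopologicalSpace B] [DiscreteTopology B] [ContinuousSMul G B]

include A in
theorem conj_abstract (P Q : Ideal B) [P.IsPrime] [Q.IsPrime]
    (h : ∀ b : B, (∀ σ : G, σ • b = b) → (b ∈ P ↔ b ∈ Q)) : ∃ g : G, Q = g • P := by
  let A' := FixedPoints.subalgebra A B G
  have h1 : Algebra.IsInvariant A' B G := ⟨fun b hb => ⟨⟨b, hb⟩, rfl⟩⟩
  have h2 : SMulCommClass G A' B := ⟨fun σ a b => by
    change σ • ((a : B) * b) = (a : B) * (σ • b)
    rw [smul_mul']
    congr 1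
    exact a.2 σ⟩
  have hPQ : P.under A' = Q.under A' := by
    ext a
    exact h (a : B) (fun σ => a.2 σ)
  exact Algebra.IsInvariant.exists_smul_of_under_eq_of_profinite (A := A') (G := G) P Q hPQ

include A in
theorem lift_abstract (Q : Ideal B) [Q.IsPrime] (φ : (B ⧸ Q) ≃+* (B ⧸ Q))
    (h : ∀ b : B, (∀ σ : G, σ • b = b) →
      φ (Ideal.Quotient.mk Q b) = Ideal.Quotient.mk Q b) :
    ∃ g : G, g • Q = Q ∧ ∀ b : B, Ideal.Quotient.mk Q (g • b) = φ (Ideal.Quotient.mk Q b) := by
  let A' := FixedPoints.subalgebra A B G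
  have h1 : Algebra.IsInvariant A' B G := ⟨fun b hb => ⟨⟨b, hb⟩, rfl⟩⟩
  have h2 : SMulCommClass G A' B := ⟨fun σ a b => by
    change σ • ((a : B) * b) = (a : B) * (σ • b)
    rw [smul_mul']
    congr 1
    exact a.2 σ⟩
  let P' : Ideal A' := Q.under A'
  have h3 : Q.LiesOver P' := ⟨rfl⟩
  let φ' : (B ⧸ Q) ≃ₐ[A' ⧸ P'] (B ⧸ Q) :=
    AlgEquiv.ofRingEquiv (f := φ) (by
      intro x
      obtain ⟨a, rfl⟩ := Ideal.Quotient.mk_surjective x
      exact h (a : B) (fun σ => a.2 σ))
  obtain ⟨g, hg⟩ := Ideal.Quotient.stabilizerHom_surjective_of_profinite (G := G) P' Q φ'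
  refine ⟨g.1, g.2, fun b => ?_⟩
  exact congrArg (fun ψ : (B ⧸ Q) ≃ₐ[A' ⧸ P'] _ => ψ (Ideal.Quotient.mk Q b)) hg

end Abstract

section Decomp

variable {k C : Type u} [Field k] [Field C] [Algebra k C] [IsGalois k C] {O : ValuationSubring k}

theorem coe_smulB (σ : C ≃ₐ[k] C) (b : integralClosure O C) :
    ((σ • b : integralClosure O C) : C) = σ b := rfl

omit [IsGalois k C] in
theorem contSMul [Algebra.IsAlgebraic k C] (H : Subgroup (C ≃ₐ[k] C)) :
    letI : TopologicalSpace (integralClosure O C) := ⊥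
    ContinuousSMul H (integralClosure O C) := by
  let t : TopologicalSpace (integralClosure O C) := ⊥
  have h0 : DiscreteTopology (integralClosure O C) := ⟨rfl⟩
  rw [continuousSMul_iff_stabilizer_isOpen]
  intro b
  have h1 := stabilizer_isOpen_of_isIntegral (K := k) (L := C) (b : C)
  have h2 : IsOpen ((fun σ : H => (σ : C ≃ₐ[k] C)) ⁻¹'
    (MulAction.stabilizer (C ≃ₐ[k] C) (b : C) : Set (C ≃ₐ[k] C))) :=
    h1.preimage continuous_subtype_val
  convert h2 using 1
  ext σ
  simp only [SetLike.mem_coe, MulAction.mem_stabilizer_iff, Set.mem_preimage]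
  constructor
  · intro h; exact congrArg Subtype.val h
  · intro h; exact Subtype.ext h

section closed

variable (H : Subgroup (C ≃ₐ[k] C)) (hH : IsClosed (H : Set (C ≃ₐ[k] C)))

include hH in
/-- `H` acts transitively on the primes with the same trace on the `H`-invariants. -/
theorem exists_conj (P Q : Ideal (integralClosure O C)) [P.IsPrime] [Q.IsPrime]
    (h : ∀ b : integralClosure O C, (∀ σ ∈ H, σ • b = b) → (b ∈ P ↔ b ∈ Q)) :
    ∃ σ ∈ H, ∀ b : integralClosure O C, σ • b ∈ Q ↔ b ∈ P := by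
  have h0 : CompactSpace H := isCompact_iff_compactSpace.1 hH.isCompact
  let t : TopologicalSpace (integralClosure O C) := ⊥
  have h1 : DiscreteTopology (integralClosure O C) := ⟨rfl⟩
  have h2 : ContinuousSMul H (integralClosure O C) := contSMul H
  obtain ⟨g, hg⟩ := conj_abstract (A := O) (G := H) P Q (fun b hb => h b fun σ hσ => hb ⟨σ, hσ⟩)
  refine ⟨g, g.2, fun b => ?_⟩
  rw [hg]
  exact Ideal.smul_mem_pointwise_smul_iff

include hH in
/-- Every automorphism of `B/Q` trivial on the classes of `H`-invariants lifts to `H`. -/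
theorem exists_lift (Q : Ideal (integralClosure O C)) [Q.IsPrime]
    (φ : (integralClosure O C ⧸ Q) ≃+* (integralClosure O C ⧸ Q))
    (h : ∀ b : integralClosure O C, (∀ σ ∈ H, σ • b = b) →
      φ (Ideal.Quotient.mk Q b) = Ideal.Quotient.mk Q b) :
    ∃ σ ∈ H, (∀ b : integralClosure O C, σ • b ∈ Q ↔ b ∈ Q) ∧
      ∀ b : integralClosure O C, Ideal.Quotient.mk Q (σ • b) = φ (Ideal.Quotient.mk Q b) := by
  have h0 : CompactSpace H := isCompact_iff_compactSpace.1 hH.isCompact
  let t : TopologicalSpace (integralClosure O C) := ⊥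
  have h1 : DiscreteTopology (integralClosure O C) := ⟨rfl⟩
  have h2 : ContinuousSMul H (integralClosure O C) := contSMul H
  obtain ⟨g, hg, hg2⟩ := lift_abstract (A := O) (G := H) Q φ
    (fun b hb => h b fun σ hσ => hb ⟨σ, hσ⟩)
  refine ⟨g, g.2, fun b => ?_, fun b => hg2 b⟩
  conv_lhs => rw [← hg]
  exact Ideal.smul_mem_pointwise_smul_iff

end closed

variable (Q : Ideal (integralClosure O C)) [hQ : Q.IsPrime]

/-- elements of the decomposition group of `Q` preserve the valuation ring -/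
theorem stab_locW {σ : C ≃ₐ[k] C} (hσ : ∀ b : integralClosure O C, σ • b ∈ Q ↔ b ∈ Q) (z : C) :
    σ z ∈ locW Q ↔ z ∈ locW Q := by
  have key : ∀ τ : C ≃ₐ[k] C, (∀ b : integralClosure O C, τ • b ∈ Q ↔ b ∈ Q) →
      ∀ z, z ∈ locW Q → τ z ∈ locW Q := by
    rintro τ hτ z ⟨s, hs, hint⟩
    refine ⟨τ • s, fun h => hs ((hτ s).1 h), ?_⟩
    have h1 : ((τ • s : integralClosure O C) : C) * τ z = τ (s * z) := by
      rw [coe_smulB, map_mul]
    rw [h1]
    exact (τ • (⟨_, hint⟩ : integralClosure O C)).2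
  refine ⟨fun h => ?_, key σ hσ z⟩
  have h2 := key σ⁻¹ (fun b => by
    rw [← hσ (σ⁻¹ • b), smul_inv_smul]) _ h
  have h3 : (σ⁻¹) (σ z) = z := by
    change (σ⁻¹ * σ) z = z
    rw [inv_mul_cancel]; rfl
  rwa [h3] at h2

theorem inertia_locW {σ : C ≃ₐ[k] C} (hσ : ∀ b : integralClosure O C, σ • b ∈ Q ↔ b ∈ Q)
    (hσ2 : ∀ b : integralClosure O C, σ • b - b ∈ Q) {z : C} (hz : z ∈ locW Q) :
    (locW Q).valuation (σ z - z) < 1 := by
  obtain ⟨s, hs, hint⟩ := hz
  set b : integralClosure O C := ⟨_, hint⟩ with hb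
  have hs' : σ • s ∉ Q := fun h => hs ((hσ s).1 h)
  have h1 : s * (σ • b) - (σ • s) * b ∈ Q := by
    have h2 : s * (σ • b) - (σ • s) * b = s * (σ • b - b) - (σ • s - s) * b := by ring
    rw [h2]
    exact Q.sub_mem (Q.mul_mem_left _ (hσ2 b)) (Q.mul_mem_right _ (hσ2 s))
  have h3 := (val_coe_lt_one_iff Q _).2 h1
  have hs0 : (s : C) ≠ 0 := by
    intro h0
    exact hs (by rw [show s = 0 from Subtype.ext h0]; exact Q.zero_mem)
  have h4 : ((s * (σ • b) - (σ • s) * b : integralClosure O C) : C)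
      = (s : C) * (σ • s : integralClosure O C) * (σ z - z) := by
    push_cast
    rw [coe_smulB, coe_smulB, hb]
    change (s : C) * σ (s * z) - σ s * (s * z) = _
    rw [map_mul]; ring
  rw [h4, map_mul, map_mul] at h3
  have h5 : (locW Q).valuation (s : C) = 1 := by
    refine le_antisymm (((locW Q).valuation_le_one_iff _).2 (coe_mem_locW Q s)) ?_
    by_contra hlt
    exact hs ((val_coe_lt_one_iff Q s).1 (not_le.1 hlt))
  have h6 : (locW Q).valuation ((σ • s : integralClosure O C) : C) = 1 := by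
    refine le_antisymm (((locW Q).valuation_le_one_iff _).2 (coe_mem_locW Q _)) ?_
    by_contra hlt
    exact hs' ((val_coe_lt_one_iff Q _).1 (not_le.1 hlt))
  rwa [h5, h6, one_mul, one_mul] at h3

end Decomp

end Pool.Agent.Helper91.Sect
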