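import Pool.Agent.Helper91.Section.Quad

/-!
# Characters of tame inertia are invariant under the decomposition group
-/

universe u

namespace Pool.Agent.Helper91.Sect

section

variable {k K : Type u} [Field k] [Field K] [Algebra k K]

/-- the constants inside `Kur` -/
def toKur (k K : Type u) [Field k] [Field K] [Algebra k K] : kbar k K →+* Kur k K where
  toFun z := ⟨z, kbar_mem_Kur z⟩
  map_one' := rfl
  map_mul' _ _ := rfl
  map_zero' := rfl
  map_add' _ _ := rfl

theorem coe_toKur (z : kbar k K) : (toKur k K z : AlgebraicClosure K) = z := rfl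

theorem section_toKur (s : GaloisSection k K) (σ : Gk k K) (z : kbar k K) :
    s.toHom σ (toKur k K z) = toKur k K (σ z) :=
  Subtype.ext (s.isSection σ z (toKur k K z) rfl)

variable [CharZero k]

theorem section_inv (s : GaloisSection k K) {O : ValuationSubring k}
    (Q : IC O (kbar k K)) [hQ : Q.IsPrime]
    (hres : ∀ n : ℕ, n ≠ 0 → (locW Q).valuation (n : kbar k K) = 1)
    {γ τ : Gk k K} (hγ : InD Q γ) (hτ : InI Q τ) {w : Kur k K} {ζ : kbar k K} {N : ℕ}
    (hN : N ≠ 0) (hζ : ζ ^ N = 1) (hτζ : τ ζ = ζ)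
    (hw : s.toHom τ w = toKur k K ζ * w) :
    s.toHom τ (s.toHom γ w) = toKur k K ζ * s.toHom γ w := by
  obtain ⟨a, ha1, ha2⟩ := section_tame s Q hres hγ.inv hτ w N hN
  have h1 : ∀ i : ℕ, (s.toHom τ ^ i) w = toKur k K (ζ ^ i) * w := by
    intro i
    induction i with
    | zero => rw [pow_zero, pow_zero, map_one, one_mul]; rfl
    | succ i ih =>
      rw [pow_succ', AlgEquiv.mul_apply, ih, map_mul, section_toKur, hw, map_pow τ, hτζ, pow_succ,
        map_mul, mul_assoc]
  rw [h1, map_mul, map_mul, AlgEquiv.mul_apply, AlgEquiv.mul_apply, inv_inv] at ha2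
  have h2 := congrArg (s.toHom γ) ha2
  rw [map_mul (s.toHom γ), section_toKur, ← AlgEquiv.mul_apply, ← map_mul s.toHom,
    mul_inv_cancel, map_one, AlgEquiv.one_apply, ← ha1 ζ hζ] at h2
  rw [h2]
  congr 2
  change (γ * γ⁻¹) ζ = ζ
  rw [mul_inv_cancel]; rfl

end

end Pool.Agent.Helper91.Sect
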