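import Pool.Agent.Helper91.Section.FinPlace2

/-!
# Places with finite residue field on finitely generated fields of arbitrary characteristic
-/

universe u

namespace Pool.Agent.Helper91.Sect

open Polynomial

section Transc

variable {K M L : Type u} [Field K] [Field M] [Field L] [Algebra K M] [Algebra K L] {x : L} {c : M}

/-- `z` takes the value `w` at the point `c` of the line -/
def ValAtM (K : Type u) [Field K] [Algebra K M] [Algebra K L] (x : L) (c : M) (z : L) (w : M) :
    Prop :=
  ∃ P Q : K[X], aeval c Q ≠ 0 ∧ z * aeval x Q = aeval x P ∧ w * aeval c Q = aeval c P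

theorem ValAtM.unique (hx : Transcendental K x) {z : L} {w w' : M} (h : ValAtM K x c z w)
    (h' : ValAtM K x c z w') : w = w' := by
  obtain ⟨P, Q, hQ, hz, hw⟩ := h
  obtain ⟨P', Q', hQ', hz', hw'⟩ := h'
  have h1 : aeval x (P * Q') = aeval x (P' * Q) := by
    rw [map_mul, map_mul, ← hz, ← hz']; ring
  have h2 : P * Q' = P' * Q := by
    by_contra hne
    apply hx
    exact ⟨P * Q' - P' * Q, sub_ne_zero.2 hne, by rw [map_sub, h1, sub_self]⟩
  have h3 := congrArg (aeval c) h2
  rw [map_mul, map_mul, ← hw, ← hw'] at h3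
  have h4 : w * (aeval c Q * aeval c Q') = w' * (aeval c Q * aeval c Q') := by
    linear_combination h3
  exact mul_right_cancel₀ (mul_ne_zero hQ hQ') h4

theorem ValAtM.add {z z' : L} {w w' : M} (h : ValAtM K x c z w) (h' : ValAtM K x c z' w') :
    ValAtM K x c (z + z') (w + w') := by
  obtain ⟨P, Q, hQ, hz, hw⟩ := h
  obtain ⟨P', Q', hQ', hz', hw'⟩ := h'
  refine ⟨P * Q' + P' * Q, Q * Q', by rw [map_mul]; exact mul_ne_zero hQ hQ', ?_, ?_⟩
  · rw [map_add, map_mul, map_mul, map_mul, ← hz, ← hz']; ring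
  · rw [map_add, map_mul, map_mul, map_mul, ← hw, ← hw']; ring

theorem ValAtM.mul {z z' : L} {w w' : M} (h : ValAtM K x c z w) (h' : ValAtM K x c z' w') :
    ValAtM K x c (z * z') (w * w') := by
  obtain ⟨P, Q, hQ, hz, hw⟩ := h
  obtain ⟨P', Q', hQ', hz', hw'⟩ := h'
  refine ⟨P * P', Q * Q', by rw [map_mul]; exact mul_ne_zero hQ hQ', ?_, ?_⟩
  · rw [map_mul, map_mul, ← hz, ← hz']; ring
  · rw [map_mul, map_mul, ← hw, ← hw']; ring

theorem ValAtM.const (a : K) : ValAtM K x c (algebraMap K L a) (algebraMap K M a) :=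
  ⟨C a, 1, by simp, by simp, by simp⟩

theorem ValAtM.one : ValAtM K x c (1 : L) (1 : M) := by
  simpa using ValAtM.const (K := K) (x := x) (c := c) (1 : K)

theorem ValAtM.zero : ValAtM K x c (0 : L) (0 : M) := by
  simpa using ValAtM.const (K := K) (x := x) (c := c) (0 : K)

theorem ValAtM.neg {z : L} {w : M} (h : ValAtM K x c z w) : ValAtM K x c (-z) (-w) := by
  have := (ValAtM.const (K := K) (x := x) (c := c) (-1 : K)).mul h
  simpa using this

theorem ValAtM.sub {z z' : L} {w w' : M} (h : ValAtM K x c z w) (h' : ValAtM K x c z' w') :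
    ValAtM K x c (z - z') (w - w') := by
  rw [sub_eq_add_neg, sub_eq_add_neg]; exact h.add h'.neg

theorem ValAtM.pow {z : L} {w : M} (h : ValAtM K x c z w) (n : ℕ) :
    ValAtM K x c (z ^ n) (w ^ n) := by
  induction n with
  | zero => rw [pow_zero, pow_zero]; exact ValAtM.one
  | succ n ih => rw [pow_succ, pow_succ]; exact ih.mul h

/-- every element or its inverse is finite at `c` -/
theorem valAtM_or_inv (hc : IsIntegral K c) (hx : Transcendental K x)
    (hgen : ∀ z : L, ∃ P Q : K[X], Q ≠ 0 ∧ z * aeval x Q = aeval x P) (z : L) (hz : z ≠ 0) :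
    (∃ w, w ≠ 0 ∧ ValAtM K x c z w) ∨ ValAtM K x c z 0 ∨ ValAtM K x c z⁻¹ 0 := by
  obtain ⟨P, Q, hQ, hPQ⟩ := hgen z
  have haQ : aeval x Q ≠ 0 := fun h0 => hx ⟨Q, hQ, h0⟩
  have hP : P ≠ 0 := by
    rintro rfl
    rw [map_zero] at hPQ
    exact mul_ne_zero hz haQ hPQ
  set μ := minpoly K c with hμ
  have hμ0 : μ ≠ 0 := minpoly.ne_zero hc
  have hμu : ¬ IsUnit μ := minpoly.not_isUnit K c
  have hμc : aeval c μ = 0 := minpoly.aeval K c
  obtain ⟨P', hP', hPd⟩ := (FiniteMultiplicity.of_not_isUnit hμu hP).exists_eq_pow_mul_and_not_dvd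
  obtain ⟨Q', hQ', hQd⟩ := (FiniteMultiplicity.of_not_isUnit hμu hQ).exists_eq_pow_mul_and_not_dvd
  have hPd' : aeval c P' ≠ 0 := fun h0 => hPd (minpoly.dvd K c h0)
  have hQd' : aeval c Q' ≠ 0 := fun h0 => hQd (minpoly.dvd K c h0)
  set i := multiplicity μ P
  set j := multiplicity μ Q
  set u : L := aeval x μ with hu
  have hu0 : u ≠ 0 := fun h0 => hx ⟨μ, hμ0, h0⟩
  have h1 : z * (u ^ j * aeval x Q') = u ^ i * aeval x P' := by
    rw [hP', hQ', map_mul, map_mul, map_pow, map_pow] at hPQ
    exact hPQ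
  rcases lt_trichotomy i j with hij | hij | hij
  · right; right
    refine ⟨μ ^ (j - i) * Q', P', hPd', ?_, ?_⟩
    · have h2 : z * (u ^ (j - i) * aeval x Q') = aeval x P' := by
        have h3 : u ^ j = u ^ i * u ^ (j - i) := by rw [← pow_add]; congr 1; omega
        rw [h3] at h1
        have h4 : u ^ i ≠ 0 := pow_ne_zero _ hu0
        apply mul_left_cancel₀ h4
        rw [← h1]; ring
      rw [map_mul, map_pow, ← hu, ← h2]
      field_simp
    · rw [map_mul, map_pow, hμc, zero_mul, zero_pow (by omega), zero_mul]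
  · left
    refine ⟨aeval c P' / aeval c Q', div_ne_zero hPd' hQd', P', Q', hQd', ?_, by field_simp⟩
    rw [hij] at h1
    have h4 : u ^ j ≠ 0 := pow_ne_zero _ hu0
    apply mul_left_cancel₀ h4
    rw [← h1]; ring
  · right; left
    refine ⟨μ ^ (i - j) * P', Q', hQd', ?_, ?_⟩
    · have h3 : u ^ i = u ^ j * u ^ (i - j) := by rw [← pow_add]; congr 1; omega
      rw [h3] at h1
      have h4 : u ^ j ≠ 0 := pow_ne_zero _ hu0
      rw [map_mul, map_pow, ← hu]
      apply mul_left_cancel₀ h4
      linear_combination h1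
    · rw [map_mul, map_pow, hμc, zero_mul, zero_pow (by omega), zero_mul]

/-- the composite valuation ring -/
def compVM (hc : IsIntegral K c) (hx : Transcendental K x)
    (hgen : ∀ z : L, ∃ P Q : K[X], Q ≠ 0 ∧ z * aeval x Q = aeval x P)
    (O : ValuationSubring M) : ValuationSubring L where
  carrier := {z | ∃ w ∈ O, ValAtM K x c z w}
  mul_mem' := by
    rintro a b ⟨w, hw, ha⟩ ⟨w', hw', hb⟩
    exact ⟨w * w', O.mul_mem _ _ hw hw', ha.mul hb⟩
  one_mem' := ⟨1, O.one_mem, ValAtM.one⟩
  add_mem' := by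
    rintro a b ⟨w, hw, ha⟩ ⟨w', hw', hb⟩
    exact ⟨w + w', O.add_mem _ _ hw hw', ha.add hb⟩
  zero_mem' := ⟨0, O.zero_mem, ValAtM.zero⟩
  neg_mem' := by
    rintro a ⟨w, hw, ha⟩
    exact ⟨-w, O.neg_mem _ hw, ha.neg⟩
  mem_or_inv_mem' := by
    intro z
    by_cases hz : z = 0
    · left; rw [hz]
      exact ⟨0, O.zero_mem, ValAtM.zero⟩
    rcases valAtM_or_inv (c := c) hc hx hgen z hz with ⟨w, hw0, hw⟩ | h | h
    · rcases O.mem_or_inv_mem w with h1 | h1
      · exact Or.inl ⟨w, h1, hw⟩
      · right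
        refine ⟨w⁻¹, h1, ?_⟩
        obtain ⟨P, Q, hQ, hzz, hww⟩ := hw
        have hP : aeval c P ≠ 0 := by rw [← hww]; exact mul_ne_zero hw0 hQ
        refine ⟨Q, P, hP, ?_, ?_⟩
        · rw [← hzz]; field_simp
        · rw [← hww]; field_simp
    · exact Or.inl ⟨0, O.zero_mem, h⟩
    · exact Or.inr ⟨0, O.zero_mem, h⟩

theorem compVM_lt {hc : IsIntegral K c} {hx : Transcendental K x}
    {hgen : ∀ z : L, ∃ P Q : K[X], Q ≠ 0 ∧ z * aeval x Q = aeval x P}
    {O : ValuationSubring M} {z : L} {w : M} (h : ValAtM K x c z w) (hw : O.valuation w < 1) :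
    (compVM hc hx hgen O).valuation z < 1 := by
  rw [← ValuationSubring.mem_nonunits_iff, ValuationSubring.mem_nonunits_iff_or]
  by_cases hz : z = 0
  · exact Or.inl hz
  right
  rintro ⟨w', hw', h'⟩
  have h1 := h.mul h'
  rw [mul_inv_cancel₀ hz] at h1
  have h2 := h1.unique hx ValAtM.one
  have h3 : O.valuation (w * w') < 1 := by
    rw [map_mul]
    exact (mul_le_of_le_one_right' ((O.valuation_le_one_iff w').2 hw')).trans_lt hw
  rw [h2, map_one] at h3
  exact lt_irrefl _ h3

theorem HasPlaces.transcendental' (h : HasPlaces K) (hx : Transcendental K x)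
    (hgen : ∀ z : L, ∃ P Q : K[X], Q ≠ 0 ∧ z * aeval x Q = aeval x P) : HasPlaces L := by
  classical
  intro A hA
  choose P Q hQ hPQ using hgen
  have hP : ∀ a ∈ A, P a ≠ 0 := by
    intro a ha h0
    have h1 := hPQ a
    rw [h0, map_zero] at h1
    exact mul_ne_zero (hA a ha) (fun h2 => hx ⟨Q a, hQ a, h2⟩) h1
  set D : K[X] := ∏ a ∈ A, (P a * Q a) with hD
  have hD0 : D ≠ 0 := Finset.prod_ne_zero_iff.2 fun a ha => mul_ne_zero (hP a ha) (hQ a)
  obtain ⟨c₀, hc₀⟩ : ∃ c : AlgebraicClosure K, aeval c D ≠ 0 := by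
    by_contra hcon
    push Not at hcon
    have h1 : D.map (algebraMap K (AlgebraicClosure K)) = 0 :=
      funext fun c => by rw [eval_map_algebraMap, hcon c, eval_zero]
    exact hD0 ((Polynomial.map_eq_zero _).1 h1)
  have hint : IsIntegral K c₀ := Algebra.IsIntegral.isIntegral c₀
  have hfd : FiniteDimensional K (IntermediateField.adjoin K {c₀}) :=
    IntermediateField.adjoin.finiteDimensional hint
  have hM : HasPlaces (IntermediateField.adjoin K {c₀}) := h.algebraic
  set c : IntermediateField.adjoin K {c₀} :=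
    ⟨c₀, IntermediateField.mem_adjoin_simple_self K c₀⟩ with hcdef
  have hcint : IsIntegral K c := Algebra.IsIntegral.isIntegral c
  have hc : aeval c D ≠ 0 := by
    intro h0
    apply hc₀
    have h1 := aeval_algebraMap_apply (AlgebraicClosure K) c D
    rw [h0, map_zero] at h1
    exact h1
  have hc' : ∀ a ∈ A, aeval c (P a) ≠ 0 ∧ aeval c (Q a) ≠ 0 := by
    intro a ha
    rw [hD, map_prod, Finset.prod_ne_zero_iff] at hc
    have := hc a ha
    rw [map_mul] at this
    exact ⟨left_ne_zero_of_mul this, right_ne_zero_of_mul this⟩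
  obtain ⟨p, f, hp, hf, O, h1, h2, h3⟩ := hM (A.image fun a => aeval c (P a) / aeval c (Q a)) (by
    intro b hb
    obtain ⟨a, ha, rfl⟩ := Finset.mem_image.1 hb
    exact div_ne_zero (hc' a ha).1 (hc' a ha).2)
  refine ⟨p, f, hp, hf, compVM hcint hx (fun z => ⟨P z, Q z, hQ z, hPQ z⟩) O, ?_, ?_, ?_⟩
  · have := ValAtM.const (K := K) (x := x) (c := c) (p : K)
    rw [map_natCast, map_natCast] at this
    exact compVM_lt this h1
  · rintro z ⟨w, hw, hz⟩
    exact compVM_lt ((hz.pow (p ^ f)).sub hz) (h2 w hw)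
  · intro a ha
    obtain ⟨hPa, hQa⟩ := hc' a ha
    have h4 := h3 _ (Finset.mem_image_of_mem _ ha)
    rw [val_eq_one_iff' (div_ne_zero hPa hQa)] at h4
    rw [val_eq_one_iff' (hA a ha)]
    refine ⟨⟨_, h4.1, P a, Q a, hQa, hPQ a, by field_simp⟩,
      ⟨_, h4.2, Q a, P a, hPa, ?_, by field_simp⟩⟩
    rw [← hPQ a]
    have := hA a ha
    field_simp

end Transc

section Finite

theorem hasPlaces_of_finite {κ : Type u} [Field κ] [Finite κ] : HasPlaces κ := by
  intro A hA
  obtain ⟨p, hchar⟩ := CharP.exists κ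
  have hft : Fintype κ := Fintype.ofFinite κ
  obtain ⟨n, hp, hn⟩ := FiniteField.card κ p
  refine ⟨p, n, hp, n.pos, ⊤, ?_, ?_, ?_⟩
  · rw [CharP.cast_eq_zero, map_zero]; exact zero_lt_one
  · intro z _
    rw [← hn, FiniteField.pow_card, sub_self, map_zero]; exact zero_lt_one
  · intro a ha
    rw [val_eq_one_iff' (hA a ha)]
    exact ⟨ValuationSubring.mem_top _, ValuationSubring.mem_top _⟩

end Finite

section FG

open IntermediateField in
theorem hasPlaces_of_fg_over {F : Type*} {E : Type u} [Field F] [Field E] [Algebra F E]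
    (hF : HasPlaces F) (h : (⊤ : IntermediateField F E).FG) : HasPlaces E := by
  have key : HasPlaces (⊤ : IntermediateField F E) := by
    refine induction_on_adjoin_fg (F := F) (E := E) (fun K => HasPlaces K) ?_ ?_ ⊤ h
    · exact HasPlaces.of_injective_surj (IntermediateField.botEquiv F E).toRingEquiv hF
    · intro K x hK
      by_cases hx : Transcendental K x
      · refine HasPlaces.transcendental' (K := K) (L := K⟮x⟯) (x := ⟨x, mem_adjoin_simple_self K x⟩)
          hK ?_ ?_
        · intro halg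
          exact hx (halg.algHom K⟮x⟯.val)
        · intro z
          obtain ⟨P, Q, hPQ⟩ := (mem_adjoin_simple_iff K (z : E)).1 z.2
          by_cases hQ : aeval x Q = 0
          · refine ⟨0, 1, one_ne_zero, ?_⟩
            rw [hQ, div_zero] at hPQ
            rw [show z = 0 from Subtype.ext hPQ]
            simp
          · refine ⟨P, Q, fun h0 => hQ (by rw [h0, map_zero]), ?_⟩
            apply Subtype.ext
            have h1 : ∀ R : K[X], ((aeval (⟨x, mem_adjoin_simple_self K x⟩ : K⟮x⟯) R : K⟮x⟯) : E) =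
                aeval x R := fun R =>
              (aeval_algHom_apply K⟮x⟯.val (⟨x, mem_adjoin_simple_self K x⟩ : K⟮x⟯) R).symm
            change (z : E) * ((aeval (⟨x, mem_adjoin_simple_self K x⟩ : K⟮x⟯) Q : K⟮x⟯) : E) =
              ((aeval (⟨x, mem_adjoin_simple_self K x⟩ : K⟮x⟯) P : K⟮x⟯) : E)
            rw [h1, h1, hPQ, div_mul_cancel₀ _ hQ]
      · have hint : IsIntegral K x := (not_not.1 hx : IsAlgebraic K x).isIntegral
        have : FiniteDimensional K K⟮x⟯ := adjoin.finiteDimensional hint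
        exact HasPlaces.algebraic (K := K) (L := K⟮x⟯) hK
  exact HasPlaces.of_injective_surj (IntermediateField.topEquiv (F := F) (E := E)).symm.toRingEquiv key

theorem fg_of_closure {F : Type*} {E : Type u} [Field F] [Field E] [Algebra F E] {S : Finset E}
    (hS : Subfield.closure (S : Set E) = ⊤) : (⊤ : IntermediateField F E).FG := by
  refine ⟨S, ?_⟩
  rw [eq_top_iff]
  intro z _
  have h1 : Subfield.closure (S : Set E) ≤ (IntermediateField.adjoin F (S : Set E)).toSubfield :=
    Subfield.closure_le.2 (IntermediateField.subset_adjoin F _)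
  exact h1 (hS ▸ Subfield.mem_top z)

/-- A field which is finitely generated (over its prime field) has places with finite residue
field at which any given nonzero elements are units. -/
theorem hasPlaces_of_closure {E : Type u} [Field E] {S : Finset E}
    (hS : Subfield.closure (S : Set E) = ⊤) : HasPlaces E := by
  obtain ⟨p, hp⟩ := CharP.exists E
  rcases CharP.char_is_prime_or_zero E p with h | h
  · have : Fact p.Prime := ⟨h⟩
    let _ : Algebra (ZMod p) E := ZMod.algebra E p
    exact hasPlaces_of_fg_over (F := ZMod p) hasPlaces_of_finite (fg_of_closure hS)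
  · subst h
    have : CharZero E := CharP.charP_to_charZero E
    exact hasPlaces_of_fg_over (F := ℚ) hasPlaces_rat (fg_of_closure hS)

end FG

end Pool.Agent.Helper91.Sect
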