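import Pool.Agent.Helper91.Section.Sep
import Pool.Agent.Helper91.Section.Decomp

/-!
# A root fixed by the decomposition group gives a root in the residue field
-/

universe u

namespace Pool.Agent.Helper91.Sect

open Polynomial

section

variable {k C : Type u} [Field k] [Field C] [Algebra k C]
  {O : ValuationSubring k}

theorem above_comap {Q : Ideal (integralClosure O C)} (hA : Above Q) :
    Q.comap (algebraMap O (integralClosure O C)) = IsLocalRing.maximalIdeal O := by
  ext c
  rw [Ideal.mem_comap, hA c, O.valuation_lt_one_iff]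

theorem above_isMaximal {Q : Ideal (integralClosure O C)} [Q.IsPrime] (hA : Above Q) :
    Q.IsMaximal := by
  refine Ideal.isMaximal_of_isIntegral_of_isMaximal_comap (R := O) Q ?_
  rw [above_comap hA]
  infer_instance

/-- the embedding of residue fields -/
def resHom {Q : Ideal (integralClosure O C)} (hA : Above Q) :
    IsLocalRing.ResidueField O →+* integralClosure O C ⧸ Q :=
  Ideal.Quotient.lift (IsLocalRing.maximalIdeal O)
    ((Ideal.Quotient.mk Q).comp (algebraMap O (integralClosure O C))) fun c hc => by
      rw [RingHom.comp_apply, Ideal.Quotient.eq_zero_iff_mem]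
      rw [← above_comap hA] at hc
      exact hc

theorem resHom_residue {Q : Ideal (integralClosure O C)} (hA : Above Q) (c : O) :
    resHom hA (IsLocalRing.residue O c) =
      Ideal.Quotient.mk Q (algebraMap O (integralClosure O C) c) := rfl

theorem isAlgClosed_quotient [IsAlgClosed C] {Q : Ideal (integralClosure O C)} [hQ : Q.IsMaximal] :
    letI := Ideal.Quotient.field Q
    IsAlgClosed (integralClosure O C ⧸ Q) := by
  letI := Ideal.Quotient.field Q
  refine IsAlgClosed.of_exists_root _ fun p hp hirr => ?_
  have h1 : p ∈ lifts (Ideal.Quotient.mk Q) := by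
    rw [lifts_iff_coeff_lifts]
    intro n
    exact Ideal.Quotient.mk_surjective _
  obtain ⟨q, hq, hdeg, hqm⟩ := lifts_and_natDegree_eq_and_monic h1 hp
  have hdeg0 : p.natDegree ≠ 0 := hirr.natDegree_pos.ne'
  obtain ⟨z, hz⟩ := IsAlgClosed.exists_root (q.map (algebraMap (integralClosure O C) C)) (by
    rw [degree_eq_natDegree (hqm.map _).ne_zero, hqm.natDegree_map, hdeg]
    exact_mod_cast hdeg0)
  have hzint : IsIntegral O z := by
    have h2 : IsIntegral (integralClosure O C) z := by
      refine ⟨q, hqm, ?_⟩
      rw [IsRoot.def, eval_map] at hz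
      exact hz
    exact isIntegral_trans (A := integralClosure O C) z h2
  refine ⟨Ideal.Quotient.mk Q ⟨z, hzint⟩, ?_⟩
  rw [← hq, eval_map, eval₂_at_apply]
  have h3 : eval (⟨z, hzint⟩ : integralClosure O C) q = 0 := by
    apply Subtype.val_injective
    rw [IsRoot.def, eval_map] at hz
    exact (eval₂_at_apply (algebraMap (integralClosure O C) C)
      (⟨z, hzint⟩ : integralClosure O C)).symm.trans hz
  rw [h3, map_zero]

theorem exists_residue_root [IsGalois k C] [IsAlgClosed C] (Q : Ideal (integralClosure O C))
    [hQ : Q.IsPrime] (hA : Above Q) {f : O[X]} (hlc : O.valuation (f.leadingCoeff : k) = 1)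
    (hsep : (f.map (IsLocalRing.residue O)).Separable) {r : C} (hr : aeval r f = 0)
    (hfix : ∀ σ : C ≃ₐ[k] C, InD Q σ → σ r = r) :
    ∃ c : IsLocalRing.ResidueField O, (f.map (IsLocalRing.residue O)).eval c = 0 := by
  classical
  have hQm : Q.IsMaximal := above_isMaximal hA
  let _ : Field (integralClosure O C ⧸ Q) := Ideal.Quotient.field Q
  have hac : IsAlgClosed (integralClosure O C ⧸ Q) := isAlgClosed_quotient
  let _ : Algebra (IsLocalRing.ResidueField O) (integralClosure O C ⧸ Q) := (resHom hA).toAlgebra
  have hmap : ∀ c : O, algebraMap (IsLocalRing.ResidueField O) (integralClosure O C ⧸ Q)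
      (IsLocalRing.residue O c) = Ideal.Quotient.mk Q (algebraMap O (integralClosure O C) c) :=
    fun _ => rfl
  have hcomp : (algebraMap (IsLocalRing.ResidueField O) (integralClosure O C ⧸ Q)).comp
      (IsLocalRing.residue O) =
      (Ideal.Quotient.mk Q).comp (algebraMap O (integralClosure O C)) := rfl
  have halg : Algebra.IsAlgebraic (IsLocalRing.ResidueField O) (integralClosure O C ⧸ Q) := by
    refine ⟨fun x => ?_⟩
    obtain ⟨b, rfl⟩ := Ideal.Quotient.mk_surjective x
    have h1 : IsIntegral O b := Algebra.IsIntegral.isIntegral b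
    obtain ⟨g, hg, hgb⟩ := h1
    refine IsIntegral.isAlgebraic ⟨g.map (IsLocalRing.residue O), hg.map _, ?_⟩
    rw [eval₂_map, hcomp, ← hom_eval₂, hgb, map_zero]
  have hcl : IsAlgClosure (IsLocalRing.ResidueField O) (integralClosure O C ⧸ Q) := ⟨hac, halg⟩
  have hnorm : Normal (IsLocalRing.ResidueField O) (integralClosure O C ⧸ Q) :=
    IsAlgClosure.normal _ _
  set rb : integralClosure O C := ⟨r, integral_root hlc hr⟩ with hrb
  set x := Ideal.Quotient.mk Q rb with hx
  have hfx : aeval x (f.map (IsLocalRing.residue O)) = 0 := by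
    rw [aeval_def, eval₂_map, hcomp, hx, ← hom_eval₂]
    have h1 : eval₂ (algebraMap O (integralClosure O C)) rb f = 0 := by
      apply Subtype.val_injective
      have h2 : aeval (rb : C) f = ((aeval rb f : integralClosure O C) : C) :=
        aeval_algebraMap_apply C rb f
      exact h2.symm.trans hr
    rw [h1, map_zero]
  have hxsep : IsSeparable (IsLocalRing.ResidueField O) x :=
    hsep.of_dvd (minpoly.dvd _ _ hfx)
  have hxbot : x ∈ (⊥ : Subalgebra (IsLocalRing.ResidueField O) (integralClosure O C ⧸ Q)) := by
    by_contra hcon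
    rw [notMem_iff_exists_ne_and_isConjRoot hxsep (IsAlgClosed.splits _)] at hcon
    obtain ⟨y, hne, hy⟩ := hcon
    rw [isConjRoot_iff_exists_algEquiv] at hy
    obtain ⟨φ, hφ⟩ := hy
    -- lift the inverse
    obtain ⟨σ, -, hσD, hσ⟩ := exists_lift (⊤ : Subgroup (C ≃ₐ[k] C)) isClosed_univ Q
      (φ.symm : (integralClosure O C ⧸ Q) ≃+* (integralClosure O C ⧸ Q)) (by
        intro b hb
        have h1 : ∀ g : C ≃ₐ[k] C, g (b : C) = b := fun g =>
          congrArg Subtype.val (hb g (Subgroup.mem_top g))
        obtain ⟨c, hc⟩ := (InfiniteGalois.mem_range_algebraMap_iff_fixed (k := k) (b : C)).2 h1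
        have hcO : c ∈ O := by
          have h2 : IsIntegral O (algebraMap k C c) := by rw [hc]; exact b.2
          have h3 : IsIntegral O c := by
            rwa [isIntegral_algebraMap_iff (algebraMap k C).injective] at h2
          obtain ⟨c', hc'⟩ := IsIntegrallyClosed.algebraMap_eq_of_integral h3
          rw [← hc']; exact c'.2
        have h4 : b = algebraMap O (integralClosure O C) ⟨c, hcO⟩ := Subtype.ext hc.symm
        rw [h4, ← hmap]
        exact φ.symm.commutes _)
    have h1 : Ideal.Quotient.mk Q (σ • rb) = φ.symm x := hσ rb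
    have h2 : σ • rb = rb := Subtype.ext (hfix σ hσD)
    rw [h2] at h1
    apply hne
    have h3 : φ x = x := by
      conv_lhs => rw [hx, h1]
      exact φ.apply_symm_apply x
    have h4 : φ.symm x = y := by rw [← hφ]; exact φ.symm_apply_apply y
    rw [← h4, ← h1]
  rw [Algebra.mem_bot] at hxbot
  obtain ⟨c, hc⟩ := hxbot
  refine ⟨c, ?_⟩
  rw [← hc, aeval_algebraMap_apply] at hfx
  have h5 := (map_eq_zero (algebraMap (IsLocalRing.ResidueField O) (integralClosure O C ⧸ Q))).1 hfx
  rwa [coe_aeval_eq_eval] at h5

end

end Pool.Agent.Helper91.Sect
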