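import Mathlib

/-!
# The composite of a valuation ring with a valuation ring of its residue field
-/

universe u

namespace Pool.Agent.Helper91.Sect

section

variable {k : Type u} [Field k] (O : ValuationSubring k)
  (Ob : ValuationSubring (IsLocalRing.ResidueField O))

/-- The composite valuation ring: the elements of `O` with residue class in `Ob`. -/
def compO : ValuationSubring k where
  carrier := {z | ∃ h : z ∈ O, IsLocalRing.residue O ⟨z, h⟩ ∈ Ob}
  mul_mem' := by
    rintro a b ⟨ha, ha'⟩ ⟨hb, hb'⟩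
    refine ⟨mul_mem ha hb, ?_⟩
    have : (⟨a * b, mul_mem ha hb⟩ : O) = ⟨a, ha⟩ * ⟨b, hb⟩ := rfl
    rw [this, map_mul]
    exact mul_mem ha' hb'
  one_mem' := ⟨one_mem _, by
    have : (⟨1, one_mem _⟩ : O) = 1 := rfl
    rw [this, map_one]; exact one_mem _⟩
  add_mem' := by
    rintro a b ⟨ha, ha'⟩ ⟨hb, hb'⟩
    refine ⟨add_mem ha hb, ?_⟩
    have : (⟨a + b, add_mem ha hb⟩ : O) = ⟨a, ha⟩ + ⟨b, hb⟩ := rfl
    rw [this, map_add]
    exact add_mem ha' hb'
  zero_mem' := ⟨zero_mem _, by
    have : (⟨0, zero_mem _⟩ : O) = 0 := rfl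
    rw [this, map_zero]; exact zero_mem _⟩
  neg_mem' := by
    rintro a ⟨ha, ha'⟩
    refine ⟨neg_mem ha, ?_⟩
    have : (⟨-a, neg_mem ha⟩ : O) = -⟨a, ha⟩ := rfl
    rw [this, map_neg]
    exact neg_mem ha'
  mem_or_inv_mem' := by
    intro z
    by_cases hz : z ∈ O
    · by_cases hz' : z⁻¹ ∈ O
      · rcases Ob.mem_or_inv_mem (IsLocalRing.residue O ⟨z, hz⟩) with h | h
        · exact Or.inl ⟨hz, h⟩
        · by_cases h0 : z = 0
          · refine Or.inl ⟨hz, ?_⟩
            have : (⟨z, hz⟩ : O) = 0 := Subtype.ext h0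
            rw [this, map_zero]; exact zero_mem _
          · right
            refine ⟨hz', ?_⟩
            have h1 : IsLocalRing.residue O ⟨z, hz⟩ * IsLocalRing.residue O ⟨z⁻¹, hz'⟩ = 1 := by
              rw [← map_mul, ← map_one (IsLocalRing.residue O)]
              congr 1
              exact Subtype.ext (mul_inv_cancel₀ h0)
            rw [← eq_inv_of_mul_eq_one_right h1] at h
            exact h
      · left
        refine ⟨hz, ?_⟩
        have h1 : IsLocalRing.residue O ⟨z, hz⟩ = 0 := by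
          rw [IsLocalRing.residue_eq_zero_iff, O.valuation_lt_one_iff,
            ← ValuationSubring.mem_nonunits_iff, ValuationSubring.mem_nonunits_iff_or]
          exact Or.inr hz'
        rw [h1]; exact zero_mem _
    · right
      have hz' : z⁻¹ ∈ O := (O.mem_or_inv_mem z).resolve_left hz
      refine ⟨hz', ?_⟩
      have h1 : IsLocalRing.residue O ⟨z⁻¹, hz'⟩ = 0 := by
        rw [IsLocalRing.residue_eq_zero_iff, O.valuation_lt_one_iff,
          ← ValuationSubring.mem_nonunits_iff, ValuationSubring.mem_nonunits_iff_or]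
        right
        rwa [inv_inv]
      rw [h1]; exact zero_mem _

theorem mem_compO {z : k} :
    z ∈ compO O Ob ↔ ∃ h : z ∈ O, IsLocalRing.residue O ⟨z, h⟩ ∈ Ob := Iff.rfl

theorem compO_le : compO O Ob ≤ O := fun _ h => h.1

variable {O Ob}

theorem compO_lt {z : k} (hz : z ∈ O) (h : Ob.valuation (IsLocalRing.residue O ⟨z, hz⟩) < 1) :
    (compO O Ob).valuation z < 1 := by
  rw [← ValuationSubring.mem_nonunits_iff, ValuationSubring.mem_nonunits_iff_or]
  rw [← ValuationSubring.mem_nonunits_iff, ValuationSubring.mem_nonunits_iff_or] at h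
  by_cases h0 : z = 0
  · exact Or.inl h0
  right
  rintro ⟨hz', h'⟩
  have h1 : IsLocalRing.residue O ⟨z, hz⟩ * IsLocalRing.residue O ⟨z⁻¹, hz'⟩ = 1 := by
    rw [← map_mul, ← map_one (IsLocalRing.residue O)]
    congr 1
    exact Subtype.ext (mul_inv_cancel₀ h0)
  rcases h with h | h
  · rw [h, zero_mul] at h1
    exact zero_ne_one h1
  · rw [← eq_inv_of_mul_eq_one_right h1] at h
    exact h h'

theorem compO_eq_one {z : k} (hz : z ∈ O)
    (h : Ob.valuation (IsLocalRing.residue O ⟨z, hz⟩) = 1) : (compO O Ob).valuation z = 1 := by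
  have h0 : IsLocalRing.residue O ⟨z, hz⟩ ≠ 0 := by
    intro h0
    rw [h0, map_zero] at h
    exact zero_ne_one h
  have hz0 : z ≠ 0 := by
    rintro rfl
    apply h0
    have : (⟨0, hz⟩ : O) = 0 := rfl
    rw [this, map_zero]
  have hz' : z⁻¹ ∈ O := by
    by_contra hcon
    apply h0
    rw [IsLocalRing.residue_eq_zero_iff, O.valuation_lt_one_iff,
      ← ValuationSubring.mem_nonunits_iff, ValuationSubring.mem_nonunits_iff_or]
    exact Or.inr hcon
  have h1 : IsLocalRing.residue O ⟨z, hz⟩ * IsLocalRing.residue O ⟨z⁻¹, hz'⟩ = 1 := by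
    rw [← map_mul, ← map_one (IsLocalRing.residue O)]
    congr 1
    exact Subtype.ext (mul_inv_cancel₀ hz0)
  have h2 : (compO O Ob).valuation z ≤ 1 := by
    rw [ValuationSubring.valuation_le_one_iff]
    exact ⟨hz, (Ob.valuation_le_one_iff _).1 h.le⟩
  have h3 : (compO O Ob).valuation z⁻¹ ≤ 1 := by
    rw [ValuationSubring.valuation_le_one_iff]
    refine ⟨hz', (Ob.valuation_le_one_iff _).1 ?_⟩
    rw [eq_inv_of_mul_eq_one_right h1, map_inv₀, h, inv_one]
  rw [map_inv₀] at h3
  have h4 : (compO O Ob).valuation z ≠ 0 := by simpa using hz0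
  exact le_antisymm h2 ((inv_le_one₀ (zero_lt_iff.2 h4)).1 h3)

theorem compO_sub_pow {q : ℕ} (hq : ∀ z ∈ Ob, Ob.valuation (z ^ q - z) < 1) {z : k}
    (hz : z ∈ compO O Ob) : (compO O Ob).valuation (z ^ q - z) < 1 := by
  obtain ⟨h, h'⟩ := hz
  refine compO_lt (sub_mem (pow_mem h q) h) ?_
  have : (⟨z ^ q - z, sub_mem (pow_mem h q) h⟩ : O) = ⟨z, h⟩ ^ q - ⟨z, h⟩ := rfl
  rw [this, map_sub, map_pow]
  exact hq _ h'

end

end Pool.Agent.Helper91.Sect
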