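import Pool.Agent.Helper91.Section.Elliptic

/-!
# Invariant characters, at a place of good reduction
-/

universe u

namespace Pool.Agent.Helper91.Sect

open WeierstrassCurve WeierstrassCurve.Affine

section Main

variable {S C : Type u} [Field S] [Field C] [Algebra S C] [IsAlgClosed C]
  [DecidableEq C]

theorem elliptic_core {V : ValuationSubring C} {e₁ e₂ e₃ : S}
    (hv : Good V.valuation (algebraMap S C e₁) (algebraMap S C e₂) (algebraMap S C e₃))
    (γ : C ≃ₐ[S] C) {m : ℕ} (hm : 1 < m)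
    (hγ : ∀ z, V.valuation z ≤ 1 → Cg V.valuation (γ z) (z ^ m))
    (A : Type u) [CommGroup A] (lam : ((EC e₁ e₂ e₃)⁄C).Point → A)
    (hadd : ∀ P ∈ T2 ((EC e₁ e₂ e₃)⁄C), ∀ Q ∈ T2 ((EC e₁ e₂ e₃)⁄C),
        lam (P + Q) = lam P * lam Q)
    (hinv : ∀ P ∈ T2 ((EC e₁ e₂ e₃)⁄C),
        lam (Point.map (W' := EC e₁ e₂ e₃) (γ : C →ₐ[S] C) P) = lam P) :
    ∀ P ∈ T2 ((EC e₁ e₂ e₃)⁄C), lam P = 1 := by
  obtain ⟨h2, h12, h13, h23⟩ := hv.distinct
  have hW := isE_baseChange (F := C) e₁ e₂ e₃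
  have hfin := finite_fixed hv γ hm hγ
  -- set up the group lemma
  let Φ : T2 ((EC e₁ e₂ e₃)⁄C) →+ T2 ((EC e₁ e₂ e₃)⁄C) :=
    ((Point.map (W' := EC e₁ e₂ e₃) (γ : C →ₐ[S] C)).comp
      (T2 ((EC e₁ e₂ e₃)⁄C)).subtype).codRestrict (T2 ((EC e₁ e₂ e₃)⁄C)) (fun P => by
        obtain ⟨n, hn⟩ := P.2
        exact ⟨n, by
          change 2 ^ n • Point.map (W' := EC e₁ e₂ e₃) (γ : C →ₐ[S] C)
            (P : ((EC e₁ e₂ e₃)⁄C).Point) = 0
          rw [← map_nsmul, hn, map_zero]⟩)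
  let θ : T2 ((EC e₁ e₂ e₃)⁄C) →+ T2 ((EC e₁ e₂ e₃)⁄C) := Φ - AddMonoidHom.id _
  let fh : T2 ((EC e₁ e₂ e₃)⁄C) →+ Additive A :=
    { toFun := fun P => Additive.ofMul (lam P)
      map_zero' := by
        have h := hadd 0 (T2 ((EC e₁ e₂ e₃)⁄C)).zero_mem 0 (T2 ((EC e₁ e₂ e₃)⁄C)).zero_mem
        rw [add_zero] at h
        have h' : lam 0 = 1 := by
          have := mul_left_cancel (a := lam 0) (b := lam 0) (c := 1) (by rw [mul_one]; exact h.symm)
          exact this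
        change Additive.ofMul (lam 0) = 0
        rw [h']; rfl
      map_add' := fun P P' => by
        change Additive.ofMul (lam ((P : ((EC e₁ e₂ e₃)⁄C).Point) + P')) = _
        rw [hadd _ P.2 _ P'.2]; rfl }
  intro P hP
  have hres := char_trivial (M := T2 ((EC e₁ e₂ e₃)⁄C)) (A := A) (fun m => by
      obtain ⟨n, hn⟩ := m.2
      exact ⟨n, Subtype.ext hn⟩)
    (fun m => by
      obtain ⟨P', hP'⟩ := hW.halve h2 h12 h13 h23 (m : ((EC e₁ e₂ e₃)⁄C).Point)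
      obtain ⟨n, hn⟩ := m.2
      refine ⟨⟨P', n + 1, ?_⟩, Subtype.ext hP'⟩
      rw [pow_succ, mul_smul, hP', hn])
    (by
      refine Set.Finite.of_finite_image (f := fun m : T2 ((EC e₁ e₂ e₃)⁄C) => (m : ((EC e₁ e₂ e₃)⁄C).Point))
        ((twoTorsion_finite hW h2).subset ?_) (fun a _ b _ h => Subtype.ext h)
      rintro _ ⟨m, hm, rfl⟩
      exact congrArg Subtype.val hm)
    θ (by
      refine Set.Finite.of_finite_image (f := fun m : T2 ((EC e₁ e₂ e₃)⁄C) => (m : ((EC e₁ e₂ e₃)⁄C).Point))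
        (hfin.subset ?_) (fun a _ b _ h => Subtype.ext h)
      rintro _ ⟨m, hm, rfl⟩
      refine ⟨m.2, ?_⟩
      have h3 : Φ m - m = 0 := hm
      exact congrArg Subtype.val (sub_eq_zero.1 h3))
    fh (by
      intro m
      change fh (Φ m - m) = 0
      rw [map_sub, sub_eq_zero]
      change Additive.ofMul (lam _) = Additive.ofMul (lam _)
      congr 1
      exact hinv _ m.2) ⟨P, hP⟩
  exact hres

end Main

end Pool.Agent.Helper91.Sect
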