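import Pool.Agent.Helper91.Section.RootM
import Pool.Agent.Helper91.Section.EllCore

/-!
# Rigidity, in the presence of an inertia action on the constants
-/

universe u

namespace Pool.Agent.Helper91.Sect

open Polynomial WeierstrassCurve WeierstrassCurve.Affine
open scoped Polynomial.Bivariate

section

variable {S C : Type u} [Field S] [Field C] [Algebra S C] [DecidableEq C]

/-- inertia acts trivially on the points of `2`-power order, at a place of good reduction -/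
theorem inertia_fixP {V : ValuationSubring C} {e₁ e₂ e₃ : S}
    (hv : Good V.valuation (algebraMap S C e₁) (algebraMap S C e₂) (algebraMap S C e₃))
    (τ : C ≃ₐ[S] C) (hτ : ∀ z, V.valuation z ≤ 1 → V.valuation (τ z - z) < 1)
    {P : ((EC e₁ e₂ e₃)⁄C).Point} (hP : P ∈ T2 ((EC e₁ e₂ e₃)⁄C)) :
    FixP ((τ : C →ₐ[S] C) : C →+* C) P := by
  have hW := isE_baseChange (F := C) e₁ e₂ e₃
  rcases P with _ | ⟨x, y, h⟩
  · trivial
  · obtain ⟨hx, hy⟩ := hW.integral hv h hP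
    have h1 : Point.map (W' := EC e₁ e₂ e₃) (τ : C →ₐ[S] C) (Point.some x y h) ∈
        T2 ((EC e₁ e₂ e₃)⁄C) := by
      obtain ⟨n, hn⟩ := hP
      exact ⟨n, by rw [← map_nsmul, hn, map_zero]⟩
    rw [Point.map_some] at h1
    exact hW.reduction_inj hv _ h h1 hP (hτ x hx) (hτ y hy)

end

section

variable {S L Ω : Type u} [Field S] [Field L] [Field Ω] [Algebra S L]
  [IsAlgClosed L] [DecidableEq L] [Algebra L Ω] [IsAlgClosed Ω]

theorem elliptic_rigid2 {e₁ e₂ e₃ : S}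
    {V : ValuationSubring L}
    (hv : Good V.valuation (algebraMap S L e₁) (algebraMap S L e₂) (algebraMap S L e₃))
    (γ : L ≃ₐ[S] L) {m : ℕ} (hm : 1 < m)
    (hγ : ∀ z, V.valuation z ≤ 1 → Cg V.valuation (γ z) (z ^ m))
    {V' : ValuationSubring L}
    (hv' : Good V'.valuation (algebraMap S L e₁) (algebraMap S L e₂) (algebraMap S L e₃))
    (τ : L ≃ₐ[S] L) (hτ : ∀ z, V'.valuation z ≤ 1 → V'.valuation (τ z - z) < 1)
    {x y : Ω} (h : y ^ 2 = (x - algebraMap L Ω (algebraMap S L e₁)) *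
      (x - algebraMap L Ω (algebraMap S L e₂)) * (x - algebraMap L Ω (algebraMap S L e₃)))
    (hx : Transcendental L x) (ξ ρ : Ω →+* Ω)
    (hξ : ∀ c : L, ξ (algebraMap L Ω c) = algebraMap L Ω (τ c)) (hξx : ξ x = x) (hξy : ξ y = y)
    (hroot : ∀ (m : ℕ) (ζ : Ω), ζ ^ (2 ^ m) = 1 → ξ ζ = ζ)
    (hρ : ∀ c : L, ρ (algebraMap L Ω c) = algebraMap L Ω (γ c)) (hρx : ρ x = x) (hρy : ρ y = y)
    (hinv : ∀ (P : ((EC e₁ e₂ e₃)⁄L).Point) (g : Ω), P ∈ T2 ((EC e₁ e₂ e₃)⁄L) →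
        RootM (isE_baseChange e₁ e₂ e₃) h P g → ξ (ρ g) = ξ g / g * ρ g) :
      ∀ (P : ((EC e₁ e₂ e₃)⁄L).Point), P ∈ T2 ((EC e₁ e₂ e₃)⁄L) → ∀ (g : Ω),
        RootM (isE_baseChange e₁ e₂ e₃) h P g → ξ g = g := by
  classical
  set hE := isE_baseChange (F := L) e₁ e₂ e₃ with hEdef
  set σ : L →+* L := ((τ : L →ₐ[S] L) : L →+* L) with hσdef
  have hσ : ((EC e₁ e₂ e₃)⁄L).map σ = ((EC e₁ e₂ e₃)⁄L) :=
    map_baseChange_eq (EC e₁ e₂ e₃) (τ : L →ₐ[S] L)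
  have hfix : ∀ {P : ((EC e₁ e₂ e₃)⁄L).Point}, P ∈ T2 ((EC e₁ e₂ e₃)⁄L) → FixP σ P :=
    fun hP => inertia_fixP hv' τ hτ hP
  have hg0 : ∀ {P : ((EC e₁ e₂ e₃)⁄L).Point} {g : Ω}, RootM hE h P g → ξ g / g ≠ 0 := by
    intro P g hg
    have h0 := hg.rootAt.ne_zero hE h hx
    exact div_ne_zero ((map_ne_zero ξ).2 h0) h0
  let lam : ((EC e₁ e₂ e₃)⁄L).Point → Ωˣ := fun P =>
    if hP : ∃ g, RootM hE h P g then Units.mk0 _ (hg0 hP.choose_spec) else 1
  have hlam : ∀ {P : ((EC e₁ e₂ e₃)⁄L).Point} {g : Ω}, P ∈ T2 ((EC e₁ e₂ e₃)⁄L) →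
      RootM hE h P g → (lam P : Ω) = ξ g / g := by
    intro P g hPT hg
    have hP : ∃ g, RootM hE h P g := ⟨g, hg⟩
    have h4 : lam P = Units.mk0 _ (hg0 hP.choose_spec) := dif_pos hP
    rw [h4, Units.val_mk0]
    exact hP.choose_spec.indep hE h hx hg hσ hξ hξx hξy (hfix hPT) hroot
  have hres := elliptic_core (C := L) hv γ hm hγ Ωˣ lam (by
      intro P hP P' hP'
      obtain ⟨g, hg⟩ := exists_rootM hE h hP
      obtain ⟨g', hg'⟩ := exists_rootM hE h hP'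
      obtain ⟨g'', hg''⟩ := exists_rootM hE h (add_mem hP hP')
      apply Units.ext
      rw [Units.val_mul, hlam hP hg, hlam hP' hg', hlam (add_mem hP hP') hg'']
      exact (hg.mul_rel hE h hx hg' hg'' hσ hξ hξx hξy (hfix hP) (hfix hP') hroot).symm)
    (by
      intro P hP
      obtain ⟨g, hg⟩ := exists_rootM hE h hP
      have h4 := hg.map h (γ : L →ₐ[S] L) ρ hρ hρx hρy
      have hγP : Point.map (W' := EC e₁ e₂ e₃) (γ : L →ₐ[S] L) P ∈ T2 ((EC e₁ e₂ e₃)⁄L) := by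
        obtain ⟨n, hn⟩ := hP
        exact ⟨n, by rw [← map_nsmul, hn, map_zero]⟩
      apply Units.ext
      rw [hlam hP hg, hlam hγP h4, hinv P g hP hg]
      have h5 : ρ g ≠ 0 := (map_ne_zero ρ).2 (hg.rootAt.ne_zero hE h hx)
      rw [mul_div_assoc, div_self h5, mul_one])
  intro P hP g hg
  have h4 := hlam hP hg
  rw [hres P hP, Units.val_one] at h4
  have h5 := hg.rootAt.ne_zero hE h hx
  rw [eq_comm, div_eq_one_iff_eq h5] at h4
  exact h4

end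

theorem exists_rootM_two {F : Type u} [Field F] [DecidableEq F] {W : WeierstrassCurve.Affine F}
    {Ω : Type u} [Field Ω] [Algebra F Ω] {e₁ e₂ e₃ : F} (hW : IsE W e₁ e₂ e₃) {x y : Ω}
    (h : y ^ 2 = (x - algebraMap F Ω e₁) * (x - algebraMap F Ω e₂) * (x - algebraMap F Ω e₃))
    (h2 : (2 : F) ≠ 0) (h12 : e₁ ≠ e₂) (h13 : e₁ ≠ e₃) (h23 : e₂ ≠ e₃)
    {g : Ω} (hg : g ^ 2 = x - algebraMap F Ω e₁) :
    ∃ P : W.Point, P ∈ T2 W ∧ RootM hW h P g := by
  have hns : W.Nonsingular e₁ 0 := by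
    rw [hW.nonsingular_iff h2 h12 h13 h23]; ring
  have h2P : 2 • Point.some e₁ 0 hns = 0 := by
    rw [two_nsmul, Point.add_self_of_Y_eq (by rw [hW.negY, neg_zero])]
  refine ⟨Point.some e₁ 0 hns, ⟨1, by rw [pow_one]; exact h2P⟩, 1, by rw [pow_one]; exact h2P,
    CoordinateRing.XClass W e₁, ?_, isMonR_XClass _, ?_⟩
  · have h3 := CoordinateRing.XYIdeal_neg_mul hns
    rw [hW.negY, neg_zero] at h3
    rw [pow_one, pow_two]
    exact h3
  · rw [pow_one, hg, CoordinateRing.XClass, evR_C, map_sub, aeval_X, aeval_C]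

end Pool.Agent.Helper91.Sect
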