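import Pool.Agent.Helper91.Section.Frob

/-!
# Invariant characters of the group of points of `2`-power order are trivial
-/

universe u

namespace Pool.Agent.Helper91.Sect

open WeierstrassCurve WeierstrassCurve.Affine

section

variable {C : Type*} [Field C] [DecidableEq C]

/-- the points of `2`-power order -/
def T2 (W : WeierstrassCurve.Affine C) : AddSubgroup W.Point where
  carrier := {P | ∃ n : ℕ, 2 ^ n • P = 0}
  add_mem' := by
    rintro P Q ⟨n, hn⟩ ⟨m, hm⟩
    refine ⟨n + m, ?_⟩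
    rw [smul_add, pow_add, mul_smul (2 ^ n) (2 ^ m) Q, hm, smul_zero, mul_comm, mul_smul, hn,
      smul_zero, add_zero]
  zero_mem' := ⟨0, by simp⟩
  neg_mem' := by
    rintro P ⟨n, hn⟩
    exact ⟨n, by rw [smul_neg, hn, neg_zero]⟩

theorem mem_T2 {W : WeierstrassCurve.Affine C} {P : W.Point} :
    P ∈ T2 W ↔ ∃ n : ℕ, 2 ^ n • P = 0 := Iff.rfl

theorem twoTorsion_finite {W : WeierstrassCurve.Affine C} {e₁ e₂ e₃ : C} (hW : IsE W e₁ e₂ e₃)
    (h2 : (2 : C) ≠ 0) : {P : W.Point | 2 • P = 0}.Finite := by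
  classical
  have key : ∀ P : W.Point, 2 • P = 0 → P = 0 ∨ ∃ x, ∃ h : W.Nonsingular x 0,
      (x = e₁ ∨ x = e₂ ∨ x = e₃) ∧ P = Point.some x 0 h := by
    intro P hP
    rcases P with _ | ⟨x, y, h⟩
    · exact Or.inl rfl
    · right
      have hy : y = 0 := by
        by_contra hy
        have hYne : y ≠ W.negY x y := by
          rw [hW.negY]
          intro hc
          exact mul_ne_zero h2 hy (by linear_combination hc)
        rw [two_nsmul, Point.add_self_of_Y_ne hYne] at hP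
        exact Point.some_ne_zero _ hP
      subst hy
      have heq := (hW.equation_iff x 0).1 h.1
      refine ⟨x, h, ?_, rfl⟩
      have h0 : (x - e₁) * (x - e₂) * (x - e₃) = 0 := by rw [← heq]; ring
      rcases mul_eq_zero.1 h0 with h1 | h1
      · rcases mul_eq_zero.1 h1 with h3 | h3
        · exact Or.inl (sub_eq_zero.1 h3)
        · exact Or.inr (Or.inl (sub_eq_zero.1 h3))
      · exact Or.inr (Or.inr (sub_eq_zero.1 h1))
  let g : W.Point → Option C := fun P => match P with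
    | 0 => none
    | Point.some x _ _ => some x
  refine Set.Finite.of_finite_image (f := g)
    (Set.Finite.subset (Set.toFinite ({none, some e₁, some e₂, some e₃} : Set (Option C))) ?_) ?_
  · rintro _ ⟨P, hP, rfl⟩
    rcases key P hP with rfl | ⟨x, h, hx, rfl⟩
    · left; rfl
    · rcases hx with hx | hx | hx
      · right; left; rw [← hx]
      · right; right; left; rw [← hx]
      · right; right; right; rw [← hx]; rfl
  · intro P hP P' hP' hPP'
    rcases key P hP with rfl | ⟨x, h, hx, rfl⟩ <;> rcases key P' hP' with rfl | ⟨x', h', hx', rfl⟩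
    · rfl
    · exact absurd hPP' (by change none ≠ some x'; simp)
    · exact absurd hPP' (by change some x ≠ none; simp)
    · have : x = x' := Option.some.inj hPP'
      subst this
      rfl

end

section Main

variable {S C : Type u} [Field S] [Field C] [Algebra S C] [IsGalois S C] [IsAlgClosed C]
  [DecidableEq C]

theorem map_mem_T2 {W : WeierstrassCurve S} (γ : C →ₐ[S] C) {P : (W⁄C).Point}
    (hP : P ∈ T2 (W⁄C)) : Point.map (W' := W) γ P ∈ T2 (W⁄C) := by
  obtain ⟨n, hn⟩ := hP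
  exact ⟨n, by rw [← map_nsmul, hn, map_zero]⟩

theorem exists_elliptic (O : ValuationSubring S) (p f : ℕ) (hp : p.Prime) (hf : 0 < f)
    (hpv : O.valuation (p : S) < 1) (hq : ∀ z ∈ O, O.valuation (z ^ (p ^ f) - z) < 1)
    {e₁ e₂ e₃ : S} (hgood : Good O.valuation e₁ e₂ e₃) :
    ∃ γ : C ≃ₐ[S] C, ∀ (A : Type u) [CommGroup A] (lam : ((EC e₁ e₂ e₃)⁄C).Point → A),
      (∀ P ∈ T2 ((EC e₁ e₂ e₃)⁄C), ∀ Q ∈ T2 ((EC e₁ e₂ e₃)⁄C),
        lam (P + Q) = lam P * lam Q) →
      (∀ P ∈ T2 ((EC e₁ e₂ e₃)⁄C),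
        lam (Point.map (W' := EC e₁ e₂ e₃) ((γ * γ : C ≃ₐ[S] C) : C →ₐ[S] C) P) = lam P) →
      ∀ P ∈ T2 ((EC e₁ e₂ e₃)⁄C), lam P = 1 := by
  have hpf : Fact p.Prime := ⟨hp⟩
  obtain ⟨Q, hQ, γ, hA, hγD, hγ⟩ := exists_frob (C := C) O p f hpv hq
  refine ⟨γ, ?_⟩
  intro A _ lam hadd hinv
  have key : ∀ {z : S}, O.valuation z = 1 → (locW Q).valuation (algebraMap S C z) = 1 :=
    fun {z} hz => (locW_algebraMap_eq_one Q hA).2 hz
  have hv : Good (locW Q).valuation (algebraMap S C e₁) (algebraMap S C e₂)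
      (algebraMap S C e₃) := by
    refine ⟨?_, locW_algebraMap_le hgood.le₁, locW_algebraMap_le hgood.le₂,
      locW_algebraMap_le hgood.le₃, ?_, ?_, ?_⟩
    · have := key hgood.two
      rwa [map_ofNat] at this
    · rw [← map_sub]; exact key hgood.ne₁₂
    · rw [← map_sub]; exact key hgood.ne₁₃
    · rw [← map_sub]; exact key hgood.ne₂₃
  obtain ⟨h2, h12, h13, h23⟩ := hv.distinct
  have hW := isE_baseChange (F := C) e₁ e₂ e₃
  -- the automorphism `γ²`
  have hγ2 : ∀ z, (locW Q).valuation z ≤ 1 →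
      Cg (locW Q).valuation ((γ * γ : C ≃ₐ[S] C) z) (z ^ (p ^ f * p ^ f)) := by
    intro z hz
    have h1 := hγ z hz
    have h3 := (hγ (γ z) h1.1)
    rw [pow_mul]
    exact h3.trans (h1.pow _)
  have hm : 1 < p ^ f * p ^ f := by
    have : 1 < p ^ f := Nat.one_lt_pow hf.ne' hp.one_lt
    nlinarith
  have hfin := finite_fixed hv (γ * γ) hm hγ2
  -- set up the group lemma
  let Φ : T2 ((EC e₁ e₂ e₃)⁄C) →+ T2 ((EC e₁ e₂ e₃)⁄C) :=
    ((Point.map (W' := EC e₁ e₂ e₃) ((γ * γ : C ≃ₐ[S] C) : C →ₐ[S] C)).comp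
      (T2 ((EC e₁ e₂ e₃)⁄C)).subtype).codRestrict (T2 ((EC e₁ e₂ e₃)⁄C)) (fun P => map_mem_T2 _ P.2)
  let θ : T2 ((EC e₁ e₂ e₃)⁄C) →+ T2 ((EC e₁ e₂ e₃)⁄C) := Φ - AddMonoidHom.id _
  let fh : T2 ((EC e₁ e₂ e₃)⁄C) →+ Additive A :=
    { toFun := fun P => Additive.ofMul (lam P)
      map_zero' := by
        have h := hadd 0 (T2 ((EC e₁ e₂ e₃)⁄C)).zero_mem 0 (T2 ((EC e₁ e₂ e₃)⁄C)).zero_mem
        rw [add_zero] at h
        have h' : lam 0 = 1 := by
          have := mul_left_cancel (a := lam 0) (b := lam 0) (c := 1) (by rw [mul_one]; exact h.symm)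
          exact this
        change Additive.ofMul (lam 0) = 0
        rw [h']; rfl
      map_add' := fun P P' => by
        change Additive.ofMul (lam ((P : ((EC e₁ e₂ e₃)⁄C).Point) + P')) = _
        rw [hadd _ P.2 _ P'.2]; rfl }
  intro P hP
  have hres := char_trivial (M := T2 ((EC e₁ e₂ e₃)⁄C)) (A := A) (fun m => by
      obtain ⟨n, hn⟩ := m.2
      exact ⟨n, Subtype.ext hn⟩)
    (fun m => by
      obtain ⟨P', hP'⟩ := hW.halve h2 h12 h13 h23 (m : ((EC e₁ e₂ e₃)⁄C).Point)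
      obtain ⟨n, hn⟩ := m.2
      refine ⟨⟨P', n + 1, ?_⟩, Subtype.ext hP'⟩
      rw [pow_succ, mul_smul, hP', hn])
    (by
      refine Set.Finite.of_finite_image (f := fun m : T2 ((EC e₁ e₂ e₃)⁄C) => (m : ((EC e₁ e₂ e₃)⁄C).Point))
        ((twoTorsion_finite hW h2).subset ?_) (fun a _ b _ h => Subtype.ext h)
      rintro _ ⟨m, hm, rfl⟩
      exact congrArg Subtype.val hm)
    θ (by
      refine Set.Finite.of_finite_image (f := fun m : T2 ((EC e₁ e₂ e₃)⁄C) => (m : ((EC e₁ e₂ e₃)⁄C).Point))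
        (hfin.subset ?_) (fun a _ b _ h => Subtype.ext h)
      rintro _ ⟨m, hm, rfl⟩
      refine ⟨m.2, ?_⟩
      have h3 : Φ m - m = 0 := hm
      exact congrArg Subtype.val (sub_eq_zero.1 h3))
    fh (by
      intro m
      change fh (Φ m - m) = 0
      rw [map_sub, sub_eq_zero]
      change Additive.ofMul (lam _) = Additive.ofMul (lam _)
      congr 1
      exact hinv _ m.2) ⟨P, hP⟩
  exact hres

end Main

end Pool.Agent.Helper91.Sect
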