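import Pool.Agent.Helper91.Section.FinPlace

/-!
# Places with finite residue field: the transcendental step, and finitely generated fields
-/

universe u

namespace Pool.Agent.Helper91.Sect

open Polynomial

section Transc

variable {K L : Type u} [Field K] [Field L] [Algebra K L] {x : L} {c : K}

/-- `z` takes the value `w` at the point `c` of the line -/
def ValAt (x : L) (c : K) (z : L) (w : K) : Prop :=
  ∃ P Q : K[X], Q.eval c ≠ 0 ∧ z * aeval x Q = aeval x P ∧ w * Q.eval c = P.eval c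

theorem ValAt.unique (hx : Transcendental K x) {z : L} {w w' : K} (h : ValAt x c z w)
    (h' : ValAt x c z w') : w = w' := by
  obtain ⟨P, Q, hQ, hz, hw⟩ := h
  obtain ⟨P', Q', hQ', hz', hw'⟩ := h'
  have h1 : aeval x (P * Q') = aeval x (P' * Q) := by
    rw [map_mul, map_mul, ← hz, ← hz']; ring
  have h2 : P * Q' = P' * Q := by
    by_contra hne
    apply hx
    exact ⟨P * Q' - P' * Q, sub_ne_zero.2 hne, by rw [map_sub, h1, sub_self]⟩
  have h3 := congrArg (eval c) h2
  rw [eval_mul, eval_mul, ← hw, ← hw'] at h3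
  have h4 : w * (Q.eval c * Q'.eval c) = w' * (Q.eval c * Q'.eval c) := by linear_combination h3
  exact mul_right_cancel₀ (mul_ne_zero hQ hQ') h4

theorem ValAt.add {z z' : L} {w w' : K} (h : ValAt x c z w) (h' : ValAt x c z' w') :
    ValAt x c (z + z') (w + w') := by
  obtain ⟨P, Q, hQ, hz, hw⟩ := h
  obtain ⟨P', Q', hQ', hz', hw'⟩ := h'
  refine ⟨P * Q' + P' * Q, Q * Q', by rw [eval_mul]; exact mul_ne_zero hQ hQ', ?_, ?_⟩
  · rw [map_add, map_mul, map_mul, map_mul, ← hz, ← hz']; ring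
  · rw [eval_add, eval_mul, eval_mul, eval_mul, ← hw, ← hw']; ring

theorem ValAt.mul {z z' : L} {w w' : K} (h : ValAt x c z w) (h' : ValAt x c z' w') :
    ValAt x c (z * z') (w * w') := by
  obtain ⟨P, Q, hQ, hz, hw⟩ := h
  obtain ⟨P', Q', hQ', hz', hw'⟩ := h'
  refine ⟨P * P', Q * Q', by rw [eval_mul]; exact mul_ne_zero hQ hQ', ?_, ?_⟩
  · rw [map_mul, map_mul, ← hz, ← hz']; ring
  · rw [eval_mul, eval_mul, ← hw, ← hw']; ring

theorem ValAt.const (a : K) : ValAt x c (algebraMap K L a) a :=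
  ⟨C a, 1, by simp, by simp, by simp⟩

theorem ValAt.one : ValAt x c (1 : L) 1 := by simpa using ValAt.const (x := x) (c := c) (1 : K)

theorem ValAt.neg {z : L} {w : K} (h : ValAt x c z w) : ValAt x c (-z) (-w) := by
  have := (ValAt.const (x := x) (c := c) (-1 : K)).mul h
  simpa using this

theorem ValAt.sub {z z' : L} {w w' : K} (h : ValAt x c z w) (h' : ValAt x c z' w') :
    ValAt x c (z - z') (w - w') := by
  rw [sub_eq_add_neg, sub_eq_add_neg]; exact h.add h'.neg

theorem ValAt.pow {z : L} {w : K} (h : ValAt x c z w) (n : ℕ) : ValAt x c (z ^ n) (w ^ n) := by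
  induction n with
  | zero => rw [pow_zero, pow_zero]; exact ValAt.one
  | succ n ih => rw [pow_succ, pow_succ]; exact ih.mul h

/-- every element or its inverse is finite at `c` -/
theorem valAt_or_inv (hx : Transcendental K x)
    (hgen : ∀ z : L, ∃ P Q : K[X], Q ≠ 0 ∧ z * aeval x Q = aeval x P) (z : L) (hz : z ≠ 0) :
    (∃ w, w ≠ 0 ∧ ValAt x c z w) ∨ ValAt x c z 0 ∨ ValAt x c z⁻¹ 0 := by
  obtain ⟨P, Q, hQ, hPQ⟩ := hgen z
  have haQ : aeval x Q ≠ 0 := fun h0 => hx ⟨Q, hQ, h0⟩
  have hP : P ≠ 0 := by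
    rintro rfl
    rw [map_zero] at hPQ
    exact mul_ne_zero hz haQ hPQ
  obtain ⟨P', hP', hPd⟩ := exists_eq_pow_rootMultiplicity_mul_and_not_dvd P hP c
  obtain ⟨Q', hQ', hQd⟩ := exists_eq_pow_rootMultiplicity_mul_and_not_dvd Q hQ c
  rw [dvd_iff_isRoot, IsRoot.def] at hPd hQd
  set i := P.rootMultiplicity c
  set j := Q.rootMultiplicity c
  set u : L := aeval x (X - C c) with hu
  have hu0 : u ≠ 0 := fun h0 => hx ⟨X - C c, X_sub_C_ne_zero c, h0⟩
  have h1 : z * (u ^ j * aeval x Q') = u ^ i * aeval x P' := by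
    rw [hP', hQ', map_mul, map_mul, map_pow, map_pow] at hPQ
    exact hPQ
  rcases lt_trichotomy i j with hij | hij | hij
  · right; right
    refine ⟨(X - C c) ^ (j - i) * Q', P', hPd, ?_, ?_⟩
    · have h2 : z * (u ^ (j - i) * aeval x Q') = aeval x P' := by
        have h3 : u ^ j = u ^ i * u ^ (j - i) := by rw [← pow_add]; congr 1; omega
        rw [h3] at h1
        have h4 : u ^ i ≠ 0 := pow_ne_zero _ hu0
        apply mul_left_cancel₀ h4
        rw [← h1]; ring
      rw [map_mul, map_pow, ← hu, ← h2]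
      field_simp
    · rw [eval_mul, eval_pow, zero_mul]
      simp [show j - i ≠ 0 by omega]
  · left
    refine ⟨P'.eval c / Q'.eval c, div_ne_zero hPd hQd, P', Q', hQd, ?_, by field_simp⟩
    rw [hij] at h1
    have h4 : u ^ j ≠ 0 := pow_ne_zero _ hu0
    apply mul_left_cancel₀ h4
    rw [← h1]; ring
  · right; left
    refine ⟨(X - C c) ^ (i - j) * P', Q', hQd, ?_, ?_⟩
    · have h3 : u ^ i = u ^ j * u ^ (i - j) := by rw [← pow_add]; congr 1; omega
      rw [h3] at h1
      have h4 : u ^ j ≠ 0 := pow_ne_zero _ hu0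
      rw [map_mul, map_pow, ← hu]
      apply mul_left_cancel₀ h4
      linear_combination h1
    · rw [eval_mul, eval_pow, zero_mul]
      simp [show i - j ≠ 0 by omega]

/-- the composite valuation ring -/
def compV (hx : Transcendental K x)
    (hgen : ∀ z : L, ∃ P Q : K[X], Q ≠ 0 ∧ z * aeval x Q = aeval x P) (c : K)
    (O : ValuationSubring K) : ValuationSubring L where
  carrier := {z | ∃ w ∈ O, ValAt x c z w}
  mul_mem' := by
    rintro a b ⟨w, hw, ha⟩ ⟨w', hw', hb⟩
    exact ⟨w * w', O.mul_mem _ _ hw hw', ha.mul hb⟩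
  one_mem' := ⟨1, O.one_mem, ValAt.one⟩
  add_mem' := by
    rintro a b ⟨w, hw, ha⟩ ⟨w', hw', hb⟩
    exact ⟨w + w', O.add_mem _ _ hw hw', ha.add hb⟩
  zero_mem' := ⟨0, O.zero_mem, by simpa using ValAt.const (x := x) (c := c) (0 : K)⟩
  neg_mem' := by
    rintro a ⟨w, hw, ha⟩
    exact ⟨-w, O.neg_mem _ hw, ha.neg⟩
  mem_or_inv_mem' := by
    intro z
    by_cases hz : z = 0
    · left; rw [hz]
      exact ⟨0, O.zero_mem, by simpa using ValAt.const (x := x) (c := c) (0 : K)⟩
    rcases valAt_or_inv (c := c) hx hgen z hz with ⟨w, hw0, hw⟩ | h | h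
    · rcases O.mem_or_inv_mem w with h1 | h1
      · exact Or.inl ⟨w, h1, hw⟩
      · right
        refine ⟨w⁻¹, h1, ?_⟩
        obtain ⟨P, Q, hQ, hzz, hww⟩ := hw
        have hP : P.eval c ≠ 0 := by rw [← hww]; exact mul_ne_zero hw0 hQ
        refine ⟨Q, P, hP, ?_, ?_⟩
        · rw [← hzz]; field_simp
        · rw [← hww]; field_simp
    · exact Or.inl ⟨0, O.zero_mem, h⟩
    · exact Or.inr ⟨0, O.zero_mem, h⟩

theorem mem_compV {hx : Transcendental K x}
    {hgen : ∀ z : L, ∃ P Q : K[X], Q ≠ 0 ∧ z * aeval x Q = aeval x P} {c : K}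
    {O : ValuationSubring K} {z : L} :
    z ∈ compV hx hgen c O ↔ ∃ w ∈ O, ValAt x c z w := Iff.rfl

theorem compV_lt {hx : Transcendental K x}
    {hgen : ∀ z : L, ∃ P Q : K[X], Q ≠ 0 ∧ z * aeval x Q = aeval x P} {c : K}
    {O : ValuationSubring K} {z : L} {w : K} (h : ValAt x c z w) (hw : O.valuation w < 1) :
    (compV hx hgen c O).valuation z < 1 := by
  rw [← ValuationSubring.mem_nonunits_iff, ValuationSubring.mem_nonunits_iff_or]
  by_cases hz : z = 0
  · exact Or.inl hz
  right
  rintro ⟨w', hw', h'⟩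
  have h1 := h.mul h'
  rw [mul_inv_cancel₀ hz] at h1
  have h2 := h1.unique hx ValAt.one
  have h3 : O.valuation (w * w') < 1 := by
    rw [map_mul]
    exact (mul_le_of_le_one_right' ((O.valuation_le_one_iff w').2 hw')).trans_lt hw
  rw [h2, map_one] at h3
  exact lt_irrefl _ h3

theorem HasPlaces.transcendental [CharZero K] (h : HasPlaces K) (hx : Transcendental K x)
    (hgen : ∀ z : L, ∃ P Q : K[X], Q ≠ 0 ∧ z * aeval x Q = aeval x P) : HasPlaces L := by
  classical
  intro A hA
  choose P Q hQ hPQ using hgen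
  have hP : ∀ a ∈ A, P a ≠ 0 := by
    intro a ha h0
    have h1 := hPQ a
    rw [h0, map_zero] at h1
    exact mul_ne_zero (hA a ha) (fun h2 => hx ⟨Q a, hQ a, h2⟩) h1
  set D : K[X] := ∏ a ∈ A, (P a * Q a) with hD
  have hD0 : D ≠ 0 := Finset.prod_ne_zero_iff.2 fun a ha => mul_ne_zero (hP a ha) (hQ a)
  obtain ⟨c, hc⟩ : ∃ c : K, D.eval c ≠ 0 := by
    by_contra hcon
    push Not at hcon
    exact hD0 (funext fun c => by rw [hcon c, eval_zero])
  have hc' : ∀ a ∈ A, (P a).eval c ≠ 0 ∧ (Q a).eval c ≠ 0 := by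
    intro a ha
    rw [hD, eval_prod, Finset.prod_ne_zero_iff] at hc
    have := hc a ha
    rw [eval_mul] at this
    exact ⟨left_ne_zero_of_mul this, right_ne_zero_of_mul this⟩
  obtain ⟨p, f, hp, hf, O, h1, h2, h3⟩ := h (A.image fun a => (P a).eval c / (Q a).eval c) (by
    intro b hb
    obtain ⟨a, ha, rfl⟩ := Finset.mem_image.1 hb
    exact div_ne_zero (hc' a ha).1 (hc' a ha).2)
  refine ⟨p, f, hp, hf, compV hx (fun z => ⟨P z, Q z, hQ z, hPQ z⟩) c O, ?_, ?_, ?_⟩
  · have := ValAt.const (x := x) (c := c) (p : K)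
    rw [map_natCast] at this
    exact compV_lt this h1
  · rintro z ⟨w, hw, hz⟩
    exact compV_lt ((hz.pow (p ^ f)).sub hz) (h2 w hw)
  · intro a ha
    obtain ⟨hPa, hQa⟩ := hc' a ha
    have h4 := h3 _ (Finset.mem_image_of_mem _ ha)
    rw [val_eq_one_iff' (div_ne_zero hPa hQa)] at h4
    rw [val_eq_one_iff' (hA a ha)]
    refine ⟨⟨_, h4.1, P a, Q a, hQa, hPQ a, by field_simp⟩,
      ⟨_, h4.2, Q a, P a, hPa, ?_, by field_simp⟩⟩
    rw [← hPQ a]
    have := hA a ha
    field_simp

end Transc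

section Rat

theorem hasPlaces_rat : HasPlaces ℚ := by
  classical
  intro A hA
  set D : ℕ := ∏ a ∈ A, (a.num.natAbs * a.den) with hD
  have hD0 : D ≠ 0 := Finset.prod_ne_zero_iff.2 fun a ha =>
    mul_ne_zero (by simpa using hA a ha) a.den_nz
  obtain ⟨p, hpD, hp⟩ := Nat.exists_infinite_primes (D + 1)
  have hpf : Fact p.Prime := ⟨hp⟩
  have hpd : ∀ a ∈ A, ¬ p ∣ a.num.natAbs ∧ ¬ p ∣ a.den := by
    intro a ha
    have h1 : ¬ p ∣ (a.num.natAbs * a.den) := by
      intro h
      have h2 : p ∣ D := h.trans (Finset.dvd_prod_of_mem _ ha)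
      have := Nat.le_of_dvd (Nat.pos_of_ne_zero hD0) h2
      omega
    exact ⟨fun h => h1 (h.mul_right _), fun h => h1 (h.mul_left _)⟩
  set v := Rat.padicValuation p with hv
  have hlt : ∀ z : ℚ, v z < 1 → v.valuationSubring.valuation z < 1 := by
    intro z hz
    rw [← ValuationSubring.mem_nonunits_iff, ValuationSubring.mem_nonunits_iff_or]
    by_cases hz0 : z = 0
    · exact Or.inl hz0
    right
    rw [Valuation.mem_valuationSubring_iff, map_inv₀]
    have h0 : v z ≠ 0 := by simpa using hz0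
    rw [not_le]
    exact (one_lt_inv₀ (zero_lt_iff.2 h0)).2 hz
  refine ⟨p, 1, hp, one_pos, v.valuationSubring, hlt _ ?_, ?_, ?_⟩
  · have := (Int.padicValuation_lt_one_iff (p := p) (x := (p : ℤ))).2 dvd_rfl
    rw [← Rat.padicValuation_cast] at this
    exact_mod_cast this
  · intro z hz
    apply hlt
    rw [Valuation.mem_valuationSubring_iff, hv, Rat.padicValuation_le_one_iff] at hz
    have hden : v (z.den : ℚ) = 1 := by
      have := (Int.padicValuation_eq_one_iff (p := p) (x := (z.den : ℤ))).2 (by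
        rw [Int.natCast_dvd_natCast]; exact hz)
      rw [← Rat.padicValuation_cast] at this
      exact_mod_cast this
    have hnum : v (((z.num ^ p * z.den - z.num * z.den ^ p : ℤ)) : ℚ) < 1 := by
      rw [hv, Rat.padicValuation_cast, Int.padicValuation_lt_one_iff]
      have h1 : ∀ a : ℤ, (p : ℤ) ∣ a ^ p - a := by
        intro a
        rw [← ZMod.intCast_zmod_eq_zero_iff_dvd]
        push_cast
        rw [ZMod.pow_card, sub_self]
      have h2 : z.num ^ p * (z.den : ℤ) - z.num * (z.den : ℤ) ^ p =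
          (z.num ^ p - z.num) * z.den - z.num * ((z.den : ℤ) ^ p - z.den) := by ring
      rw [h2]
      exact dvd_sub ((h1 _).mul_right _) ((h1 _).mul_left _)
    have hz2 : z ^ (p ^ 1) - z =
        (((z.num ^ p * z.den - z.num * z.den ^ p : ℤ)) : ℚ) / (z.den : ℚ) ^ (p + 1) := by
      have hd : (z.den : ℚ) ≠ 0 := by exact_mod_cast z.den_nz
      have hz3 : z = z.num / z.den := (Rat.num_div_den z).symm
      rw [pow_one]
      push_cast
      conv_lhs => rw [hz3]
      rw [div_pow, pow_succ (z.den : ℚ) p]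
      have hdp : (z.den : ℚ) ^ p ≠ 0 := pow_ne_zero _ hd
      rw [div_sub_div _ _ hdp hd]
      congr 1
      ring
    rw [hz2, map_div₀, map_pow, hden, one_pow, div_one]
    exact hnum
  · intro a ha
    obtain ⟨h1, h2⟩ := hpd a ha
    rw [val_eq_one_iff' (hA a ha)]
    have hn : v (a.num : ℚ) = 1 := by
      rw [hv, Rat.padicValuation_cast, Int.padicValuation_eq_one_iff, Int.natCast_dvd]
      exact h1
    have hd : v (a.den : ℚ) = 1 := by
      have := (Int.padicValuation_eq_one_iff (p := p) (x := (a.den : ℤ))).2 (by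
        rw [Int.natCast_dvd_natCast]; exact h2)
      rw [← Rat.padicValuation_cast] at this
      exact_mod_cast this
    have h3 : v a = 1 := by
      rw [← Rat.num_div_den a, map_div₀, hn, hd, div_one]
    constructor
    · rw [Valuation.mem_valuationSubring_iff, h3]
    · rw [Valuation.mem_valuationSubring_iff, map_inv₀, h3, inv_one]

end Rat

section FG

variable {E : Type u} [Field E] [CharZero E]

open IntermediateField in
theorem hasPlaces_of_fg (h : (⊤ : IntermediateField ℚ E).FG) : HasPlaces E := by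
  have key : HasPlaces (⊤ : IntermediateField ℚ E) := by
    refine induction_on_adjoin_fg (F := ℚ) (E := E) (fun K => HasPlaces K) ?_ ?_ ⊤ h
    · exact HasPlaces.of_injective_surj (IntermediateField.botEquiv ℚ E).toRingEquiv hasPlaces_rat
    · intro K x hK
      by_cases hx : Transcendental K x
      · refine HasPlaces.transcendental (K := K) (L := K⟮x⟯) (x := ⟨x, mem_adjoin_simple_self K x⟩)
          hK ?_ ?_
        · intro halg
          exact hx (halg.algHom K⟮x⟯.val)
        · intro z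
          obtain ⟨P, Q, hPQ⟩ := (mem_adjoin_simple_iff K (z : E)).1 z.2
          by_cases hQ : aeval x Q = 0
          · refine ⟨0, 1, one_ne_zero, ?_⟩
            rw [hQ, div_zero] at hPQ
            rw [show z = 0 from Subtype.ext hPQ]
            simp
          · refine ⟨P, Q, fun h0 => hQ (by rw [h0, map_zero]), ?_⟩
            apply Subtype.ext
            have h1 : ∀ R : K[X], ((aeval (⟨x, mem_adjoin_simple_self K x⟩ : K⟮x⟯) R : K⟮x⟯) : E) =
                aeval x R := fun R =>
              (aeval_algHom_apply K⟮x⟯.val (⟨x, mem_adjoin_simple_self K x⟩ : K⟮x⟯) R).symm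
            change (z : E) * ((aeval (⟨x, mem_adjoin_simple_self K x⟩ : K⟮x⟯) Q : K⟮x⟯) : E) =
              ((aeval (⟨x, mem_adjoin_simple_self K x⟩ : K⟮x⟯) P : K⟮x⟯) : E)
            rw [h1, h1, hPQ, div_mul_cancel₀ _ hQ]
      · have hint : IsIntegral K x := (not_not.1 hx : IsAlgebraic K x).isIntegral
        have : FiniteDimensional K K⟮x⟯ := adjoin.finiteDimensional hint
        exact HasPlaces.algebraic (K := K) (L := K⟮x⟯) hK
  exact HasPlaces.of_injective_surj (IntermediateField.topEquiv (F := ℚ) (E := E)).symm.toRingEquiv key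

end FG

end Pool.Agent.Helper91.Sect
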