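import Pool.Agent.Helper91.Section.Func4
import Pool.Agent.Helper91.Section.Elliptic
import Pool.Agent.Helper91.Section.FinPlace2

/-!
# Automorphisms fixing all roots attached to the `2`-power torsion points
-/

universe u

namespace Pool.Agent.Helper91.Sect

open Polynomial WeierstrassCurve WeierstrassCurve.Affine
open scoped Polynomial.Bivariate

theorem evR_fixed {F Ω : Type u} [Field F] [Field Ω] [Algebra F Ω] {W : WeierstrassCurve.Affine F}
    {e₁ e₂ e₃ : F} (hW : IsE W e₁ e₂ e₃) {x y : Ω}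
    (h : y ^ 2 = (x - algebraMap F Ω e₁) * (x - algebraMap F Ω e₂) * (x - algebraMap F Ω e₃))
    (ρ : Ω →+* Ω) (hρ : ∀ c : F, ρ (algebraMap F Ω c) = algebraMap F Ω c) (hx : ρ x = x)
    (hy : ρ y = y) (r : W.CoordinateRing) : ρ (evR hW h r) = evR hW h r := by
  obtain ⟨p, q, rfl⟩ := CoordinateRing.exists_smul_basis_eq r
  have h1 : ∀ p : F[X], ρ (aeval x p) = aeval x p := by
    intro p
    rw [aeval_def, hom_eval₂, hx]
    congr 1
    ext c
    exact hρ c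
  rw [evR_basis, map_add, map_mul, h1, h1, hy]

section

variable {S L Ω : Type u} [Field S] [Field L] [Field Ω] [Algebra S L] [IsGalois S L]
  [IsAlgClosed L] [DecidableEq L] [Algebra L Ω] [IsAlgClosed Ω]

theorem elliptic_rigid (hS : HasPlaces S) {e₁ e₂ e₃ : S} (h2 : (2 : S) ≠ 0) (h1 : e₁ ≠ 0)
    (h2' : e₂ ≠ 0) (h3 : e₃ ≠ 0) (h12 : e₁ ≠ e₂) (h13 : e₁ ≠ e₃) (h23 : e₂ ≠ e₃) :
    ∃ γ : L ≃ₐ[S] L, ∀ {x y : Ω} (h : y ^ 2 = (x - algebraMap L Ω (algebraMap S L e₁)) *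
      (x - algebraMap L Ω (algebraMap S L e₂)) * (x - algebraMap L Ω (algebraMap S L e₃)))
      (_ : Transcendental L x) (ξ ρ : Ω →+* Ω)
      (_ : ∀ c : L, ξ (algebraMap L Ω c) = algebraMap L Ω c) (_ : ξ x = x) (_ : ξ y = y)
      (_ : ∀ c : L, ρ (algebraMap L Ω c) = algebraMap L Ω (γ (γ c))) (_ : ρ x = x) (_ : ρ y = y)
      (_ : ∀ (P : ((EC e₁ e₂ e₃)⁄L).Point) (g : Ω), RootAt (isE_baseChange e₁ e₂ e₃) h P g →
        ξ (ρ g) = ξ g / g * ρ g),
      ∀ (P : ((EC e₁ e₂ e₃)⁄L).Point), P ∈ T2 ((EC e₁ e₂ e₃)⁄L) → ∀ (g : Ω),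
        RootAt (isE_baseChange e₁ e₂ e₃) h P g → ξ g = g := by
  classical
  obtain ⟨p, f, hp, hf, O, hO1, hO2, hO3⟩ := hS {2, e₁, e₂, e₃, e₁ - e₂, e₁ - e₃, e₂ - e₃} (by
    intro a ha
    simp only [Finset.mem_insert, Finset.mem_singleton] at ha
    rcases ha with rfl | rfl | rfl | rfl | rfl | rfl | rfl
    · exact h2
    · exact h1
    · exact h2'
    · exact h3
    · exact sub_ne_zero.2 h12
    · exact sub_ne_zero.2 h13
    · exact sub_ne_zero.2 h23)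
  have hgood : Good O.valuation e₁ e₂ e₃ :=
    ⟨hO3 _ (by simp), (hO3 _ (by simp)).le, (hO3 _ (by simp)).le, (hO3 _ (by simp)).le,
      hO3 _ (by simp), hO3 _ (by simp), hO3 _ (by simp)⟩
  obtain ⟨γ, hγ⟩ := exists_elliptic (C := L) O p f hp hf hO1 hO2 hgood
  refine ⟨γ, ?_⟩
  intro x y h hx ξ ρ hξ hξx hξy hρ hρx hρy hinv
  set hE := isE_baseChange (F := L) e₁ e₂ e₃ with hEdef
  have hfix : ∀ r, ξ (evR hE h r) = evR hE h r := evR_fixed hE h ξ hξ hξx hξy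
  have hg0 : ∀ {P : ((EC e₁ e₂ e₃)⁄L).Point} {g : Ω}, RootAt hE h P g → ξ g / g ≠ 0 := by
    intro P g hg
    have h0 := hg.ne_zero hE h hx
    exact div_ne_zero ((map_ne_zero ξ).2 h0) h0
  let lam : ((EC e₁ e₂ e₃)⁄L).Point → Ωˣ := fun P =>
    if hP : ∃ g, RootAt hE h P g then Units.mk0 _ (hg0 hP.choose_spec) else 1
  have hlam : ∀ {P : ((EC e₁ e₂ e₃)⁄L).Point} {g : Ω}, RootAt hE h P g →
      (lam P : Ω) = ξ g / g := by
    intro P g hg
    have hP : ∃ g, RootAt hE h P g := ⟨g, hg⟩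
    have h4 : lam P = Units.mk0 _ (hg0 hP.choose_spec) := dif_pos hP
    rw [h4, Units.val_mk0]
    exact hP.choose_spec.indep hE h hx hg hfix
  have hex : ∀ P ∈ T2 ((EC e₁ e₂ e₃)⁄L), ∃ g, RootAt hE h P g := by
    intro P hP
    obtain ⟨n, hn⟩ := hP
    exact exists_root hE h P (pow_pos two_pos n) hn
  have hres := hγ Ωˣ lam (by
      intro P hP P' hP'
      obtain ⟨g, hg⟩ := hex P hP
      obtain ⟨g', hg'⟩ := hex P' hP'
      obtain ⟨g'', hg''⟩ := hex (P + P') (add_mem hP hP')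
      apply Units.ext
      rw [Units.val_mul, hlam hg, hlam hg', hlam hg'']
      exact (hg.mul_rel hE h hx hg' hg'' hfix).symm)
    (by
      intro P hP
      obtain ⟨g, hg⟩ := hex P hP
      have h4 := hg.map h ((γ * γ : L ≃ₐ[S] L) : L →ₐ[S] L) ρ hρ hρx hρy
      apply Units.ext
      rw [hlam hg, hlam h4, hinv P g hg]
      have h5 : ρ g ≠ 0 := (map_ne_zero ρ).2 (hg.ne_zero hE h hx)
      rw [mul_div_assoc, div_self h5, mul_one])
  intro P hP g hg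
  have h4 := hlam hg
  rw [hres P hP, Units.val_one] at h4
  have h5 := hg.ne_zero hE h hx
  rw [eq_comm, div_eq_one_iff_eq h5] at h4
  exact h4

end

end Pool.Agent.Helper91.Sect
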