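import Pool.Agent.Helper91.Section.Signs
import Pool.Agent.Helper91.Section.Rigid

/-!
# The roots attached to torsion points are unramified, and their Kummer characters are invariant
-/

universe u

namespace Pool.Agent.Helper91.Sect

open Polynomial

section

variable {k K : Type u} [Field k] [Field K] [Algebra k K]

theorem root_mem_Kur {L : Type u} [Field L] [DecidableEq L] [Algebra L (AlgebraicClosure K)]
    (hL : ∀ z : L, IsAlgebraic k (algebraMap L (AlgebraicClosure K) z))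
    {W : WeierstrassCurve.Affine L} {e₁ e₂ e₃ : L} (hW : IsE W e₁ e₂ e₃) (h2 : (2 : L) ≠ 0)
    (h12 : e₁ ≠ e₂) (h13 : e₁ ≠ e₃) (h23 : e₂ ≠ e₃) {X Y : AlgebraicClosure K}
    (h : Y ^ 2 = (X - algebraMap L (AlgebraicClosure K) e₁) *
      (X - algebraMap L (AlgebraicClosure K) e₂) * (X - algebraMap L (AlgebraicClosure K) e₃))
    (hX : X ∈ Kur k K) (hY : Y ∈ Kur k K) {P : W.Point} {g : AlgebraicClosure K}
    (hg : RootAt hW h P g) : g ∈ Kur k K := by
  intro V hV ϕ hϕ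
  have hfix : ∀ r, ϕ (evR hW h r) = evR hW h r :=
    evR_fixed hW h (ϕ : AlgebraicClosure K →+* AlgebraicClosure K)
      (fun z => inertia_const hV hϕ (hL z)) (hX V hV ϕ hϕ) (hY V hV ϕ hϕ)
  have hTriv : TrivC L V := fun c hc => const_val_eq_one hV (hL c) ((_root_.map_ne_zero _).2 hc)
  obtain ⟨r₁, r₂, hval⟩ := hg.exists_val hW h h2 h12 h13 h23 hTriv
  obtain ⟨n, hn0, hn, r', hr', hgr⟩ := hg
  refine unit_crit hV hϕ (b := evR hW h r₁ / evR hW h r₂) ?_ hval hn0 ?_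
  · rw [map_div₀, hfix, hfix]
  · rw [hgr, hfix]

variable [CharZero k]

theorem root_char (s : GaloisSection k K) {O : ValuationSubring k}
    (Q : IC O (kbar k K)) [hQ : Q.IsPrime]
    (hres : ∀ n : ℕ, n ≠ 0 → (locW Q).valuation (n : kbar k K) = 1)
    {σ τ : Gk k K} (hσ : InD Q σ) (hτ : InI Q τ) {ξ ρ : AlgebraicClosure K ≃ₐ[K] AlgebraicClosure K}
    (hξ : ∀ w : Kur k K, ξ w = s.toHom τ w) (hρ : ∀ w : Kur k K, ρ w = s.toHom σ w)
    {g : AlgebraicClosure K} (hg : g ∈ Kur k K) (hg0 : g ≠ 0) {n : ℕ} (hn : 0 < n)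
    (hξg : ξ (g ^ n) = g ^ n) (hτζ : ∀ ζ : kbar k K, ζ ^ n = 1 → τ ζ = ζ) :
    ξ (ρ g) = ξ g / g * ρ g := by
  have hζn : (ξ g / g) ^ n = 1 := by
    rw [div_pow, ← map_pow, hξg]
    exact div_self (pow_ne_zero n hg0)
  have hζalg : IsAlgebraic k (ξ g / g) :=
    (IsIntegral.of_pow hn (by rw [hζn]; exact isIntegral_one)).isAlgebraic
  set ζ : kbar k K := ⟨ξ g / g, mem_algebraicClosure_iff.2 hζalg⟩ with hζ
  have hζn' : ζ ^ n = 1 := Subtype.ext hζn
  have hact : s.toHom τ ⟨g, hg⟩ = toKur k K ζ * ⟨g, hg⟩ := by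
    apply Subtype.ext
    rw [← hξ]
    change ξ g = ξ g / g * g
    rw [div_mul_cancel₀ _ hg0]
  have h4 := section_inv s Q hres hσ hτ hn.ne' hζn' (hτζ ζ hζn') hact
  have h5 := congrArg Subtype.val h4
  have h6 : ρ g = ((s.toHom σ ⟨g, hg⟩ : Kur k K) : AlgebraicClosure K) := hρ ⟨g, hg⟩
  rw [h6, hξ]
  exact h5

end

end Pool.Agent.Helper91.Sect
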