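import Pool.Agent.Helper91.Section.Signs2
import Pool.Agent.Helper91.Section.RootKur
import Pool.Agent.Helper91.Section.Rigid2

/-!
# There are no two plus and two minus signs, in arbitrary odd residue characteristic
-/

universe u

namespace Pool.Agent.Helper91.Sect

open Polynomial WeierstrassCurve WeierstrassCurve.Affine

section Aux

variable {k K : Type u} [Field k] [Field K] [Algebra k K]

theorem section_pow_char (s : GaloisSection k K) {σ : Gk k K} {w : Kur k K} {ζ : kbar k K}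
    (hζ : σ ζ = ζ) (h : s.toHom σ w = toKur k K ζ * w) (n : ℕ) :
    s.toHom (σ ^ n) w = toKur k K (ζ ^ n) * w := by
  induction n with
  | zero => rw [pow_zero, pow_zero, map_one, map_one, one_mul]; rfl
  | succ n ih =>
    rw [pow_succ', map_mul s.toHom, AlgEquiv.mul_apply, ih, map_mul, section_toKur, map_pow, hζ, h,
      pow_succ, map_mul, mul_assoc]

/-- An element some `2`-power of which is fixed by `σ`, and which is fixed by an odd power of
`s σ`, is fixed. -/
theorem section_fix_of_coprime [CharZero k] (s : GaloisSection k K) {O : ValuationSubring k}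
    (Q : IC O (kbar k K)) [hQ : Q.IsPrime] {p : ℕ} (hp2 : Nat.Coprime 2 p)
    (hres : ∀ n : ℕ, n ≠ 0 → n.Coprime p → (locW Q).valuation (n : kbar k K) = 1)
    {σ : Gk k K} (hσ : InI Q σ) {ξ' : AlgebraicClosure K ≃ₐ[K] AlgebraicClosure K}
    (hξ' : ∀ w : Kur k K, ξ' w = s.toHom σ w) {w : Kur k K} (hw0 : w ≠ 0) {n j : ℕ}
    (h : ξ' ((w : AlgebraicClosure K) ^ (2 ^ n)) = (w : AlgebraicClosure K) ^ (2 ^ n))
    (hfix : s.toHom (σ ^ (p ^ j)) w = w) : s.toHom σ w = w := by
  have hwc0 : (w : AlgebraicClosure K) ≠ 0 := fun h0 => hw0 (Subtype.ext h0)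
  set z := (w : AlgebraicClosure K) with hz
  have hζn : (ξ' z / z) ^ (2 ^ n) = 1 := by
    rw [div_pow, ← map_pow, h]
    exact div_self (pow_ne_zero _ hwc0)
  have hζalg : IsAlgebraic k (ξ' z / z) :=
    (IsIntegral.of_pow (pow_pos two_pos n) (by rw [hζn]; exact isIntegral_one)).isAlgebraic
  set ζ : kbar k K := ⟨ξ' z / z, mem_algebraicClosure_iff.2 hζalg⟩ with hζ
  have hζn' : ζ ^ (2 ^ n) = 1 := Subtype.ext hζn
  have hact : s.toHom σ w = toKur k K ζ * w := by
    apply Subtype.ext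
    rw [← hξ']
    change ξ' z = ξ' z / z * z
    rw [div_mul_cancel₀ _ hwc0]
  have hσζ : σ ζ = ζ := inertia_root Q hres hσ (pow_ne_zero n two_ne_zero) (hp2.pow_left n) hζn'
  rw [section_pow_char s hσζ hact] at hfix
  have h1 : ζ ^ (p ^ j) = 1 := by
    apply (toKur k K).injective
    apply mul_right_cancel₀ hw0
    rw [hfix, map_one, one_mul]
  have h2 : orderOf ζ ∣ 1 := by
    have h3 : Nat.gcd (2 ^ n) (p ^ j) = 1 := Nat.Coprime.pow n j hp2
    rw [← h3]
    exact Nat.dvd_gcd (orderOf_dvd_of_pow_eq_one hζn') (orderOf_dvd_of_pow_eq_one h1)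
  have h4 : ζ = 1 := orderOf_eq_one_iff.1 (Nat.dvd_one.1 h2)
  rw [hact, h4, map_one, one_mul]

end Aux

section

variable {k K : Type u} [Field k] [Field K] [Algebra k K] [CharZero k]
  {O : ValuationSubring k} (Q : IC O (kbar k K)) [hQ : Q.IsPrime]
  {p : ℕ} (hp : p = 1 ∨ p.Prime) (hp2 : Nat.Coprime 2 p)
  (hres : ∀ n : ℕ, n ≠ 0 → n.Coprime p → (locW Q).valuation (n : kbar k K) = 1)
  {x y : K} (hx : Transcendental k x)
  {a₀ c₀ : kbar k K} (ha₀ : a₀ ≠ 0) (hc₀ : c₀ ≠ 0) {R : Finset (kbar k K)}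
  (heq : (c₀ : AlgebraicClosure K) * (algebraMap K (AlgebraicClosure K) y) ^ 2 =
    a₀ * ∏ r ∈ R, (algebraMap K (AlgebraicClosure K) x - (r : AlgebraicClosure K)))
  {v : kbar k K → AlgebraicClosure K}
  (hv : ∀ r : kbar k K, v r ^ 2 = algebraMap K (AlgebraicClosure K) x - (r : AlgebraicClosure K))
  (hv0 : ∀ r : kbar k K, v r ≠ 0)
  (s : GaloisSection k K)
  {τ : Gk k K} (hτ : InI Q τ)
  {ξ : AlgebraicClosure K ≃ₐ[K] AlgebraicClosure K}
  (hξ : ∀ w : Kur k K, ξ w = s.toHom τ w)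
  {ε : kbar k K → ℤˣ}
  (hε : ∀ r ∈ R, ξ (v r) = (((ε r : ℤˣ) : ℤ) : AlgebraicClosure K) * v r)
  (hIR : ∀ σ : Gk k K, InI Q σ → ∀ r ∈ R, σ r = r)
  (hQ1 : ∀ r ∈ R, ∀ r' ∈ R, r ≠ r' → (locW Q).valuation (r - r') = 1)
  {V : ValuationSubring (kbar k K)} (hV2 : V.valuation 2 = 1)
  (hV1 : ∀ r ∈ R, ∀ r' ∈ R, r ≠ r' → V.valuation (r - r') = 1)
  {γ : Gk k K} (hγD : InD Q γ) (hγR : ∀ r ∈ R, γ r = r) {m : ℕ} (hm : 1 < m)
  (hγ : ∀ z, V.valuation z ≤ 1 → Cg V.valuation (γ z) (z ^ m))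

theorem good_aux {S C : Type u} [Field S] [Field C] [Algebra S C] {V : ValuationSubring C}
    (hV2 : V.valuation 2 = 1) {t : Fin 4 → S}
    (ht : ∀ i j, i ≠ j → V.valuation (algebraMap S C (t i - t j)) = 1) {δ : S}
    (hδ : δ = (t 3 - t 0) * (t 3 - t 1) * (t 3 - t 2)) {e : Fin 4 → S}
    (he : ∀ i, e i = -δ / (t 3 - t i)) :
    Good V.valuation (algebraMap S C (e 0)) (algebraMap S C (e 1)) (algebraMap S C (e 2)) := by
  have h0 : ∀ i j, i ≠ j → t i - t j ≠ 0 := by
    intro i j hij h0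
    have := ht i j hij
    rw [h0, map_zero, map_zero] at this
    exact zero_ne_one this
  have hδ1 : V.valuation (algebraMap S C δ) = 1 := by
    rw [hδ, map_mul, map_mul, map_mul, map_mul, ht 3 0 (by decide), ht 3 1 (by decide),
      ht 3 2 (by decide), one_mul, one_mul]
  have he1 : ∀ i, i ≠ 3 → V.valuation (algebraMap S C (e i)) = 1 := by
    intro i hi
    rw [he, map_div₀, map_div₀, map_neg, Valuation.map_neg, hδ1, ht 3 i hi.symm, div_one]
  have hd : ∀ i j, i ≠ 3 → j ≠ 3 → i ≠ j →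
      V.valuation (algebraMap S C (e i) - algebraMap S C (e j)) = 1 := by
    intro i j hi hj hij
    have h4 : e i - e j = -δ * (t i - t j) / ((t 3 - t i) * (t 3 - t j)) := by
      have h5 := h0 3 i hi.symm
      have h6 := h0 3 j hj.symm
      rw [he, he]
      field_simp
      ring
    rw [← map_sub, h4, map_div₀, map_div₀, map_mul, map_mul, map_mul, map_mul, map_neg,
      Valuation.map_neg, hδ1, ht i j hij, ht 3 i hi.symm, ht 3 j hj.symm, one_mul, div_one]
  exact ⟨hV2, (he1 0 (by decide)).le, (he1 1 (by decide)).le, (he1 2 (by decide)).le,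
    hd 0 1 (by decide) (by decide) (by decide), hd 0 2 (by decide) (by decide) (by decide),
    hd 1 2 (by decide) (by decide) (by decide)⟩

include hp hp2 hres hx ha₀ hc₀ heq hv hv0 hτ hξ hε hIR hQ1 hV2 hV1 hγD hγR hm hγ

theorem no_four_wild (r : Fin 4 → kbar k K) (hinj : Function.Injective r) (hr : ∀ i, r i ∈ R)
    (h0 : ε (r 0) = 1) (h1 : ε (r 1) = 1)
    (h2 : ε (r 2) = -1) (h3 : ε (r 3) = -1) : False := by
  classical
  have hcz : CharZero (AlgebraicClosure K) :=
    charZero_of_injective_algebraMap (algebraMap k (AlgebraicClosure K)).injective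
  have hczK : CharZero (Kur k K) :=
    charZero_of_injective_algebraMap ((algebraMap K (Kur k K)).comp (algebraMap k K)).injective
  let S : IntermediateField k (kbar k K) := IntermediateField.adjoin k (Set.range r)
  have halgC : ∀ z : kbar k K, IsAlgebraic k (z : AlgebraicClosure K) := fun z =>
    (mem_algebraicClosure_iff).1 z.2
  let t : Fin 4 → S := fun i => ⟨r i, IntermediateField.subset_adjoin k _ ⟨i, rfl⟩⟩
  have htinj : Function.Injective t := fun i j hij => hinj (congrArg Subtype.val hij)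
  have htne : ∀ i j, i ≠ j → t i - t j ≠ 0 := fun i j hij => sub_ne_zero.2 fun h => hij (htinj h)
  -- automorphisms fixing the four points
  have hSfix : ∀ σ : Gk k K, (∀ i, σ (r i) = r i) → ∃ σ' : kbar k K ≃ₐ[S] kbar k K,
      ∀ z, σ' z = σ z := by
    intro σ hσ
    have h4 : σ ∈ S.fixingSubgroup := by
      rw [IntermediateField.mem_fixingSubgroup_iff]
      intro z hz
      have h5 : S ≤ IntermediateField.fixedField (Subgroup.zpowers σ) := by
        rw [IntermediateField.adjoin_le_iff]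
        rintro _ ⟨i, rfl⟩
        rw [SetLike.mem_coe, IntermediateField.mem_fixedField_iff]
        intro f hf
        obtain ⟨n, rfl⟩ := Subgroup.mem_zpowers_iff.1 hf
        have h6 : σ ∈ MulAction.stabilizer (Gk k K) (r i) := hσ i
        exact Subgroup.zpow_mem _ h6 n
      have h6 := h5 hz
      rw [IntermediateField.mem_fixedField_iff] at h6
      exact h6 σ (Subgroup.mem_zpowers σ)
    exact ⟨IntermediateField.fixingSubgroupEquiv S ⟨σ, h4⟩, fun z => rfl⟩
  obtain ⟨δ, hδ⟩ : ∃ δ : S, δ = (t 3 - t 0) * (t 3 - t 1) * (t 3 - t 2) := ⟨_, rfl⟩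
  have hδ0 : δ ≠ 0 := by
    rw [hδ]
    exact mul_ne_zero (mul_ne_zero (htne 3 0 (by decide)) (htne 3 1 (by decide)))
      (htne 3 2 (by decide))
  obtain ⟨e, he⟩ : ∃ e : Fin 4 → S, ∀ i, e i = -δ / (t 3 - t i) := ⟨_, fun _ => rfl⟩
  -- good reduction
  have hQ2 : (locW Q).valuation 2 = 1 := by
    have h4 := hres 2 two_ne_zero hp2
    exact_mod_cast h4
  have hgoodV : Good V.valuation (algebraMap S (kbar k K) (e 0)) (algebraMap S (kbar k K) (e 1))
      (algebraMap S (kbar k K) (e 2)) := by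
    refine good_aux hV2 (t := t) (fun i j hij => ?_) hδ he
    exact hV1 _ (hr i) _ (hr j) fun h => hij (hinj h)
  have hgoodQ : Good (locW Q).valuation (algebraMap S (kbar k K) (e 0))
      (algebraMap S (kbar k K) (e 1)) (algebraMap S (kbar k K) (e 2)) := by
    refine good_aux hQ2 (t := t) (fun i j hij => ?_) hδ he
    exact hQ1 _ (hr i) _ (hr j) fun h => hij (hinj h)
  obtain ⟨-, hne01, hne02, hne12⟩ := hgoodQ.distinct
  -- the product of the four square roots
  have hV12 := prod_mem_Kur ha₀ hc₀ heq hv (hr 0) (hr 1)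
  have hV34 := prod_mem_Kur ha₀ hc₀ heq hv (hr 2) (hr 3)
  obtain ⟨U, hUcoe⟩ : ∃ U : Kur k K, (U : AlgebraicClosure K) =
      v (r 0) * v (r 1) * (v (r 2) * v (r 3)) :=
    ⟨⟨v (r 0) * v (r 1), hV12⟩ * ⟨v (r 2) * v (r 3), hV34⟩, rfl⟩
  have hU0 : U ≠ 0 := by
    intro h4
    have h5 : v (r 0) * v (r 1) * (v (r 2) * v (r 3)) = 0 := by rw [← hUcoe, h4]; rfl
    exact mul_ne_zero (mul_ne_zero (hv0 _) (hv0 _)) (mul_ne_zero (hv0 _) (hv0 _)) h5
  set X₀ := algebraMap K (AlgebraicClosure K) x with hX₀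
  have hXr : ∀ i, X₀ - ((r i : kbar k K) : AlgebraicClosure K) ≠ 0 := by
    intro i
    rw [← hv]
    exact pow_ne_zero 2 (hv0 _)
  have hUsq : U ^ 2 = (algebraMap K (Kur k K) x - toKur k K (r 0)) *
      (algebraMap K (Kur k K) x - toKur k K (r 1)) *
      ((algebraMap K (Kur k K) x - toKur k K (r 2)) *
      (algebraMap K (Kur k K) x - toKur k K (r 3))) := by
    apply Subtype.ext
    change (U : AlgebraicClosure K) ^ 2 = (X₀ - ((r 0 : kbar k K) : AlgebraicClosure K)) *
      (X₀ - ((r 1 : kbar k K) : AlgebraicClosure K)) *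
      ((X₀ - ((r 2 : kbar k K) : AlgebraicClosure K)) *
      (X₀ - ((r 3 : kbar k K) : AlgebraicClosure K)))
    rw [hUcoe, mul_pow, mul_pow, mul_pow, hv, hv, hv, hv]
  have hsU : ∀ σ : Gk k K, (∀ i, σ (r i) = r i) → s.toHom σ (U ^ 2) = U ^ 2 := by
    intro σ hσ
    rw [hUsq]
    simp only [map_mul, map_sub, section_toKur, hσ, AlgEquiv.commutes]
  have hτr : ∀ i, τ (r i) = r i := fun i => hIR τ hτ _ (hr i)
  have hγr : ∀ i, γ (r i) = r i := fun i => hγR _ (hr i)
  have hγγr : ∀ i, (γ * γ) (r i) = r i := fun i => by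
    rw [AlgEquiv.mul_apply, hγr, hγr]
  -- the elliptic curve
  obtain ⟨D, hD⟩ : ∃ D : AlgebraicClosure K, D = algebraMap (kbar k K) (AlgebraicClosure K)
      (algebraMap S (kbar k K) δ) := ⟨_, rfl⟩
  have hcoe : ∀ i, algebraMap (kbar k K) (AlgebraicClosure K) (algebraMap S (kbar k K) (t i)) =
      ((r i : kbar k K) : AlgebraicClosure K) := fun i => rfl
  have hD' : D = (((r 3 : kbar k K) : AlgebraicClosure K) - ((r 0 : kbar k K) : AlgebraicClosure K))
      * (((r 3 : kbar k K) : AlgebraicClosure K) - ((r 1 : kbar k K) : AlgebraicClosure K))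
      * (((r 3 : kbar k K) : AlgebraicClosure K) - ((r 2 : kbar k K) : AlgebraicClosure K)) := by
    rw [hD, hδ]
    simp only [map_mul, map_sub, hcoe]
  have hecoe : ∀ i, algebraMap (kbar k K) (AlgebraicClosure K) (algebraMap S (kbar k K) (e i)) =
      -D / (((r 3 : kbar k K) : AlgebraicClosure K) - ((r i : kbar k K) : AlgebraicClosure K)) := by
    intro i
    rw [he, map_div₀, map_div₀, map_neg, map_neg, map_sub, map_sub, hcoe, hcoe, hD]
  have hrne : ∀ i, i ≠ 3 → ((r 3 : kbar k K) : AlgebraicClosure K) -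
      ((r i : kbar k K) : AlgebraicClosure K) ≠ 0 := by
    intro i hi h4
    exact hi (hinj (Subtype.ext (sub_eq_zero.1 h4))).symm
  have hD0 : D ≠ 0 := by
    rw [hD']
    exact mul_ne_zero (mul_ne_zero (hrne 0 (by decide)) (hrne 1 (by decide)))
      (hrne 2 (by decide))
  obtain ⟨X, hX⟩ : ∃ X : AlgebraicClosure K, X = D / (X₀ - ((r 3 : kbar k K) : AlgebraicClosure K))
    := ⟨_, rfl⟩
  obtain ⟨Y, hY⟩ : ∃ Y : AlgebraicClosure K,
    Y = D * U / (X₀ - ((r 3 : kbar k K) : AlgebraicClosure K)) ^ 2 := ⟨_, rfl⟩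
  have hUsq' : (U : AlgebraicClosure K) ^ 2 = (X₀ - ((r 0 : kbar k K) : AlgebraicClosure K)) *
      (X₀ - ((r 1 : kbar k K) : AlgebraicClosure K)) *
      ((X₀ - ((r 2 : kbar k K) : AlgebraicClosure K)) *
      (X₀ - ((r 3 : kbar k K) : AlgebraicClosure K))) := by
    rw [hUcoe, mul_pow, mul_pow, mul_pow, hv, hv, hv, hv]
  have hXe : ∀ i, i ≠ 3 → X - -D / (((r 3 : kbar k K) : AlgebraicClosure K) -
      ((r i : kbar k K) : AlgebraicClosure K)) =
      D / (((r 3 : kbar k K) : AlgebraicClosure K) - ((r i : kbar k K) : AlgebraicClosure K)) *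
      ((X₀ - ((r i : kbar k K) : AlgebraicClosure K)) /
        (X₀ - ((r 3 : kbar k K) : AlgebraicClosure K))) := by
    intro i hi
    have h4 := hrne i hi
    have h5 := hXr 3
    rw [hX]
    field_simp
    ring
  have h : Y ^ 2 = (X - algebraMap (kbar k K) (AlgebraicClosure K) (algebraMap S (kbar k K) (e 0))) *
      (X - algebraMap (kbar k K) (AlgebraicClosure K) (algebraMap S (kbar k K) (e 1))) *
      (X - algebraMap (kbar k K) (AlgebraicClosure K) (algebraMap S (kbar k K) (e 2))) := by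
    rw [hecoe, hecoe, hecoe, hXe 0 (by decide), hXe 1 (by decide), hXe 2 (by decide), hY, div_pow,
      mul_pow, hUsq']
    have h4 := hrne 0 (by decide)
    have h5 := hrne 1 (by decide)
    have h6 := hrne 2 (by decide)
    have h7 := hXr 3
    field_simp
    rw [hD']
    ring
  -- transcendence
  have hDalg : IsAlgebraic k D := by rw [hD]; exact halgC _
  have htr : Transcendental (kbar k K) X := by
    intro halg
    have h5 : IsAlgebraic k X := halg.restrictScalars k
    have h6 : X₀ = ((r 3 : kbar k K) : AlgebraicClosure K) + D / X := by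
      have h7 := hXr 3
      rw [hX]
      field_simp
      ring
    have h8 : IsAlgebraic k X₀ := by
      rw [h6]
      exact (halgC _).add (hDalg.mul h5.inv)
    exact hx ((isAlgebraic_algebraMap_iff (algebraMap K (AlgebraicClosure K)).injective).1 h8)
  have hX₀K : X₀ ∈ Kur k K := (Kur k K).algebraMap_mem x
  have hDK : D ∈ Kur k K := algebraic_mem_Kur hDalg
  have hXK : X ∈ Kur k K := by
    rw [hX]
    exact div_mem hDK (sub_mem hX₀K (kbar_mem_Kur _))
  have hYK : Y ∈ Kur k K := by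
    rw [hY]
    exact div_mem (mul_mem hDK U.2) (pow_mem (sub_mem hX₀K (kbar_mem_Kur _)) 2)
  -- the action of the extensions
  have hact : ∀ (σ : Gk k K) (ξ' : AlgebraicClosure K ≃ₐ[K] AlgebraicClosure K),
      (∀ w : Kur k K, ξ' w = s.toHom σ w) → (∀ i, σ (r i) = r i) → s.toHom σ U = U →
      ξ' X = X ∧ ξ' Y = Y := by
    intro σ ξ' hξ' hσ hσU
    have h4 : ∀ i, ξ' ((r i : kbar k K) : AlgebraicClosure K) =
        ((r i : kbar k K) : AlgebraicClosure K) := fun i => by
      rw [ext_const s hξ', hσ]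
    have h5 : ξ' X₀ = X₀ := ξ'.commutes x
    have h6 : ξ' D = D := by
      rw [hD']
      simp only [map_mul, map_sub, h4]
    have h7 : ξ' U = (U : AlgebraicClosure K) := by rw [hξ', hσU]
    exact ⟨by rw [hX, map_div₀, map_sub, h6, h5, h4],
      by rw [hY, map_div₀, map_pow, map_mul, map_sub, h6, h5, h4, h7]⟩
  have hτU : s.toHom τ U = U := by
    apply Subtype.ext
    rw [← hξ, hUcoe, map_mul, map_mul, map_mul, hε _ (hr 0), hε _ (hr 1), hε _ (hr 2),
      hε _ (hr 3), h0, h1, h2, h3]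
    push_cast
    ring
  have hγγU : s.toHom (γ * γ) U = U := by
    have h4 := hsU γ hγr
    rw [map_pow, sq_eq_sq_iff_eq_or_eq_neg] at h4
    rw [map_mul s.toHom, AlgEquiv.mul_apply]
    rcases h4 with h4 | h4
    · rw [h4, h4]
    · rw [h4, map_neg, h4, neg_neg]
  obtain ⟨hξX, hξY⟩ := hact τ ξ hξ hτr hτU
  obtain ⟨ρ, hρ⟩ := exists_ext s (γ * γ)
  obtain ⟨hρX, hρY⟩ := hact (γ * γ) ρ hρ hγγr hγγU
  obtain ⟨τ', hτ'⟩ := hSfix τ hτr
  obtain ⟨γ', hγ'⟩ := hSfix (γ * γ) hγγr
  have hm2 : 1 < m * m := by nlinarith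
  have hγ'V : ∀ z, V.valuation z ≤ 1 → Cg V.valuation (γ' z) (z ^ (m * m)) := by
    intro z hz
    have h4 := hγ z hz
    have h5 := hγ (γ z) h4.1
    rw [hγ', pow_mul]
    exact h5.trans (h4.pow _)
  have hIS : ∀ σ : Gk k K, InI Q σ → ∀ σ' : kbar k K ≃ₐ[S] kbar k K, (∀ z, σ' z = σ z) →
      ∀ z, (locW Q).valuation z ≤ 1 → (locW Q).valuation (σ' z - z) < 1 := by
    intro σ hσ σ' hσ' z hz
    rw [hσ']
    exact val_inertia Q hσ hz
  have hE := isE_baseChange (F := kbar k K) (e 0) (e 1) (e 2)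
  have hroot2 : ∀ (n : ℕ) (ζ : AlgebraicClosure K), ζ ^ (2 ^ n) = 1 → ξ ζ = ζ := by
    intro n ζ hζ
    have hζalg : IsAlgebraic k ζ :=
      (IsIntegral.of_pow (pow_pos two_pos n) (by rw [hζ]; exact isIntegral_one)).isAlgebraic
    have h4 := ext_const s hξ ⟨ζ, mem_algebraicClosure_iff.2 hζalg⟩
    rw [inertia_root Q hres hτ (pow_ne_zero n two_ne_zero) (hp2.pow_left n)
      (Subtype.ext hζ)] at h4
    exact h4
  have hfinal := elliptic_rigid2 hgoodV γ' hm2 hγ'V hgoodQ τ' (hIS τ hτ τ' hτ') h htr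
    (ξ : AlgebraicClosure K →+* AlgebraicClosure K)
    (ρ : AlgebraicClosure K →+* AlgebraicClosure K)
    (fun c => by rw [hτ']; exact ext_const s hξ c) hξX hξY hroot2
    (fun c => by rw [hγ']; exact ext_const s hρ c) hρX hρY
    (by
      intro P g hP hg
      have hgK := root_mem_Kur halgC hE two_ne_zero hne01 hne02 hne12 h hXK hYK hg.rootAt
      have hg0 : g ≠ 0 := hg.rootAt.ne_zero hE h htr
      obtain ⟨n, hn, r', hr', hmon, hgr⟩ := id hg
      -- invariance of the power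
      have hpow : ∀ σ : Gk k K, InI Q σ → s.toHom σ U = U →
          ∀ ξ' : AlgebraicClosure K ≃ₐ[K] AlgebraicClosure K,
          (∀ w : Kur k K, ξ' w = s.toHom σ w) → ξ' (g ^ (2 ^ n)) = g ^ (2 ^ n) := by
        intro σ hσ hσU ξ' hξ'
        have hσr : ∀ i, σ (r i) = r i := fun i => hIR σ hσ _ (hr i)
        obtain ⟨σ', hσ'⟩ := hSfix σ hσr
        obtain ⟨hX', hY'⟩ := hact σ ξ' hξ' hσr hσU
        rw [hgr]
        exact gen_fix hE h htr (map_baseChange_eq (EC (e 0) (e 1) (e 2))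
          (σ' : kbar k K →ₐ[S] kbar k K)) (ξ' : AlgebraicClosure K →+* AlgebraicClosure K)
          (fun c => (ext_const s hξ' c).trans (congrArg _ (hσ' c).symm)) hX' hY'
          (inertia_fixP hgoodQ σ' (hIS σ hσ σ' hσ') hP) hr' hmon
      set w : Kur k K := ⟨g, hgK⟩ with hw
      have hw0 : w ≠ 0 := fun h4 => hg0 (congrArg Subtype.val h4)
      have hζn : (ξ g / g) ^ (2 ^ n) = 1 := by
        rw [div_pow, ← map_pow, hpow τ hτ hτU ξ hξ]
        exact div_self (pow_ne_zero _ hg0)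
      have hζalg : IsAlgebraic k (ξ g / g) :=
        (IsIntegral.of_pow (pow_pos two_pos n) (by rw [hζn]; exact isIntegral_one)).isAlgebraic
      set ζ : kbar k K := ⟨ξ g / g, mem_algebraicClosure_iff.2 hζalg⟩ with hζ
      have hζn' : ζ ^ (2 ^ n) = 1 := Subtype.ext hζn
      have hactw : s.toHom τ w = toKur k K ζ * w := by
        apply Subtype.ext
        rw [← hξ]
        change ξ g = ξ g / g * g
        rw [div_mul_cancel₀ _ hg0]
      have hτζ : τ ζ = ζ := inertia_root Q hres hτ (pow_ne_zero n two_ne_zero) (hp2.pow_left n) hζn'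
      have h4 := section_inv_wild s Q hp hres (hγD.mul hγD) hτ (pow_ne_zero n two_ne_zero) hζn' hτζ
        hactw {w, U} (by
          intro σ j hσ hfix
          have hσr : ∀ i, σ (r i) = r i := fun i => hIR σ hσ _ (hr i)
          have hσU : s.toHom σ U = U := section_fix_of_odd s hU0 (hsU σ hσr)
            ((Nat.coprime_two_left.1 hp2).pow) (hfix U (by simp))
          obtain ⟨ξ', hξ'⟩ := exists_ext s σ
          exact section_fix_of_coprime s Q hp2 hres hσ hξ' hw0 (hpow σ hσ hσU ξ' hξ')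
            (hfix w (by simp)))
      have h5 := congrArg Subtype.val h4
      have h6 : ρ g = ((s.toHom (γ * γ) w : Kur k K) : AlgebraicClosure K) := hρ w
      change ξ (ρ g) = ξ g / g * ρ g
      rw [h6, hξ]
      exact h5)
  -- the two-torsion point
  obtain ⟨κ, hκ⟩ := IsAlgClosed.exists_pow_nat_eq
    (algebraMap S (kbar k K) (δ / (t 3 - t 0))) two_pos
  have hκ1 : (locW Q).valuation κ = 1 := by
    have h4 : (locW Q).valuation (κ ^ 2) = 1 := by
      have h5 : ∀ i j, i ≠ j → (locW Q).valuation (algebraMap S (kbar k K) (t i - t j)) = 1 :=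
        fun i j hij => hQ1 _ (hr i) _ (hr j) fun h => hij (hinj h)
      rw [hκ, hδ, map_div₀, map_div₀, map_mul, map_mul, map_mul, map_mul, h5 3 0 (by decide),
        h5 3 1 (by decide), h5 3 2 (by decide), one_mul, one_mul, div_one]
    rw [map_pow] at h4
    exact (pow_eq_one_iff_of_nonneg zero_le two_ne_zero).1 h4
  have hτκ : τ κ = κ := by
    refine inertia_sqrt Q hres hp2 hτ hκ1 ?_
    rw [hκ, ← hτ', AlgEquiv.commutes]
  obtain ⟨g₁, hg₁⟩ : ∃ g₁ : AlgebraicClosure K, g₁ = algebraMap (kbar k K) (AlgebraicClosure K) κ *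
      (v (r 0) * v (r 3) / (X₀ - ((r 3 : kbar k K) : AlgebraicClosure K))) := ⟨_, rfl⟩
  have hg₁sq : g₁ ^ 2 = X -
      algebraMap (kbar k K) (AlgebraicClosure K) (algebraMap S (kbar k K) (e 0)) := by
    rw [hecoe, hXe 0 (by decide), hg₁, mul_pow, ← map_pow, hκ, div_pow, mul_pow, hv, hv, map_div₀,
      map_sub, map_div₀, map_sub, hcoe, hcoe, ← hD]
    have h4 := hXr 3
    have h5 := hrne 0 (by decide)
    field_simp
  obtain ⟨P, hP, hPg⟩ := exists_rootM_two hE h two_ne_zero hne01 hne02 hne12 hg₁sq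
  have hg₁0 : g₁ ≠ 0 := hPg.rootAt.ne_zero hE h htr
  have hξκ : ξ (algebraMap (kbar k K) (AlgebraicClosure K) κ) =
      algebraMap (kbar k K) (AlgebraicClosure K) κ :=
    (ext_const s hξ κ).trans (congrArg _ hτκ)
  have hneg : ξ g₁ = -g₁ := by
    have h4 : ξ ((r 3 : kbar k K) : AlgebraicClosure K) =
        ((r 3 : kbar k K) : AlgebraicClosure K) := by
      rw [ext_const s hξ, hτr]
    have h5 : ξ X₀ = X₀ := ξ.commutes x
    rw [hg₁, map_mul, map_div₀, map_mul, map_sub, hξκ, h5, h4, hε _ (hr 0), hε _ (hr 3), h0, h3]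
    push_cast
    ring
  have h4 : ξ g₁ = g₁ := hfinal P hP g₁ hPg
  rw [hneg] at h4
  have h5 : 2 * g₁ = 0 := by linear_combination -h4
  exact hg₁0 ((mul_eq_zero.1 h5).resolve_left two_ne_zero)

end

end Pool.Agent.Helper91.Sect
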