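import Pool.Agent.Helper91.Section.Main2
import Pool.Agent.Helper91.Section.FinPlace3

/-!
# The final form of the theorem on ramified twists
-/

universe u

namespace Pool.Agent.Helper91.Sect

open Polynomial

theorem hensel_root {k : Type u} [Field k] {O : ValuationSubring k} [HenselianLocalRing O]
    {f : O[X]} (hlc : IsUnit f.leadingCoeff) (hsep : (f.map (IsLocalRing.residue O)).Separable)
    {a : IsLocalRing.ResidueField O} (ha : (f.map (IsLocalRing.residue O)).eval a = 0) :
    ∃ r : O, f.eval r = 0 := by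
  obtain ⟨a₀, rfl⟩ := IsLocalRing.residue_surjective a
  obtain ⟨u, hu⟩ := hlc
  have hmon : (C (↑u⁻¹ : O) * f).Monic := by
    rw [Monic, leadingCoeff_mul, leadingCoeff_C, ← hu, Units.inv_mul]
  have h0 : f.eval a₀ ∈ IsLocalRing.maximalIdeal O := by
    rw [← IsLocalRing.residue_eq_zero_iff]
    rw [eval_map, eval₂_at_apply] at ha
    exact ha
  have h1 : f.derivative.eval a₀ ∉ IsLocalRing.maximalIdeal O := by
    rw [← IsLocalRing.residue_eq_zero_iff]
    obtain ⟨p, q, hpq⟩ := hsep
    intro h2
    have h3 := congrArg (eval (IsLocalRing.residue O a₀)) hpq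
    rw [eval_add, eval_mul, eval_mul, ha, mul_zero, zero_add, eval_one, derivative_map, eval_map,
      eval₂_at_apply, h2, mul_zero] at h3
    exact zero_ne_one h3
  obtain ⟨r, hr, -⟩ := HenselianLocalRing.is_henselian (C (↑u⁻¹ : O) * f) hmon a₀
    (by rw [eval_mul]; exact Ideal.mul_mem_left _ _ h0)
    (by
      rw [derivative_mul, derivative_C, zero_mul, zero_add, eval_mul, eval_C]
      refine (Units.isUnit _).mul ?_
      by_contra hcon
      exact h1 ((IsLocalRing.mem_maximalIdeal _).2 hcon))
  refine ⟨r, ?_⟩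
  rw [IsRoot.def, eval_mul, eval_C] at hr
  have h2 := congrArg (fun z => (u : O) * z) hr
  simpa using h2

end Pool.Agent.Helper91.Sect
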