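import Pool.Agent.Helper91.Section.Val
import Pool.Agent.Helper91.Section.Tame2

/-!
# Places with finite residue field on finitely generated fields
-/

universe u v

namespace Pool.Agent.Helper91.Sect

open Polynomial

/-- The field `K` has places with finite residue field at which any given finite set of nonzero
elements consists of units. -/
def HasPlaces (K : Type u) [Field K] : Prop :=
  ∀ A : Finset K, (∀ a ∈ A, a ≠ 0) → ∃ p f : ℕ, p.Prime ∧ 0 < f ∧ ∃ O : ValuationSubring K,
    O.valuation (p : K) < 1 ∧ (∀ z ∈ O, O.valuation (z ^ (p ^ f) - z) < 1) ∧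
    ∀ a ∈ A, O.valuation a = 1

section Comap

variable {K : Type u} {L : Type v} [Field K] [Field L]

theorem comap_val_lt {O : ValuationSubring L} (f : K →+* L) {z : K} :
    (O.comap f).valuation z < 1 ↔ O.valuation (f z) < 1 := by
  rw [← ValuationSubring.mem_nonunits_iff, ← ValuationSubring.mem_nonunits_iff,
    ValuationSubring.mem_nonunits_iff_or, ValuationSubring.mem_nonunits_iff_or,
    ValuationSubring.mem_comap, map_inv₀, map_eq_zero]

theorem val_eq_one_iff' {O : ValuationSubring K} {z : K} (hz : z ≠ 0) :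
    O.valuation z = 1 ↔ z ∈ O ∧ z⁻¹ ∈ O := by
  rw [← O.valuation_le_one_iff, ← O.valuation_le_one_iff, map_inv₀]
  have h0 : O.valuation z ≠ 0 := by simpa using hz
  constructor
  · intro h; rw [h]; simp
  · rintro ⟨h1, h2⟩
    exact le_antisymm h1 ((inv_le_one₀ (zero_lt_iff.2 h0)).1 h2)

theorem HasPlaces.of_injective_surj (e : K ≃+* L) (h : HasPlaces L) : HasPlaces K := by
  classical
  intro A hA
  obtain ⟨p, f, hp, hf, O, h1, h2, h3⟩ := h (A.image e) (by
    intro a ha
    obtain ⟨b, hb, rfl⟩ := Finset.mem_image.1 ha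
    simpa using hA b hb)
  refine ⟨p, f, hp, hf, O.comap (e : K →+* L), ?_, ?_, ?_⟩
  · rw [comap_val_lt, map_natCast]; exact h1
  · intro z hz
    rw [comap_val_lt, map_sub, map_pow]
    exact h2 _ hz
  · intro a ha
    have h4 := h3 (e a) (Finset.mem_image_of_mem _ ha)
    have ha0 := hA a ha
    rw [val_eq_one_iff' (by simpa using ha0)] at h4
    rw [val_eq_one_iff' ha0]
    refine ⟨h4.1, ?_⟩
    rw [ValuationSubring.mem_comap, map_inv₀]
    exact h4.2

end Comap

section Algebraic

variable {K L : Type u} [Field K] [Field L] [Algebra K L]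

/-- a root of a nonzero polynomial of degree at most `n` over a finite field with `q` elements -/
theorem pow_eq_of_root {κ k : Type*} [Field κ] [Field k] [Algebra κ k] [Finite κ] {q : ℕ}
    (hq : Nat.card κ = q) {n : ℕ} {p : κ[X]} (hp : p ≠ 0) (hdeg : p.natDegree ≤ n)
    {z : k} (hz : aeval z p = 0) : z ^ (q ^ n.factorial) = z := by
  classical
  have halg : IsAlgebraic κ z := ⟨p, hp, hz⟩
  have hint : IsIntegral κ z := halg.isIntegral
  have : FiniteDimensional κ (IntermediateField.adjoin κ {z}) :=
    IntermediateField.adjoin.finiteDimensional hint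
  set E := IntermediateField.adjoin κ {z} with hE
  have hfinE : Finite E := Module.finite_of_finite κ
  set d := Module.finrank κ E with hd
  have hcard : Nat.card E = q ^ d := by rw [Module.natCard_eq_pow_finrank (K := κ), hq]
  have hd0 : 0 < d := Module.finrank_pos
  have hdn : d ≤ n := by
    rw [hd, IntermediateField.adjoin.finrank hint]
    exact (natDegree_le_of_dvd (minpoly.dvd κ z hz) hp).trans hdeg
  have hz1 : z ^ (q ^ d) = z := by
    have : Fintype E := Fintype.ofFinite E
    have h1 := FiniteField.pow_card (⟨z, IntermediateField.mem_adjoin_simple_self κ z⟩ : E)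
    rw [← Nat.card_eq_fintype_card, hcard] at h1
    exact congrArg Subtype.val h1
  obtain ⟨m, hm⟩ := Nat.dvd_factorial hd0 hdn
  rw [hm, pow_mul]
  clear hm
  induction m with
  | zero => simp
  | succ m ih => rw [pow_succ, pow_mul, ih, hz1]

theorem exists_primitive_of {O : ValuationSubring K} {p : K[X]} (hp0 : p ≠ 0) {z : L}
    (hpz : aeval z p = 0) :
    ∃ q : O[X], aeval z q = 0 ∧ (∃ i, q.coeff i = 1) ∧ q.natDegree ≤ p.natDegree := by
  have hne : p.support.Nonempty := by rwa [nonempty_support_iff]
  obtain ⟨j, hj, hmax⟩ := p.support.exists_max_image (fun i => O.valuation (p.coeff i)) hne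
  have hj0 : p.coeff j ≠ 0 := by rwa [mem_support_iff] at hj
  have hvj : O.valuation (p.coeff j) ≠ 0 := by simpa using hj0
  have hlift : Polynomial.C (p.coeff j)⁻¹ * p ∈ lifts (algebraMap O K) := by
    rw [lifts_iff_coeff_lifts]
    intro n
    rw [coeff_C_mul]
    have h1 : O.valuation ((p.coeff j)⁻¹ * p.coeff n) ≤ 1 := by
      rw [map_mul, map_inv₀]
      by_cases hn : n ∈ p.support
      · have := hmax n hn
        calc (O.valuation (p.coeff j))⁻¹ * O.valuation (p.coeff n)
            ≤ (O.valuation (p.coeff j))⁻¹ * O.valuation (p.coeff j) := by gcongr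
          _ = 1 := inv_mul_cancel₀ hvj
      · rw [notMem_support_iff] at hn
        rw [hn]; simp
    exact ⟨⟨_, (O.valuation_le_one_iff _).1 h1⟩, rfl⟩
  rw [mem_lifts] at hlift
  obtain ⟨q, hq⟩ := hlift
  refine ⟨q, ?_, ⟨j, ?_⟩, ?_⟩
  · have h2 : aeval z (q.map (algebraMap O K)) = 0 := by
      rw [hq, map_mul, hpz, mul_zero]
    rwa [aeval_map_algebraMap] at h2
  · have h3 : (q.map (algebraMap O K)).coeff j = 1 := by
      rw [hq, coeff_C_mul]
      exact inv_mul_cancel₀ hj0
    rw [coeff_map] at h3
    apply Subtype.ext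
    exact h3
  · rw [← natDegree_map_eq_of_injective (IsFractionRing.injective O K) q, hq]
    exact natDegree_C_mul_le _ _

theorem HasPlaces.algebraic [FiniteDimensional K L] (h : HasPlaces K) : HasPlaces L := by
  classical
  intro A hA
  -- coefficients of the minimal polynomials
  let cf : K[X] → Finset K := fun p => (p.support.image p.coeff)
  have hcf : ∀ (p : K[X]) (a : K), a ∈ cf p → a ≠ 0 := by
    intro p a ha
    obtain ⟨i, hi, rfl⟩ := Finset.mem_image.1 ha
    exact mem_support_iff.1 hi
  set A0 : Finset K := A.biUnion fun a => cf (minpoly K a) ∪ cf (minpoly K a⁻¹) with hA0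
  obtain ⟨p, f, hp, hf, O, h1, h2, h3⟩ := h A0 (by
    intro a ha
    rw [hA0, Finset.mem_biUnion] at ha
    obtain ⟨b, -, hb⟩ := ha
    rcases Finset.mem_union.1 hb with hb | hb
    · exact hcf _ _ hb
    · exact hcf _ _ hb)
  have hinj : Function.Injective (algebraMap O (integralClosure O L)) := by
    intro a b h
    have h1 : algebraMap K L a = algebraMap K L b := congrArg Subtype.val h
    exact Subtype.ext ((algebraMap K L).injective h1)
  obtain ⟨Q, hQ, hcomap⟩ := Ideal.exists_ideal_over_maximal_of_isIntegral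
    (S := integralClosure O L) (IsLocalRing.maximalIdeal O) (by
      rw [(RingHom.injective_iff_ker_eq_bot _).1 hinj]; exact bot_le)
  have hQp : Q.IsPrime := hQ.isPrime
  have hAb : ∀ c : O, algebraMap O (integralClosure O L) c ∈ Q ↔ O.valuation (c : K) < 1 := by
    intro c
    rw [← O.valuation_lt_one_iff, ← hcomap, Ideal.mem_comap]
  have hlow : ∀ c : K, c ∈ O → algebraMap K L c ∈ locW Q := fun c hc =>
    coe_mem_locW Q (algebraMap O (integralClosure O L) ⟨c, hc⟩)
  have hlt : ∀ c : K, O.valuation c < 1 → (locW Q).valuation (algebraMap K L c) < 1 := by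
    intro c hc
    have hcO : c ∈ O := (O.valuation_le_one_iff c).1 hc.le
    exact (val_coe_lt_one_iff Q (algebraMap O (integralClosure O L) ⟨c, hcO⟩)).2
      ((hAb ⟨c, hcO⟩).2 hc)
  -- the residue fields
  set κ := IsLocalRing.ResidueField O with hκ
  set k := IsLocalRing.ResidueField (locW Q) with hk
  let g0 : O →+* locW Q := ((algebraMap K L).comp (algebraMap O K)).codRestrict
    (locW Q).toSubring (fun c => hlow c c.2)
  let g1 : O →+* k := (IsLocalRing.residue (locW Q)).comp g0
  let g : κ →+* k := Ideal.Quotient.lift (IsLocalRing.maximalIdeal O) g1 (by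
    intro c hc
    change IsLocalRing.residue (locW Q) (g0 c) = 0
    rw [IsLocalRing.residue_eq_zero_iff, ValuationSubring.valuation_lt_one_iff]
    rw [O.valuation_lt_one_iff] at hc
    exact hlt _ hc)
  have hg : ∀ c : O, g (IsLocalRing.residue O c) = IsLocalRing.residue (locW Q) (g0 c) :=
    fun c => rfl
  let algκ : Algebra κ k := g.toAlgebra
  have hpow : ∀ x : κ, x ^ (p ^ f) = x := by
    intro x
    obtain ⟨c, rfl⟩ := IsLocalRing.residue_surjective x
    rw [← map_pow, ← sub_eq_zero, ← map_sub, IsLocalRing.residue_eq_zero_iff,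
      O.valuation_lt_one_iff]
    exact h2 c c.2
  have hpf1 : 1 < p ^ f := Nat.one_lt_pow hf.ne' hp.one_lt
  have hfinκ : Finite κ := by
    have hpoly : (X ^ (p ^ f) - X : κ[X]) ≠ 0 := by
      intro h0
      have h1 := congrArg (fun q => coeff q (p ^ f)) h0
      simp only [coeff_sub, coeff_X_pow, coeff_X, if_true, coeff_zero] at h1
      rw [if_neg (by omega)] at h1
      simp at h1
    have hsub : (Set.univ : Set κ) ⊆ (X ^ (p ^ f) - X : κ[X]).roots.toFinset := by
      intro x _
      simp only [Finset.mem_coe, Multiset.mem_toFinset]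
      rw [mem_roots hpoly]
      simp [IsRoot.def, hpow x]
    exact Set.finite_univ_iff.1 ((Finset.finite_toSet _).subset hsub)
  have hpκ : (p : κ) = 0 := by
    have : (p : κ) = IsLocalRing.residue O (p : O) := by simp
    rw [this, IsLocalRing.residue_eq_zero_iff, O.valuation_lt_one_iff]
    exact_mod_cast h1
  have hchar : CharP κ p := (CharP.charP_iff_prime_eq_zero hp).2 hpκ
  have ftκ : Fintype κ := Fintype.ofFinite κ
  obtain ⟨e, -, he⟩ := FiniteField.card κ p
  set n := Module.finrank K L with hn
  refine ⟨p, (e : ℕ) * n.factorial, hp, Nat.mul_pos e.pos (Nat.factorial_pos n), locW Q, ?_, ?_, ?_⟩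
  · have := hlt _ h1
    rwa [map_natCast] at this
  · intro z hz
    have hzint : IsIntegral K z := Algebra.IsIntegral.isIntegral z
    obtain ⟨q, hqz, ⟨i, hi⟩, hqdeg⟩ := exists_primitive_of (O := O) (minpoly.ne_zero hzint)
      (minpoly.aeval K z)
    have hqn : q.natDegree ≤ n := hqdeg.trans (minpoly.natDegree_le z)
    have h4 : q.map (IsLocalRing.residue O) ≠ 0 := by
      intro h0
      have := congrArg (fun q => coeff q i) h0
      simp only [coeff_map, hi, map_one, coeff_zero] at this
      exact one_ne_zero this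
    have h5 : aeval (IsLocalRing.residue (locW Q) ⟨z, hz⟩) (q.map (IsLocalRing.residue O)) = 0 := by
      rw [aeval_def, eval₂_map]
      have h6 : (algebraMap κ k).comp (IsLocalRing.residue O) =
          (IsLocalRing.residue (locW Q)).comp g0 := RingHom.ext hg
      rw [h6, ← hom_eval₂]
      have h7 : eval₂ g0 (⟨z, hz⟩ : locW Q) q = 0 := by
        apply Subtype.ext
        have h8 := hom_eval₂ q g0 (locW Q).subtype ⟨z, hz⟩
        change (locW Q).subtype (eval₂ g0 (⟨z, hz⟩ : locW Q) q) = 0
        rw [h8, ← hqz, aeval_def]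
        rfl
      rw [h7, map_zero]
    have h9 := pow_eq_of_root (q := p ^ (e : ℕ)) (by rw [Nat.card_eq_fintype_card, he]) h4
      (natDegree_map_le.trans hqn) h5
    rw [← pow_mul, ← map_pow, ← sub_eq_zero, ← map_sub, IsLocalRing.residue_eq_zero_iff,
      ValuationSubring.valuation_lt_one_iff] at h9
    exact h9
  · intro a ha
    have ha0 := hA a ha
    rw [val_eq_one_iff' ha0]
    have key : ∀ b : L, (∀ c ∈ cf (minpoly K b), O.valuation c = 1) → b ∈ locW Q := by
      intro b hb
      have hbint : IsIntegral K b := Algebra.IsIntegral.isIntegral b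
      have hl : minpoly K b ∈ lifts (algebraMap O K) := by
        rw [lifts_iff_coeff_lifts]
        intro i
        by_cases hi : (minpoly K b).coeff i = 0
        · exact ⟨0, by rw [hi, map_zero]⟩
        · have h4 := hb _ (Finset.mem_image_of_mem _ (mem_support_iff.2 hi))
          exact ⟨⟨_, (O.valuation_le_one_iff _).1 h4.le⟩, rfl⟩
      obtain ⟨q, hq, -, hqm⟩ := lifts_and_natDegree_eq_and_monic hl (minpoly.monic hbint)
      have h5 : IsIntegral O b := by
        refine ⟨q, hqm, ?_⟩
        have h6 : aeval b (q.map (algebraMap O K)) = 0 := by rw [hq]; exact minpoly.aeval K b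
        rwa [aeval_map_algebraMap] at h6
      exact coe_mem_locW Q ⟨b, h5⟩
    constructor
    · refine key a fun c hc => h3 c ?_
      rw [hA0, Finset.mem_biUnion]
      exact ⟨a, ha, Finset.mem_union_left _ hc⟩
    · refine key a⁻¹ fun c hc => h3 c ?_
      rw [hA0, Finset.mem_biUnion]
      exact ⟨a, ha, Finset.mem_union_right _ hc⟩

end Algebraic

end Pool.Agent.Helper91.Sect
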