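import Pool.Agent.Helper91.Section.Curve

/-!
# Reduction of the points of `2`-power order on `y² = (x - e₁)(x - e₂)(x - e₃)`
-/

universe u

namespace Pool.Agent.Helper91.Sect

open WeierstrassCurve WeierstrassCurve.Affine

section Perm

variable {F : Type*} [CommRing F] {W : WeierstrassCurve F} {e₁ e₂ e₃ : F}

theorem IsE.swap12 (hW : IsE W e₁ e₂ e₃) : IsE W e₂ e₁ e₃ :=
  ⟨hW.a₁, by rw [hW.a₂]; ring, hW.a₃, by rw [hW.a₄]; ring, by rw [hW.a₆]; ring⟩

theorem IsE.swap13 (hW : IsE W e₁ e₂ e₃) : IsE W e₃ e₂ e₁ :=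
  ⟨hW.a₁, by rw [hW.a₂]; ring, hW.a₃, by rw [hW.a₄]; ring, by rw [hW.a₆]; ring⟩

end Perm

section Field

variable {F : Type*} [Field F] {W : WeierstrassCurve.Affine F} {e₁ e₂ e₃ : F} [DecidableEq F]
  {Γ : Type*} [LinearOrderedCommGroupWithZero Γ] {v : Valuation F Γ}

/-- hypotheses of good reduction -/
structure Good (v : Valuation F Γ) (e₁ e₂ e₃ : F) : Prop where
  two : v 2 = 1
  le₁ : v e₁ ≤ 1
  le₂ : v e₂ ≤ 1
  le₃ : v e₃ ≤ 1
  ne₁₂ : v (e₁ - e₂) = 1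
  ne₁₃ : v (e₁ - e₃) = 1
  ne₂₃ : v (e₂ - e₃) = 1

omit [DecidableEq F] in
theorem Good.swap12 (h : Good v e₁ e₂ e₃) : Good v e₂ e₁ e₃ :=
  ⟨h.two, h.le₂, h.le₁, h.le₃, by rw [Valuation.map_sub_swap]; exact h.ne₁₂, h.ne₂₃, h.ne₁₃⟩

omit [DecidableEq F] in
theorem Good.swap13 (h : Good v e₁ e₂ e₃) : Good v e₃ e₂ e₁ :=
  ⟨h.two, h.le₃, h.le₂, h.le₁, by rw [Valuation.map_sub_swap]; exact h.ne₂₃,
    by rw [Valuation.map_sub_swap]; exact h.ne₁₃, by rw [Valuation.map_sub_swap]; exact h.ne₁₂⟩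

omit [DecidableEq F] in
theorem Good.distinct (h : Good v e₁ e₂ e₃) : (2 : F) ≠ 0 ∧ e₁ ≠ e₂ ∧ e₁ ≠ e₃ ∧ e₂ ≠ e₃ := by
  have key : ∀ {z : F}, v z = 1 → z ≠ 0 := by
    rintro z hz rfl
    rw [map_zero] at hz
    exact zero_ne_one hz
  exact ⟨key h.two, sub_ne_zero.1 (key h.ne₁₂), sub_ne_zero.1 (key h.ne₁₃),
    sub_ne_zero.1 (key h.ne₂₃)⟩

/-- translation by the point `(e₁, 0)` -/
theorem IsE.addT (hW : IsE W e₁ e₂ e₃) {x y : F} (h : W.Nonsingular x y)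
    (hT : W.Nonsingular e₁ 0) (hx : x ≠ e₁) :
    ∃ y' h', Point.some x y h + Point.some e₁ 0 hT =
      Point.some (e₁ + (e₁ - e₂) * (e₁ - e₃) / (x - e₁)) y' h' := by
  have heq := (hW.equation_iff x y).1 h.1
  have hx' : x - e₁ ≠ 0 := sub_ne_zero.2 hx
  have haX : W.addX x e₁ (W.slope x e₁ y 0) = e₁ + (e₁ - e₂) * (e₁ - e₃) / (x - e₁) := by
    rw [slope_of_X_ne hx, WeierstrassCurve.Affine.addX, hW.a₁, hW.a₂]
    field_simp
    linear_combination heq
  rw [Point.add_of_X_ne hx]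
  refine ⟨_, haX ▸ nonsingular_add h hT fun hxy => hx hxy.left, ?_⟩
  rw [Point.some.injEq]
  exact ⟨haX, rfl⟩

/-- the value of the abscissa of the double of a non-integral point -/
theorem IsE.double (hW : IsE W e₁ e₂ e₃) (hv : Good v e₁ e₂ e₃) {x y : F}
    (h : W.Nonsingular x y) (hx : 1 < v x) :
    ∃ x' y' h', 2 • Point.some x y h = Point.some x' y' h' ∧ 1 < v x' := by
  obtain ⟨h2, h12, h13, h23⟩ := hv.distinct
  have heq := (hW.equation_iff x y).1 h.1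
  have hvx : ∀ {e : F}, v e ≤ 1 → v (x - e) = v x := by
    intro e he
    exact Valuation.map_sub_eq_of_lt_left v (he.trans_lt hx)
  have hvy : v y ^ 2 = v x ^ 3 := by
    rw [← map_pow, heq, map_mul, map_mul, hvx hv.le₁, hvx hv.le₂, hvx hv.le₃, pow_succ, pow_two]
  have hx0 : v x ≠ 0 := (zero_lt_one.trans hx).ne'
  have hy0 : y ≠ 0 := by
    rintro rfl
    rw [map_zero] at hvy
    have : v x ^ 3 = 0 := by rw [← hvy]; simp
    exact hx0 (pow_eq_zero_iff (by norm_num) |>.1 this)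
  have hYne : y ≠ W.negY x y := by
    rw [hW.negY]
    intro hc
    exact mul_ne_zero h2 hy0 (by linear_combination hc)
  rw [two_nsmul, Point.add_self_of_Y_ne hYne]
  refine ⟨_, _, _, rfl, ?_⟩
  set L := W.slope x x y y with hL
  have hLval : L * (2 * y) = (x - e₁) * (x - e₂) + (x - e₁) * (x - e₃) + (x - e₂) * (x - e₃) := by
    rw [hL, slope_of_Y_ne rfl hYne, hW.negY, hW.a₁, hW.a₂, hW.a₄]
    have h20 : y - -y ≠ 0 := by
      intro h0; exact mul_ne_zero h2 hy0 (by linear_combination h0)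
    have : y - -y = 2 * y := by ring
    rw [this] at h20 ⊢
    rw [div_mul_cancel₀ _ h20]
    ring
  have haX : W.addX x x L = L ^ 2 + (e₁ + e₂ + e₃) - 2 * x := by
    rw [WeierstrassCurve.Affine.addX, hW.a₁, hW.a₂]; ring
  set c2 := -2 * (e₁ * e₂ + e₁ * e₃ + e₂ * e₃)
  set c1 := 8 * (e₁ * e₂ * e₃)
  set c0 := (e₁ * e₂ + e₁ * e₃ + e₂ * e₃) ^ 2 - 4 * (e₁ + e₂ + e₃) * (e₁ * e₂ * e₃)
  have hD : W.addX x x L * (2 * y) ^ 2 = x ^ 4 + (c2 * x ^ 2 + (c1 * x + c0)) := by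
    rw [haX]
    have h3 : (L ^ 2 + (e₁ + e₂ + e₃) - 2 * x) * (2 * y) ^ 2 =
        (L * (2 * y)) ^ 2 + (e₁ + e₂ + e₃ - 2 * x) * (4 * y ^ 2) := by ring
    rw [h3, hLval, heq]
    ring
  have hint : ∀ {z : F}, z ∈ v.valuationSubring → v z ≤ 1 := fun h => h
  have m1 : e₁ ∈ v.valuationSubring := hv.le₁
  have m2 : e₂ ∈ v.valuationSubring := hv.le₂
  have m3 : e₃ ∈ v.valuationSubring := hv.le₃
  have mn : ∀ n : ℕ, (n : F) ∈ v.valuationSubring := fun n => natCast_mem _ n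
  have m2' : (2 : F) ∈ v.valuationSubring := by exact_mod_cast mn 2
  have m4' : (4 : F) ∈ v.valuationSubring := by exact_mod_cast mn 4
  have m8' : (8 : F) ∈ v.valuationSubring := by exact_mod_cast mn 8
  have mc2 : c2 ∈ v.valuationSubring :=
    mul_mem (neg_mem m2') (add_mem (add_mem (mul_mem m1 m2) (mul_mem m1 m3)) (mul_mem m2 m3))
  have mc1 : c1 ∈ v.valuationSubring := mul_mem m8' (mul_mem (mul_mem m1 m2) m3)
  have mc0 : c0 ∈ v.valuationSubring :=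
    sub_mem (pow_mem (add_mem (add_mem (mul_mem m1 m2) (mul_mem m1 m3)) (mul_mem m2 m3)) 2)
      (mul_mem (mul_mem m4' (add_mem (add_mem m1 m2) m3)) (mul_mem (mul_mem m1 m2) m3))
  have hx1 : (1 : Γ) ≤ v x := hx.le
  have l1 : v x < v x ^ 4 := by
    calc v x = v x ^ 1 := (pow_one _).symm
      _ < v x ^ 4 := pow_lt_pow_right₀ hx (by norm_num)
  have l2 : v x ^ 2 < v x ^ 4 := pow_lt_pow_right₀ hx (by norm_num)
  have l0 : 1 < v x ^ 4 := hx.trans l1
  have hvD : v (x ^ 4 + (c2 * x ^ 2 + (c1 * x + c0))) = v x ^ 4 := by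
    rw [Valuation.map_add_eq_of_lt_left, map_pow]
    rw [map_pow]
    refine v.map_add_lt ?_ (v.map_add_lt ?_ ?_)
    · rw [map_mul, map_pow]
      exact (mul_le_of_le_one_left' (hint mc2)).trans_lt l2
    · rw [map_mul]
      exact (mul_le_of_le_one_left' (hint mc1)).trans_lt l1
    · exact (hint mc0).trans_lt l0
  have hv2 : v (2 * y) ^ 2 = v x ^ 3 := by rw [map_mul, hv.two, one_mul, hvy]
  have h5 : v (W.addX x x L) * v x ^ 3 = v x ^ 4 := by
    rw [← hv2, ← map_pow, ← map_mul, hD, hvD]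
  have h6 : v (W.addX x x L) = v x := by
    have h7 : v x ^ 4 = v x * v x ^ 3 := by rw [pow_succ' (v x) 3]
    rw [h7] at h5
    exact mul_right_cancel₀ (pow_ne_zero 3 hx0) h5
  rw [h6]; exact hx

theorem IsE.nonintegral (hW : IsE W e₁ e₂ e₃) (hv : Good v e₁ e₂ e₃) (n : ℕ) : ∀ {x y : F}
    (h : W.Nonsingular x y), 1 < v x → 2 ^ n • Point.some x y h ≠ 0 := by
  induction n with
  | zero =>
    intro x y h _
    rw [pow_zero, one_smul]
    exact Point.some_ne_zero h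
  | succ n ih =>
    intro x y h hx
    obtain ⟨x', y', h', heq, hx'⟩ := hW.double hv h hx
    rw [pow_succ, mul_smul, heq]
    exact ih h' hx'

/-- the points of `2`-power order are integral -/
theorem IsE.integral (hW : IsE W e₁ e₂ e₃) (hv : Good v e₁ e₂ e₃) {x y : F}
    (h : W.Nonsingular x y) (htor : ∃ n : ℕ, 2 ^ n • Point.some x y h = 0) :
    v x ≤ 1 ∧ v y ≤ 1 := by
  obtain ⟨n, hn⟩ := htor
  have hx : v x ≤ 1 := by
    by_contra hlt
    exact hW.nonintegral hv n h (not_le.1 hlt) hn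
  refine ⟨hx, ?_⟩
  have heq := (hW.equation_iff x y).1 h.1
  have h1 : v y ^ 2 ≤ 1 := by
    rw [← map_pow, heq, map_mul, map_mul]
    have key : ∀ {e : F}, v e ≤ 1 → v (x - e) ≤ 1 := fun he =>
      (Valuation.map_sub _ _ _).trans (max_le hx he)
    exact mul_le_one' (mul_le_one' (key hv.le₁) (key hv.le₂)) (key hv.le₃)
  exact (pow_le_one_iff_of_nonneg zero_le two_ne_zero).1 h1

/-- a point of `2`-power order reducing to `(e₁, 0)` is `(e₁, 0)` -/
theorem IsE.eq_e₁ (hW : IsE W e₁ e₂ e₃) (hv : Good v e₁ e₂ e₃) {x y : F}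
    (h : W.Nonsingular x y) (htor : ∃ n : ℕ, 2 ^ n • Point.some x y h = 0)
    (hx : v (x - e₁) < 1) : x = e₁ := by
  obtain ⟨h2, h12, h13, h23⟩ := hv.distinct
  by_contra hne
  have hT : W.Nonsingular e₁ 0 := by
    rw [hW.nonsingular_iff h2 h12 h13 h23]; ring
  obtain ⟨y', h', hadd⟩ := hW.addT h hT hne
  obtain ⟨n, hn⟩ := htor
  have h2T : 2 • Point.some e₁ 0 hT = 0 := by
    rw [two_nsmul, Point.add_self_of_Y_eq]
    rw [hW.negY, neg_zero]
  have htor' : 2 ^ (n + 1) • Point.some (e₁ + (e₁ - e₂) * (e₁ - e₃) / (x - e₁)) y' h' = 0 := by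
    rw [← hadd, smul_add, pow_succ, mul_smul (2 ^ n) 2 (Point.some e₁ 0 hT), h2T, smul_zero,
      add_zero, mul_comm, mul_smul, hn, smul_zero]
  refine hW.nonintegral hv (n + 1) h' ?_ htor'
  have h0 : v (x - e₁) ≠ 0 := by simpa using sub_ne_zero.2 hne
  have h1 : 1 < v ((e₁ - e₂) * (e₁ - e₃) / (x - e₁)) := by
    rw [map_div₀, map_mul, hv.ne₁₂, hv.ne₁₃, one_mul, one_div]
    exact (one_lt_inv₀ (zero_lt_iff.2 h0)).2 hx
  rw [Valuation.map_add_eq_of_lt_right v (hv.le₁.trans_lt h1)]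
  exact h1

/-- **Injectivity of reduction** on the nonzero points of `2`-power order. -/
theorem IsE.reduction_inj (hW : IsE W e₁ e₂ e₃) (hv : Good v e₁ e₂ e₃) {x₁ y₁ x₂ y₂ : F}
    (h₁ : W.Nonsingular x₁ y₁) (h₂ : W.Nonsingular x₂ y₂)
    (ht₁ : ∃ n : ℕ, 2 ^ n • Point.some x₁ y₁ h₁ = 0)
    (ht₂ : ∃ n : ℕ, 2 ^ n • Point.some x₂ y₂ h₂ = 0)
    (hx : v (x₁ - x₂) < 1) (hy : v (y₁ - y₂) < 1) : x₁ = x₂ ∧ y₁ = y₂ := by
  obtain ⟨h2, h12, h13, h23⟩ := hv.distinct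
  have heq₁ := (hW.equation_iff x₁ y₁).1 h₁.1
  have heq₂ := (hW.equation_iff x₂ y₂).1 h₂.1
  by_contra hne
  -- both ordinates reduce to zero
  have hsum : v (y₁ + y₂) < 1 := by
    by_cases hxx : x₁ = x₂
    · have h3 : y₁ ^ 2 = y₂ ^ 2 := by rw [heq₁, heq₂, hxx]
      rcases sq_eq_sq_iff_eq_or_eq_neg.1 h3 with h4 | h4
      · exact absurd ⟨hxx, h4⟩ hne
      · rw [h4, neg_add_cancel, map_zero]; exact zero_lt_one
    · have hd : x₁ - x₂ ≠ 0 := sub_ne_zero.2 hxx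
      have hneg : -Point.some x₂ y₂ h₂ = Point.some x₂ (W.negY x₂ y₂)
        ((nonsingular_neg ..).mpr h₂) := rfl
      have hadd : Point.some x₁ y₁ h₁ + -Point.some x₂ y₂ h₂ = Point.some _ _
          (nonsingular_add h₁ ((nonsingular_neg ..).mpr h₂) fun hxy => hxx hxy.left) := by
        rw [hneg, Point.add_of_X_ne hxx]
      obtain ⟨n₁, hn₁⟩ := ht₁
      obtain ⟨n₂, hn₂⟩ := ht₂
      have htor : 2 ^ (n₁ + n₂) • (Point.some x₁ y₁ h₁ + -Point.some x₂ y₂ h₂) = 0 := by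
        rw [smul_add, smul_neg, pow_add, mul_smul (2 ^ n₁) (2 ^ n₂) (Point.some x₂ y₂ h₂), hn₂,
          smul_zero, mul_comm, mul_smul, hn₁, smul_zero, neg_zero, add_zero]
      rw [hadd] at htor
      have h5 := (hW.integral hv _ ⟨_, htor⟩).1
      rw [slope_of_X_ne hxx, hW.negY, WeierstrassCurve.Affine.addX, hW.a₁, hW.a₂] at h5
      have h6 : v (((y₁ + y₂) / (x₁ - x₂)) ^ 2) ≤ 1 := by
        have h7 : ((y₁ + y₂) / (x₁ - x₂)) ^ 2 =
            (((y₁ - -y₂) / (x₁ - x₂)) ^ 2 + 0 * ((y₁ - -y₂) / (x₁ - x₂)) - -(e₁ + e₂ + e₃)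
              - x₁ - x₂) - ((e₁ + e₂ + e₃) - x₁ - x₂) := by ring
        rw [h7]
        refine (Valuation.map_sub _ _ _).trans (max_le h5 ?_)
        have m1 : e₁ ∈ v.valuationSubring := hv.le₁
        have m2 : e₂ ∈ v.valuationSubring := hv.le₂
        have m3 : e₃ ∈ v.valuationSubring := hv.le₃
        have m4 : x₁ ∈ v.valuationSubring := (hW.integral hv h₁ ⟨_, hn₁⟩).1
        have m5 : x₂ ∈ v.valuationSubring := (hW.integral hv h₂ ⟨_, hn₂⟩).1
        have m6 : ((e₁ + e₂ + e₃) - x₁ - x₂) ∈ v.valuationSubring :=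
          sub_mem (sub_mem (add_mem (add_mem m1 m2) m3) m4) m5
        exact m6
      rw [map_pow] at h6
      have h8 := (pow_le_one_iff_of_nonneg zero_le two_ne_zero).1 h6
      have h9 : y₁ + y₂ = ((y₁ + y₂) / (x₁ - x₂)) * (x₁ - x₂) := by field_simp
      rw [h9, map_mul]
      exact (mul_le_of_le_one_left' h8).trans_lt hx
  have hy₁ : v y₁ < 1 := by
    have h3 : v (2 * y₁) < 1 := by
      have : 2 * y₁ = (y₁ + y₂) + (y₁ - y₂) := by ring
      rw [this]; exact v.map_add_lt hsum hy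
    rwa [map_mul, hv.two, one_mul] at h3
  have hy₂ : v y₂ < 1 := by
    have : y₂ = (y₁ + y₂) - y₁ := by ring
    rw [this]; exact v.map_sub_lt hsum hy₁
  -- hence both points are two-torsion
  have key : ∀ {x y : F} (h : W.Nonsingular x y), (∃ n : ℕ, 2 ^ n • Point.some x y h = 0) →
      v y < 1 → (x = e₁ ∨ x = e₂ ∨ x = e₃) := by
    intro x y h ht hvy
    have heq := (hW.equation_iff x y).1 h.1
    have hxi := (hW.integral hv h ht).1
    have hle : ∀ {e : F}, v e ≤ 1 → v (x - e) ≤ 1 := fun he =>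
      (Valuation.map_sub _ _ _).trans (max_le hxi he)
    by_contra hcon
    push Not at hcon
    have c1 : v (x - e₁) = 1 := by
      refine le_antisymm (hle hv.le₁) (not_lt.1 fun hlt => hcon.1 (hW.eq_e₁ hv h ht hlt))
    have c2 : v (x - e₂) = 1 := by
      refine le_antisymm (hle hv.le₂) (not_lt.1 fun hlt =>
        hcon.2.1 (hW.swap12.eq_e₁ hv.swap12 h ht hlt))
    have c3 : v (x - e₃) = 1 := by
      refine le_antisymm (hle hv.le₃) (not_lt.1 fun hlt =>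
        hcon.2.2 (hW.swap13.eq_e₁ hv.swap13 h ht hlt))
    have h3 : v y ^ 2 = 1 := by
      rw [← map_pow, heq, map_mul, map_mul, c1, c2, c3]; simp
    have h4 := (pow_eq_one_iff_of_nonneg zero_le two_ne_zero).1 h3
    rw [h4] at hvy
    exact lt_irrefl _ hvy
  have hxx : x₁ = x₂ := by
    have n12 := hv.ne₁₂
    have n13 := hv.ne₁₃
    have n23 := hv.ne₂₃
    have n21 := hv.swap12.ne₁₂
    have n31 := hv.swap13.ne₁₃
    have n32 := hv.swap13.ne₁₂
    rcases key h₁ ht₁ hy₁ with h | h | h <;> rcases key h₂ ht₂ hy₂ with h' | h' | h' <;>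
      rw [h, h'] at hx ⊢
    · rw [n12] at hx; exact absurd hx (lt_irrefl _)
    · rw [n13] at hx; exact absurd hx (lt_irrefl _)
    · rw [n21] at hx; exact absurd hx (lt_irrefl _)
    · rw [n23] at hx; exact absurd hx (lt_irrefl _)
    · rw [n31] at hx; exact absurd hx (lt_irrefl _)
    · rw [n32] at hx; exact absurd hx (lt_irrefl _)
  have hyy : y₁ ^ 2 = y₂ ^ 2 := by rw [heq₁, heq₂, hxx]
  have hy0 : y₁ = 0 := by
    have h3 : y₁ ^ 2 = 0 := by
      rw [heq₁]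
      rcases key h₁ ht₁ hy₁ with h | h | h <;> rw [h] <;> ring
    exact pow_eq_zero_iff two_ne_zero |>.1 h3
  have hy0' : y₂ = 0 := by
    rw [hy0] at hyy
    exact pow_eq_zero_iff two_ne_zero |>.1 (by rw [← hyy]; ring)
  exact hne ⟨hxx, by rw [hy0, hy0']⟩

end Field

end Pool.Agent.Helper91.Sect
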