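import Pool.Agent.Helper91.Section.Coeff
import Pool.Agent.Helper91.Section.Reduct
import Pool.Agent.Helper91.Section.Tame2

/-!
# Frobenius elements, and finiteness of the points of `2`-power order fixed by them
-/

universe u

namespace Pool.Agent.Helper91.Sect

open scoped Pointwise
open Polynomial WeierstrassCurve WeierstrassCurve.Affine

theorem exists_power_equiv {R : Type*} [CommRing R] [IsDomain R] (p f : ℕ) (hp : p.Prime)
    (h0 : (p : R) = 0) (hsurj : ∀ x : R, ∃ y : R, y ^ (p ^ f) = x) :
    ∃ φ : R ≃+* R, ∀ x, φ x = x ^ (p ^ f) := by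
  have hchar : CharP R p := (CharP.charP_iff_prime_eq_zero hp).2 h0
  have hpf : Fact p.Prime := ⟨hp⟩
  have hF : ∀ x : R, iterateFrobenius R p f x = x ^ (p ^ f) := fun x => iterateFrobenius_def _ _ _
  have hbij : Function.Bijective (iterateFrobenius R p f) := by
    constructor
    · rw [injective_iff_map_eq_zero]
      intro x hx
      rw [hF] at hx
      exact pow_eq_zero_iff (pow_ne_zero _ hp.ne_zero) |>.1 hx
    · intro x
      obtain ⟨y, hy⟩ := hsurj x
      exact ⟨y, by rw [hF, hy]⟩
  exact ⟨RingEquiv.ofBijective _ hbij, hF⟩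

section Frob

variable {S C : Type u} [Field S] [Field C] [Algebra S C] [IsGalois S C] [IsAlgClosed C]
  (O : ValuationSubring S) (p f : ℕ) [hp : Fact p.Prime]

include hp in
theorem exists_frob (hpv : O.valuation (p : S) < 1)
    (hq : ∀ z ∈ O, O.valuation (z ^ (p ^ f) - z) < 1) :
    ∃ (Q : Ideal (integralClosure O C)) (_ : Q.IsPrime) (γ : C ≃ₐ[S] C),
      Above Q ∧ InD Q γ ∧ ∀ z, (locW Q).valuation z ≤ 1 →
        Cg (locW Q).valuation (γ z) (z ^ (p ^ f)) := by
  obtain ⟨Q, hQ, hA⟩ := exists_above (O := O) (C := C)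
  have hq0 : p ^ f ≠ 0 := pow_ne_zero _ hp.out.ne_zero
  have hpQ : ((p : ℕ) : integralClosure O C) ∈ Q := by
    have h1 : (p : S) ∈ O := natCast_mem O p
    have h2 := (hA ⟨(p : S), h1⟩).2 hpv
    convert h2
    apply Subtype.ext
    change ((p : integralClosure O C) : C) = algebraMap S C p
    simp
  have hdom : IsDomain (integralClosure O C ⧸ Q) := Ideal.Quotient.isDomain Q
  have hp0 : ((p : ℕ) : integralClosure O C ⧸ Q) = 0 := by
    have : ((p : ℕ) : integralClosure O C ⧸ Q) = Ideal.Quotient.mk Q (p : integralClosure O C) := by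
      simp
    rw [this, Ideal.Quotient.eq_zero_iff_mem]
    exact hpQ
  obtain ⟨φ, hφ'⟩ := exists_power_equiv (R := integralClosure O C ⧸ Q) p f hp.out hp0 (by
    intro x
    obtain ⟨b, rfl⟩ := Ideal.Quotient.mk_surjective x
    obtain ⟨c, hc⟩ := IsAlgClosed.exists_pow_nat_eq (b : C) (Nat.pos_of_ne_zero hq0)
    have hcint : IsIntegral O c := IsIntegral.of_pow (Nat.pos_of_ne_zero hq0) (by
      rw [hc]; exact b.2)
    refine ⟨Ideal.Quotient.mk Q ⟨c, hcint⟩, ?_⟩
    rw [← map_pow]
    congr 1
    exact Subtype.ext hc)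
  have hφ : ∀ b, φ (Ideal.Quotient.mk Q b) = Ideal.Quotient.mk Q (b ^ (p ^ f)) := fun b => by
    rw [map_pow]; exact hφ' _
  obtain ⟨γ, -, hγD, hγ⟩ := exists_lift (⊤ : Subgroup (C ≃ₐ[S] C)) isClosed_univ Q φ (by
    intro b hb
    have h1 : ∀ g : C ≃ₐ[S] C, g (b : C) = b := fun g =>
      congrArg Subtype.val (hb g (Subgroup.mem_top g))
    obtain ⟨c, hc⟩ := (InfiniteGalois.mem_range_algebraMap_iff_fixed (k := S) (b : C)).2 h1
    have hcO : c ∈ O := by
      have h2 : IsIntegral O (algebraMap S C c) := by rw [hc]; exact b.2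
      have h3 : IsIntegral O c := by
        rwa [isIntegral_algebraMap_iff (algebraMap S C).injective] at h2
      obtain ⟨c', hc'⟩ := IsIntegrallyClosed.algebraMap_eq_of_integral h3
      rw [← hc']; exact c'.2
    rw [hφ, Ideal.Quotient.eq, ← val_coe_lt_one_iff Q]
    have h4 := locW_algebraMap_lt Q hA (hq c hcO)
    rw [map_sub, map_pow, hc] at h4
    exact h4)
  have hγb : ∀ b : integralClosure O C, Cg (locW Q).valuation (γ b) ((b : C) ^ (p ^ f)) := by
    intro b
    have h1 := hγ b
    rw [hφ, Ideal.Quotient.eq, ← val_coe_lt_one_iff Q] at h1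
    exact ⟨coeB_le Q (γ • b), by rw [map_pow]; exact pow_le_one' (coeB_le Q b) _, h1⟩
  refine ⟨Q, hQ, γ, hA, hγD, fun z hz => ?_⟩
  obtain ⟨s, hs, hint⟩ := ((locW Q).valuation_le_one_iff z).1 hz
  have hs1 : (locW Q).valuation (s : C) = 1 := by
    refine le_antisymm (coeB_le Q s) ?_
    by_contra hlt
    exact hs ((val_coe_lt_one_iff Q s).1 (not_le.1 hlt))
  have hs0 : (s : C) ≠ 0 := by
    intro h0; rw [h0, map_zero] at hs1; exact zero_ne_one hs1
  have h1 := (hγb ⟨_, hint⟩).div (hγb s) (by rw [map_pow, hs1, one_pow])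
  have h2 : γ (((⟨_, hint⟩ : integralClosure O C)) : C) / γ s = γ z := by
    rw [← map_div₀]
    congr 1
    change (s : C) * z / s = z
    field_simp
  have h3 : (((⟨_, hint⟩ : integralClosure O C)) : C) ^ (p ^ f) / (s : C) ^ (p ^ f) =
      z ^ (p ^ f) := by
    rw [← div_pow]
    congr 1
    change (s : C) * z / s = z
    field_simp
  rwa [h2, h3] at h1

end Frob

section Finite

variable {S C : Type u} [Field S] [Field C] [Algebra S C] [DecidableEq C]

/-- The points of `2`-power order fixed by an automorphism which acts as a power map on the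
residue field of a place of good reduction are finitely many. -/
theorem finite_fixed {V : ValuationSubring C} {e₁ e₂ e₃ : S}
    (hv : Good V.valuation (algebraMap S C e₁) (algebraMap S C e₂) (algebraMap S C e₃))
    (γ : C ≃ₐ[S] C) {m : ℕ} (hm : 1 < m)
    (hγ : ∀ z, V.valuation z ≤ 1 → Cg V.valuation (γ z) (z ^ m)) :
    {P : ((EC e₁ e₂ e₃)⁄C).Point | (∃ n : ℕ, 2 ^ n • P = 0) ∧
      Point.map (W' := EC e₁ e₂ e₃) (γ : C →ₐ[S] C) P = P}.Finite := by
  classical
  have hW := isE_baseChange (F := C) e₁ e₂ e₃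
  let res : C → IsLocalRing.ResidueField V := fun z =>
    if hz : z ∈ V then IsLocalRing.residue V ⟨z, hz⟩ else 0
  have hres : ∀ {z : C} (hz : z ∈ V), res z = IsLocalRing.residue V ⟨z, hz⟩ := fun {z} hz =>
    dif_pos hz
  have hreseq : ∀ {z z' : C}, z ∈ V → z' ∈ V → (res z = res z' ↔ V.valuation (z - z') < 1) := by
    intro z z' hz hz'
    rw [hres hz, hres hz', ← sub_eq_zero, ← map_sub, IsLocalRing.residue_eq_zero_iff,
      V.valuation_lt_one_iff]
    rfl
  let g : ((EC e₁ e₂ e₃)⁄C).Point → Option (IsLocalRing.ResidueField V ×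
      IsLocalRing.ResidueField V) := fun P => match P with
    | 0 => none
    | Point.some x y _ => some (res x, res y)
  -- the target
  set T : Set (IsLocalRing.ResidueField V) := {x | x ^ m = x} with hT
  have hTfin : T.Finite := by
    have hpoly : (X ^ m - X : (IsLocalRing.ResidueField V)[X]) ≠ 0 := by
      intro h0
      have h1 := congrArg (fun q => coeff q m) h0
      simp only [coeff_sub, coeff_X_pow, coeff_X, if_true, coeff_zero] at h1
      rw [if_neg (by omega)] at h1
      simp at h1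
    refine ((X ^ m - X : (IsLocalRing.ResidueField V)[X]).roots.toFinset.finite_toSet).subset ?_
    intro x hx
    simp only [Finset.mem_coe, Multiset.mem_toFinset]
    rw [mem_roots hpoly]
    have : x ^ m = x := hx
    simp [IsRoot.def, this]
  have hmemV : ∀ {x y : C} (h : ((EC e₁ e₂ e₃)⁄C).Nonsingular x y),
      (∃ n : ℕ, 2 ^ n • Point.some x y h = 0) → x ∈ V ∧ y ∈ V := by
    intro x y h ht
    have := hW.integral hv h ht
    exact ⟨(V.valuation_le_one_iff _).1 this.1, (V.valuation_le_one_iff _).1 this.2⟩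
  refine Set.Finite.of_finite_image (f := g) ?_ ?_
  · refine (((hTfin.prod hTfin).image some).insert none).subset ?_
    rintro _ ⟨P, ⟨ht, hP⟩, rfl⟩
    rcases P with _ | ⟨x, y, h⟩
    · exact Or.inl rfl
    · right
      obtain ⟨hx, hy⟩ := hmemV h ht
      rw [Point.map_some] at hP
      rw [Point.some.injEq] at hP
      refine ⟨(res x, res y), ⟨?_, ?_⟩, rfl⟩
      · have h1 := hγ x ((V.valuation_le_one_iff _).2 hx)
        have h2 : γ x = x := hP.1
        rw [h2] at h1
        change res x ^ m = res x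
        rw [hres hx, ← map_pow, ← sub_eq_zero, ← map_sub, IsLocalRing.residue_eq_zero_iff,
          V.valuation_lt_one_iff]
        exact h1.symm.2.2
      · have h1 := hγ y ((V.valuation_le_one_iff _).2 hy)
        have h2 : γ y = y := hP.2
        rw [h2] at h1
        change res y ^ m = res y
        rw [hres hy, ← map_pow, ← sub_eq_zero, ← map_sub, IsLocalRing.residue_eq_zero_iff,
          V.valuation_lt_one_iff]
        exact h1.symm.2.2
  · rintro P ⟨htP, -⟩ P' ⟨htP', -⟩ hPP'
    rcases P with _ | ⟨x, y, h⟩ <;> rcases P' with _ | ⟨x', y', h'⟩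
    · rfl
    · exact absurd hPP' (by simp [g])
    · exact absurd hPP' (by simp [g])
    · have h1 : some (res x, res y) = some (res x', res y') := hPP'
      rw [Option.some.injEq, Prod.mk.injEq] at h1
      obtain ⟨hx, hy⟩ := hmemV h htP
      obtain ⟨hx', hy'⟩ := hmemV h' htP'
      rw [Point.some.injEq]
      exact hW.reduction_inj hv h h' htP htP' ((hreseq hx hx').1 h1.1) ((hreseq hy hy').1 h1.2)

end Finite

end Pool.Agent.Helper91.Sect
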