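import Mathlib

/-!
# Valuation rings above a given one in an algebraic extension, via the integral closure

`O` is a valuation ring of `k`, `C/k` an algebraic extension, `B` the integral closure of `O` in
`C`, `Q` a prime ideal of `B` above the maximal ideal of `O`.  Then the localization of `B` at `Q`
is a valuation ring `locW Q` of `C`.
-/

universe u

namespace Pool.Agent.Helper91.Sect

open Polynomial

section LocW

variable {k C : Type u} [Field k] [Field C] [Algebra k C] {O : ValuationSubring k}

/-- the predicate of membership in the localization of `B` at `Q` -/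
def InLoc (Q : Ideal (integralClosure O C)) (z : C) : Prop :=
  ∃ s : integralClosure O C, s ∉ Q ∧ IsIntegral O ((s : C) * z)

theorem inLoc_or_inv_aux (Q : Ideal (integralClosure O C)) [Q.IsPrime] (z : C) :
    ∀ n : ℕ, ∀ p : (integralClosure O C)[X], p.natDegree ≤ n → aeval z p = 0 →
      (∃ i, p.coeff i ∉ Q) → InLoc Q z ∨ InLoc Q z⁻¹ := by
  intro n
  induction n with
  | zero =>
    intro p hp hz ⟨i, hi⟩
    exfalso
    rw [eq_C_of_natDegree_le_zero hp] at hz hi
    rw [aeval_C] at hz
    have h0 : p.coeff 0 = 0 := by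
      apply Subtype.ext
      exact hz
    rw [coeff_C, h0] at hi
    split_ifs at hi <;> exact hi Q.zero_mem
  | succ m ih =>
    intro p hp hz ⟨i, hi⟩
    by_cases hpm : p.natDegree ≤ m
    · exact ih p hpm hz ⟨i, hi⟩
    have hdeg : p.natDegree = m + 1 := by omega
    have hlc : p.leadingCoeff = p.coeff (m + 1) := by rw [leadingCoeff, hdeg]
    have hint : IsIntegral (integralClosure O C) (p.leadingCoeff • z) :=
      isIntegral_leadingCoeff_smul p z hz
    have hint2 : IsIntegral O (((p.coeff (m + 1) : integralClosure O C) : C) * z) := by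
      rw [hlc] at hint
      exact isIntegral_trans _ hint
    set b : integralClosure O C := ⟨((p.coeff (m + 1) : integralClosure O C) : C) * z, hint2⟩
      with hb
    by_cases h1 : p.coeff (m + 1) ∈ Q
    swap
    · exact Or.inl ⟨p.coeff (m + 1), h1, hint2⟩
    by_cases h2 : b ∈ Q
    swap
    · refine Or.inr ⟨b, h2, ?_⟩
      by_cases hz0 : z = 0
      · rw [hz0, inv_zero, mul_zero]; exact isIntegral_zero
      · have : (b : C) * z⁻¹ = (p.coeff (m + 1) : integralClosure O C) := by
          rw [hb]
          change ((p.coeff (m + 1) : integralClosure O C) : C) * z * z⁻¹ = _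
          rw [mul_assoc, mul_inv_cancel₀ hz0, mul_one]
        rw [this]
        exact (p.coeff (m + 1)).2
    -- the main case
    refine ih (p.eraseLead + Polynomial.C b * X ^ m) ?_ ?_ ?_
    · refine (natDegree_add_le _ _).trans (max_le ?_ ?_)
      · refine (eraseLead_natDegree_le p).trans ?_
        omega
      · exact (natDegree_C_mul_X_pow_le b m)
    · have h3 : p = p.eraseLead + Polynomial.C (p.coeff (m + 1)) * X ^ (m + 1) := by
        conv_lhs => rw [← p.eraseLead_add_C_mul_X_pow, hlc, hdeg]
      have h4 : aeval z p.eraseLead + ((p.coeff (m + 1) : integralClosure O C) : C) * z ^ (m + 1)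
          = 0 := by
        have := hz
        rw [h3] at this
        simpa using this
      have h5 : aeval z (p.eraseLead + Polynomial.C b * X ^ m) = aeval z p.eraseLead + (b : C) * z ^ m := by
        simp
      rw [h5, hb]
      change aeval z p.eraseLead + ((p.coeff (m + 1) : integralClosure O C) : C) * z * z ^ m = 0
      rw [← h4]; ring
    · have hile : i ≤ m + 1 := by
        by_contra hcon
        push Not at hcon
        have : p.coeff i = 0 := coeff_eq_zero_of_natDegree_lt (by omega)
        rw [this] at hi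
        exact hi Q.zero_mem
      have hine : i ≠ m + 1 := fun h => hi (h ▸ h1)
      have h6 : p.eraseLead.coeff i = p.coeff i := by
        apply eraseLead_coeff_of_ne
        rw [hdeg]; exact hine
      refine ⟨i, ?_⟩
      rw [coeff_add, h6, coeff_C_mul, coeff_X_pow]
      split_ifs with h7
      · rw [mul_one]
        intro h8
        exact hi ((Submodule.add_mem_iff_left Q h2).1 h8)
      · rw [mul_zero, add_zero]
        exact hi

theorem exists_primitive [Algebra.IsAlgebraic k C] (z : C) :
    ∃ p : O[X], aeval z p = 0 ∧ ∃ i, p.coeff i = 1 := by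
  obtain ⟨p, hp0, hpz⟩ := Algebra.IsAlgebraic.isAlgebraic (R := k) z
  have hne : p.support.Nonempty := by
    rwa [nonempty_support_iff]
  obtain ⟨j, hj, hmax⟩ := p.support.exists_max_image (fun i => O.valuation (p.coeff i)) hne
  have hj0 : p.coeff j ≠ 0 := by rwa [mem_support_iff] at hj
  have hvj : O.valuation (p.coeff j) ≠ 0 := by simpa using hj0
  have hlift : Polynomial.C (p.coeff j)⁻¹ * p ∈ lifts (algebraMap O k) := by
    rw [lifts_iff_coeff_lifts]
    intro n
    rw [coeff_C_mul]
    have h1 : O.valuation ((p.coeff j)⁻¹ * p.coeff n) ≤ 1 := by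
      rw [map_mul, map_inv₀]
      by_cases hn : n ∈ p.support
      · have := hmax n hn
        calc (O.valuation (p.coeff j))⁻¹ * O.valuation (p.coeff n)
            ≤ (O.valuation (p.coeff j))⁻¹ * O.valuation (p.coeff j) := by gcongr
          _ = 1 := inv_mul_cancel₀ hvj
      · rw [notMem_support_iff] at hn
        rw [hn]; simp
    exact ⟨⟨_, (O.valuation_le_one_iff _).1 h1⟩, rfl⟩
  rw [mem_lifts] at hlift
  obtain ⟨q, hq⟩ := hlift
  refine ⟨q, ?_, j, ?_⟩
  · have h2 : aeval z (q.map (algebraMap O k)) = 0 := by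
      rw [hq, map_mul, hpz, mul_zero]
    rwa [aeval_map_algebraMap] at h2
  · have h3 : (q.map (algebraMap O k)).coeff j = 1 := by
      rw [hq, coeff_C_mul]
      exact inv_mul_cancel₀ hj0
    rw [coeff_map] at h3
    apply Subtype.ext
    exact h3

theorem inLoc_or_inv [Algebra.IsAlgebraic k C] (Q : Ideal (integralClosure O C)) [Q.IsPrime]
    (z : C) : InLoc Q z ∨ InLoc Q z⁻¹ := by
  obtain ⟨p, hp, i, hi⟩ := exists_primitive (O := O) z
  refine inLoc_or_inv_aux Q z _ (p.map (algebraMap O (integralClosure O C))) le_rfl ?_ ⟨i, ?_⟩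
  · rw [aeval_map_algebraMap]; exact hp
  · rw [coeff_map, hi, map_one]
    exact fun h => (Ideal.IsPrime.ne_top ‹_›) ((Ideal.eq_top_iff_one Q).2 h)

/-- The localization of `B` at `Q`, as a valuation ring of `C`. -/
def locW [Algebra.IsAlgebraic k C] (Q : Ideal (integralClosure O C)) [hQ : Q.IsPrime] :
    ValuationSubring C where
  carrier := {z | InLoc Q z}
  mul_mem' := by
    rintro a b ⟨s, hs, ha⟩ ⟨t, ht, hb⟩
    refine ⟨s * t, fun h => (hQ.mem_or_mem h).elim hs ht, ?_⟩
    have : ((s * t : integralClosure O C) : C) * (a * b) = (s * a) * (t * b) := by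
      push_cast; ring
    rw [this]
    exact ha.mul hb
  one_mem' := by
    refine ⟨1, fun h => hQ.ne_top ((Ideal.eq_top_iff_one Q).2 h), ?_⟩
    simpa using isIntegral_one
  add_mem' := by
    rintro a b ⟨s, hs, ha⟩ ⟨t, ht, hb⟩
    refine ⟨s * t, fun h => (hQ.mem_or_mem h).elim hs ht, ?_⟩
    have : ((s * t : integralClosure O C) : C) * (a + b) = t * (s * a) + s * (t * b) := by
      push_cast; ring
    rw [this]
    exact (t.2.mul ha).add (s.2.mul hb)
  zero_mem' := by
    refine ⟨1, fun h => hQ.ne_top ((Ideal.eq_top_iff_one Q).2 h), ?_⟩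
    simpa using isIntegral_zero
  neg_mem' := by
    rintro a ⟨s, hs, ha⟩
    refine ⟨s, hs, ?_⟩
    rw [mul_neg]
    exact ha.neg
  mem_or_inv_mem' := inLoc_or_inv Q

variable [Algebra.IsAlgebraic k C] (Q : Ideal (integralClosure O C)) [hQ : Q.IsPrime]

theorem mem_locW {z : C} : z ∈ locW Q ↔
    ∃ s : integralClosure O C, s ∉ Q ∧ IsIntegral O ((s : C) * z) := Iff.rfl

theorem coe_mem_locW (b : integralClosure O C) : (b : C) ∈ locW Q := by
  refine ⟨1, fun h => hQ.ne_top ((Ideal.eq_top_iff_one Q).2 h), ?_⟩
  have : ((1 : integralClosure O C) : C) * b = b := by simp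
  rw [this]
  exact b.2

theorem val_coe_lt_one_iff (b : integralClosure O C) : (locW Q).valuation (b : C) < 1 ↔ b ∈ Q := by
  constructor
  · intro h
    by_contra hb
    have h1 : ((b : C))⁻¹ ∈ locW Q := by
      by_cases h0 : (b : C) = 0
      · rw [h0, inv_zero]; exact (locW Q).zero_mem
      · refine ⟨b, hb, ?_⟩
        rw [mul_inv_cancel₀ h0]; exact isIntegral_one
    have h2 : (locW Q).valuation ((b : C))⁻¹ ≤ 1 := ((locW Q).valuation_le_one_iff _).2 h1
    have h0 : (b : C) ≠ 0 := by
      intro h0
      apply hb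
      have : b = 0 := Subtype.ext h0
      rw [this]; exact Q.zero_mem
    rw [map_inv₀] at h2
    have h3 : (locW Q).valuation (b : C) ≠ 0 := by simpa using h0
    have h4 := (inv_le_one₀ (zero_lt_iff.2 h3)).1 h2
    exact absurd h (not_lt.2 h4)
  · intro hb
    rw [lt_iff_le_and_ne]
    refine ⟨((locW Q).valuation_le_one_iff _).2 (coe_mem_locW Q b), fun h => ?_⟩
    have h0 : (b : C) ≠ 0 := by
      intro h0
      rw [h0, map_zero] at h
      exact zero_ne_one h
    have h1 : (locW Q).valuation ((b : C))⁻¹ ≤ 1 := by rw [map_inv₀, h, inv_one]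
    obtain ⟨s, hs, hint⟩ := ((locW Q).valuation_le_one_iff _).1 h1
    apply hs
    have : s = ⟨_, hint⟩ * b := by
      apply Subtype.ext
      change (s : C) = (s * (b : C)⁻¹) * b
      field_simp
    rw [this]
    exact Q.mul_mem_left _ hb

end LocW

end Pool.Agent.Helper91.Sect
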