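import Pool.Agent.Helper91.Section.Inv

/-!
# A form of Hilbert 90 for sections
-/

universe u

namespace Pool.Agent.Helper91.Sect

open Polynomial

section

variable {k K : Type u} [Field k] [Field K] [Algebra k K] [CharZero k]

theorem exists_lift_hom (M : IntermediateField k (kbar k K)) (φ : M →ₐ[k] kbar k K) :
    ∃ σ : Gk k K, ∀ z : M, σ (z : kbar k K) = φ z := by
  have hn : Normal k (kbar k K) := (instGalKbar (k := k) (K := K)).to_normal
  refine ⟨AlgEquiv.ofBijective (φ.liftNormal (kbar k K)) (AlgHom.normal_bijective k _ _ _), ?_⟩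
  intro z
  exact AlgHom.liftNormal_commutes φ (kbar k K) z

variable (s : GaloisSection k K)

/-- If `s(H)` multiplies `g` by constants, then some nonzero constant multiple of `g` is fixed. -/
theorem exists_fixed_mul (M₀ : IntermediateField k (kbar k K)) [FiniteDimensional k M₀]
    (g : Kur k K) (hg0 : g ≠ 0)
    (hg : ∀ σ ∈ M₀.fixingSubgroup, ∃ c : kbar k K, s.toHom σ g = toKur k K c * g) :
    ∃ e : kbar k K, e ≠ 0 ∧ ∀ σ ∈ M₀.fixingSubgroup,
      s.toHom σ (toKur k K e * g) = toKur k K e * g := by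
  classical
  obtain ⟨L₁, hL₁, hfix⟩ := exists_finite_level s g
  set M : IntermediateField k (kbar k K) := M₀ ⊔ L₁ with hM
  have hMfd : FiniteDimensional k M := IntermediateField.finiteDimensional_sup M₀ L₁
  choose lift hlift using exists_lift_hom (k := k) (K := K) M
  set S : Finset (M →ₐ[k] kbar k K) :=
    Finset.univ.filter fun φ => ∀ z : M, (z : kbar k K) ∈ M₀ → φ z = z with hS
  have hliftH : ∀ φ ∈ S, lift φ ∈ M₀.fixingSubgroup := by
    intro φ hφ
    rw [IntermediateField.mem_fixingSubgroup_iff]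
    intro z hz
    have h1 := (Finset.mem_filter.1 hφ).2 ⟨z, le_sup_left (a := M₀) (b := L₁) hz⟩ hz
    rw [← hlift] at h1
    exact h1
  choose! c hc using hg
  have hc0 : ∀ σ ∈ M₀.fixingSubgroup, c σ ≠ 0 := by
    intro σ hσ h0
    have h1 := hc σ hσ
    rw [h0, map_zero, zero_mul] at h1
    exact hg0 ((map_eq_zero (s.toHom σ)).1 h1)
  -- linear independence of the embeddings
  have hli : LinearIndependent (kbar k K)
      (fun φ : S => (fun z : M => (φ : M →ₐ[k] kbar k K) z)) := by
    have h1 := linearIndependent_monoidHom M (kbar k K)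
    have h2 : Function.Injective (fun φ : S => (((φ : M →ₐ[k] kbar k K) : M →+* kbar k K) :
        M →* kbar k K)) := by
      intro φ ψ h
      apply Subtype.ext
      apply AlgHom.ext
      intro z
      exact DFunLike.congr_fun h z
    exact h1.comp _ h2
  obtain ⟨θ, hθ⟩ : ∃ θ : M, ∑ φ : S, c (lift φ) * (φ : M →ₐ[k] kbar k K) θ ≠ 0 := by
    by_contra hcon
    push Not at hcon
    have h1 := Fintype.linearIndependent_iff.1 hli (fun φ : S => c (lift φ)) (by
      funext z
      rw [Finset.sum_apply, Pi.zero_apply, ← hcon z]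
      rfl)
    have hid : (IntermediateField.val M) ∈ S := by
      rw [hS, Finset.mem_filter]
      exact ⟨Finset.mem_univ _, fun z _ => rfl⟩
    exact hc0 _ (hliftH _ hid) (h1 ⟨_, hid⟩)
  refine ⟨∑ φ : S, c (lift φ) * (φ : M →ₐ[k] kbar k K) θ, hθ, ?_⟩
  have hact : toKur k K (∑ φ : S, c (lift φ) * (φ : M →ₐ[k] kbar k K) θ) * g =
      ∑ φ ∈ S, s.toHom (lift φ) (toKur k K (θ : kbar k K) * g) := by
    rw [map_sum, Finset.sum_mul, ← Finset.sum_coe_sort S]
    refine Finset.sum_congr rfl fun φ _ => ?_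
    rw [map_mul, map_mul, section_toKur, hlift, hc _ (hliftH _ φ.2)]
    ring
  intro σ hσ
  rw [hact, map_sum]
  -- reindexing
  have key : ∀ σ ∈ M₀.fixingSubgroup, ∀ φ ∈ S, ((σ : kbar k K →ₐ[k] kbar k K).comp φ) ∈ S := by
    intro σ hσ φ hφ
    rw [hS, Finset.mem_filter]
    refine ⟨Finset.mem_univ _, fun z hz => ?_⟩
    rw [AlgHom.comp_apply, (Finset.mem_filter.1 hφ).2 z hz]
    exact (IntermediateField.mem_fixingSubgroup_iff _ _).1 hσ _ hz
  refine Finset.sum_nbij' (fun φ => (σ : kbar k K →ₐ[k] kbar k K).comp φ)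
    (fun φ => ((σ⁻¹ : Gk k K) : kbar k K →ₐ[k] kbar k K).comp φ) (key σ hσ)
    (key σ⁻¹ (inv_mem hσ)) ?_ ?_ ?_
  · intro φ _
    apply AlgHom.ext
    intro z
    change (σ⁻¹ * σ) (φ z) = φ z
    rw [inv_mul_cancel]; rfl
  · intro φ _
    apply AlgHom.ext
    intro z
    change (σ * σ⁻¹) (φ z) = φ z
    rw [mul_inv_cancel]; rfl
  · intro φ hφ
    set ψ := (σ : kbar k K →ₐ[k] kbar k K).comp φ with hψ
    -- `σ * lift φ` and `lift ψ` agree on `M`
    have h1 : (lift ψ)⁻¹ * (σ * lift φ) ∈ M.fixingSubgroup := by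
      rw [IntermediateField.mem_fixingSubgroup_iff]
      intro z hz
      have h2 : (σ * lift φ) z = lift ψ z := by
        change σ (lift φ z) = lift ψ z
        rw [hlift φ ⟨z, hz⟩, hlift ψ ⟨z, hz⟩]; rfl
      change (lift ψ)⁻¹ ((σ * lift φ) z) = z
      rw [h2]
      change ((lift ψ)⁻¹ * lift ψ) z = z
      rw [inv_mul_cancel]; rfl
    have h3 : σ * lift φ = lift ψ * ((lift ψ)⁻¹ * (σ * lift φ)) := by
      rw [mul_inv_cancel_left]
    have h4 : s.toHom σ (s.toHom (lift φ) (toKur k K (θ : kbar k K) * g)) =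
        s.toHom (σ * lift φ) (toKur k K (θ : kbar k K) * g) := by
      rw [map_mul s.toHom]; rfl
    rw [h4, h3, map_mul s.toHom]
    change s.toHom (lift ψ) (s.toHom _ (toKur k K (θ : kbar k K) * g)) = _
    congr 1
    rw [map_mul, section_toKur, hfix _ ?_]
    · congr 2
      exact (IntermediateField.mem_fixingSubgroup_iff _ _).1 h1 _ θ.2
    · rw [IntermediateField.mem_fixingSubgroup_iff] at h1 ⊢
      intro z hz
      exact h1 z (le_sup_right (a := M₀) (b := L₁) hz)

end

end Pool.Agent.Helper91.Sect
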