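import Pool.Agent.Helper91.Section.Tame2

/-!
# The tame relation in arbitrary residue characteristic
-/

universe u

namespace Pool.Agent.Helper91.Sect

open scoped Pointwise IntermediateField
open Polynomial

section Relation

variable {k C : Type u} [Field k] [Field C] [Algebra k C] [IsGalois k C]
  {O : ValuationSubring k} (Q : Ideal (integralClosure O C)) [hQ : Q.IsPrime]
variable [CharZero C] [IsAlgClosed C] {p : ℕ} (hp : p = 1 ∨ p.Prime)
  (hres : ∀ n : ℕ, n ≠ 0 → n.Coprime p → (locW Q).valuation (n : C) = 1)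

theorem exists_root_cong' {τ : C ≃ₐ[k] C} (hτ : InI Q τ) {u : C} (hu : u ≠ 0) {n : ℕ}
    (hn : (minpoly k u).natDegree ≤ n) :
    ∃ ζ : C, ζ ^ n.factorial = 1 ∧ Cg (locW Q).valuation (τ u / u) ζ := by
  obtain ⟨α, hα, hval⟩ := exists_pow_val (locW Q).valuation hu
    (Algebra.IsIntegral.isIntegral (R := k) u) hn
  set M := n.factorial with hM
  have hM0 : M ≠ 0 := Nat.factorial_ne_zero _
  have hα' : algebraMap k C α ≠ 0 := by simpa using hα
  have hvα : (locW Q).valuation (algebraMap k C α) ≠ 0 := by simpa using hα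
  set e := u ^ M / algebraMap k C α with he
  have h1 : (locW Q).valuation e = 1 := by
    rw [he, map_div₀, hval, div_self hvα]
  have he0 : e ≠ 0 := div_ne_zero (pow_ne_zero _ hu) hα'
  set ξ := τ u / u with hξ
  have hvξ : (locW Q).valuation ξ = 1 := by
    rw [hξ, map_div₀, val_D Q hτ.1, div_self (by simpa using hu)]
  have h2 : ξ ^ M = τ e / e := by
    rw [he, hξ, map_div₀, map_pow, AlgEquiv.commutes, div_pow, div_div_div_cancel_right₀ hα']
  have h3 : Cg (locW Q).valuation (ξ ^ M) 1 := by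
    rw [h2]
    have := (cg_inertia Q hτ h1.le).div (Cg.refl h1.le) h1
    rwa [div_self he0] at this
  have : NeZero M := ⟨hM0⟩
  obtain ⟨ζ0, hζ0⟩ := HasEnoughRootsOfUnity.exists_primitiveRoot C M
  have h4 := X_pow_sub_one_eq_prod (Nat.pos_of_ne_zero hM0) hζ0
  have h5 : ξ ^ M - 1 = ∏ ζ ∈ nthRootsFinset M (1 : C), (ξ - ζ) := by
    have := congrArg (eval ξ) h4
    simpa [eval_prod] using this
  by_contra hcon
  push Not at hcon
  have h6 : ∀ ζ ∈ nthRootsFinset M (1 : C), (locW Q).valuation (ξ - ζ) = 1 := by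
    intro ζ hζ
    rw [mem_nthRootsFinset (Nat.pos_of_ne_zero hM0)] at hζ
    have hvζ : (locW Q).valuation ζ = 1 := by
      have : (locW Q).valuation ζ ^ M = 1 := by rw [← map_pow, hζ, map_one]
      exact (pow_eq_one_iff_of_nonneg zero_le hM0).1 this
    have h7 := hcon ζ hζ
    refine le_antisymm ((Valuation.map_sub _ _ _).trans (max_le hvξ.le hvζ.le)) ?_
    by_contra hlt
    exact h7 ⟨hvξ.le, hvζ.le, not_le.1 hlt⟩
  have h8 := h3.2.2
  rw [h5, map_prod, Finset.prod_eq_one h6] at h8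
  exact lt_irrefl _ h8

include hp hres in
/-- **Tame relation**, up to wild inertia. -/
theorem tame_relation_wild {γ τ : C ≃ₐ[k] C} (hγ : InD Q γ) (hτ : InI Q τ)
    (L : IntermediateField k C) [FiniteDimensional k L] [Normal k L] (N : ℕ) (hN : N ≠ 0) :
    ∃ a j : ℕ, (∀ ζ : C, ζ ^ N = 1 → γ ζ = ζ ^ a) ∧
      ∀ z ∈ L, (((τ ^ a)⁻¹ * (γ * τ * γ⁻¹)) ^ (p ^ j)) z = z := by
  classical
  set n := Module.finrank k L with hn
  set M := n.factorial with hM
  have hM0 : M ≠ 0 := Nat.factorial_ne_zero _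
  have hMN : M * N ≠ 0 := mul_ne_zero hM0 hN
  have : NeZero (M * N) := ⟨hMN⟩
  obtain ⟨ζ0, hζ0⟩ := HasEnoughRootsOfUnity.exists_primitiveRoot C (M * N)
  obtain ⟨a, -, ha⟩ : ∃ a < M * N, ζ0 ^ a = γ ζ0 := by
    apply hζ0.eq_pow_of_pow_eq_one
    rw [← map_pow, hζ0.pow_eq_one, map_one]
  have hroot : ∀ ζ : C, ζ ^ (M * N) = 1 → γ ζ = ζ ^ a := by
    intro ζ hζ
    obtain ⟨b, -, rfl⟩ := hζ0.eq_pow_of_pow_eq_one hζ
    rw [map_pow, ← ha, ← pow_mul, ← pow_mul, mul_comm]
  obtain ⟨m, hm0, hm⟩ : ∃ m : ℕ, m ≠ 0 ∧ ∀ σ : C ≃ₐ[k] C, ∀ z ∈ L, (σ ^ m) z = z := by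
    have hfin : Finite (L ≃ₐ[k] L) := inferInstance
    refine ⟨Nat.card (L ≃ₐ[k] L), Nat.card_pos.ne', fun σ z hz => ?_⟩
    have h1 : (AlgEquiv.restrictNormalHom L σ) ^ Nat.card (L ≃ₐ[k] L) = 1 := pow_card_eq_one'
    rw [← map_pow] at h1
    have h2 := DFunLike.congr_fun h1 ⟨z, hz⟩
    have h3 := AlgEquiv.restrictNormalHom_apply L (σ ^ Nat.card (L ≃ₐ[k] L)) ⟨z, hz⟩
    rw [h2] at h3
    exact h3.symm
  obtain ⟨j, m', hm'0, hm'p, hmm⟩ : ∃ j m' : ℕ, m' ≠ 0 ∧ m'.Coprime p ∧ m = p ^ j * m' := by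
    rcases hp with rfl | hp
    · exact ⟨0, m, hm0, Nat.coprime_one_right m, by simp⟩
    · obtain ⟨j, m', h1, h2⟩ := Nat.exists_eq_pow_mul_and_not_dvd hm0 p hp.ne_one
      refine ⟨j, m', ?_, ((Nat.Prime.coprime_iff_not_dvd hp).2 h1).symm, h2⟩
      rintro rfl
      exact h1 (dvd_zero p)
  refine ⟨a, j, fun ζ hζ => hroot ζ (by rw [mul_comm, pow_mul, hζ, one_pow]), ?_⟩
  have hdeg : ∀ u ∈ L, (minpoly k u).natDegree ≤ n := by
    intro u hu
    have h1 := minpoly.natDegree_le (A := k) (⟨u, hu⟩ : L)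
    rwa [← minpoly.algHom_eq L.val L.val.injective] at h1
  -- the two ratios
  have hratio : ∀ u ∈ L, u ≠ 0 →
      Cg (locW Q).valuation ((γ * τ * γ⁻¹) u / u) ((τ ^ a) u / u) := by
    intro u hu hu0
    obtain ⟨ζ, hζ, hcg⟩ := exists_root_cong' Q hτ hu0 (hdeg u hu)
    have hvζ : (locW Q).valuation ζ = 1 := by
      have : (locW Q).valuation ζ ^ M = 1 := by rw [← map_pow, hζ, map_one]
      exact (pow_eq_one_iff_of_nonneg zero_le hM0).1 this
    -- second ratio
    have h2 : ∀ b : ℕ, Cg (locW Q).valuation ((τ ^ b) u / u) (ζ ^ b) := by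
      intro b
      induction b with
      | zero =>
        rw [pow_zero, pow_zero, AlgEquiv.one_apply, div_self hu0]
        exact Cg.refl (by simp)
      | succ b ih =>
        have h3 : (τ ^ (b + 1)) u / u = τ ((τ ^ b) u / u) * (τ u / u) := by
          have h5 : τ u ≠ 0 := by simpa using hu0
          rw [pow_succ', AlgEquiv.mul_apply, map_div₀]
          field_simp
        rw [h3, pow_succ]
        have h4 : Cg (locW Q).valuation (τ ((τ ^ b) u / u)) (ζ ^ b) :=
          (cg_inertia Q hτ ih.1).trans ih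
        exact h4.mul hcg
    -- first ratio
    set u' := γ⁻¹ u with hu'
    have hu'0 : u' ≠ 0 := by simpa [hu'] using hu0
    set f := u' / u with hf
    have hvf : (locW Q).valuation f = 1 := by
      rw [hf, map_div₀, hu', val_D Q hγ.inv, div_self (by simpa using hu0)]
    have hf0 : f ≠ 0 := div_ne_zero hu'0 hu0
    have h5 : τ u' / u' = (τ f / f) * (τ u / u) := by
      have h6 : u' = f * u := by rw [hf]; field_simp
      rw [h6, map_mul]; field_simp
    have h6 : Cg (locW Q).valuation (τ u' / u') ζ := by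
      rw [h5]
      have h7 : Cg (locW Q).valuation (τ f / f) 1 := by
        have := (cg_inertia Q hτ hvf.le).div (Cg.refl hvf.le) hvf
        rwa [div_self hf0] at this
      simpa using h7.mul hcg
    have h7 : (γ * τ * γ⁻¹) u / u = γ (τ u' / u') := by
      rw [AlgEquiv.mul_apply, AlgEquiv.mul_apply, map_div₀]
      congr 1
      rw [hu']
      change u = (γ * γ⁻¹) u
      rw [mul_inv_cancel]; rfl
    rw [h7]
    have h8 : Cg (locW Q).valuation (γ (τ u' / u')) (γ ζ) := h6.mapD Q hγ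
    rw [hroot ζ (by rw [pow_mul, hζ, one_pow])] at h8
    exact h8.trans (h2 a).symm
  -- the quotient automorphism
  set σ : C ≃ₐ[k] C := (τ ^ a)⁻¹ * (γ * τ * γ⁻¹) with hσ
  have hσI : InI Q σ := (hτ.pow a).inv.mul (hτ.conj hγ)
  clear_value σ
  have hσL : ∀ (ρ : C ≃ₐ[k] C), ∀ z ∈ L, ρ z ∈ L := by
    intro ρ z hz
    exact (IntermediateField.normal_iff_forall_map_le.1 ‹Normal k L› (ρ : C →ₐ[k] C))
      ⟨z, hz, rfl⟩
  have hσ1 : ∀ u ∈ L, u ≠ 0 → Cg (locW Q).valuation (σ u / u) 1 := by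
    intro u hu hu0
    have h1 := hratio u hu hu0
    set x := (γ * τ * γ⁻¹) u / u with hx
    set y := (τ ^ a) u / u with hy
    clear_value x y
    have hvy : (locW Q).valuation y = 1 := by
      rw [hy, map_div₀, val_D Q (hτ.pow a).1, div_self (by simpa using hu0)]
    have hy0 : y ≠ 0 := by
      intro h0; rw [h0, map_zero] at hvy; exact zero_ne_one hvy
    have h2 : σ u / u = (τ ^ a)⁻¹ (x / y) := by
      have h3 : (γ * τ * γ⁻¹) u = x * u := by rw [hx]; field_simp
      have h4 : (τ ^ a) u = y * u := by rw [hy]; field_simp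
      have h5 : (τ ^ a)⁻¹ (y * u) = u := by
        rw [← h4]
        change ((τ ^ a)⁻¹ * (τ ^ a)) u = u
        rw [inv_mul_cancel]; rfl
      rw [map_mul] at h5
      have h6 : (τ ^ a)⁻¹ y ≠ 0 := by simpa using hy0
      rw [hσ, AlgEquiv.mul_apply, h3, map_mul, map_div₀]
      rw [div_eq_div_iff hu0 h6]
      calc (τ ^ a)⁻¹ x * (τ ^ a)⁻¹ u * (τ ^ a)⁻¹ y
          = (τ ^ a)⁻¹ x * ((τ ^ a)⁻¹ y * (τ ^ a)⁻¹ u) := by ring
        _ = _ := by rw [h5]
    rw [h2]
    have h3 : Cg (locW Q).valuation (x / y) 1 := by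
      have := h1.div (Cg.refl hvy.le) hvy
      rwa [div_self hy0] at this
    have h4 := h3.mapD Q (hτ.pow a).1.inv
    rwa [map_one] at h4
  -- iterate
  have hiter : ∀ u ∈ L, u ≠ 0 → ∀ i : ℕ, Cg (locW Q).valuation ((σ ^ i) u / u) 1 := by
    intro u hu hu0 i
    induction i with
    | zero =>
      rw [pow_zero, AlgEquiv.one_apply, div_self hu0]; exact Cg.refl (by simp)
    | succ i ih =>
      have h5 : σ u ≠ 0 := by simpa using hu0
      have h3 : (σ ^ (i + 1)) u / u = σ ((σ ^ i) u / u) * (σ u / u) := by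
        rw [pow_succ', AlgEquiv.mul_apply, map_div₀]
        field_simp
      rw [h3]
      have h4 := (ih.mapD Q hσI.1)
      rw [map_one] at h4
      simpa using h4.mul (hσ1 u hu hu0)
  -- the power of `σ` is trivial on `L`
  intro u hu
  set ρ := σ ^ (p ^ j) with hρ
  have hρm : ∀ z ∈ L, (ρ ^ m') z = z := by
    intro z hz
    rw [hρ, ← pow_mul, ← hmm]
    exact hm σ z hz
  set S := ∑ i ∈ Finset.range m', (ρ ^ i) u with hS
  have hρS : ρ S = S := by
    rw [hS, map_sum]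
    have h1 : ∀ i, ρ ((ρ ^ i) u) = (ρ ^ (i + 1)) u := fun i => by
      rw [pow_succ', AlgEquiv.mul_apply]
    simp_rw [h1]
    have h2 := Finset.sum_range_succ' (fun i => (ρ ^ i) u) m'
    have h3 := Finset.sum_range_succ (fun i => (ρ ^ i) u) m'
    rw [hρm u hu] at h3
    rw [h3, pow_zero, AlgEquiv.one_apply] at h2
    exact (add_right_cancel h2).symm
  have hSL : S ∈ L := by
    rw [hS]; exact L.sum_mem fun i _ => hσL _ u hu
  have hmC : (m' : C) ≠ 0 := by exact_mod_cast hm'0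
  set z := u - (m' : C)⁻¹ * S with hz
  have hzL : z ∈ L := L.sub_mem hu (L.mul_mem (L.inv_mem (L.natCast_mem m')) hSL)
  have hρiS : ∀ i, (ρ ^ i) S = S := by
    intro i
    induction i with
    | zero => rw [pow_zero, AlgEquiv.one_apply]
    | succ i ih => rw [pow_succ', AlgEquiv.mul_apply, ih, hρS]
  have hsum : ∑ i ∈ Finset.range m', (ρ ^ i) z = 0 := by
    have h1 : ∀ i, (ρ ^ i) z = (ρ ^ i) u - (m' : C)⁻¹ * S := fun i => by
      rw [hz, map_sub, map_mul, hρiS, map_inv₀, map_natCast]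
    simp_rw [h1]
    rw [Finset.sum_sub_distrib, ← hS, Finset.sum_const, Finset.card_range, nsmul_eq_mul,
      ← mul_assoc, mul_inv_cancel₀ hmC, one_mul, sub_self]
  have hz0 : z = 0 := by
    by_contra hz0
    have h1 : ∑ i ∈ Finset.range m', ((ρ ^ i) z / z - 1) = -(m' : C) := by
      rw [Finset.sum_sub_distrib, ← Finset.sum_div, hsum]; simp
    have h2 : (locW Q).valuation (∑ i ∈ Finset.range m', ((ρ ^ i) z / z - 1)) < 1 :=
      Valuation.map_sum_lt' _ zero_lt_one fun i _ => by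
        rw [hρ, ← pow_mul]
        exact (hiter z hzL hz0 _).2.2
    rw [h1, Valuation.map_neg, hres m' hm'0 hm'p] at h2
    exact lt_irrefl _ h2
  have h1 : u = (m' : C)⁻¹ * S := sub_eq_zero.1 hz0
  rw [h1, map_mul, hρS, map_inv₀, map_natCast]

end Relation

end Pool.Agent.Helper91.Sect
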