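import Pool.Agent.Helper91.Section.Inv
import Pool.Agent.Helper91.Section.TameP

/-!
# The tame relation transported through a section, in arbitrary residue characteristic
-/

universe u

namespace Pool.Agent.Helper91.Sect

section

variable {k K : Type u} [Field k] [Field K] [Algebra k K]

theorem exists_finite_level_set (s : GaloisSection k K) (A : Finset (Kur k K)) :
    ∃ L : IntermediateField k (kbar k K), FiniteDimensional k L ∧
      ∀ σ ∈ L.fixingSubgroup, ∀ w ∈ A, s.toHom σ w = w := by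
  classical
  induction A using Finset.induction_on with
  | empty =>
    exact ⟨⊥, inferInstance, fun σ _ w hw => absurd hw (by simp)⟩
  | insert a A _ ih =>
    obtain ⟨L, hL, h1⟩ := ih
    obtain ⟨L', hL', h2⟩ := exists_finite_level s a
    refine ⟨L ⊔ L', IntermediateField.finiteDimensional_sup L L', fun σ hσ w hw => ?_⟩
    rw [IntermediateField.mem_fixingSubgroup_iff] at hσ
    rcases Finset.mem_insert.1 hw with rfl | hw
    · refine h2 σ ?_
      rw [IntermediateField.mem_fixingSubgroup_iff]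
      exact fun z hz => hσ z (le_sup_right (a := L) (b := L') hz)
    · refine h1 σ ?_ w hw
      rw [IntermediateField.mem_fixingSubgroup_iff]
      exact fun z hz => hσ z (le_sup_left (a := L) (b := L') hz)

variable [CharZero k] (s : GaloisSection k K) {O : ValuationSubring k}
    (Q : IC O (kbar k K)) [hQ : Q.IsPrime] {p : ℕ} (hp : p = 1 ∨ p.Prime)
    (hres : ∀ n : ℕ, n ≠ 0 → n.Coprime p → (locW Q).valuation (n : kbar k K) = 1)

include hp hres

/-- The tame relation transported through a section. -/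
theorem section_tame_wild {γ τ : Gk k K} (hγ : InD Q γ) (hτ : InI Q τ) (A : Finset (Kur k K))
    (N : ℕ) (hN : N ≠ 0) :
    ∃ a j : ℕ, (∀ ζ : kbar k K, ζ ^ N = 1 → γ ζ = ζ ^ a) ∧ ∃ σ : Gk k K, InI Q σ ∧
      γ * τ * γ⁻¹ = τ ^ a * σ ∧ ∀ w ∈ A, s.toHom (σ ^ (p ^ j)) w = w := by
  obtain ⟨L, hL, hfix⟩ := exists_finite_level_set s A
  set L' := IntermediateField.normalClosure k L (kbar k K) with hL'
  have hle : L ≤ L' := IntermediateField.le_normalClosure L
  have hfd : FiniteDimensional k L' := normalClosure.is_finiteDimensional k L (kbar k K)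
  have hnorm : Normal k L' := normalClosure.normal k L (kbar k K)
  obtain ⟨a, j, ha1, ha2⟩ := tame_relation_wild Q hp hres hγ hτ L' N hN
  refine ⟨a, j, ha1, (τ ^ a)⁻¹ * (γ * τ * γ⁻¹), (hτ.pow a).inv.mul (hτ.conj hγ), ?_, ?_⟩
  · rw [mul_inv_cancel_left]
  · intro w hw
    refine hfix _ ?_ w hw
    rw [IntermediateField.mem_fixingSubgroup_iff]
    intro z hz
    exact ha2 z (hle hz)

theorem section_inv_wild {γ τ : Gk k K} (hγ : InD Q γ) (hτ : InI Q τ) {w : Kur k K}
    {ζ : kbar k K} {N : ℕ} (hN : N ≠ 0) (hζ : ζ ^ N = 1) (hτζ : τ ζ = ζ)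
    (hw : s.toHom τ w = toKur k K ζ * w) (A : Finset (Kur k K))
    (hkey : ∀ (σ : Gk k K) (j : ℕ), InI Q σ → (∀ w' ∈ A, s.toHom (σ ^ (p ^ j)) w' = w') →
      s.toHom σ w = w) :
    s.toHom τ (s.toHom γ w) = toKur k K ζ * s.toHom γ w := by
  obtain ⟨a, j, ha1, σ, hσI, hrel, hσA⟩ := section_tame_wild s Q hp hres hγ.inv hτ A N hN
  have hσw := hkey σ j hσI hσA
  have h1 : ∀ i : ℕ, (s.toHom τ ^ i) w = toKur k K (ζ ^ i) * w := by
    intro i
    induction i with
    | zero => rw [pow_zero, pow_zero, map_one, one_mul]; rfl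
    | succ i ih =>
      rw [pow_succ', AlgEquiv.mul_apply, ih, map_mul, section_toKur, hw, map_pow τ, hτζ, pow_succ,
        map_mul, mul_assoc]
  have ha2 := congrArg (fun g => s.toHom g w) hrel
  simp only [map_mul, map_pow, AlgEquiv.mul_apply, inv_inv, hσw, h1] at ha2
  have h2 := congrArg (s.toHom γ) ha2
  rw [← AlgEquiv.mul_apply, ← map_mul s.toHom, mul_inv_cancel, map_one, AlgEquiv.one_apply] at h2
  rw [h2, map_mul (s.toHom γ)]
  congr 1
  rw [← map_pow, ← ha1 ζ hζ, section_toKur]
  congr 1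
  change (γ * γ⁻¹) ζ = ζ
  rw [mul_inv_cancel]; rfl

omit hp in
/-- inertia fixes the roots of unity of order prime to the residue characteristic -/
theorem inertia_root {σ : Gk k K} (hσ : InI Q σ) {ζ : kbar k K} {N : ℕ} (hN : N ≠ 0)
    (hNp : N.Coprime p) (hζ : ζ ^ N = 1) : σ ζ = ζ := by
  have hζ0 : ζ ≠ 0 := by
    rintro rfl
    rw [zero_pow hN] at hζ
    exact zero_ne_one hζ
  have hvζ : (locW Q).valuation ζ = 1 := by
    have : (locW Q).valuation ζ ^ N = 1 := by rw [← map_pow, hζ, map_one]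
    exact (pow_eq_one_iff_of_nonneg zero_le hN).1 this
  set η := σ ζ / ζ with hη
  have hηN : η ^ N = 1 := by
    rw [hη, div_pow, ← map_pow, hζ, map_one, div_one]
  have h1 : Cg (locW Q).valuation η 1 := by
    have := (cg_inertia Q hσ hvζ.le).div (Cg.refl hvζ.le) hvζ
    rwa [div_self hζ0] at this
  by_cases hη1 : η = 1
  · rw [hη, div_eq_one_iff_eq hζ0] at hη1
    exact hη1
  exfalso
  set d := orderOf η with hd
  have hdN : d ∣ N := orderOf_dvd_of_pow_eq_one hηN
  have hd0 : d ≠ 0 := fun h0 => hN (Nat.eq_zero_of_zero_dvd (h0 ▸ hdN))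
  have hsum : ∑ i ∈ Finset.range d, η ^ i = 0 := by
    have h2 := geom_sum_mul η d
    rw [hd, pow_orderOf_eq_one, sub_self, ← hd] at h2
    exact (mul_eq_zero.1 h2).resolve_right (sub_ne_zero.2 hη1)
  have h3 : ∑ i ∈ Finset.range d, (η ^ i - 1) = -(d : kbar k K) := by
    rw [Finset.sum_sub_distrib, hsum]; simp
  have h4 : (locW Q).valuation (∑ i ∈ Finset.range d, (η ^ i - 1)) < 1 :=
    Valuation.map_sum_lt' _ zero_lt_one fun i _ => by
      have := h1.pow i
      rw [one_pow] at this
      exact this.2.2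
  rw [h3, Valuation.map_neg, hres d hd0 (Nat.Coprime.coprime_dvd_left hdN hNp)] at h4
  exact lt_irrefl _ h4

omit hp in
/-- inertia fixes the square roots of fixed units, in residue characteristic different from two -/
theorem inertia_sqrt (hp2 : Nat.Coprime 2 p) {σ : Gk k K} (hσ : InI Q σ) {z : kbar k K}
    (hz : (locW Q).valuation z = 1) (hz2 : σ (z ^ 2) = z ^ 2) : σ z = z := by
  rw [map_pow] at hz2
  rcases sq_eq_sq_iff_eq_or_eq_neg.1 hz2 with h | h
  · exact h
  · exfalso
    have h1 := val_inertia Q hσ hz.le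
    have h2 : -z - z = -(((2 : ℕ) : kbar k K) * z) := by push_cast; ring
    rw [h, h2, Valuation.map_neg, map_mul, hz, mul_one, hres 2 two_ne_zero hp2] at h1
    exact lt_irrefl _ h1

end

end Pool.Agent.Helper91.Sect
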