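import Pool.Agent.Helper91.Section.Func2

/-!
# Roots of the functions attached to torsion points
-/

universe u

namespace Pool.Agent.Helper91.Sect

open Polynomial WeierstrassCurve WeierstrassCurve.Affine
open scoped Polynomial.Bivariate

section Roots

variable {F : Type u} [Field F] {W : WeierstrassCurve.Affine F}
  {Ω : Type u} [Field Ω] [Algebra F Ω] {e₁ e₂ e₃ : F} (hW : IsE W e₁ e₂ e₃) {x y : Ω}
    (h : y ^ 2 = (x - algebraMap F Ω e₁) * (x - algebraMap F Ω e₂) * (x - algebraMap F Ω e₃))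
  [DecidableEq F]

/-- `g` is an `n`-th root of a function with divisor `n (P) - n (O)`. -/
def RootAt (P : W.Point) (g : Ω) : Prop :=
  ∃ n : ℕ, 0 < n ∧ n • P = 0 ∧ ∃ r : W.CoordinateRing, idOf P ^ n = Ideal.span {r} ∧
    g ^ n = evR hW h r

theorem span_principal {R : Type*} [CommRing R] [IsDomain R] {J : Ideal R} {a b : R} (ha : a ≠ 0)
    (hab : Ideal.span {a} * J = Ideal.span {b}) : ∃ r : R, b = a * r ∧ J = Ideal.span {r} := by
  have h1 : b ∈ Ideal.span {a} * J := hab ▸ Ideal.mem_span_singleton_self b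
  obtain ⟨r, hr, hbr⟩ := Ideal.mem_span_singleton_mul.1 h1
  refine ⟨r, hbr.symm, le_antisymm ?_ ?_⟩
  · intro j hj
    have h2 : a * j ∈ Ideal.span {b} := hab ▸ Ideal.mul_mem_mul (Ideal.mem_span_singleton_self a) hj
    obtain ⟨c, hc⟩ := Ideal.mem_span_singleton'.1 h2
    rw [Ideal.mem_span_singleton']
    refine ⟨c, mul_left_cancel₀ ha ?_⟩
    rw [← hc, ← hbr]; ring
  · rw [Ideal.span_singleton_le_iff_mem]; exact hr

theorem exists_gen (P : W.Point) {n : ℕ} (hn : n • P = 0) :
    ∃ r : W.CoordinateRing, r ≠ 0 ∧ idOf P ^ n = Ideal.span {r} ∧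
      ∀ V : ValuationSubring Ω, TrivC F V → 1 < V.valuation x →
        V.valuation (evR hW h r) = V.valuation (y / x) ^ (n * wt P) := by
  obtain ⟨a, b, ha, hb, hab, hval⟩ := pow_rel hW h P n
  rw [hn, idOf_zero, ← Ideal.one_eq_top, mul_one] at hab
  obtain ⟨r, hr, hr2⟩ := span_principal ha hab
  refine ⟨r, ?_, hr2, fun V hV hx => ?_⟩
  · rintro rfl
    rw [mul_zero] at hr
    exact hb hr
  · have h1 := hval V hV hx
    rw [hn, wt_zero, pow_zero, mul_one, hr, map_mul, map_mul] at h1
    by_cases h0 : evR hW h a = 0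
    · -- impossible, but harmless: use injectivity of the evaluation
      exfalso
      have htr : Transcendental F x := by
        intro halg
        obtain ⟨p, hp, hpx⟩ := halg
        obtain ⟨i, j, hij, -, hi0, hj0, hval⟩ : ∃ i j, i < j ∧ j ≤ p.natDegree ∧
            p.coeff i ≠ 0 ∧ p.coeff j ≠ 0 ∧ V.valuation (algebraMap F Ω (p.coeff i) * x ^ i) =
              V.valuation (algebraMap F Ω (p.coeff j) * x ^ j) := by
          classical
          have hne : p.support.Nonempty := by rwa [nonempty_support_iff]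
          set i := p.natDegree with hi
          have hi0 : p.coeff i ≠ 0 := by
            rw [hi]; exact leadingCoeff_ne_zero.2 hp
          exfalso
          have hlt : ∀ j ∈ p.support.erase i, V.valuation (algebraMap F Ω (p.coeff j) * x ^ j) <
              V.valuation (algebraMap F Ω (p.coeff i) * x ^ i) := by
            intro j hj
            have hj1 := Finset.mem_of_mem_erase hj
            have hj2 := Finset.ne_of_mem_erase hj
            rw [mem_support_iff] at hj1
            have hj3 : j < i := lt_of_le_of_ne (le_natDegree_of_ne_zero hj1) hj2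
            rw [map_mul, map_mul, hV _ hj1, hV _ hi0, one_mul, one_mul, map_pow, map_pow]
            exact pow_lt_pow_right₀ hx hj3
          have hnz : V.valuation (algebraMap F Ω (p.coeff i) * x ^ i) ≠ 0 := by
            rw [map_mul, hV _ hi0, one_mul, map_pow]
            exact pow_ne_zero _ (zero_lt_one.trans hx).ne'
          have h1 := V.valuation.map_sum_lt hnz hlt
          have h2 : ∑ n ∈ p.support, algebraMap F Ω (p.coeff n) * x ^ n = 0 := by
            rw [← hpx, aeval_def, eval₂_eq_sum, sum_def]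
          rw [← Finset.add_sum_erase _ _ (mem_support_iff.2 hi0)] at h2
          rw [eq_neg_of_add_eq_zero_right h2, Valuation.map_neg] at h1
          exact lt_irrefl _ h1
        have : V.valuation x ^ i < V.valuation x ^ j := pow_lt_pow_right₀ hx hij
        rw [map_mul, map_mul, hV _ hi0, hV _ hj0, one_mul, one_mul, map_pow, map_pow] at hval
        exact absurd hval this.ne
      exact evR_ne_zero hW h htr ha h0
    · exact mul_left_cancel₀ (by simpa using h0) h1

theorem exists_root [IsAlgClosed Ω] (P : W.Point) {n : ℕ} (hn0 : 0 < n) (hn : n • P = 0) :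
    ∃ g, RootAt hW h P g := by
  obtain ⟨r, -, hr, -⟩ := exists_gen hW h P hn
  obtain ⟨g, hg⟩ := IsAlgClosed.exists_pow_nat_eq (evR hW h r) hn0
  exact ⟨g, n, hn0, hn, r, hr, hg⟩

include hW h in
theorem gen_ne_zero {P : W.Point} {n : ℕ} (hn : n • P = 0) {r : W.CoordinateRing}
    (hr : idOf P ^ n = Ideal.span {r}) : r ≠ 0 := by
  obtain ⟨a, b, ha, hb, hab, -⟩ := pow_rel hW h P n
  rw [hn, idOf_zero, ← Ideal.one_eq_top, mul_one, hr, Ideal.span_singleton_mul_span_singleton] at hab
  rintro rfl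
  rw [mul_zero] at hab
  apply hb
  have : b ∈ Ideal.span ({0} : Set W.CoordinateRing) := hab ▸ Ideal.mem_span_singleton_self b
  simpa using this

variable (hx : Transcendental F x)

include hx in
theorem RootAt.ne_zero {P : W.Point} {g : Ω} (hg : RootAt hW h P g) : g ≠ 0 := by
  obtain ⟨n, hn0, hn, r, hr, hgr⟩ := hg
  rintro rfl
  rw [zero_pow hn0.ne'] at hgr
  exact evR_ne_zero hW h hx (gen_ne_zero hW h hn hr) hgr.symm

include hx in
/-- The multiplicativity of Kummer characters. -/
theorem RootAt.mul_rel [IsAlgClosed F] {P P' : W.Point} {g g' g'' : Ω} (hg : RootAt hW h P g)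
    (hg' : RootAt hW h P' g') (hg'' : RootAt hW h (P + P') g'') {ξ : Ω →+* Ω}
    (hξ : ∀ r, ξ (evR hW h r) = evR hW h r) :
    ξ g / g * (ξ g' / g') = ξ g'' / g'' := by
  have hg0 := hg.ne_zero hW h hx
  have hg0' := hg'.ne_zero hW h hx
  have hg0'' := hg''.ne_zero hW h hx
  obtain ⟨a, b, ha, hb, hab, -⟩ := ideal_rel hW h P P'
  obtain ⟨n, hn0, hn, r, hr, hgr⟩ := hg
  obtain ⟨n', hn0', hn', r', hr', hgr'⟩ := hg'
  obtain ⟨n'', hn0'', hn'', r'', hr'', hgr''⟩ := hg''
  -- compare generators
  have h1 : Ideal.span {a ^ (n * n' * n'') * (r ^ (n' * n'') * r' ^ (n * n''))} =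
      Ideal.span {b ^ (n * n' * n'') * r'' ^ (n * n')} := by
    have h2 := congrArg (fun I : Ideal W.CoordinateRing => I ^ (n * n' * n'')) hab
    simp only [mul_pow] at h2
    have e1 : idOf P ^ (n * n' * n'') = Ideal.span {r ^ (n' * n'')} := by
      rw [mul_assoc, pow_mul, hr, Ideal.span_singleton_pow]
    have e2 : idOf P' ^ (n * n' * n'') = Ideal.span {r' ^ (n * n'')} := by
      have : n * n' * n'' = n' * (n * n'') := by ring
      rw [this, pow_mul, hr', Ideal.span_singleton_pow]
    have e3 : idOf (P + P') ^ (n * n' * n'') = Ideal.span {r'' ^ (n * n')} := by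
      rw [mul_comm, pow_mul, hr'', Ideal.span_singleton_pow]
    rw [e1, e2, e3, Ideal.span_singleton_pow, Ideal.span_singleton_pow,
      Ideal.span_singleton_mul_span_singleton, Ideal.span_singleton_mul_span_singleton,
      Ideal.span_singleton_mul_span_singleton] at h2
    exact h2
  rw [Ideal.span_singleton_eq_span_singleton] at h1
  obtain ⟨ε, hε⟩ := h1
  obtain ⟨c, hc0, hc⟩ := unit_const ε.isUnit
  set ra := evR hW h a with hra
  set rb := evR hW h b with hrb
  have hra0 : ra ≠ 0 := evR_ne_zero hW h hx ha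
  have hrb0 : rb ≠ 0 := evR_ne_zero hW h hx hb
  have h3 : (ra * (g * g')) ^ (n * n' * n'') * algebraMap F Ω c = (rb * g'') ^ (n * n' * n'') := by
    have h4 := congrArg (evR hW h) hε
    rw [hc] at h4
    simp only [map_mul, map_pow, evR_algebraMap] at h4
    rw [← hgr, ← hgr', ← hgr''] at h4
    calc (ra * (g * g')) ^ (n * n' * n'') * algebraMap F Ω c
        = ra ^ (n * n' * n'') * ((g ^ n) ^ (n' * n'') * (g' ^ n') ^ (n * n'')) *
            algebraMap F Ω c := by
          rw [← pow_mul, ← pow_mul, mul_pow, mul_pow]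
          congr 3
          · ring
          · congr 1; ring
      _ = _ := h4
      _ = _ := by rw [← pow_mul, mul_pow]; congr 2; ring
  -- the ratio is a constant
  set N := n * n' * n'' with hN
  have hN0 : 0 < N := by positivity
  set ρ := rb * g'' / (ra * (g * g')) with hρ
  have hρN : ρ ^ N = algebraMap F Ω c := by
    rw [hρ, div_pow, ← h3]
    rw [mul_div_assoc, mul_comm, div_mul_cancel₀]
    exact pow_ne_zero _ (mul_ne_zero hra0 (mul_ne_zero hg0 hg0'))
  obtain ⟨d, hd⟩ : ∃ d : F, algebraMap F Ω d = ρ := by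
    have h5 : IsIntegral F ρ := by
      refine IsIntegral.of_pow hN0 ?_
      rw [hρN]; exact isIntegral_algebraMap
    exact minpoly.mem_range_of_degree_eq_one F ρ
      (IsAlgClosed.degree_eq_one_of_irreducible F (minpoly.irreducible h5))
  have hξρ : ξ ρ = ρ := by rw [← hd, ← evR_algebraMap hW h d, hξ]
  have hξra : ξ ra = ra := hξ a
  have hξrb : ξ rb = rb := hξ b
  have h6 : rb * g'' = ρ * (ra * (g * g')) := by
    rw [hρ, div_mul_cancel₀]
    exact mul_ne_zero hra0 (mul_ne_zero hg0 hg0')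
  have h7 := congrArg ξ h6
  rw [map_mul, map_mul, map_mul, map_mul, hξρ, hξra, hξrb] at h7
  rw [div_mul_div_comm, div_eq_div_iff (mul_ne_zero hg0 hg0') hg0'']
  apply mul_left_cancel₀ hrb0
  have hρ0 : ρ ≠ 0 := div_ne_zero (mul_ne_zero hrb0 hg0'') (mul_ne_zero hra0 (mul_ne_zero hg0 hg0'))
  apply mul_left_cancel₀ (mul_ne_zero hρ0 hra0)
  linear_combination (ρ * ra * (ξ g * ξ g')) * h6 - (ρ * ra * (g * g')) * h7

include hx in
/-- independence of the choice -/
theorem RootAt.indep [IsAlgClosed F] {P : W.Point} {g g' : Ω} (hg : RootAt hW h P g)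
    (hg' : RootAt hW h P g') {ξ : Ω →+* Ω} (hξ : ∀ r, ξ (evR hW h r) = evR hW h r) :
    ξ g / g = ξ g' / g' := by
  have h1 : RootAt hW h (0 : W.Point) (1 : Ω) := by
    refine ⟨1, one_pos, by simp, 1, ?_, by simp⟩
    rw [idOf_zero, pow_one, Ideal.span_singleton_one]
  have h2 := hg.mul_rel hW h hx h1 (by rw [add_zero]; exact hg') hξ
  rwa [map_one, div_one, mul_one] at h2

/-- The values of the roots at the places at infinity. -/
theorem RootAt.val_inf {P : W.Point} {g : Ω} (hg : RootAt hW h P g) {V : ValuationSubring Ω}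
    (hV : TrivC F V) (hvx : 1 < V.valuation x) :
    V.valuation g = V.valuation (y / x) ^ wt P := by
  obtain ⟨n, hn0, hn, r, hr, hgr⟩ := hg
  obtain ⟨r0, hr0, hr0', hval⟩ := exists_gen hW h P hn
  rw [hr, Ideal.span_singleton_eq_span_singleton] at hr0'
  obtain ⟨ε, hε⟩ := hr0'
  obtain ⟨c, hc0, hc⟩ := unit_const ε.isUnit
  have h1 := hval V hV hvx
  rw [← hε, hc, map_mul, map_mul, evR_algebraMap, hV c hc0, mul_one, ← hgr, map_pow,
    mul_comm n (wt P), pow_mul] at h1
  exact (pow_left_inj₀ zero_le zero_le hn0.ne').1 h1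

end Roots

section Finite

variable {F : Type u} [Field F] {W : WeierstrassCurve.Affine F}
  {Ω : Type u} [Field Ω] [Algebra F Ω] {e₁ e₂ e₃ : F} (hW : IsE W e₁ e₂ e₃) {x y : Ω}
    (h : y ^ 2 = (x - algebraMap F Ω e₁) * (x - algebraMap F Ω e₂) * (x - algebraMap F Ω e₃))
  {V : ValuationSubring Ω}

include h in
theorem val_y_le (hV : TrivC F V) (hvx : V.valuation x ≤ 1) : V.valuation y ≤ 1 := by
  have h1 : V.valuation y ^ 2 ≤ 1 := by
    rw [← map_pow, h, map_mul, map_mul]
    have key : ∀ e : F, V.valuation (x - algebraMap F Ω e) ≤ 1 := fun e =>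
      (Valuation.map_sub _ _ _).trans (max_le hvx (hV.le e))
    exact mul_le_one' (mul_le_one' (key e₁) (key e₂)) (key e₃)
  exact (pow_le_one_iff_of_nonneg zero_le two_ne_zero).1 h1

theorem val_evR_le (hV : TrivC F V) (hvx : V.valuation x ≤ 1) (r : W.CoordinateRing) :
    V.valuation (evR hW h r) ≤ 1 := by
  obtain ⟨p, q, rfl⟩ := CoordinateRing.exists_smul_basis_eq r
  rw [evR_basis]
  have hpoly : ∀ p : F[X], V.valuation (aeval x p) ≤ 1 := by
    intro p
    rw [aeval_def, eval₂_eq_sum, sum_def]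
    refine Valuation.map_sum_le _ fun i _ => ?_
    rw [map_mul, map_pow]
    exact mul_le_one' (hV.le _) (pow_le_one' hvx i)
  refine (Valuation.map_add _ _ _).trans (max_le (hpoly p) ?_)
  rw [map_mul]
  exact mul_le_one' (hpoly q) (val_y_le h hV hvx)

/-- valuations of the elements of the ideal of a point -/
theorem val_ideal_le (hV : TrivC F V) (hvx : V.valuation x ≤ 1) {I : Ideal W.CoordinateRing}
    {β : Ω} (hI : ∀ r ∈ I, V.valuation (evR hW h r) ≤ V.valuation β) (n : ℕ) :
    ∀ r ∈ I ^ n, V.valuation (evR hW h r) ≤ V.valuation β ^ n := by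
  induction n with
  | zero =>
    intro r _
    rw [pow_zero]; exact val_evR_le hW h hV hvx r
  | succ n ih =>
    intro r hr
    rw [pow_succ] at hr
    refine Submodule.mul_induction_on hr (fun a ha b hb => ?_) (fun a b ha hb => ?_)
    · rw [map_mul, map_mul, pow_succ]
      exact mul_le_mul' (ih a ha) (hI b hb)
    · rw [map_add]
      exact (Valuation.map_add _ _ _).trans (max_le ha hb)

theorem val_span_pair_le (hV : TrivC F V) (hvx : V.valuation x ≤ 1) {a b : W.CoordinateRing}
    {β : Ω} (ha : V.valuation (evR hW h a) ≤ V.valuation β)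
    (hb : V.valuation (evR hW h b) ≤ V.valuation β) :
    ∀ r ∈ Ideal.span {a, b}, V.valuation (evR hW h r) ≤ V.valuation β := by
  intro r hr
  obtain ⟨c, d, rfl⟩ := Ideal.mem_span_pair.1 hr
  rw [map_add, map_mul, map_mul]
  refine (Valuation.map_add _ _ _).trans (max_le ?_ ?_)
  · rw [map_mul]; exact (mul_le_of_le_one_left' (val_evR_le hW h hV hvx c)).trans ha
  · rw [map_mul]; exact (mul_le_of_le_one_left' (val_evR_le hW h hV hvx d)).trans hb

/-- a local generator of the ideal of a point, at a finite place above it -/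
theorem exists_local_gen (h2 : (2 : F) ≠ 0) (h12 : e₁ ≠ e₂) (h13 : e₁ ≠ e₃) (h23 : e₂ ≠ e₃)
    (hV : TrivC F V) (hvx : V.valuation x ≤ 1)
    {x₀ y₀ : F} (h₀ : W.Nonsingular x₀ y₀)
    (hx0 : V.valuation (x - algebraMap F Ω x₀) < 1)
    (hy0 : V.valuation (y - algebraMap F Ω y₀) < 1) :
    ∃ π ∈ CoordinateRing.XYIdeal W x₀ (C y₀),
      V.valuation (x - algebraMap F Ω x₀) ≤ V.valuation (evR hW h π) ∧
      V.valuation (y - algebraMap F Ω y₀) ≤ V.valuation (evR hW h π) := by
  have heq := (hW.equation_iff x₀ y₀).1 h₀.1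
  have hX : evR hW h (CoordinateRing.XClass W x₀) = x - algebraMap F Ω x₀ := by
    rw [CoordinateRing.XClass, evR_C, map_sub, aeval_X, aeval_C]
  have hY : evR hW h (CoordinateRing.YClass W (C y₀)) = y - algebraMap F Ω y₀ := by
    rw [CoordinateRing.YClass, map_sub, map_sub, evR_Y, evR_C, aeval_C]
  by_cases hy : y₀ = 0
  · subst hy
    refine ⟨CoordinateRing.YClass W (C 0), Ideal.subset_span (by simp), ?_, ?_⟩
    swap
    · rw [hY]
    rw [hY]
    rw [map_zero, sub_zero] at hy0 ⊢
    -- `(x - e_i)` is a unit multiple of `y²`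
    have key : ∀ {e e' e'' : F}, e ≠ e' → e ≠ e'' → x₀ = e →
        y ^ 2 = (x - algebraMap F Ω e) * (x - algebraMap F Ω e') * (x - algebraMap F Ω e'') →
        V.valuation (x - algebraMap F Ω x₀) ≤ V.valuation y := by
      intro e e' e'' hee' hee'' hxe hyy
      subst hxe
      have h3 : ∀ {e' : F}, x₀ ≠ e' → V.valuation (x - algebraMap F Ω e') = 1 := by
        intro e' hne
        have h4 : x - algebraMap F Ω e' = (x - algebraMap F Ω x₀) + algebraMap F Ω (x₀ - e') := by
          rw [map_sub]; ring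
        have h5 : V.valuation (algebraMap F Ω (x₀ - e')) = 1 := hV _ (sub_ne_zero.2 hne)
        rw [h4, Valuation.map_add_eq_of_lt_right _ (by rw [h5]; exact hx0), h5]
      have h4 : V.valuation y ^ 2 = V.valuation (x - algebraMap F Ω x₀) := by
        rw [← map_pow, hyy, map_mul, map_mul, h3 hee', h3 hee'', mul_one, mul_one]
      rw [← h4, pow_two]
      exact mul_le_of_le_one_left' hy0.le
    have h0 : (x₀ - e₁) * (x₀ - e₂) * (x₀ - e₃) = 0 := by rw [← heq]; ring
    rcases mul_eq_zero.1 h0 with h1 | h1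
    · rcases mul_eq_zero.1 h1 with h3 | h3
      · exact key h12 h13 (sub_eq_zero.1 h3) h
      · exact key h12.symm h23 (sub_eq_zero.1 h3) (by rw [h]; ring)
    · exact key h13.symm h23.symm (sub_eq_zero.1 h1) (by rw [h]; ring)
  · refine ⟨CoordinateRing.XClass W x₀, Ideal.subset_span (by simp), ?_, ?_⟩
    · rw [hX]
    rw [hX]
    -- `(y - y₀)(y + y₀)` is a multiple of `x - x₀`
    have h3 : V.valuation (y + algebraMap F Ω y₀) = 1 := by
      have h4 : y + algebraMap F Ω y₀ = (y - algebraMap F Ω y₀) + algebraMap F Ω (2 * y₀) := by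
        rw [map_mul, map_ofNat]; ring
      have h5 : V.valuation (algebraMap F Ω (2 * y₀)) = 1 := hV _ (mul_ne_zero h2 hy)
      rw [h4, Valuation.map_add_eq_of_lt_right _ (by rw [h5]; exact hy0), h5]
    have h4 : (y - algebraMap F Ω y₀) * (y + algebraMap F Ω y₀) = (x - algebraMap F Ω x₀) *
        (x ^ 2 + x * algebraMap F Ω x₀ + algebraMap F Ω x₀ ^ 2 -
          algebraMap F Ω (e₁ + e₂ + e₃) * (x + algebraMap F Ω x₀) +
          algebraMap F Ω (e₁ * e₂ + e₁ * e₃ + e₂ * e₃)) := by
      have h5 := congrArg (algebraMap F Ω) heq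
      simp only [map_pow, map_mul, map_sub, map_add] at h5 ⊢
      linear_combination h - h5
    have h6 : V.valuation (x ^ 2 + x * algebraMap F Ω x₀ + algebraMap F Ω x₀ ^ 2 -
          algebraMap F Ω (e₁ + e₂ + e₃) * (x + algebraMap F Ω x₀) +
          algebraMap F Ω (e₁ * e₂ + e₁ * e₃ + e₂ * e₃)) ≤ 1 := by
      have m1 : x ∈ V := (V.valuation_le_one_iff _).1 hvx
      have mc : ∀ c : F, algebraMap F Ω c ∈ V := fun c => (V.valuation_le_one_iff _).1 (hV.le c)
      rw [V.valuation_le_one_iff]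
      exact add_mem (sub_mem (add_mem (add_mem (pow_mem m1 2) (mul_mem m1 (mc _)))
        (pow_mem (mc _) 2)) (mul_mem (mc _) (add_mem m1 (mc _)))) (mc _)
    have h7 : V.valuation (y - algebraMap F Ω y₀) =
        V.valuation ((y - algebraMap F Ω y₀) * (y + algebraMap F Ω y₀)) := by
      rw [map_mul, h3, mul_one]
    rw [h7, h4, map_mul]
    exact mul_le_of_le_one_right' h6

variable [DecidableEq F]

/-- **Unramifiedness**: at every place trivial on constants a root has the value of a function. -/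
theorem RootAt.exists_val (h2 : (2 : F) ≠ 0) (h12 : e₁ ≠ e₂) (h13 : e₁ ≠ e₃) (h23 : e₂ ≠ e₃)
    {P : W.Point} {g : Ω} (hg : RootAt hW h P g) (hV : TrivC F V) :
    ∃ r s : W.CoordinateRing, V.valuation g = V.valuation (evR hW h r / evR hW h s) := by
  rcases lt_or_ge 1 (V.valuation x) with hvx | hvx
  · have h1 := hg.val_inf hW h hV hvx
    refine ⟨CoordinateRing.mk W Y ^ wt P, CoordinateRing.mk W (C X) ^ wt P, ?_⟩
    rw [h1, map_pow, map_pow, evR_Y, evR_C, aeval_X, ← div_pow, map_pow]
  obtain ⟨n, hn0, hn, r, hr, hgr⟩ := hg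
  have hvr := val_evR_le hW h hV hvx r
  rcases eq_or_lt_of_le hvr with h1 | h1
  · refine ⟨1, 1, ?_⟩
    rw [map_one, div_one, map_one]
    have h3 : V.valuation g ^ n = 1 := by rw [← map_pow, hgr, h1]
    exact (pow_eq_one_iff_of_nonneg zero_le hn0.ne').1 h3
  rcases P with _ | ⟨x₀, y₀, h₀⟩
  · -- impossible: `r` is a unit
    exfalso
    rw [show idOf (Point.zero : W.Point) = ⊤ from rfl, ← Ideal.one_eq_top, one_pow,
      Ideal.one_eq_top, eq_comm, Ideal.span_singleton_eq_top] at hr
    obtain ⟨c, hc0, hc⟩ := unit_const hr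
    rw [hc, evR_algebraMap, hV c hc0] at h1
    exact lt_irrefl _ h1
  have hr' : CoordinateRing.XYIdeal W x₀ (C y₀) ^ n = Ideal.span {r} := hr
  have hsmall : ∀ a ∈ CoordinateRing.XYIdeal W x₀ (C y₀), V.valuation (evR hW h a) < 1 := by
    intro a ha
    have h3 : a ^ n ∈ Ideal.span {r} := hr' ▸ Ideal.pow_mem_pow ha n
    obtain ⟨c, hc⟩ := Ideal.mem_span_singleton'.1 h3
    by_contra hcon
    push Not at hcon
    have h4 : (1 : V.ValueGroup) ≤ V.valuation (evR hW h a) ^ n := one_le_pow₀ hcon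
    rw [← map_pow, ← map_pow, ← hc, map_mul, map_mul] at h4
    have h5 : V.valuation (evR hW h c) * V.valuation (evR hW h r) < 1 :=
      (mul_le_of_le_one_left' (val_evR_le hW h hV hvx c)).trans_lt h1
    exact absurd h4 (not_le.2 h5)
  have hX : evR hW h (CoordinateRing.XClass W x₀) = x - algebraMap F Ω x₀ := by
    rw [CoordinateRing.XClass, evR_C, map_sub, aeval_X, aeval_C]
  have hY : evR hW h (CoordinateRing.YClass W (C y₀)) = y - algebraMap F Ω y₀ := by
    rw [CoordinateRing.YClass, map_sub, map_sub, evR_Y, evR_C, aeval_C]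
  obtain ⟨π, hπ, hπ1, hπ2⟩ := exists_local_gen hW h h2 h12 h13 h23 hV hvx h₀
    (by rw [← hX]; exact hsmall _ (Ideal.subset_span (by simp)))
    (by rw [← hY]; exact hsmall _ (Ideal.subset_span (by simp)))
  refine ⟨π, 1, ?_⟩
  rw [map_one, div_one]
  have h3 : V.valuation (evR hW h r) ≤ V.valuation (evR hW h π) ^ n := by
    refine val_ideal_le hW h hV hvx (I := CoordinateRing.XYIdeal W x₀ (C y₀)) ?_ n r
      (hr' ▸ Ideal.mem_span_singleton_self r)
    exact val_span_pair_le hW h hV hvx (by rw [hX]; exact hπ1) (by rw [hY]; exact hπ2)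
  have h4 : V.valuation (evR hW h π) ^ n ≤ V.valuation (evR hW h r) := by
    have h5 : π ^ n ∈ Ideal.span {r} := hr' ▸ Ideal.pow_mem_pow hπ n
    obtain ⟨c, hc⟩ := Ideal.mem_span_singleton'.1 h5
    rw [← map_pow, ← map_pow, ← hc, map_mul, map_mul]
    exact mul_le_of_le_one_left' (val_evR_le hW h hV hvx c)
  have h5 : V.valuation g ^ n = V.valuation (evR hW h π) ^ n := by
    rw [← map_pow, hgr]; exact le_antisymm h3 h4
  exact (pow_left_inj₀ zero_le zero_le hn0.ne').1 h5

end Finite

end Pool.Agent.Helper91.Sect
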