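import Pool.Agent.Helper91.Section.Elliptic
import Pool.Agent.Helper91.Section.Func3

/-!
# The root attached to a point of order two
-/

universe u

namespace Pool.Agent.Helper91.Sect

open Polynomial WeierstrassCurve WeierstrassCurve.Affine
open scoped Polynomial.Bivariate

theorem exists_root_two {F : Type u} [Field F] [DecidableEq F] {W : WeierstrassCurve.Affine F}
    {Ω : Type u} [Field Ω] [Algebra F Ω] {e₁ e₂ e₃ : F} (hW : IsE W e₁ e₂ e₃) {x y : Ω}
    (h : y ^ 2 = (x - algebraMap F Ω e₁) * (x - algebraMap F Ω e₂) * (x - algebraMap F Ω e₃))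
    (h2 : (2 : F) ≠ 0) (h12 : e₁ ≠ e₂) (h13 : e₁ ≠ e₃) (h23 : e₂ ≠ e₃)
    {g : Ω} (hg : g ^ 2 = x - algebraMap F Ω e₁) :
    ∃ P : W.Point, P ∈ T2 W ∧ RootAt hW h P g := by
  have hns : W.Nonsingular e₁ 0 := by
    rw [hW.nonsingular_iff h2 h12 h13 h23]; ring
  have h2P : 2 • Point.some e₁ 0 hns = 0 := by
    rw [two_nsmul, Point.add_self_of_Y_eq (by rw [hW.negY, neg_zero])]
  refine ⟨Point.some e₁ 0 hns, ⟨1, by rw [pow_one]; exact h2P⟩, 2, two_pos, h2P,
    CoordinateRing.XClass W e₁, ?_, ?_⟩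
  · have h3 := CoordinateRing.XYIdeal_neg_mul hns
    rw [hW.negY, neg_zero] at h3
    rw [pow_two]
    exact h3
  · rw [hg, CoordinateRing.XClass, evR_C, map_sub, aeval_X, aeval_C]

end Pool.Agent.Helper91.Sect
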