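import Pool.Agent.Helper91.Section.SecWild
import Pool.Agent.Helper91.Section.Signs

/-!
# The signs attached to the branch points, in arbitrary odd residue characteristic
-/

universe u

namespace Pool.Agent.Helper91.Sect

open Polynomial

section Signs

variable {k K : Type u} [Field k] [Field K] [Algebra k K]

theorem section_pow_neg (s : GaloisSection k K) {σ : Gk k K} {u : Kur k K}
    (h : s.toHom σ u = -u) (n : ℕ) : s.toHom (σ ^ n) u = (-1) ^ n * u := by
  induction n with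
  | zero => rw [pow_zero, pow_zero, map_one, one_mul]; rfl
  | succ n ih =>
    rw [pow_succ', map_mul s.toHom, AlgEquiv.mul_apply, ih, map_mul, map_pow, map_neg, map_one, h]
    ring

theorem section_fix_of_odd [CharZero k] (s : GaloisSection k K) {σ : Gk k K} {u : Kur k K}
    (hu : u ≠ 0) (h : s.toHom σ (u ^ 2) = u ^ 2) {n : ℕ} (hn : Odd n)
    (hfix : s.toHom (σ ^ n) u = u) : s.toHom σ u = u := by
  rw [map_pow] at h
  rcases sq_eq_sq_iff_eq_or_eq_neg.1 h with h1 | h1
  · exact h1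
  · exfalso
    have hcz : CharZero (Kur k K) :=
      charZero_of_injective_algebraMap ((algebraMap K (Kur k K)).comp (algebraMap k K)).injective
    rw [section_pow_neg s h1, hn.neg_one_pow] at hfix
    have h2 : 2 * u = 0 := by linear_combination -hfix
    exact hu ((mul_eq_zero.1 h2).resolve_left two_ne_zero)

variable
  {x y : K} {a₀ c₀ : kbar k K} (ha₀ : a₀ ≠ 0) (hc₀ : c₀ ≠ 0) {R : Finset (kbar k K)}
  (heq : (c₀ : AlgebraicClosure K) * (algebraMap K (AlgebraicClosure K) y) ^ 2 =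
    a₀ * ∏ r ∈ R, (algebraMap K (AlgebraicClosure K) x - (r : AlgebraicClosure K)))
  {v : kbar k K → AlgebraicClosure K}
  (hv : ∀ r : kbar k K, v r ^ 2 = algebraMap K (AlgebraicClosure K) x - (r : AlgebraicClosure K))

include ha₀ hc₀ heq hv

variable [CharZero k] (s : GaloisSection k K) {O : ValuationSubring k} (Q : IC O (kbar k K))
  [hQ : Q.IsPrime] {p : ℕ} (hp : p = 1 ∨ p.Prime) (hp2 : Nat.Coprime 2 p)
  (hres : ∀ n : ℕ, n ≠ 0 → n.Coprime p → (locW Q).valuation (n : kbar k K) = 1)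
  {τ : Gk k K} (hτ : InI Q τ) {ξ : AlgebraicClosure K ≃ₐ[K] AlgebraicClosure K}
  (hξ : ∀ w : Kur k K, ξ w = s.toHom τ w) {ε : kbar k K → ℤˣ}
  (hε : ∀ r ∈ R, ξ (v r) = (((ε r : ℤˣ) : ℤ) : AlgebraicClosure K) * v r)
  (hv0 : ∀ r : kbar k K, v r ≠ 0)
  (hIR : ∀ σ : Gk k K, InI Q σ → ∀ r ∈ R, σ r = r)

include hp hp2 hres hτ hξ hε hv0 hIR

theorem eps_inv_wild {γ : Gk k K} (hγ : InD Q γ) {r r' : kbar k K} (hr : r ∈ R) (hr' : r' ∈ R)
    (hγr : γ r ∈ R) (hγr' : γ r' ∈ R) : ε (γ r) * ε (γ r') = ε r * ε r' := by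
  have hcz : CharZero (AlgebraicClosure K) :=
    charZero_of_injective_algebraMap (algebraMap k (AlgebraicClosure K)).injective
  set u : Kur k K := ⟨v r * v r', prod_mem_Kur ha₀ hc₀ heq hv hr hr'⟩ with hu
  set u' : Kur k K := ⟨v (γ r) * v (γ r'), prod_mem_Kur ha₀ hc₀ heq hv hγr hγr'⟩ with hu'
  have hsq : ∀ e : ℤˣ, (((e : ℤ) : kbar k K)) ^ 2 = 1 := by
    intro e
    have h1 : ((e : ℤ)) ^ 2 = 1 := by
      rw [← Units.val_pow_eq_pow_val, Int.units_sq]; rfl
    rw [← Int.cast_pow, h1, Int.cast_one]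
  have hsqr : ∀ z z' : kbar k K, ∀ w : Kur k K, (w : AlgebraicClosure K) = v z * v z' →
      w ^ 2 = (algebraMap K (Kur k K) x - toKur k K z) * (algebraMap K (Kur k K) x - toKur k K z') := by
    intro z z' w hw
    apply Subtype.ext
    change (w : AlgebraicClosure K) ^ 2 = (algebraMap K (AlgebraicClosure K) x - z) *
      (algebraMap K (AlgebraicClosure K) x - z')
    rw [hw, mul_pow, hv, hv]
  have hu0 : u ≠ 0 := by
    intro h0
    have h6 : v r * v r' = 0 := congrArg Subtype.val h0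
    exact mul_ne_zero (hv0 _) (hv0 _) h6
  -- the action on `u`
  have h1 : s.toHom τ u = toKur k K (((ε r * ε r' : ℤˣ) : ℤ) : kbar k K) * u := by
    apply Subtype.ext
    rw [← hξ]
    change ξ (v r * v r') = ((toKur k K (((ε r * ε r' : ℤˣ) : ℤ) : kbar k K) : Kur k K) :
      AlgebraicClosure K) * (v r * v r')
    rw [map_mul, hε r hr, hε r' hr', coe_toKur]
    push_cast
    ring
  have h1' : s.toHom τ u' = toKur k K (((ε (γ r) * ε (γ r') : ℤˣ) : ℤ) : kbar k K) * u' := by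
    apply Subtype.ext
    rw [← hξ]
    change ξ (v (γ r) * v (γ r')) = ((toKur k K (((ε (γ r) * ε (γ r') : ℤˣ) : ℤ) : kbar k K) :
      Kur k K) : AlgebraicClosure K) * (v (γ r) * v (γ r'))
    rw [map_mul, hε _ hγr, hε _ hγr', coe_toKur]
    push_cast
    ring
  have h2 := section_inv_wild s Q hp hres hγ hτ two_ne_zero (hsq _) (map_intCast τ _) h1 {u} (by
    intro σ j hσ hfix
    refine section_fix_of_odd s hu0 ?_ (n := p ^ j) ?_ (hfix u (Finset.mem_singleton_self u))
    · rw [hsqr r r' u rfl, map_mul, map_sub, map_sub, AlgEquiv.commutes, section_toKur,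
        section_toKur, hIR σ hσ r hr, hIR σ hσ r' hr']
    · exact (Nat.coprime_two_left.1 hp2).pow)
  -- `s γ u = ± u'`
  have h3 : (s.toHom γ u) ^ 2 = u' ^ 2 := by
    rw [← map_pow, hsqr r r' u rfl, hsqr (γ r) (γ r') u' rfl, map_mul, map_sub, map_sub,
      AlgEquiv.commutes, section_toKur, section_toKur]
  have h5 : toKur k K (((ε (γ r) * ε (γ r') : ℤˣ) : ℤ) : kbar k K) * u' =
      toKur k K (((ε r * ε r' : ℤˣ) : ℤ) : kbar k K) * u' := by
    rcases sq_eq_sq_iff_eq_or_eq_neg.1 h3 with h4 | h4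
    · rw [h4, h1'] at h2; exact h2
    · rw [h4, map_neg, h1'] at h2
      rw [mul_neg] at h2
      exact neg_injective h2
  have h0 : u' ≠ 0 := by
    intro h0
    have h6 : v (γ r) * v (γ r') = 0 := congrArg Subtype.val h0
    exact mul_ne_zero (hv0 _) (hv0 _) h6
  have h6 := mul_right_cancel₀ h0 h5
  have h7 := (toKur k K).injective h6
  have h8 : ((ε (γ r) * ε (γ r') : ℤˣ) : ℤ) = ((ε r * ε r' : ℤˣ) : ℤ) := by
    exact_mod_cast h7
  exact Units.ext h8

end Signs

end Pool.Agent.Helper91.Sect
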