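import Pool.Agent.Helper91.Section.Tame

/-!
# A place above `O` coarser than a given place above `O' ≤ O`
-/

universe u

namespace Pool.Agent.Helper91.Sect

open scoped Pointwise
open Polynomial

section

variable {k C : Type u} [Field k] [Field C] [Algebra k C] [IsGalois k C]
  {O O' : ValuationSubring k} (hle : O' ≤ O) (Q' : Ideal (integralClosure O' C)) [hQ' : Q'.IsPrime]
  (hA' : Above Q')

include hle in
omit [IsGalois k C] in
theorem val_lt_of_le {z : k} (hz : O.valuation z < 1) : O'.valuation z < 1 := by
  rw [← ValuationSubring.mem_nonunits_iff, ValuationSubring.mem_nonunits_iff_or] at hz ⊢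
  rcases hz with h | h
  · exact Or.inl h
  · exact Or.inr fun h' => h (hle h')

include hle hA' in
theorem bound_finset (A : Finset k) (hA : ∀ a ∈ A, a ∈ O) :
    ∃ u : k, O.valuation u = 1 ∧ 1 ≤ (locW Q').valuation (algebraMap k C u) ∧
      ∀ a ∈ A, (locW Q').valuation (algebraMap k C a) ≤ (locW Q').valuation (algebraMap k C u) := by
  classical
  induction A using Finset.induction_on with
  | empty => exact ⟨1, by simp, by simp, by simp⟩
  | insert a s _ ih =>
    obtain ⟨u, hu, hu1, hus⟩ := ih fun b hb => hA b (Finset.mem_insert_of_mem hb)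
    have haO := hA a (Finset.mem_insert_self a s)
    rcases ((O.valuation_le_one_iff a).2 haO).lt_or_eq with h | h
    · refine ⟨u, hu, hu1, fun b hb => ?_⟩
      rcases Finset.mem_insert.1 hb with rfl | hb
      · exact (locW_algebraMap_lt Q' hA' (val_lt_of_le hle h)).le.trans hu1
      · exact hus b hb
    · rcases le_total ((locW Q').valuation (algebraMap k C a))
        ((locW Q').valuation (algebraMap k C u)) with h1 | h1
      · refine ⟨u, hu, hu1, fun b hb => ?_⟩
        rcases Finset.mem_insert.1 hb with rfl | hb
        · exact h1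
        · exact hus b hb
      · refine ⟨a, h, hu1.trans h1, fun b hb => ?_⟩
        rcases Finset.mem_insert.1 hb with rfl | hb
        · exact le_rfl
        · exact (hus b hb).trans h1

include hle hA' in
theorem bound_integral (c : integralClosure O C) :
    ∃ u : k, O.valuation u = 1 ∧ (locW Q').valuation (c : C) ≤
      (locW Q').valuation (algebraMap k C u) := by
  classical
  obtain ⟨p, hp, hc⟩ := c.2
  obtain ⟨u, hu, hu1, hus⟩ := bound_finset hle Q' hA' (p.support.image fun i => (p.coeff i : k))
    (by
      intro a ha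
      obtain ⟨i, -, rfl⟩ := Finset.mem_image.1 ha
      exact (p.coeff i).2)
  refine ⟨u, hu, ?_⟩
  by_contra hcon
  push Not at hcon
  set v := (locW Q').valuation with hv
  have hc1 : 1 < v (c : C) := hu1.trans_lt hcon
  set n := p.natDegree with hn
  have h1 : (c : C) ^ n = -∑ i ∈ Finset.range n, algebraMap O C (p.coeff i) * (c : C) ^ i := by
    have h2 : (∑ i ∈ Finset.range n, algebraMap O C (p.coeff i) * (c : C) ^ i) + (c : C) ^ n = 0 := by
      rw [← hc, eval₂_eq_sum_range, Finset.sum_range_succ]
      have h3 : p.coeff p.natDegree = 1 := hp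
      rw [h3, map_one, one_mul]
    exact eq_neg_of_add_eq_zero_right h2
  have h2 : v ((c : C) ^ n) < v ((c : C) ^ n) := by
    conv_lhs => rw [h1]
    rw [Valuation.map_neg]
    refine Valuation.map_sum_lt _ ?_ fun i hi => ?_
    · rw [map_pow]
      exact pow_ne_zero _ (zero_lt_one.trans hc1).ne'
    · have hin := Finset.mem_range.1 hi
      rw [map_mul, map_pow, map_pow]
      have h3 : v (algebraMap O C (p.coeff i)) ≤ v (algebraMap k C u) := by
        by_cases h0 : p.coeff i = 0
        · rw [h0, map_zero, map_zero]; exact zero_le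
        · exact hus _ (Finset.mem_image.2 ⟨i, mem_support_iff.2 h0, rfl⟩)
      calc v (algebraMap O C (p.coeff i)) * v (c : C) ^ i
          ≤ v (algebraMap k C u) * v (c : C) ^ i := mul_le_mul_left h3 _
        _ < v (c : C) * v (c : C) ^ i := by
          refine mul_lt_mul_of_pos_right hcon ?_
          exact pow_pos (zero_lt_one.trans hc1) _
        _ = v (c : C) ^ (i + 1) := by rw [pow_succ, mul_comm]
        _ ≤ v (c : C) ^ n := pow_le_pow_right₀ hc1.le hin
  exact lt_irrefl _ h2

/-- the coarser prime -/
def coarse : Ideal (integralClosure O C) where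
  carrier := {b | ∀ u : k, O.valuation u = 1 →
    (locW Q').valuation (b : C) < (locW Q').valuation (algebraMap k C u)}
  add_mem' := by
    intro a b ha hb u hu
    exact (locW Q').valuation.map_add_lt (ha u hu) (hb u hu)
  zero_mem' := by
    intro u hu
    have hu0 : u ≠ 0 := by rintro rfl; simp at hu
    change (locW Q').valuation ((0 : integralClosure O C) : C) < _
    rw [ZeroMemClass.coe_zero, map_zero, zero_lt_iff]
    simpa using hu0
  smul_mem' := by
    intro c b hb u hu
    obtain ⟨u', hu', hcu⟩ := bound_integral hle Q' hA' c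
    have h1 := hb (u / u') (by rw [map_div₀, hu, hu', div_one])
    have hu'0 : u' ≠ 0 := by rintro rfl; simp at hu'
    have h2 : (locW Q').valuation (algebraMap k C u') ≠ 0 := by simpa using hu'0
    change (locW Q').valuation ((c : C) * (b : C)) < _
    rw [map_mul]
    refine (mul_le_mul_left hcu _).trans_lt ?_
    rw [map_div₀, map_div₀, lt_div_iff₀ (zero_lt_iff.2 h2)] at h1
    rwa [mul_comm]

theorem mem_coarse {b : integralClosure O C} : b ∈ coarse hle Q' hA' ↔ ∀ u : k,
    O.valuation u = 1 → (locW Q').valuation (b : C) < (locW Q').valuation (algebraMap k C u) :=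
  Iff.rfl

theorem coarse_prime : (coarse hle Q' hA').IsPrime := by
  refine Ideal.isPrime_iff.2 ⟨?_, ?_⟩
  · intro h
    have h1 : (1 : integralClosure O C) ∈ coarse hle Q' hA' := h ▸ Submodule.mem_top
    have h2 := h1 1 (by simp)
    simp at h2
  · intro a b hab
    by_contra hcon
    push Not at hcon
    obtain ⟨ha, hb⟩ := hcon
    rw [mem_coarse] at ha hb
    push Not at ha hb
    obtain ⟨u, hu, ha⟩ := ha
    obtain ⟨u', hu', hb⟩ := hb
    have h1 := hab (u * u') (by rw [map_mul, hu, hu', one_mul])
    have h2 : (locW Q').valuation (algebraMap k C (u * u')) ≤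
        (locW Q').valuation ((a * b : integralClosure O C) : C) := by
      rw [map_mul, map_mul]
      change _ ≤ (locW Q').valuation ((a : C) * (b : C))
      rw [map_mul]
      exact mul_le_mul' ha hb
    exact absurd h1 (not_lt.2 h2)

theorem coarse_above : Above (coarse hle Q' hA') := by
  intro c
  rw [mem_coarse]
  constructor
  · intro h
    by_contra hcon
    have h1 : O.valuation (c : k) = 1 :=
      le_antisymm ((O.valuation_le_one_iff _).2 c.2) (not_lt.1 hcon)
    exact lt_irrefl _ (h c h1)
  · intro h u hu
    have hu0 : u ≠ 0 := by rintro rfl; simp at hu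
    have h1 : O.valuation ((c : k) / u) < 1 := by rw [map_div₀, hu, div_one]; exact h
    have h2 := locW_algebraMap_lt Q' hA' (val_lt_of_le hle h1)
    have h3 : (locW Q').valuation (algebraMap k C u) ≠ 0 := by simpa using hu0
    rw [map_div₀, map_div₀, div_lt_one₀ (zero_lt_iff.2 h3)] at h2
    exact h2

theorem coarse_InD {σ : C ≃ₐ[k] C} (hσ : InD Q' σ) : InD (coarse hle Q' hA') σ := by
  intro b
  rw [mem_coarse, mem_coarse]
  have key : ∀ u : k, O.valuation u = 1 →
      ((locW Q').valuation (σ (b : C)) < (locW Q').valuation (algebraMap k C u) ↔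
        (locW Q').valuation (b : C) < (locW Q').valuation (algebraMap k C u)) := by
    intro u hu
    have hu0 : u ≠ 0 := by rintro rfl; simp at hu
    have h3 : (locW Q').valuation (algebraMap k C u) ≠ 0 := by simpa using hu0
    have h4 := val_lt_one_D Q' hσ ((b : C) / algebraMap k C u)
    rw [map_div₀ σ, AlgEquiv.commutes, map_div₀, map_div₀, div_lt_one₀ (zero_lt_iff.2 h3),
      div_lt_one₀ (zero_lt_iff.2 h3)] at h4
    exact h4
  constructor
  · intro h u hu
    exact (key u hu).1 (h u hu)
  · intro h u hu
    exact (key u hu).2 (h u hu)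

end

end Pool.Agent.Helper91.Sect
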