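import Pool.Agent.Helper91.Section.GroupLemma

/-!
# The elliptic curve `y² = (x - e₁)(x - e₂)(x - e₃)`

Halving of points, and reduction of the points of `2`-power order.
-/

universe u

namespace Pool.Agent.Helper91.Sect

open WeierstrassCurve WeierstrassCurve.Affine

/-- the curve `y² = (x - e₁)(x - e₂)(x - e₃)` -/
def EC {S : Type*} [CommRing S] (e₁ e₂ e₃ : S) : WeierstrassCurve S :=
  ⟨0, -(e₁ + e₂ + e₃), 0, e₁ * e₂ + e₁ * e₃ + e₂ * e₃, -(e₁ * e₂ * e₃)⟩

/-- `W` is the curve `y² = (x - e₁)(x - e₂)(x - e₃)` -/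
structure IsE {F : Type*} [CommRing F] (W : WeierstrassCurve F) (e₁ e₂ e₃ : F) : Prop where
  a₁ : W.a₁ = 0
  a₂ : W.a₂ = -(e₁ + e₂ + e₃)
  a₃ : W.a₃ = 0
  a₄ : W.a₄ = e₁ * e₂ + e₁ * e₃ + e₂ * e₃
  a₆ : W.a₆ = -(e₁ * e₂ * e₃)

theorem isE_baseChange {S F : Type*} [CommRing S] [CommRing F] [Algebra S F] (e₁ e₂ e₃ : S) :
    IsE ((EC e₁ e₂ e₃).baseChange F) (algebraMap S F e₁) (algebraMap S F e₂)
      (algebraMap S F e₃) := by
  constructor <;> simp [WeierstrassCurve.baseChange, WeierstrassCurve.map, EC]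

section Field

variable {F : Type*} [Field F] {W : WeierstrassCurve.Affine F} {e₁ e₂ e₃ : F}

theorem IsE.equation_iff (hW : IsE W e₁ e₂ e₃) (x y : F) :
    W.Equation x y ↔ y ^ 2 = (x - e₁) * (x - e₂) * (x - e₃) := by
  rw [WeierstrassCurve.Affine.equation_iff, hW.a₁, hW.a₂, hW.a₃, hW.a₄, hW.a₆]
  constructor
  · intro h; linear_combination h
  · intro h; linear_combination h

theorem IsE.nonsingular_iff (hW : IsE W e₁ e₂ e₃) (h2 : (2 : F) ≠ 0) (h12 : e₁ ≠ e₂)
    (h13 : e₁ ≠ e₃) (h23 : e₂ ≠ e₃) (x y : F) :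
    W.Nonsingular x y ↔ y ^ 2 = (x - e₁) * (x - e₂) * (x - e₃) := by
  rw [WeierstrassCurve.Affine.nonsingular_iff', hW.equation_iff, hW.a₁, hW.a₂, hW.a₃, hW.a₄]
  refine ⟨fun h => h.1, fun h => ⟨h, ?_⟩⟩
  by_cases hy : y = 0
  · left
    rw [hy] at h
    have h0 : (x - e₁) * (x - e₂) * (x - e₃) = 0 := by rw [← h]; ring
    have d12 := sub_ne_zero.2 h12
    have d13 := sub_ne_zero.2 h13
    have d23 := sub_ne_zero.2 h23
    rcases mul_eq_zero.1 h0 with h1 | h1
    · rcases mul_eq_zero.1 h1 with h3 | h3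
      · have hx : x = e₁ := sub_eq_zero.1 h3
        subst hx
        intro hc
        exact mul_ne_zero d12 d13 (by linear_combination -hc)
      · have hx : x = e₂ := sub_eq_zero.1 h3
        subst hx
        intro hc
        exact mul_ne_zero d12 d23 (by linear_combination hc)
    · have hx : x = e₃ := sub_eq_zero.1 h1
      subst hx
      intro hc
      exact mul_ne_zero d13 d23 (by linear_combination -hc)
  · right
    intro hc
    have : 2 * y = 0 := by linear_combination hc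
    exact mul_ne_zero h2 hy this

theorem IsE.negY (hW : IsE W e₁ e₂ e₃) (x y : F) : W.negY x y = -y := by
  rw [WeierstrassCurve.Affine.negY, hW.a₁, hW.a₃]; ring

variable [DecidableEq F]

/-- Every point is divisible by two over an algebraically closed field. -/
theorem IsE.halve [IsAlgClosed F] (hW : IsE W e₁ e₂ e₃) (h2 : (2 : F) ≠ 0) (h12 : e₁ ≠ e₂)
    (h13 : e₁ ≠ e₃) (h23 : e₂ ≠ e₃) (P : W.Point) : ∃ Q : W.Point, 2 • Q = P := by
  rcases P with _ | ⟨x, y, h⟩
  · exact ⟨0, by simp; rfl⟩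
  · have heq := (hW.equation_iff x y).1 h.1
    obtain ⟨r₁, hr₁⟩ := IsAlgClosed.exists_pow_nat_eq (x - e₁) two_pos
    obtain ⟨r₂, hr₂⟩ := IsAlgClosed.exists_pow_nat_eq (x - e₂) two_pos
    obtain ⟨r₃, hr₃, hprod⟩ : ∃ r₃ : F, r₃ ^ 2 = x - e₃ ∧ r₁ * r₂ * r₃ = y := by
      obtain ⟨r, hr⟩ := IsAlgClosed.exists_pow_nat_eq (x - e₃) two_pos
      have h1 : (r₁ * r₂ * r) ^ 2 = y ^ 2 := by
        rw [heq, mul_pow, mul_pow, hr₁, hr₂, hr]
      rcases sq_eq_sq_iff_eq_or_eq_neg.1 h1 with h3 | h3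
      · exact ⟨r, hr, h3⟩
      · exact ⟨-r, by rw [neg_sq, hr], by linear_combination -h3⟩
    have n12 : r₁ + r₂ ≠ 0 := by
      intro h0
      apply h12
      have : r₁ ^ 2 = r₂ ^ 2 := by linear_combination (r₁ - r₂) * h0
      linear_combination -this + hr₁ - hr₂
    have n13 : r₁ + r₃ ≠ 0 := by
      intro h0
      apply h13
      have : r₁ ^ 2 = r₃ ^ 2 := by linear_combination (r₁ - r₃) * h0
      linear_combination -this + hr₁ - hr₃
    have n23 : r₂ + r₃ ≠ 0 := by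
      intro h0
      apply h23
      have : r₂ ^ 2 = r₃ ^ 2 := by linear_combination (r₂ - r₃) * h0
      linear_combination -this + hr₂ - hr₃
    set X := x + r₁ * r₂ + r₁ * r₃ + r₂ * r₃ with hX
    set Y := (r₁ + r₂) * (r₁ + r₃) * (r₂ + r₃) with hY
    have hX1 : X - e₁ = (r₁ + r₂) * (r₁ + r₃) := by rw [hX]; linear_combination -hr₁
    have hX2 : X - e₂ = (r₁ + r₂) * (r₂ + r₃) := by rw [hX]; linear_combination -hr₂
    have hX3 : X - e₃ = (r₁ + r₃) * (r₂ + r₃) := by rw [hX]; linear_combination -hr₃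
    have hY0 : Y ≠ 0 := mul_ne_zero (mul_ne_zero n12 n13) n23
    have hns : W.Nonsingular X Y := by
      rw [hW.nonsingular_iff h2 h12 h13 h23, hX1, hX2, hX3, hY]; ring
    have hYne : Y ≠ W.negY X Y := by
      rw [hW.negY]
      intro hc
      exact mul_ne_zero h2 hY0 (by linear_combination hc)
    refine ⟨Point.some X Y hns, ?_⟩
    rw [two_nsmul, Point.add_self_of_Y_ne hYne]
    have hslope : W.slope X X Y Y = r₁ + r₂ + r₃ := by
      rw [slope_of_Y_ne rfl hYne, hW.negY, hW.a₁, hW.a₂, hW.a₄, div_eq_iff (by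
        intro h0; exact mul_ne_zero h2 hY0 (by linear_combination h0))]
      have h3 : (X - e₁) * (X - e₂) + (X - e₁) * (X - e₃) + (X - e₂) * (X - e₃)
          = Y * (2 * (r₁ + r₂ + r₃)) := by
        rw [hX1, hX2, hX3, hY]; ring
      linear_combination h3
    have haX : W.addX X X (W.slope X X Y Y) = x := by
      rw [hslope, WeierstrassCurve.Affine.addX, hW.a₁, hW.a₂, hX]
      linear_combination hr₁ + hr₂ + hr₃
    have haY : W.addY X X Y (W.slope X X Y Y) = y := by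
      rw [WeierstrassCurve.Affine.addY, hW.negY, WeierstrassCurve.Affine.negAddY, haX, hslope,
        ← hprod, hX, hY]
      ring
    rw [Point.some.injEq]
    exact ⟨haX, haY⟩

end Field

end Pool.Agent.Helper91.Sect
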