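import Pool.Agent.Helper91.Section.Curve

/-!
# Functions on `y² = (x - e₁)(x - e₂)(x - e₃)` with divisor a multiple, and their roots
-/

universe u

namespace Pool.Agent.Helper91.Sect

open Polynomial WeierstrassCurve WeierstrassCurve.Affine
open scoped Polynomial.Bivariate

section Ring

variable {F Ω : Type u} [Field F] [Field Ω] [Algebra F Ω] {W : WeierstrassCurve.Affine F}
  {e₁ e₂ e₃ : F}

/-- Evaluation of functions at the generic point `(X, Y)`. -/
noncomputable def evR (hW : IsE W e₁ e₂ e₃) {x y : Ω}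
    (h : y ^ 2 = (x - algebraMap F Ω e₁) * (x - algebraMap F Ω e₂) * (x - algebraMap F Ω e₃)) :
    W.CoordinateRing →+* Ω :=
  AdjoinRoot.lift ((aeval x : F[X] →ₐ[F] Ω) : F[X] →+* Ω) y (by
    rw [WeierstrassCurve.Affine.polynomial, hW.a₁, hW.a₂, hW.a₃, hW.a₄, hW.a₆]
    simp only [eval₂_sub, eval₂_add, eval₂_mul, eval₂_pow, eval₂_X, eval₂_C, RingHom.coe_coe,
      map_add, map_mul, map_pow, map_neg, aeval_X, aeval_C, map_zero, zero_mul, zero_add,
      eval₂_zero, eval₂_neg]
    linear_combination h)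

variable (hW : IsE W e₁ e₂ e₃) {x y : Ω}
    (h : y ^ 2 = (x - algebraMap F Ω e₁) * (x - algebraMap F Ω e₂) * (x - algebraMap F Ω e₃))

theorem evR_C (p : F[X]) : evR hW h (CoordinateRing.mk W (C p)) = aeval x p := by
  rw [evR, CoordinateRing.mk, AdjoinRoot.lift_mk]; simp

theorem evR_Y : evR hW h (CoordinateRing.mk W Y) = y := by
  rw [evR, CoordinateRing.mk, AdjoinRoot.lift_mk]; simp

theorem evR_algebraMap (c : F) : evR hW h (algebraMap F W.CoordinateRing c) = algebraMap F Ω c := by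
  have : algebraMap F W.CoordinateRing c = CoordinateRing.mk W (C (C c)) := rfl
  rw [this, evR_C]; simp

theorem evR_basis (p q : F[X]) :
    evR hW h (p • (1 : W.CoordinateRing) + q • CoordinateRing.mk W Y) =
      aeval x p + aeval x q * y := by
  rw [CoordinateRing.smul, CoordinateRing.smul, mul_one, map_add, map_mul, evR_C, evR_C, evR_Y]

theorem evR_injective (hx : Transcendental F x) : Function.Injective (evR hW h) := by
  rw [injective_iff_map_eq_zero]
  intro r hr
  obtain ⟨p, q, rfl⟩ := CoordinateRing.exists_smul_basis_eq r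
  rw [evR_basis] at hr
  have h1 : aeval x (p ^ 2 - q ^ 2 * ((X - C e₁) * (X - C e₂) * (X - C e₃))) = 0 := by
    simp only [map_sub, map_mul, map_pow, aeval_X, aeval_C]
    rw [← h]
    linear_combination (aeval x p - aeval x q * y) * hr
  have h2 : p ^ 2 - q ^ 2 * ((X - C e₁) * (X - C e₂) * (X - C e₃)) = 0 := by
    by_contra hne
    exact hx ⟨_, hne, h1⟩
  have h3 := CoordinateRing.degree_norm_smul_basis (W' := W) p q
  rw [CoordinateRing.norm_smul_basis, hW.a₁, hW.a₂, hW.a₃, hW.a₄, hW.a₆] at h3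
  have h4 : p ^ 2 - p * q * (C 0 * X + C 0) -
      q ^ 2 * (X ^ 3 + C (-(e₁ + e₂ + e₃)) * X ^ 2 + C (e₁ * e₂ + e₁ * e₃ + e₂ * e₃) * X +
        C (-(e₁ * e₂ * e₃))) = 0 := by
    rw [← h2]
    simp only [C_neg, C_add, C_mul, C_0]
    ring
  rw [h4, degree_zero, eq_comm, max_eq_bot] at h3
  have hp : p = 0 := by
    rw [← degree_eq_bot]
    by_contra hne
    obtain ⟨h5, -⟩ := h3
    rw [degree_eq_natDegree (fun h0 => hne (by rw [h0, degree_zero]))] at h5
    rw [← Nat.cast_smul_eq_nsmul (WithBot ℕ)] at h5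
    exact absurd h5 (by exact_mod_cast WithBot.coe_ne_bot)
  have hq : q = 0 := by
    rw [← degree_eq_bot]
    by_contra hne
    obtain ⟨-, h5⟩ := h3
    rw [degree_eq_natDegree (fun h0 => hne (by rw [h0, degree_zero]))] at h5
    rw [← Nat.cast_smul_eq_nsmul (WithBot ℕ)] at h5
    exact absurd h5 (by exact_mod_cast WithBot.coe_ne_bot)
  rw [hp, hq]; simp

end Ring

end Pool.Agent.Helper91.Sect
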