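import Pool.Agent.Helper91.Section.Func

/-!
# Ideals of points, and their relations
-/

universe u

namespace Pool.Agent.Helper91.Sect

open Polynomial WeierstrassCurve WeierstrassCurve.Affine
open scoped Polynomial.Bivariate

section Units

variable {F : Type u} [Field F] {W : WeierstrassCurve.Affine F}

/-- The units of the coordinate ring are constants. -/
theorem unit_const {r : W.CoordinateRing} (hr : IsUnit r) :
    ∃ c : F, c ≠ 0 ∧ r = algebraMap F W.CoordinateRing c := by
  have hn : IsUnit (Algebra.norm F[X] r) := hr.map _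
  obtain ⟨p, q, rfl⟩ := CoordinateRing.exists_smul_basis_eq r
  have h1 := degree_eq_zero_of_isUnit hn
  rw [CoordinateRing.degree_norm_smul_basis] at h1
  have hq : q = 0 := by
    by_contra hne
    have h2 : 2 • q.degree + 3 ≤ 0 := h1 ▸ le_max_right _ _
    rw [degree_eq_natDegree hne] at h2
    have h3 : (2 • (q.natDegree : WithBot ℕ) + 3) = ((2 * q.natDegree + 3 : ℕ) : WithBot ℕ) := by
      push_cast; rw [two_nsmul, two_mul]
    rw [h3] at h2
    have h4 : 2 * q.natDegree + 3 ≤ 0 := by exact_mod_cast h2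
    omega
  subst hq
  have hp0 : p ≠ 0 := by
    rintro rfl
    simp at h1
  have h5 : 2 • p.degree ≤ 0 := h1 ▸ le_max_left _ _
  rw [degree_eq_natDegree hp0] at h5
  have h3 : (2 • (p.natDegree : WithBot ℕ)) = ((2 * p.natDegree : ℕ) : WithBot ℕ) := by
    push_cast; rw [two_nsmul, two_mul]
  rw [h3] at h5
  have h6 : p.natDegree = 0 := by
    have : 2 * p.natDegree ≤ 0 := by exact_mod_cast h5
    omega
  obtain ⟨c, hc⟩ := natDegree_eq_zero.1 h6
  refine ⟨c, ?_, ?_⟩
  · rintro rfl
    apply hp0; rw [← hc, C_0]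
  · rw [← hc, zero_smul, add_zero, CoordinateRing.smul, mul_one]; rfl

end Units

section Ideals

variable {F : Type u} [Field F] {W : WeierstrassCurve.Affine F}

/-- the ideal of a point (the unit ideal for the point at infinity) -/
noncomputable def idOf : W.Point → Ideal W.CoordinateRing
  | Point.zero => ⊤
  | Point.some x y _ => CoordinateRing.XYIdeal W x (C y)

/-- the number `0` for the point at infinity and `1` for the other points -/
def wt : W.Point → ℕ
  | Point.zero => 0
  | Point.some _ _ _ => 1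

theorem idOf_zero : idOf (0 : W.Point) = ⊤ := rfl
theorem wt_zero : wt (0 : W.Point) = 0 := rfl

variable {Ω : Type u} [Field Ω] [Algebra F Ω] {e₁ e₂ e₃ : F} (hW : IsE W e₁ e₂ e₃) {x y : Ω}
    (h : y ^ 2 = (x - algebraMap F Ω e₁) * (x - algebraMap F Ω e₂) * (x - algebraMap F Ω e₃))

/-- the place `V` is trivial on constants -/
def TrivC (F : Type u) [Field F] {Ω : Type u} [Field Ω] [Algebra F Ω]
    (V : ValuationSubring Ω) : Prop := ∀ c : F, c ≠ 0 → V.valuation (algebraMap F Ω c) = 1

variable {V : ValuationSubring Ω}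

theorem TrivC.le (hV : TrivC F V) (c : F) : V.valuation (algebraMap F Ω c) ≤ 1 := by
  by_cases hc : c = 0
  · rw [hc, map_zero, map_zero]; exact zero_le_one
  · exact (hV c hc).le

include h in
theorem val_y_sq (hV : TrivC F V) (hx : 1 < V.valuation x) :
    V.valuation y ^ 2 = V.valuation x ^ 3 := by
  have hvx : ∀ e : F, V.valuation (x - algebraMap F Ω e) = V.valuation x := fun e =>
    Valuation.map_sub_eq_of_lt_left _ ((hV.le e).trans_lt hx)
  rw [← map_pow, h, map_mul, map_mul, hvx, hvx, hvx, pow_succ, pow_two]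

include h in
theorem val_t_sq (hV : TrivC F V) (hx : 1 < V.valuation x) :
    V.valuation (y / x) ^ 2 = V.valuation x := by
  have h0 : V.valuation x ≠ 0 := (zero_lt_one.trans hx).ne'
  rw [map_div₀, div_pow, val_y_sq h hV hx, pow_succ, mul_comm, mul_div_assoc,
    div_self (pow_ne_zero 2 h0), mul_one]

include h in
theorem val_t_cube (hV : TrivC F V) (hx : 1 < V.valuation x) :
    V.valuation (y / x) ^ 3 = V.valuation y := by
  have h0 : V.valuation x ≠ 0 := (zero_lt_one.trans hx).ne'
  rw [pow_succ, val_t_sq h hV hx, ← map_mul]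
  congr 1
  have : x ≠ 0 := by rintro rfl; simp at h0
  field_simp

include h in
theorem val_x_lt_y (hV : TrivC F V) (hx : 1 < V.valuation x) : V.valuation x < V.valuation y := by
  by_contra hcon
  push Not at hcon
  have h1 : V.valuation y ^ 2 ≤ V.valuation x ^ 2 := pow_le_pow_left₀ zero_le hcon 2
  rw [val_y_sq h hV hx] at h1
  have h2 : V.valuation x ^ 2 < V.valuation x ^ 3 := pow_lt_pow_right₀ hx (by norm_num)
  exact absurd h1 (not_le.2 h2)

theorem val_XClass (hV : TrivC F V) (hx : 1 < V.valuation x) (c : F) :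
    V.valuation (evR hW h (CoordinateRing.XClass W c)) = V.valuation (y / x) ^ 2 := by
  rw [CoordinateRing.XClass, evR_C, map_sub, aeval_X, aeval_C, val_t_sq h hV hx]
  exact Valuation.map_sub_eq_of_lt_left _ ((hV.le c).trans_lt hx)

theorem val_YClass (hV : TrivC F V) (hx : 1 < V.valuation x) (a b c : F) :
    V.valuation (evR hW h (CoordinateRing.YClass W (linePolynomial a b c))) =
      V.valuation (y / x) ^ 3 := by
  rw [CoordinateRing.YClass, map_sub, map_sub, evR_Y, evR_C, val_t_cube h hV hx]
  apply Valuation.map_sub_eq_of_lt_left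
  rw [linePolynomial]
  simp only [map_add, map_mul, map_sub, aeval_C, aeval_X]
  refine lt_of_le_of_lt ?_ (val_x_lt_y h hV hx)
  refine (Valuation.map_add _ _ _).trans (max_le ?_ ((hV.le b).trans hx.le))
  rw [map_mul, Valuation.map_sub_eq_of_lt_left _ ((hV.le a).trans_lt hx)]
  exact mul_le_of_le_one_left' (hV.le c)

theorem evR_ne_zero (hx : Transcendental F x) {r : W.CoordinateRing} (hr : r ≠ 0) :
    evR hW h r ≠ 0 := fun h0 => hr ((injective_iff_map_eq_zero _).1 (evR_injective hW h hx) r h0)

variable [DecidableEq F]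

/-- the relation between the ideals of `P`, `P'` and `P + P'`, with its values at infinity -/
theorem ideal_rel (P P' : W.Point) : ∃ a b : W.CoordinateRing, a ≠ 0 ∧ b ≠ 0 ∧
    Ideal.span {a} * (idOf P * idOf P') = Ideal.span {b} * idOf (P + P') ∧
    ∀ V : ValuationSubring Ω, TrivC F V → 1 < V.valuation x →
      V.valuation (evR hW h b) * V.valuation (y / x) ^ wt (P + P') =
        V.valuation (evR hW h a) * V.valuation (y / x) ^ (wt P + wt P') := by
  rcases P with _ | ⟨x₁, y₁, h₁⟩
  · refine ⟨1, 1, one_ne_zero, one_ne_zero, ?_, fun V _ _ => ?_⟩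
    · rw [← Point.zero_def, zero_add, idOf_zero, ← Ideal.one_eq_top, one_mul]
    · rw [← Point.zero_def, zero_add, wt_zero, zero_add]
  rcases P' with _ | ⟨x₂, y₂, h₂⟩
  · refine ⟨1, 1, one_ne_zero, one_ne_zero, ?_, fun V _ _ => ?_⟩
    · rw [← Point.zero_def, add_zero, idOf_zero, ← Ideal.one_eq_top, mul_one]
    · rw [← Point.zero_def, add_zero, wt_zero, add_zero]
  by_cases hxy : x₁ = x₂ ∧ y₁ = W.negY x₂ y₂
  · obtain ⟨rfl, rfl⟩ := hxy
    rw [Point.add_of_Y_eq rfl rfl]
    refine ⟨1, CoordinateRing.XClass W x₁, one_ne_zero, CoordinateRing.XClass_ne_zero _, ?_,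
      fun V hV hx => ?_⟩
    · rw [Ideal.span_singleton_one, ← Ideal.one_eq_top, one_mul, idOf_zero, ← Ideal.one_eq_top,
        mul_one]
      exact CoordinateRing.XYIdeal_neg_mul h₂
    · rw [wt_zero, pow_zero, mul_one, map_one, map_one, one_mul, val_XClass hW h hV hx]; rfl
  · rw [Point.add_some hxy]
    refine ⟨CoordinateRing.XClass W (W.addX x₁ x₂ <| W.slope x₁ x₂ y₁ y₂),
      CoordinateRing.YClass W (linePolynomial x₁ y₁ <| W.slope x₁ x₂ y₁ y₂),
      CoordinateRing.XClass_ne_zero _, CoordinateRing.YClass_ne_zero _, ?_, fun V hV hx => ?_⟩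
    · exact CoordinateRing.XYIdeal_mul_XYIdeal h₁.1 h₂.1 hxy
    · rw [val_XClass hW h hV hx, val_YClass hW h hV hx]
      change V.valuation (y / x) ^ 3 * V.valuation (y / x) ^ 1 =
        V.valuation (y / x) ^ 2 * V.valuation (y / x) ^ (1 + 1)
      rw [← pow_add, ← pow_add]

theorem pow_rel (P : W.Point) (n : ℕ) : ∃ a b : W.CoordinateRing, a ≠ 0 ∧ b ≠ 0 ∧
    Ideal.span {a} * (idOf P) ^ n = Ideal.span {b} * idOf (n • P) ∧
    ∀ V : ValuationSubring Ω, TrivC F V → 1 < V.valuation x →
      V.valuation (evR hW h b) * V.valuation (y / x) ^ wt (n • P) =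
        V.valuation (evR hW h a) * V.valuation (y / x) ^ (n * wt P) := by
  induction n with
  | zero =>
    refine ⟨1, 1, one_ne_zero, one_ne_zero, ?_, fun V _ _ => ?_⟩
    · rw [pow_zero, zero_smul, idOf_zero, Ideal.one_eq_top]
    · rw [zero_smul, wt_zero, zero_mul]
  | succ n ih =>
    obtain ⟨a, b, ha, hb, hab, hval⟩ := ih
    obtain ⟨a', b', ha', hb', hab', hval'⟩ := ideal_rel hW h (n • P) P
    refine ⟨a * a', b * b', mul_ne_zero ha ha', mul_ne_zero hb hb', ?_, fun V hV hx => ?_⟩
    · rw [succ_nsmul, ← Ideal.span_singleton_mul_span_singleton,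
        ← Ideal.span_singleton_mul_span_singleton, pow_succ]
      calc Ideal.span {a} * Ideal.span {a'} * (idOf P ^ n * idOf P)
          = Ideal.span {a'} * ((Ideal.span {a} * idOf P ^ n) * idOf P) := by ring
        _ = Ideal.span {b} * (Ideal.span {a'} * (idOf (n • P) * idOf P)) := by rw [hab]; ring
        _ = _ := by rw [hab']; ring
    · have h1 := hval V hV hx
      have h2 := hval' V hV hx
      rw [← succ_nsmul] at h2
      rw [map_mul, map_mul, map_mul, map_mul, Nat.succ_mul]
      set t := V.valuation (y / x)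
      have ht : t ≠ 0 := by
        have h3 := val_t_sq h hV hx
        intro h0
        rw [show V.valuation (y / x) = 0 from h0] at h3
        rw [zero_pow two_ne_zero] at h3
        rw [← h3] at hx
        exact absurd hx (not_lt.2 zero_le)
      have h4 : t ^ wt (n • P) ≠ 0 := pow_ne_zero _ ht
      apply mul_right_cancel₀ h4
      calc V.valuation (evR hW h b) * V.valuation (evR hW h b') * t ^ wt ((n + 1) • P) *
              t ^ wt (n • P)
          = (V.valuation (evR hW h b) * t ^ wt (n • P)) *
              (V.valuation (evR hW h b') * t ^ wt ((n + 1) • P)) := by ac_rfl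
        _ = (V.valuation (evR hW h a) * t ^ (n * wt P)) *
              (V.valuation (evR hW h a') * t ^ (wt (n • P) + wt P)) := by rw [h1, h2]
        _ = _ := by rw [pow_add, pow_add]; ac_rfl

end Ideals

end Pool.Agent.Helper91.Sect
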