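import Pool.Agent.Helper91.Section.Func3

/-!
# Galois action on roots of functions
-/

universe u

namespace Pool.Agent.Helper91.Sect

open Polynomial WeierstrassCurve WeierstrassCurve.Affine
open scoped Polynomial.Bivariate

section Gal

variable {F : Type u} [Field F] {W : WeierstrassCurve.Affine F}

/-- The semilinear action on the coordinate ring. -/
noncomputable def galR (γ : F →+* F) (hγ : W.map γ = W) :
    W.CoordinateRing →+* W.CoordinateRing :=
  AdjoinRoot.lift ((AdjoinRoot.of W.polynomial).comp (mapRingHom γ))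
    (AdjoinRoot.root W.polynomial) (by
      rw [← eval₂_map, ← map_polynomial, hγ, AdjoinRoot.eval₂_root])

theorem galR_mk (γ : F →+* F) (hγ : W.map γ = W) (p : F[X][Y]) :
    galR γ hγ (CoordinateRing.mk W p) = CoordinateRing.mk W (p.map (mapRingHom γ)) := by
  rw [galR, CoordinateRing.mk, AdjoinRoot.lift_mk, ← eval₂_map]
  exact AdjoinRoot.aeval_eq (p.map (mapRingHom γ))

variable {S L : Type u} [Field S] [Field L] [Algebra S L] {e₁ e₂ e₃ : S} [DecidableEq L]
  {Ω : Type u} [Field Ω] [Algebra L Ω]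

theorem map_baseChange_eq (V : WeierstrassCurve S) (γ : L →ₐ[S] L) :
    (V⁄L).map (γ : L →+* L) = V⁄L := WeierstrassCurve.map_baseChange V γ

theorem idOf_map (γ : L →ₐ[S] L) (P : ((EC e₁ e₂ e₃)⁄L).Point) :
    (idOf P).map (galR (γ : L →+* L) (map_baseChange_eq (EC e₁ e₂ e₃) γ)) =
      idOf (Point.map (W' := EC e₁ e₂ e₃) γ P) := by
  rcases P with _ | ⟨x, y, h⟩
  · exact Ideal.map_top _
  · rw [Point.map_some]
    change (CoordinateRing.XYIdeal _ x (C y)).map _ = CoordinateRing.XYIdeal _ (γ x) (C (γ y))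
    rw [CoordinateRing.XYIdeal, CoordinateRing.XYIdeal, Ideal.map_span, Set.image_pair,
      CoordinateRing.XClass, CoordinateRing.XClass, CoordinateRing.YClass, CoordinateRing.YClass,
      galR_mk, galR_mk]
    simp

variable {x y : Ω} (h : y ^ 2 = (x - algebraMap L Ω (algebraMap S L e₁)) *
    (x - algebraMap L Ω (algebraMap S L e₂)) * (x - algebraMap L Ω (algebraMap S L e₃)))

theorem RootAt.map {P : ((EC e₁ e₂ e₃)⁄L).Point} {g : Ω}
    (hg : RootAt (isE_baseChange e₁ e₂ e₃) h P g) (γ : L →ₐ[S] L) (ρ : Ω →+* Ω)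
    (hρ : ∀ c : L, ρ (algebraMap L Ω c) = algebraMap L Ω (γ c)) (hx : ρ x = x) (hy : ρ y = y) :
    RootAt (isE_baseChange e₁ e₂ e₃) h (Point.map (W' := EC e₁ e₂ e₃) γ P) (ρ g) := by
  obtain ⟨n, hn0, hn, r, hr, hgr⟩ := hg
  refine ⟨n, hn0, by rw [← map_nsmul, hn, map_zero],
    galR (γ : L →+* L) (map_baseChange_eq (EC e₁ e₂ e₃) γ) r, ?_, ?_⟩
  · rw [← idOf_map, ← Ideal.map_pow, hr, Ideal.map_span, Set.image_singleton]
  · rw [← map_pow, hgr]
    obtain ⟨p, q, rfl⟩ := CoordinateRing.exists_smul_basis_eq r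
    have h1 : ∀ p : L[X], ρ (aeval x p) = aeval x (p.map (γ : L →+* L)) := by
      intro p
      rw [aeval_def, aeval_def, eval₂_map, hom_eval₂, hx]
      congr 1
      ext c
      exact hρ c
    rw [evR_basis, CoordinateRing.smul, CoordinateRing.smul, mul_one, map_add, map_mul, map_add,
      map_mul, galR_mk, galR_mk, galR_mk, map_add, map_mul, h1, h1, hy]
    simp only [Polynomial.map_C, Polynomial.map_X, coe_mapRingHom]
    rw [evR_C, evR_C, evR_Y]

end Gal

end Pool.Agent.Helper91.Sect
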