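import Mathlib

/-!
# Characters of divisible torsion groups invariant under an endomorphism with finite kernel
-/

namespace Pool.Agent.Helper91.Sect

section

variable {M : Type*} [AddCommGroup M]

/-- the kernel of `2 ^ n` -/
def tors (M : Type*) [AddCommGroup M] (n : ℕ) : AddSubgroup M where
  carrier := {m | 2 ^ n • m = 0}
  add_mem' := by
    intro a b ha hb
    simp only [Set.mem_ofPred_eq] at ha hb ⊢
    rw [smul_add, ha, hb, add_zero]
  zero_mem' := by simp
  neg_mem' := by
    intro a ha
    simp only [Set.mem_ofPred_eq] at ha ⊢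
    rw [smul_neg, ha, neg_zero]

theorem mem_tors {n : ℕ} {m : M} : m ∈ tors M n ↔ 2 ^ n • m = 0 := Iff.rfl

theorem tors_finite (h2 : {m : M | 2 • m = 0}.Finite) (n : ℕ) : Finite (tors M n) := by
  have key : ∀ n : ℕ, {m : M | 2 ^ n • m = 0}.Finite := by
    intro n
    induction n with
    | zero => simp
    | succ n ih =>
      have h1 : {m : M | 2 ^ (n + 1) • m = 0} = (fun m : M => 2 • m) ⁻¹' {m | 2 ^ n • m = 0} := by
        ext m
        simp only [Set.mem_ofPred_eq, Set.mem_preimage]
        rw [← mul_smul, pow_succ]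
      rw [h1]
      refine ih.preimage' fun b _ => ?_
      by_cases hb : ∃ m0 : M, 2 • m0 = b
      · obtain ⟨m0, hm0⟩ := hb
        refine (h2.image (fun m => m0 + m)).subset ?_
        intro m hm
        refine ⟨m - m0, ?_, by simp⟩
        have hm' : 2 • m = b := hm
        simp only [Set.mem_ofPred_eq]
        rw [smul_sub, hm', hm0, sub_self]
      · convert Set.finite_empty
        ext m
        simp only [Set.mem_preimage, Set.mem_singleton_iff, Set.mem_empty_iff_false, iff_false]
        exact fun h => hb ⟨m, h⟩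
  exact (key n).to_subtype

/-- An invariant character of a `2`-divisible `2`-power torsion group is trivial, when the
endomorphism has finite kernel. -/
theorem char_trivial {A : Type*} [CommGroup A] (htor : ∀ m : M, ∃ n : ℕ, 2 ^ n • m = 0)
    (hdiv : ∀ m : M, ∃ m' : M, 2 • m' = m) (h2 : {m : M | 2 • m = 0}.Finite)
    (θ : M →+ M) (hker : {m : M | θ m = 0}.Finite) (f : M →+ Additive A)
    (hf : ∀ m, f (θ m) = 0) (m : M) : f m = 0 := by
  by_contra hne
  set K := Nat.card {m : M | θ m = 0} with hK
  have hfinK : Finite {m : M | θ m = 0} := hker.to_subtype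
  obtain ⟨n0, hn0⟩ := htor m
  -- divide
  have hdivn : ∀ j : ℕ, ∃ m' : M, 2 ^ j • m' = m := by
    intro j
    induction j with
    | zero => exact ⟨m, by simp⟩
    | succ j ih =>
      obtain ⟨m1, hm1⟩ := ih
      obtain ⟨m2, hm2⟩ := hdiv m1
      exact ⟨m2, by rw [pow_succ, mul_smul, hm2, hm1]⟩
  obtain ⟨t, ht⟩ := hdivn K
  set n := n0 + K with hn
  have htn : t ∈ tors M n := by
    rw [mem_tors, hn, pow_add, mul_smul, ht, hn0]
  have hfin : Finite (tors M n) := tors_finite h2 n
  -- the restricted maps
  have hθn : ∀ x ∈ tors M n, θ x ∈ tors M n := by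
    intro x hx
    rw [mem_tors] at hx ⊢
    rw [← map_nsmul, hx, map_zero]
  let θn : tors M n →+ tors M n := (θ.comp (tors M n).subtype).codRestrict (tors M n)
    (fun x => hθn x x.2)
  let fn : tors M n →+ Additive A := f.comp (tors M n).subtype
  have h1 : θn.range ≤ fn.ker := by
    rintro _ ⟨x, rfl⟩
    exact hf x
  have c1 : Nat.card fn.range * Nat.card fn.ker = Nat.card (tors M n) := by
    rw [← AddSubgroup.index_ker, mul_comm]
    exact AddSubgroup.card_mul_index fn.ker
  have c2 : Nat.card θn.range * Nat.card θn.ker = Nat.card (tors M n) := by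
    rw [← AddSubgroup.index_ker, mul_comm]
    exact AddSubgroup.card_mul_index θn.ker
  have c3 : Nat.card θn.range ≤ Nat.card fn.ker :=
    Nat.card_le_card_of_injective (AddSubgroup.inclusion h1) (AddSubgroup.inclusion_injective h1)
  have c4 : Nat.card θn.ker ≤ K := by
    refine Nat.card_le_card_of_injective
      (fun x : θn.ker => (⟨((x : tors M n) : M), by
        have h3 := x.2
        rw [AddMonoidHom.mem_ker] at h3
        exact congrArg Subtype.val h3⟩ : {m : M | θ m = 0})) ?_
    intro x y hxy
    apply Subtype.ext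
    apply Subtype.ext
    exact congrArg (fun z : {m : M | θ m = 0} => (z : M)) hxy
  have hpos : 0 < Nat.card fn.ker := Nat.card_pos
  have c5 : Nat.card fn.range ≤ K := by
    by_contra hlt
    push Not at hlt
    have h5 : Nat.card θn.range * Nat.card θn.ker < Nat.card fn.range * Nat.card fn.ker := by
      calc Nat.card θn.range * Nat.card θn.ker ≤ Nat.card fn.ker * K := Nat.mul_le_mul c3 c4
        _ < Nat.card fn.ker * Nat.card fn.range := Nat.mul_lt_mul_of_pos_left hlt hpos
        _ = _ := mul_comm _ _
    rw [c1, c2] at h5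
    exact lt_irrefl _ h5
  -- but the range is large
  have hfinr : Finite fn.range :=
    Finite.of_surjective fn.rangeRestrict fn.rangeRestrict_surjective
  let g : Fin (K + 1) → fn.range := fun i => ⟨(i : ℕ) • f t, by
    refine ⟨(i : ℕ) • ⟨t, htn⟩, ?_⟩
    simp [fn]⟩
  have hg : Function.Injective g := by
    intro i j hij
    have hij' : (i : ℕ) • f t = (j : ℕ) • f t := congrArg Subtype.val hij
    by_contra hne'
    -- the order of `f t` is at least `2 ^ K`
    have h6 : ∀ d : ℕ, 0 < d → d ≤ K → d • f t ≠ 0 := by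
      intro d hd hdK h0
      -- order divides `2 ^ n` and `d`
      have h7 : addOrderOf (f t) ∣ d := addOrderOf_dvd_of_nsmul_eq_zero h0
      have h8 : addOrderOf (f t) ∣ 2 ^ n := by
        apply addOrderOf_dvd_of_nsmul_eq_zero
        rw [← map_nsmul, mem_tors.1 htn, map_zero]
      obtain ⟨e, -, he⟩ := (Nat.dvd_prime_pow Nat.prime_two).1 h8
      have h9 : 2 ^ e ≤ d := Nat.le_of_dvd hd (he ▸ h7)
      have h10 : e ≤ K := by
        by_contra hcon
        push Not at hcon
        have : K < 2 ^ e := hcon.trans e.lt_two_pow_self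
        omega
      apply hne
      have h11 : 2 ^ K • f t = 0 := by
        have h12 : addOrderOf (f t) ∣ 2 ^ K := by rw [he]; exact pow_dvd_pow 2 h10
        exact addOrderOf_dvd_iff_nsmul_eq_zero.1 h12
      rw [← ht, map_nsmul, h11]
    rcases lt_or_gt_of_ne (fun h => hne' (Fin.ext h) : (i : ℕ) ≠ j) with hlt | hlt
    · refine h6 (j - i) (by omega) (by omega) ?_
      rw [sub_nsmul _ hlt.le, hij', add_neg_cancel]
    · refine h6 (i - j) (by omega) (by omega) ?_
      rw [sub_nsmul _ hlt.le, hij', add_neg_cancel]
  have c6 := Nat.card_le_card_of_injective g hg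
  rw [Nat.card_eq_fintype_card, Fintype.card_fin] at c6
  omega

end

end Pool.Agent.Helper91.Sect
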