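import Pool.Agent.Helper91.Section.NoFour

/-!
# Sections of ramified twists give rational branch points
-/

universe u

namespace Pool.Agent.Helper91.Sect

open Polynomial

/-- a combinatorial lemma on partitions into two odd classes -/
theorem exists_fixed_point {T : Type*} [DecidableEq T] {R : Finset T} (hR4 : 4 ≤ R.card)
    (hReven : Even R.card) {ε : T → ℤˣ} (hprod : ∏ r ∈ R, ε r = -1)
    (hno : ∀ r : Fin 4 → T, Function.Injective r → (∀ i, r i ∈ R) → ε (r 0) = 1 →
      ε (r 1) = 1 → ε (r 2) = -1 → ε (r 3) = -1 → False) :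
    ∃ r₀ ∈ R, ∀ γ : T → T, Function.Injective γ → (∀ r ∈ R, γ r ∈ R) →
      (∀ r ∈ R, ∀ r' ∈ R, ε (γ r) * ε (γ r') = ε r * ε r') → γ r₀ = r₀ := by
  classical
  set A := R.filter fun r => ε r = 1 with hA
  set B := R.filter fun r => ε r = -1 with hB
  have hAB : A.card + B.card = R.card := by
    have h1 := Finset.card_filter_add_card_filter_not (s := R) (fun r => ε r = 1)
    have h2 : R.filter (fun r => ¬ ε r = 1) = B := by
      apply Finset.filter_congr
      intro r _
      rcases Int.units_eq_one_or (ε r) with h | h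
      · rw [h]; decide
      · rw [h]; decide
    rw [h2] at h1
    exact h1
  have hBodd : Odd B.card := by
    by_contra hcon
    rw [Nat.not_odd_iff_even] at hcon
    have h1 : ∏ r ∈ R, ε r = (∏ r ∈ A, ε r) * ∏ r ∈ B, ε r := by
      have h2 := Finset.prod_filter_mul_prod_filter_not R (fun r => ε r = 1) ε
      have h3 : R.filter (fun r => ¬ ε r = 1) = B := by
        apply Finset.filter_congr
        intro r _
        rcases Int.units_eq_one_or (ε r) with h | h
        · rw [h]; decide
        · rw [h]; decide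
      rw [h3] at h2
      exact h2.symm
    have hA1 : ∏ r ∈ A, ε r = 1 := Finset.prod_eq_one fun r hr => (Finset.mem_filter.1 hr).2
    have hB1 : ∏ r ∈ B, ε r = (-1) ^ B.card := by
      rw [Finset.prod_congr rfl (fun r hr => (Finset.mem_filter.1 hr).2), Finset.prod_const]
    rw [hprod, hA1, hB1, one_mul, hcon.neg_one_pow] at h1
    exact absurd h1 (by decide)
  have hAodd : Odd A.card := by
    rw [← hAB] at hReven
    rcases Nat.even_or_odd A.card with h | h
    · exact absurd (Nat.even_add.1 hReven |>.1 h) (Nat.not_even_iff_odd.2 hBodd)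
    · exact h
  -- one of the classes has one element
  have hone : A.card = 1 ∨ B.card = 1 := by
    by_contra hcon
    push Not at hcon
    have hA2 : 1 < A.card := by
      rcases hAodd with ⟨m, hm⟩; omega
    have hB2 : 1 < B.card := by
      rcases hBodd with ⟨m, hm⟩; omega
    obtain ⟨a, ha, b, hb, hab⟩ := Finset.one_lt_card.1 hA2
    obtain ⟨c, hc, d, hd, hcd⟩ := Finset.one_lt_card.1 hB2
    have ha' := Finset.mem_filter.1 ha
    have hb' := Finset.mem_filter.1 hb
    have hc' := Finset.mem_filter.1 hc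
    have hd' := Finset.mem_filter.1 hd
    have hne : ∀ {p q : T}, ε p = 1 → ε q = -1 → p ≠ q := by
      intro p q hp hq h
      rw [h, hq] at hp
      exact absurd hp (by decide)
    refine hno ![a, b, c, d] ?_ ?_ ha'.2 hb'.2 hc'.2 hd'.2
    · have hac := hne ha'.2 hc'.2
      have had := hne ha'.2 hd'.2
      have hbc := hne hb'.2 hc'.2
      have hbd := hne hb'.2 hd'.2
      intro i j hij
      fin_cases i <;> fin_cases j <;> simp_all
    · intro i
      fin_cases i
      · exact ha'.1
      · exact hb'.1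
      · exact hc'.1
      · exact hd'.1
  -- the general argument
  have key : ∀ e : ℤˣ, (R.filter fun r => ε r = e).card = 1 →
      ∃ r₀ ∈ R, ∀ γ : T → T, Function.Injective γ → (∀ r ∈ R, γ r ∈ R) →
      (∀ r ∈ R, ∀ r' ∈ R, ε (γ r) * ε (γ r') = ε r * ε r') → γ r₀ = r₀ := by
    intro e he
    obtain ⟨r₀, hr₀⟩ := Finset.card_eq_one.1 he
    have hr₀' : r₀ ∈ R.filter fun r => ε r = e := by rw [hr₀]; exact Finset.mem_singleton_self _
    have hr₀R := (Finset.mem_filter.1 hr₀').1
    have hr₀e := (Finset.mem_filter.1 hr₀').2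
    refine ⟨r₀, hr₀R, ?_⟩
    intro γ hγ hγR hγε
    by_cases h1 : ε (γ r₀) = e
    · have h2 : γ r₀ ∈ R.filter fun r => ε r = e := Finset.mem_filter.2 ⟨hγR _ hr₀R, h1⟩
      rw [hr₀] at h2
      exact Finset.mem_singleton.1 h2
    · exfalso
      -- all other elements map into the class
      have h2 : ∀ r ∈ R.erase r₀, γ r ∈ R.filter fun r => ε r = e := by
        intro r hr
        have hrR := Finset.mem_of_mem_erase hr
        have hrne := Finset.ne_of_mem_erase hr
        have h3 : ε r ≠ e := by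
          intro h3
          have h4 : r ∈ R.filter fun r => ε r = e := Finset.mem_filter.2 ⟨hrR, h3⟩
          rw [hr₀] at h4
          exact hrne (Finset.mem_singleton.1 h4)
        refine Finset.mem_filter.2 ⟨hγR _ hrR, ?_⟩
        have h4 := hγε r₀ hr₀R r hrR
        rw [hr₀e] at h4
        rcases Int.units_eq_one_or e with he1 | he1 <;>
          rcases Int.units_eq_one_or (ε (γ r₀)) with h5 | h5 <;>
          rcases Int.units_eq_one_or (ε r) with h6 | h6 <;>
          rcases Int.units_eq_one_or (ε (γ r)) with h7 | h7 <;>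
          rw [he1] at h1 h3 h4 ⊢ <;> rw [h5] at h1 h4 <;> rw [h6] at h3 h4 <;> rw [h7] at h4 ⊢ <;>
          revert h1 h3 h4 <;> decide
      have h3 : (R.erase r₀).card ≤ (R.filter fun r => ε r = e).card :=
        Finset.card_le_card_of_injOn γ h2 hγ.injOn
      rw [Finset.card_erase_of_mem hr₀R, he] at h3
      omega
  rcases hone with h | h
  · exact key 1 h
  · exact key (-1) h

section

variable {F k K : Type u} [Field F] [Field k] [Field K] [Algebra F k] [Algebra k K]
  [CharZero F]

theorem section_root (hFG : (⊤ : IntermediateField ℚ F).FG) {O : ValuationSubring k}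
    (hFO : ∀ a : F, algebraMap F k a ∈ O)
    (hresF : ∀ z ∈ O, ∃ a : F, O.valuation (z - algebraMap F k a) < 1)
    {c : k} (hodd : ∀ d : k, O.valuation c ≠ O.valuation d ^ 2)
    {f : F[X]} (hsep : f.Separable) (heven : Even f.natDegree) (hdeg : 4 ≤ f.natDegree)
    {x y : K} (hx : Transcendental k x)
    (hxy : algebraMap k K c * y ^ 2 = aeval x (f.map (algebraMap F k)))
    (s : GaloisSection k K) : ∃ r : F, f.eval r = 0 := by
  classical
  have hck : CharZero k := charZero_of_injective_algebraMap (algebraMap F k).injective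
  let _ : Algebra F (kbar k K) := ((algebraMap k (kbar k K)).comp (algebraMap F k)).toAlgebra
  have : IsScalarTower F k (kbar k K) := IsScalarTower.of_algebraMap_eq fun _ => rfl
  obtain ⟨Q, hQ, hA⟩ := exists_above (k := k) (C := kbar k K) (O := O)
  have hres : ∀ n : ℕ, n ≠ 0 → (locW Q).valuation (n : kbar k K) = 1 := by
    intro n hn
    refine val_algF hFO Q ?_ (Nat.cast_ne_zero.2 hn)
    exact isAlgebraic_natCast n
  obtain ⟨w, hw⟩ := IsAlgClosed.exists_pow_nat_eq (algebraMap k (kbar k K) c) two_pos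
  obtain ⟨τ, hτ, hτw⟩ := exists_inertia_neg Q hA hodd hw
  obtain ⟨ξ, hξ⟩ := exists_ext s τ
  have hξC : ∀ z : kbar k K, ξ (z : AlgebraicClosure K) = τ z := fun z => ext_const s hξ z
  have hcz : CharZero (AlgebraicClosure K) :=
    charZero_of_injective_algebraMap (algebraMap k (AlgebraicClosure K)).injective
  have hf0 : f ≠ 0 := by
    rintro rfl
    rw [natDegree_zero] at hdeg
    omega
  -- roots
  set R : Finset (kbar k K) := (f.aroots (kbar k K)).toFinset with hR
  have hmemR : ∀ r : kbar k K, r ∈ R ↔ aeval r f = 0 := by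
    intro r
    rw [hR, Multiset.mem_toFinset, mem_aroots]
    exact ⟨fun h => h.2, fun h => ⟨hf0, h⟩⟩
  have hRF : ∀ r ∈ R, IsAlgebraic F r := fun r hr => ⟨f, hf0, (hmemR r).1 hr⟩
  have hsplits : (f.map (algebraMap F (kbar k K))).Splits := IsAlgClosed.splits _
  have hnodup : (f.aroots (kbar k K)).Nodup := (nodup_aroots_iff_of_splits hf0 hsplits).2 hsep
  have hRval : R.val = f.aroots (kbar k K) := by
    rw [hR, Multiset.toFinset_val, hnodup.dedup]
  have hRcard : R.card = f.natDegree := by
    rw [Finset.card_def, hRval, aroots_def, ← hsplits.natDegree_eq_card_roots, natDegree_map]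
  set X₀ := algebraMap K (AlgebraicClosure K) x with hX₀
  set Y₀ := algebraMap K (AlgebraicClosure K) y with hY₀
  set a₀ : kbar k K := algebraMap F (kbar k K) f.leadingCoeff with ha₀
  set c₀ : kbar k K := algebraMap k (kbar k K) c with hc₀
  have ha₀0 : a₀ ≠ 0 := by
    rw [ha₀]
    exact (_root_.map_ne_zero _).2 (leadingCoeff_ne_zero.2 hf0)
  have hc0 : c ≠ 0 := by
    rintro rfl
    exact hodd 0 (by simp)
  have hc₀0 : c₀ ≠ 0 := (_root_.map_ne_zero _).2 hc0
  have heq : (c₀ : AlgebraicClosure K) * Y₀ ^ 2 =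
      a₀ * ∏ r ∈ R, (X₀ - (r : AlgebraicClosure K)) := by
    have h1 : f.map (algebraMap F (kbar k K)) = C a₀ * ∏ r ∈ R, (X - C r) := by
      have h2 := hsplits.eq_prod_roots
      rw [leadingCoeff_map] at h2
      rw [h2]
      congr 1
      rw [Finset.prod_eq_multiset_prod, hRval, aroots_def]
    have h2 : eval₂ (algebraMap (kbar k K) (AlgebraicClosure K)) X₀
        (f.map (algebraMap F (kbar k K))) = a₀ * ∏ r ∈ R, (X₀ - (r : AlgebraicClosure K)) := by
      rw [h1, eval₂_mul, eval₂_C, eval₂_finsetProd]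
      congr 1
      refine Finset.prod_congr rfl fun r _ => ?_
      rw [eval₂_sub, eval₂_X, eval₂_C]; rfl
    rw [← h2, eval₂_map]
    have h3 := congrArg (algebraMap K (AlgebraicClosure K)) hxy
    rw [map_mul, map_pow, aeval_def, eval₂_map, hom_eval₂] at h3
    have h4 : (algebraMap K (AlgebraicClosure K)) (algebraMap k K c) =
        (c₀ : AlgebraicClosure K) := by
      rw [← IsScalarTower.algebraMap_apply k K (AlgebraicClosure K)]; rfl
    rw [h4] at h3
    rw [h3]
    congr 1
  -- square roots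
  have hsqrt : ∀ r : kbar k K, ∃ v : AlgebraicClosure K, v ^ 2 = X₀ - (r : AlgebraicClosure K) :=
    fun r => IsAlgClosed.exists_pow_nat_eq _ two_pos
  choose v hv using hsqrt
  have hX₀tr : Transcendental k X₀ := by
    intro h
    exact hx ((isAlgebraic_algebraMap_iff (algebraMap K (AlgebraicClosure K)).injective).1 h)
  have hv0 : ∀ r : kbar k K, v r ≠ 0 := by
    intro r h0
    apply hX₀tr
    have h1 := hv r
    rw [h0, zero_pow two_ne_zero, eq_comm, sub_eq_zero] at h1
    rw [h1]
    exact (mem_algebraicClosure_iff).1 r.2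
  have hτF : ∀ z : kbar k K, IsAlgebraic F z → τ z = z := fun z hz => fix_algF hFO Q hτ hz
  have hξX₀ : ξ X₀ = X₀ := ξ.commutes x
  have hξY₀ : ξ Y₀ = Y₀ := ξ.commutes y
  have hsgn : ∀ r : kbar k K, ∃ e : ℤˣ, r ∈ R → ξ (v r) = (((e : ℤˣ) : ℤ) : AlgebraicClosure K) *
      v r := by
    intro r
    by_cases hr : r ∈ R
    · have h1 : ξ (v r) ^ 2 = v r ^ 2 := by
        rw [← map_pow, hv, map_sub, hξX₀, hξC, hτF r (hRF r hr)]
      rcases sq_eq_sq_iff_eq_or_eq_neg.1 h1 with h2 | h2
      · exact ⟨1, fun _ => by rw [h2]; simp⟩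
      · exact ⟨-1, fun _ => by rw [h2]; simp⟩
    · exact ⟨1, fun h => absurd h hr⟩
  choose ε hε using hsgn
  -- the parity
  obtain ⟨ℓ, hℓ⟩ := IsAlgClosed.exists_pow_nat_eq a₀ two_pos
  have hℓF : IsAlgebraic F ℓ := (IsIntegral.of_pow two_pos (by
    rw [hℓ, ha₀]; exact isIntegral_algebraMap)).isAlgebraic
  have hprodv : ∏ r ∈ R, ε r = -1 := by
    set pv := ∏ r ∈ R, v r with hpv
    have hpv0 : pv ≠ 0 := Finset.prod_ne_zero_iff.2 fun r _ => hv0 r
    have hℓ0 : (ℓ : AlgebraicClosure K) ≠ 0 := by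
      intro h0
      have h1 : ℓ = 0 := Subtype.ext h0
      rw [h1, zero_pow two_ne_zero] at hℓ
      exact ha₀0 hℓ.symm
    have h1 : ((w : AlgebraicClosure K) * Y₀) ^ 2 = ((ℓ : AlgebraicClosure K) * pv) ^ 2 := by
      rw [mul_pow, mul_pow]
      have h2 : (w : AlgebraicClosure K) ^ 2 = c₀ := congrArg Subtype.val hw
      have h3 : (ℓ : AlgebraicClosure K) ^ 2 = a₀ := congrArg Subtype.val hℓ
      rw [h2, h3, heq, hpv, ← Finset.prod_pow]
      congr 1
      exact Finset.prod_congr rfl fun r _ => (hv r).symm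
    have h2 : ξ ((w : AlgebraicClosure K) * Y₀) = -((w : AlgebraicClosure K) * Y₀) := by
      rw [map_mul, hξY₀, hξC, hτw]
      change (-(w : AlgebraicClosure K)) * Y₀ = _
      rw [neg_mul]
    have h3 : ξ ((ℓ : AlgebraicClosure K) * pv) =
        (((∏ r ∈ R, ε r : ℤˣ) : ℤ) : AlgebraicClosure K) * ((ℓ : AlgebraicClosure K) * pv) := by
      rw [map_mul, hξC, hτF ℓ hℓF, hpv, map_prod, Finset.prod_congr rfl (fun r hr => hε r hr),
        Finset.prod_mul_distrib, Units.coe_prod, Int.cast_prod]
      ring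
    have h4 : (((∏ r ∈ R, ε r : ℤˣ) : ℤ) : AlgebraicClosure K) * ((ℓ : AlgebraicClosure K) * pv) =
        -((ℓ : AlgebraicClosure K) * pv) := by
      rw [← h3]
      rcases sq_eq_sq_iff_eq_or_eq_neg.1 h1 with h5 | h5
      · rw [← h5, h2]
      · have h6 : (ℓ : AlgebraicClosure K) * pv = -((w : AlgebraicClosure K) * Y₀) := by
          rw [h5, neg_neg]
        rw [h6, map_neg, h2]
    rcases Int.units_eq_one_or (∏ r ∈ R, ε r) with h5 | h5
    · exfalso
      rw [h5, Units.val_one, Int.cast_one, one_mul] at h4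
      have h6 : 2 * ((ℓ : AlgebraicClosure K) * pv) = 0 := by linear_combination h4
      exact mul_ne_zero two_ne_zero (mul_ne_zero hℓ0 hpv0) h6
    · exact h5
  obtain ⟨r₀, hr₀, hfix⟩ := exists_fixed_point (R := R) (by rw [hRcard]; exact hdeg)
    (by rw [hRcard]; exact heven) hprodv (by
      intro r hinj hr h0 h1 h2 h3
      exact no_four hFG hFO hresF Q hA hres hx ha₀0 hc₀0 heq hv hv0 s hτ hξ hε r hinj hr
        (fun i => hRF _ (hr i)) h0 h1 h2 h3)
  obtain ⟨a, ha⟩ := mem_F_of_fixed hFO Q hA hresF (hRF r₀ hr₀) (by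
    intro γ hγ
    have hγR : ∀ r ∈ R, γ r ∈ R := by
      intro r hr
      rw [hmemR] at hr ⊢
      have h1 : aeval (((γ : kbar k K →ₐ[k] kbar k K).restrictScalars F) r) f = 0 := by
        rw [aeval_algHom_apply, hr, map_zero]
      exact h1
    exact hfix γ γ.injective hγR fun r hr r' hr' =>
      eps_inv ha₀0 hc₀0 heq hv s Q hres hτ hξ hε hv0 hγ hr hr' (hγR r hr) (hγR r' hr'))
  refine ⟨a, ?_⟩
  have h1 := (hmemR r₀).1 hr₀
  rw [← ha, aeval_algebraMap_apply] at h1
  have h2 := (map_eq_zero (algebraMap F (kbar k K))).1 h1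
  rwa [coe_aeval_eq_eval] at h2

end

end Pool.Agent.Helper91.Sect
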