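import Pool.Agent.Helper91.Section.Func4

/-!
# Functions normalised at infinity
-/

universe u

namespace Pool.Agent.Helper91.Sect

open Polynomial WeierstrassCurve WeierstrassCurve.Affine
open scoped Polynomial.Bivariate

section Mon

variable {F Ω : Type u} [Field F] [Field Ω] [Algebra F Ω] {V : ValuationSubring Ω}

/-- `z` has leading coefficient one with respect to `T` -/
def Mon (V : ValuationSubring Ω) (T z : Ω) : Prop := ∃ d : ℕ, V.valuation (z * T ^ d - 1) < 1

theorem one_mul_small {a b : Ω} (ha : V.valuation (a - 1) < 1) (hb : V.valuation (b - 1) < 1) :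
    V.valuation (a * b - 1) < 1 := by
  have hb1 : V.valuation b = 1 := by
    have h1 : b = (b - 1) + 1 := by ring
    rw [h1, Valuation.map_add_eq_of_lt_right _ (by rw [map_one]; exact hb), map_one]
  have h1 : a * b - 1 = (a - 1) * b + (b - 1) := by ring
  rw [h1]
  exact Valuation.map_add_lt _ (by rw [map_mul, hb1, mul_one]; exact ha) hb

theorem one_pow_small {a : Ω} (ha : V.valuation (a - 1) < 1) (n : ℕ) :
    V.valuation (a ^ n - 1) < 1 := by
  induction n with
  | zero => simp
  | succ n ih => rw [pow_succ]; exact one_mul_small ih ha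

theorem Mon.one {T : Ω} : Mon V T 1 := ⟨0, by simp⟩

theorem Mon.mul {T z z' : Ω} (h : Mon V T z) (h' : Mon V T z') : Mon V T (z * z') := by
  obtain ⟨d, hd⟩ := h
  obtain ⟨d', hd'⟩ := h'
  refine ⟨d + d', ?_⟩
  have h1 : z * z' * T ^ (d + d') = z * T ^ d * (z' * T ^ d') := by rw [pow_add]; ring
  rw [h1]
  exact one_mul_small hd hd'

theorem Mon.pow {T z : Ω} (h : Mon V T z) (n : ℕ) : Mon V T (z ^ n) := by
  induction n with
  | zero => rw [pow_zero]; exact Mon.one
  | succ n ih => rw [pow_succ]; exact ih.mul h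

theorem val_eq_one_of_small {a : Ω} (ha : V.valuation (a - 1) < 1) : V.valuation a = 1 := by
  have h1 : a = (a - 1) + 1 := by ring
  rw [h1, Valuation.map_add_eq_of_lt_right _ (by rw [map_one]; exact ha), map_one]

theorem Mon.unique (hV : TrivC F V) {T z : Ω} (hT : V.valuation T < 1) (hT0 : T ≠ 0) {c : F}
    (h : Mon V T z) (h' : Mon V T (z * algebraMap F Ω c)) : c = 1 := by
  obtain ⟨d, hd⟩ := h
  obtain ⟨d', hd'⟩ := h'
  have h1 := val_eq_one_of_small hd
  have h2 := val_eq_one_of_small hd'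
  have hc : c ≠ 0 := by
    rintro rfl
    rw [map_zero, mul_zero, zero_mul, map_zero] at h2
    exact zero_ne_one h2
  rw [map_mul, map_pow] at h1
  rw [map_mul, map_mul, hV c hc, mul_one, map_pow] at h2
  have hz0 : V.valuation z ≠ 0 := by
    intro h0
    rw [h0, zero_mul] at h1
    exact zero_ne_one h1
  have hpow : V.valuation T ^ d = V.valuation T ^ d' := by
    apply mul_left_cancel₀ hz0
    rw [h1, h2]
  have hdd : d = d' := by
    by_contra hne
    rcases lt_or_gt_of_ne hne with hlt | hlt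
    · exact absurd hpow (pow_lt_pow_right_of_lt_one₀ (zero_lt_iff.2 (by simpa using hT0)) hT hlt).ne'
    · exact absurd hpow (pow_lt_pow_right_of_lt_one₀ (zero_lt_iff.2 (by simpa using hT0)) hT hlt).ne
  subst hdd
  have h3 : algebraMap F Ω (c - 1) = (z * algebraMap F Ω c * T ^ d - 1) -
      algebraMap F Ω c * (z * T ^ d - 1) := by
    rw [map_sub, map_one]; ring
  by_contra hne
  have h4 : V.valuation (algebraMap F Ω (c - 1)) < 1 := by
    rw [h3]
    refine (Valuation.map_sub _ _ _).trans_lt (max_lt hd' ?_)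
    rw [map_mul, hV c hc, one_mul]
    exact hd
  rw [hV _ (sub_ne_zero.2 hne)] at h4
  exact lt_irrefl _ h4

end Mon

section MonR

variable {F : Type u} [Field F] {W : WeierstrassCurve.Affine F}

/-- the function `r` has leading coefficient one at infinity -/
def IsMonR (r : W.CoordinateRing) : Prop :=
  ∃ p q : F[X], r = p • (1 : W.CoordinateRing) + q • CoordinateRing.mk W Y ∧
    ((p.Monic ∧ (q = 0 ∨ 2 * q.natDegree + 3 < 2 * p.natDegree)) ∨
      (q.Monic ∧ 2 * p.natDegree < 2 * q.natDegree + 3))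

theorem isMonR_one : IsMonR (1 : W.CoordinateRing) :=
  ⟨1, 0, by simp, Or.inl ⟨monic_one, Or.inl rfl⟩⟩

theorem isMonR_XClass (c : F) : IsMonR (CoordinateRing.XClass W c) := by
  refine ⟨X - C c, 0, ?_, Or.inl ⟨monic_X_sub_C c, Or.inl rfl⟩⟩
  rw [zero_smul, add_zero, CoordinateRing.smul, mul_one, CoordinateRing.XClass]

theorem isMonR_YClass (a b c : F) :
    IsMonR (CoordinateRing.YClass W (linePolynomial a b c)) := by
  refine ⟨-linePolynomial a b c, 1, ?_, Or.inr ⟨monic_one, ?_⟩⟩
  · rw [one_smul, CoordinateRing.smul, mul_one, CoordinateRing.YClass, map_sub, C_neg, map_neg]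
    ring
  · rw [natDegree_neg, natDegree_one]
    have h1 : (linePolynomial a b c).natDegree ≤ 1 := by
      rw [linePolynomial]
      compute_degree
    omega

theorem exists_isMonR {r : W.CoordinateRing} (hr : r ≠ 0) :
    ∃ c : F, c ≠ 0 ∧ IsMonR (algebraMap F W.CoordinateRing c * r) := by
  obtain ⟨p, q, rfl⟩ := CoordinateRing.exists_smul_basis_eq r
  have hmul : ∀ c : F, algebraMap F W.CoordinateRing c *
      (p • (1 : W.CoordinateRing) + q • CoordinateRing.mk W Y) =
      (C c * p) • (1 : W.CoordinateRing) + (C c * q) • CoordinateRing.mk W Y := by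
    intro c
    have h1 : algebraMap F W.CoordinateRing c = CoordinateRing.mk W (C (C c)) := rfl
    rw [h1, CoordinateRing.smul, CoordinateRing.smul, CoordinateRing.smul, CoordinateRing.smul,
      C_mul, C_mul, map_mul, map_mul]
    ring
  by_cases hcase : q = 0 ∨ 2 * q.natDegree + 3 < 2 * p.natDegree
  · have hp0 : p ≠ 0 := by
      rintro rfl
      rcases hcase with h | h
      · rw [h] at hr
        apply hr; simp
      · rw [natDegree_zero] at h
        omega
    have hlc : p.leadingCoeff⁻¹ ≠ 0 := inv_ne_zero (leadingCoeff_ne_zero.2 hp0)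
    refine ⟨p.leadingCoeff⁻¹, hlc, C p.leadingCoeff⁻¹ * p, C p.leadingCoeff⁻¹ * q, hmul _,
      Or.inl ⟨?_, ?_⟩⟩
    · rw [mul_comm]; exact monic_mul_leadingCoeff_inv hp0
    · rcases hcase with h | h
      · left; rw [h, mul_zero]
      · right
        rw [natDegree_C_mul hlc, natDegree_C_mul hlc]; exact h
  · push Not at hcase
    obtain ⟨hq0, h⟩ := hcase
    have hlc : q.leadingCoeff⁻¹ ≠ 0 := inv_ne_zero (leadingCoeff_ne_zero.2 hq0)
    refine ⟨q.leadingCoeff⁻¹, hlc, C q.leadingCoeff⁻¹ * p, C q.leadingCoeff⁻¹ * q, hmul _,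
      Or.inr ⟨?_, ?_⟩⟩
    · rw [mul_comm]; exact monic_mul_leadingCoeff_inv hq0
    · rw [natDegree_C_mul hlc, natDegree_C_mul hlc]
      omega

end MonR

section EvMon

variable {F Ω : Type u} [Field F] [Field Ω] [Algebra F Ω] {W : WeierstrassCurve.Affine F}
  {e₁ e₂ e₃ : F} (hW : IsE W e₁ e₂ e₃) {x y : Ω}
    (h : y ^ 2 = (x - algebraMap F Ω e₁) * (x - algebraMap F Ω e₂) * (x - algebraMap F Ω e₃))
  {V : ValuationSubring Ω} (hV : TrivC F V) (hx : 1 < V.valuation x)

include hV hx in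
theorem val_poly {p : F[X]} (hp : p ≠ 0) :
    V.valuation (aeval x p) = V.valuation x ^ p.natDegree := by
  rw [aeval_eq_sum_range, Finset.sum_range_succ]
  have h1 : V.valuation (p.coeff p.natDegree • x ^ p.natDegree) =
      V.valuation x ^ p.natDegree := by
    have h2 : p.coeff p.natDegree ≠ 0 := leadingCoeff_ne_zero.2 hp
    rw [Algebra.smul_def, map_mul, hV _ h2, one_mul, map_pow]
  rw [Valuation.map_add_eq_of_lt_right, h1]
  rw [h1]
  refine Valuation.map_sum_lt _ (pow_ne_zero _ (zero_lt_one.trans hx).ne') fun i hi => ?_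
  rw [Algebra.smul_def, map_mul, map_pow]
  refine (mul_le_of_le_one_left' (hV.le _)).trans_lt ?_
  exact pow_lt_pow_right₀ hx (Finset.mem_range.1 hi)

include h hV hx in
theorem val_xt : V.valuation (x * (x / y) ^ 2 - 1) < 1 := by
  have hx0 : x ≠ 0 := by rintro rfl; simp at hx
  have hvx : V.valuation x ≠ 0 := (zero_lt_one.trans hx).ne'
  have hvy := val_y_sq h hV hx
  have hy0 : y ≠ 0 := by
    rintro rfl
    rw [map_zero, zero_pow two_ne_zero] at hvy
    exact pow_ne_zero 3 hvx hvy.symm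
  have h1 : x * (x / y) ^ 2 - 1 = (x ^ 3 - y ^ 2) / y ^ 2 := by
    field_simp
  have h2 : x ^ 3 - y ^ 2 = aeval x (C (e₁ + e₂ + e₃) * X ^ 2 -
      C (e₁ * e₂ + e₁ * e₃ + e₂ * e₃) * X + C (e₁ * e₂ * e₃)) := by
    rw [h]
    simp only [map_add, map_sub, map_mul, aeval_C, map_pow, aeval_X]
    ring
  rw [h1, map_div₀, map_pow, hvy, div_lt_one₀ (pow_pos (zero_lt_iff.2 hvx) 3), h2]
  by_cases h0 : (C (e₁ + e₂ + e₃) * X ^ 2 -
      C (e₁ * e₂ + e₁ * e₃ + e₂ * e₃) * X + C (e₁ * e₂ * e₃) : F[X]) = 0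
  · rw [h0, map_zero, map_zero]
    exact pow_pos (zero_lt_iff.2 hvx) 3
  · rw [val_poly hV hx h0]
    refine pow_lt_pow_right₀ hx ?_
    have : (C (e₁ + e₂ + e₃) * X ^ 2 -
      C (e₁ * e₂ + e₁ * e₃ + e₂ * e₃) * X + C (e₁ * e₂ * e₃) : F[X]).natDegree ≤ 2 := by
      compute_degree
    omega

include h hV hx in
theorem val_monic_poly {p : F[X]} (hp : p.Monic) :
    V.valuation (aeval x p * (x / y) ^ (2 * p.natDegree) - 1) < 1 := by
  have hx0 : x ≠ 0 := by rintro rfl; simp at hx
  have hvx : V.valuation x ≠ 0 := (zero_lt_one.trans hx).ne'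
  have hxt := val_xt h hV hx
  have hvt : V.valuation ((x / y) ^ 2) * V.valuation x = 1 := by
    rw [← map_mul, mul_comm]; exact val_eq_one_of_small hxt
  set D := p.natDegree with hD
  rw [aeval_eq_sum_range, Finset.sum_range_succ, ← hD]
  have h1 : p.coeff D = 1 := hp
  rw [h1, one_smul, add_mul]
  have h2 : x ^ D * (x / y) ^ (2 * D) = (x * (x / y) ^ 2) ^ D := by
    rw [mul_pow, ← pow_mul]
  rw [h2, add_sub_assoc]
  refine Valuation.map_add_lt _ ?_ (one_pow_small hxt D)
  rw [Finset.sum_mul]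
  refine Valuation.map_sum_lt _ one_ne_zero fun i hi => ?_
  have hi' := Finset.mem_range.1 hi
  rw [Algebra.smul_def, map_mul, map_mul, mul_assoc]
  refine (mul_le_of_le_one_left' (hV.le _)).trans_lt ?_
  have hA0 : V.valuation ((x / y) ^ 2) ≠ 0 := by
    intro h0
    rw [h0, zero_mul] at hvt
    exact zero_ne_one hvt
  have h4 : V.valuation ((x / y) ^ (2 * D)) = V.valuation ((x / y) ^ 2) ^ D := by
    rw [pow_mul, map_pow]
  have h5 : V.valuation x ^ D * V.valuation ((x / y) ^ 2) ^ D = 1 := by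
    rw [← mul_pow, mul_comm, hvt, one_pow]
  rw [h4, map_pow V.valuation x i, ← h5]
  exact mul_lt_mul_of_pos_right (pow_lt_pow_right₀ hx hi') (pow_pos (zero_lt_iff.2 hA0) _)

include hV hx in
theorem IsMonR.mon {r : W.CoordinateRing} (hr : IsMonR r) : Mon V (x / y) (evR hW h r) := by
  obtain ⟨p, q, rfl, hcase⟩ := hr
  have hx0 : x ≠ 0 := by rintro rfl; simp at hx
  have hvx : V.valuation x ≠ 0 := (zero_lt_one.trans hx).ne'
  have hvy := val_y_sq h hV hx
  have hy0 : y ≠ 0 := by
    rintro rfl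
    rw [map_zero, zero_pow two_ne_zero] at hvy
    exact pow_ne_zero 3 hvx hvy.symm
  have hxt := val_xt h hV hx
  -- values in terms of `s = v (y / x)`
  set t := V.valuation (x / y) with ht
  have ht0 : t ≠ 0 := by
    rw [ht]
    simpa using ⟨hx0, hy0⟩
  have hs2 : V.valuation x * t ^ 2 = 1 := by
    rw [ht, ← map_pow, ← map_mul]; exact val_eq_one_of_small hxt
  have ht1 : t < 1 := by
    by_contra hcon
    push Not at hcon
    have h1 : 1 < V.valuation x * t ^ 2 := lt_of_lt_of_le hx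
      (le_mul_of_one_le_right' (one_le_pow₀ hcon))
    rw [hs2] at h1
    exact lt_irrefl _ h1
  have hyt : y * (x / y) ^ 3 = x * (x / y) ^ 2 := by field_simp
  have hs3 : V.valuation y * t ^ 3 = 1 := by
    rw [ht, ← map_pow, ← map_mul, hyt, map_mul, map_pow, ← ht]; exact hs2
  rw [evR_basis]
  have hsmall : ∀ {a b : ℕ}, a < b → ∀ {z : Ω}, V.valuation z * t ^ a = 1 →
      V.valuation (z * (x / y) ^ b) < 1 := by
    intro a b hab z hz
    rw [map_mul, map_pow, ← ht]
    have h1 : t ^ b = t ^ a * t ^ (b - a) := by rw [← pow_add]; congr 1; omega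
    rw [h1, ← mul_assoc, hz, one_mul]
    exact pow_lt_one₀ zero_le ht1 (by omega)
  rcases hcase with ⟨hp, hq⟩ | ⟨hq, hp⟩
  · refine ⟨2 * p.natDegree, ?_⟩
    have h1 : (aeval x p + aeval x q * y) * (x / y) ^ (2 * p.natDegree) - 1 =
        (aeval x p * (x / y) ^ (2 * p.natDegree) - 1) +
          aeval x q * y * (x / y) ^ (2 * p.natDegree) := by ring
    rw [h1]
    refine Valuation.map_add_lt _ (val_monic_poly h hV hx hp) ?_
    by_cases hq0 : q = 0
    · rw [hq0]; simp
    · have hlt := hq.resolve_left hq0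
      refine hsmall hlt ?_
      rw [map_mul, val_poly hV hx hq0, pow_add, pow_mul]
      calc V.valuation x ^ q.natDegree * V.valuation y * ((t ^ 2) ^ q.natDegree * t ^ 3)
          = (V.valuation x * t ^ 2) ^ q.natDegree * (V.valuation y * t ^ 3) := by
            rw [mul_pow]; exact mul_mul_mul_comm _ _ _ _
        _ = 1 := by rw [hs2, hs3, one_pow, one_mul]
  · refine ⟨2 * q.natDegree + 3, ?_⟩
    have h1 : (aeval x p + aeval x q * y) * (x / y) ^ (2 * q.natDegree + 3) - 1 =
        ((aeval x q * (x / y) ^ (2 * q.natDegree)) * (x * (x / y) ^ 2) - 1) +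
          aeval x p * (x / y) ^ (2 * q.natDegree + 3) := by
      rw [← hyt, pow_add]; ring
    rw [h1]
    refine Valuation.map_add_lt _ (one_mul_small (val_monic_poly h hV hx hq) hxt) ?_
    by_cases hp0 : p = 0
    · rw [hp0]; simp
    · refine hsmall hp ?_
      rw [val_poly hV hx hp0, pow_mul, ← mul_pow, hs2, one_pow]

include hW h hV hx in
theorem val_T_lt : V.valuation (x / y) < 1 ∧ x / y ≠ 0 := by
  have hx0 : x ≠ 0 := by rintro rfl; simp at hx
  have hvx : V.valuation x ≠ 0 := (zero_lt_one.trans hx).ne'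
  have hvy := val_y_sq h hV hx
  have hy0 : y ≠ 0 := by
    rintro rfl
    rw [map_zero, zero_pow two_ne_zero] at hvy
    exact pow_ne_zero 3 hvx hvy.symm
  refine ⟨?_, div_ne_zero hx0 hy0⟩
  rw [map_div₀, div_lt_one₀ (zero_lt_iff.2 (by simpa using hy0))]
  exact val_x_lt_y h hV hx

end EvMon

/-- existence of a place at infinity -/
theorem exists_inf_place {F Ω : Type u} [Field F] [Field Ω] [Algebra F Ω] {x : Ω}
    (hx : Transcendental F x) : ∃ V : ValuationSubring Ω, TrivC F V ∧ 1 < V.valuation x := by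
  classical
  have hx0 : x ≠ 0 := by
    rintro rfl
    exact hx isAlgebraic_zero
  let A : Subalgebra F Ω := Algebra.adjoin F {x⁻¹}
  let t : A.toSubring := ⟨x⁻¹, Algebra.subset_adjoin rfl⟩
  have hI : Ideal.span {t} ≠ ⊤ := by
    intro htop
    have h1 : (1 : A.toSubring) ∈ Ideal.span {t} := htop ▸ Submodule.mem_top
    obtain ⟨c, hc⟩ := Ideal.mem_span_singleton'.1 h1
    have h2 : (c : Ω) * x⁻¹ = 1 := congrArg Subtype.val hc
    have h3 : (c : Ω) = x := by
      field_simp at h2
      exact h2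
    have h4 : (c : Ω) ∈ Algebra.adjoin F {x⁻¹} := c.2
    rw [h3, Algebra.adjoin_singleton_eq_range_aeval] at h4
    obtain ⟨p, hp⟩ := h4
    -- `x = p(1/x)` gives an algebraic relation
    have h5 : aeval x⁻¹ (X * p - 1) = 0 := by
      rw [map_sub, map_mul, aeval_X, map_one]
      have h6 : aeval x⁻¹ p = x := hp
      rw [h6, inv_mul_cancel₀ hx0, sub_self]
    have h6 : (X * p - 1 : F[X]) ≠ 0 := by
      intro h0
      have h7 := congrArg (eval 0) h0
      simp at h7
    have h7 : IsAlgebraic F x⁻¹ := ⟨_, h6, h5⟩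
    exact hx (by simpa using h7.inv)
  obtain ⟨V, hV, hV'⟩ := Ideal.image_subset_nonunits_valuationSubring (A := A.toSubring) _ hI
  have hF : ∀ c : F, algebraMap F Ω c ∈ V := fun c => hV (A.algebraMap_mem c)
  refine ⟨V, fun c hc => ?_, ?_⟩
  · have h1 : V.valuation (algebraMap F Ω c) ≤ 1 := (V.valuation_le_one_iff _).2 (hF c)
    have h2 : V.valuation (algebraMap F Ω c⁻¹) ≤ 1 := (V.valuation_le_one_iff _).2 (hF c⁻¹)
    rw [map_inv₀, map_inv₀] at h2
    have h3 : V.valuation (algebraMap F Ω c) ≠ 0 := by simpa using hc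
    exact le_antisymm h1 ((inv_le_one₀ (zero_lt_iff.2 h3)).1 h2)
  · have h1 : (t : Ω) ∈ V.nonunits := hV' ⟨t, Ideal.mem_span_singleton_self t, rfl⟩
    rw [ValuationSubring.mem_nonunits_iff] at h1
    have h2 : V.valuation x⁻¹ < 1 := h1
    rw [map_inv₀] at h2
    have h3 : V.valuation x ≠ 0 := by simpa using hx0
    exact (inv_lt_one₀ (zero_lt_iff.2 h3)).1 h2

end Pool.Agent.Helper91.Sect
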