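import Pool.Agent.Helper91.Section.RootKur

/-!
# There are no two plus and two minus signs
-/

universe u

namespace Pool.Agent.Helper91.Sect

open Polynomial

section Abs

variable {F k K L : Type u} [Field F] [Field k] [Field K] [Field L] [Algebra k K]
  [CharZero F] [CharZero k] [Algebra F L] [IsGalois F L] [IsAlgClosed L]
  [Algebra L (AlgebraicClosure K)]
  (hFG : (⊤ : IntermediateField ℚ F).FG) {O : ValuationSubring k}
  (Q : IC O (kbar k K)) [hQ : Q.IsPrime]
  (hres : ∀ n : ℕ, n ≠ 0 → (locW Q).valuation (n : kbar k K) = 1)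
  (hL : ∀ z : L, IsAlgebraic k (algebraMap L (AlgebraicClosure K) z))
  (hlift : ∀ γ : L ≃ₐ[F] L, ∃ σ : Gk k K, InD Q σ ∧
    ∀ (z : L) (z' : kbar k K), (z' : AlgebraicClosure K) = algebraMap L (AlgebraicClosure K) z →
      ((σ z' : kbar k K) : AlgebraicClosure K) = algebraMap L (AlgebraicClosure K) (γ z))
  {x y : K} (hx : Transcendental k x)
  {a₀ c₀ : kbar k K} (ha₀ : a₀ ≠ 0) (hc₀ : c₀ ≠ 0) {R : Finset (kbar k K)}
  (heq : (c₀ : AlgebraicClosure K) * (algebraMap K (AlgebraicClosure K) y) ^ 2 =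
    a₀ * ∏ r ∈ R, (algebraMap K (AlgebraicClosure K) x - (r : AlgebraicClosure K)))
  {v : kbar k K → AlgebraicClosure K}
  (hv : ∀ r : kbar k K, v r ^ 2 = algebraMap K (AlgebraicClosure K) x - (r : AlgebraicClosure K))
  (hv0 : ∀ r : kbar k K, v r ≠ 0)
  (s : GaloisSection k K)
  {τ : Gk k K} (hτ : InI Q τ) (hτζ : ∀ (n : ℕ) (ζ : kbar k K), 0 < n → ζ ^ n = 1 → τ ζ = ζ)
  {ξ : AlgebraicClosure K ≃ₐ[K] AlgebraicClosure K}
  (hξ : ∀ w : Kur k K, ξ w = s.toHom τ w)
  (hξL : ∀ z : L, ξ (algebraMap L (AlgebraicClosure K) z) = algebraMap L (AlgebraicClosure K) z)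
  {ε : kbar k K → ℤˣ}
  (hε : ∀ r ∈ R, ξ (v r) = (((ε r : ℤˣ) : ℤ) : AlgebraicClosure K) * v r)

include hFG hres hL hlift hx ha₀ hc₀ heq hv hv0 hτ hτζ hξ hξL hε

theorem no_four_abs (r : Fin 4 → kbar k K) (hr : ∀ i, r i ∈ R) (ρ : Fin 4 → L)
    (hinj : Function.Injective ρ)
    (hρ : ∀ i, algebraMap L (AlgebraicClosure K) (ρ i) = ((r i : kbar k K) : AlgebraicClosure K))
    (h0 : ε (r 0) = 1) (h1 : ε (r 1) = 1)
    (h2 : ε (r 2) = -1) (h3 : ε (r 3) = -1) : False := by
  classical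
  have hcz : CharZero (AlgebraicClosure K) :=
    charZero_of_injective_algebraMap (algebraMap k (AlgebraicClosure K)).injective
  have hczL : CharZero L := charZero_of_injective_algebraMap (algebraMap F L).injective
  let S : IntermediateField F L := IntermediateField.adjoin F (Set.range ρ)
  have hSfd : FiniteDimensional F S :=
    IntermediateField.finiteDimensional_adjoin fun z _ => Algebra.IsIntegral.isIntegral z
  have hSP : HasPlaces S := HasPlaces.algebraic (hasPlaces_of_fg hFG)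
  let t : Fin 4 → S := fun i => ⟨ρ i, IntermediateField.subset_adjoin F _ ⟨i, rfl⟩⟩
  have htinj : Function.Injective t := fun i j hij => hinj (congrArg Subtype.val hij)
  have htne : ∀ i j, i ≠ j → t i - t j ≠ 0 := fun i j hij => sub_ne_zero.2 fun h => hij (htinj h)
  obtain ⟨δ, hδ⟩ : ∃ δ : S, δ = (t 3 - t 0) * (t 3 - t 1) * (t 3 - t 2) := ⟨_, rfl⟩
  have hδ0 : δ ≠ 0 := by
    rw [hδ]
    exact mul_ne_zero (mul_ne_zero (htne 3 0 (by decide)) (htne 3 1 (by decide)))
      (htne 3 2 (by decide))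
  obtain ⟨e, he⟩ : ∃ e : Fin 4 → S, ∀ i, e i = -δ / (t 3 - t i) := ⟨_, fun _ => rfl⟩
  have hene : ∀ i, i ≠ 3 → e i ≠ 0 := fun i hi => by
    rw [he]
    exact div_ne_zero (neg_ne_zero.2 hδ0) (htne 3 i hi.symm)
  have heij : ∀ i j, i ≠ 3 → j ≠ 3 → i ≠ j → e i ≠ e j := by
    intro i j hi hj hij h
    have h4 : e i - e j = -δ * (t i - t j) / ((t 3 - t i) * (t 3 - t j)) := by
      have h5 := htne 3 i hi.symm
      have h6 := htne 3 j hj.symm
      rw [he, he]
      field_simp
      ring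
    have h5 : e i - e j ≠ 0 := by
      rw [h4]
      exact div_ne_zero (mul_ne_zero (neg_ne_zero.2 hδ0) (htne i j hij))
        (mul_ne_zero (htne 3 i hi.symm) (htne 3 j hj.symm))
    exact h5 (sub_eq_zero.2 h)
  have heij' : ∀ i j, i ≠ 3 → j ≠ 3 → i ≠ j → algebraMap S L (e i) ≠ algebraMap S L (e j) :=
    fun i j hi hj hij h => heij i j hi hj hij ((algebraMap S L).injective h)
  obtain ⟨γ, hγ⟩ := elliptic_rigid (S := S) (L := L)
    (Ω := AlgebraicClosure K) hSP two_ne_zero
    (hene 0 (by decide)) (hene 1 (by decide)) (hene 2 (by decide))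
    (heij 0 1 (by decide) (by decide) (by decide)) (heij 0 2 (by decide) (by decide) (by decide))
    (heij 1 2 (by decide) (by decide) (by decide))
  obtain ⟨σ, hσD, hσ⟩ := hlift (γ.restrictScalars F)
  have hσr : ∀ i, σ (r i) = r i := by
    intro i
    have h4 := hσ (ρ i) (r i) (hρ i).symm
    have h6 : γ (ρ i) = ρ i := γ.commutes (t i)
    apply Subtype.ext
    rw [h4, ← hρ]
    exact congrArg _ h6
  -- the product of the four square roots
  have hV12 := prod_mem_Kur ha₀ hc₀ heq hv (hr 0) (hr 1)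
  have hV34 := prod_mem_Kur ha₀ hc₀ heq hv (hr 2) (hr 3)
  obtain ⟨V, hVcoe⟩ : ∃ V : Kur k K, (V : AlgebraicClosure K) =
      v (r 0) * v (r 1) * (v (r 2) * v (r 3)) :=
    ⟨⟨v (r 0) * v (r 1), hV12⟩ * ⟨v (r 2) * v (r 3), hV34⟩, rfl⟩
  set X₀ := algebraMap K (AlgebraicClosure K) x with hX₀
  have hXr : ∀ i, X₀ - ((r i : kbar k K) : AlgebraicClosure K) ≠ 0 := by
    intro i
    rw [← hv]
    exact pow_ne_zero 2 (hv0 _)
  have hξX₀ : ξ X₀ = X₀ := ξ.commutes x
  -- extension of the square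
  obtain ⟨ρ', hρ'⟩ := exists_ext s (σ * σ)
  have hρ'C : ∀ z : kbar k K, ρ' (z : AlgebraicClosure K) = (σ * σ) z := fun z =>
    ext_const s hρ' z
  have hρ'L : ∀ z : L, ρ' (algebraMap L (AlgebraicClosure K) z) =
        algebraMap L (AlgebraicClosure K) (γ (γ z)) := by
    intro z
    have h4 := hρ'C ⟨algebraMap L (AlgebraicClosure K) z, mem_algebraicClosure_iff.2 (hL z)⟩
    have h5 := hσ z ⟨algebraMap L (AlgebraicClosure K) z, mem_algebraicClosure_iff.2 (hL z)⟩ rfl
    have h6 := hσ (γ z) (σ ⟨algebraMap L (AlgebraicClosure K) z,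
      mem_algebraicClosure_iff.2 (hL z)⟩) h5
    exact h4.trans h6
  have hρ'X₀ : ρ' X₀ = X₀ := ρ'.commutes x
  -- the product of square roots is fixed
  have hξV : ξ V = (V : AlgebraicClosure K) := by
    rw [hVcoe, map_mul, map_mul, map_mul, hε _ (hr 0), hε _ (hr 1), hε _ (hr 2), hε _ (hr 3),
      h0, h1, h2, h3]
    push_cast
    ring
  have hVsq : V ^ 2 = (algebraMap K (Kur k K) x - toKur k K (r 0)) *
      (algebraMap K (Kur k K) x - toKur k K (r 1)) *
      ((algebraMap K (Kur k K) x - toKur k K (r 2)) *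
      (algebraMap K (Kur k K) x - toKur k K (r 3))) := by
    apply Subtype.ext
    change (V : AlgebraicClosure K) ^ 2 = (X₀ - ((r 0 : kbar k K) : AlgebraicClosure K)) *
      (X₀ - ((r 1 : kbar k K) : AlgebraicClosure K)) *
      ((X₀ - ((r 2 : kbar k K) : AlgebraicClosure K)) *
      (X₀ - ((r 3 : kbar k K) : AlgebraicClosure K)))
    rw [hVcoe, mul_pow, mul_pow, mul_pow, hv, hv, hv, hv]
  have hσV : s.toHom σ V = V ∨ s.toHom σ V = -V := by
    rw [← sq_eq_sq_iff_eq_or_eq_neg, ← map_pow, hVsq]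
    simp only [map_mul, map_sub, section_toKur, hσr, AlgEquiv.commutes]
  have hρ'V : ρ' V = (V : AlgebraicClosure K) := by
    rw [hρ', map_mul s.toHom]
    change ((s.toHom σ (s.toHom σ V) : Kur k K) : AlgebraicClosure K) = V
    rcases hσV with h4 | h4
    · rw [h4, h4]
    · rw [h4, map_neg, h4, neg_neg]
  -- the elliptic curve
  obtain ⟨D, hD⟩ : ∃ D : AlgebraicClosure K, D = algebraMap L (AlgebraicClosure K)
      (algebraMap S L δ) := ⟨_, rfl⟩
  have hcoe : ∀ i, algebraMap L (AlgebraicClosure K) (algebraMap S L (t i)) =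
      ((r i : kbar k K) : AlgebraicClosure K) := fun i => hρ i
  have hD' : D = (((r 3 : kbar k K) : AlgebraicClosure K) - ((r 0 : kbar k K) : AlgebraicClosure K))
      * (((r 3 : kbar k K) : AlgebraicClosure K) - ((r 1 : kbar k K) : AlgebraicClosure K))
      * (((r 3 : kbar k K) : AlgebraicClosure K) - ((r 2 : kbar k K) : AlgebraicClosure K)) := by
    rw [hD, hδ]
    simp only [map_mul, map_sub, hcoe]
  have hecoe : ∀ i, algebraMap L (AlgebraicClosure K) (algebraMap S L (e i)) =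
      -D / (((r 3 : kbar k K) : AlgebraicClosure K) - ((r i : kbar k K) : AlgebraicClosure K)) := by
    intro i
    rw [he, map_div₀, map_div₀, map_neg, map_neg, map_sub, map_sub, hcoe, hcoe, hD]
  have hrne : ∀ i, i ≠ 3 → ((r 3 : kbar k K) : AlgebraicClosure K) -
      ((r i : kbar k K) : AlgebraicClosure K) ≠ 0 := by
    intro i hi h4
    rw [← hρ, ← hρ] at h4
    exact hi (hinj ((algebraMap L (AlgebraicClosure K)).injective (sub_eq_zero.1 h4))).symm
  have hD0 : D ≠ 0 := by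
    rw [hD']
    exact mul_ne_zero (mul_ne_zero (hrne 0 (by decide)) (hrne 1 (by decide)))
      (hrne 2 (by decide))
  obtain ⟨X, hX⟩ : ∃ X : AlgebraicClosure K, X = D / (X₀ - ((r 3 : kbar k K) : AlgebraicClosure K))
    := ⟨_, rfl⟩
  obtain ⟨Y, hY⟩ : ∃ Y : AlgebraicClosure K,
    Y = D * V / (X₀ - ((r 3 : kbar k K) : AlgebraicClosure K)) ^ 2 := ⟨_, rfl⟩
  have hVsq' : (V : AlgebraicClosure K) ^ 2 = (X₀ - ((r 0 : kbar k K) : AlgebraicClosure K)) *
      (X₀ - ((r 1 : kbar k K) : AlgebraicClosure K)) *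
      ((X₀ - ((r 2 : kbar k K) : AlgebraicClosure K)) *
      (X₀ - ((r 3 : kbar k K) : AlgebraicClosure K))) := by
    rw [hVcoe, mul_pow, mul_pow, mul_pow, hv, hv, hv, hv]
  have hXe : ∀ i, i ≠ 3 → X - -D / (((r 3 : kbar k K) : AlgebraicClosure K) -
      ((r i : kbar k K) : AlgebraicClosure K)) =
      D / (((r 3 : kbar k K) : AlgebraicClosure K) - ((r i : kbar k K) : AlgebraicClosure K)) *
      ((X₀ - ((r i : kbar k K) : AlgebraicClosure K)) /
        (X₀ - ((r 3 : kbar k K) : AlgebraicClosure K))) := by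
    intro i hi
    have h4 := hrne i hi
    have h5 := hXr 3
    rw [hX]
    field_simp
    ring
  have h : Y ^ 2 = (X - algebraMap L (AlgebraicClosure K) (algebraMap S L (e 0))) *
      (X - algebraMap L (AlgebraicClosure K) (algebraMap S L (e 1))) *
      (X - algebraMap L (AlgebraicClosure K) (algebraMap S L (e 2))) := by
    rw [hecoe, hecoe, hecoe, hXe 0 (by decide), hXe 1 (by decide), hXe 2 (by decide), hY, div_pow,
      mul_pow, hVsq']
    have h4 := hrne 0 (by decide)
    have h5 := hrne 1 (by decide)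
    have h6 := hrne 2 (by decide)
    have h7 := hXr 3
    field_simp
    rw [hD']
    ring
  -- transcendence
  have halgC : ∀ z : kbar k K, IsAlgebraic k (z : AlgebraicClosure K) := fun z =>
    (mem_algebraicClosure_iff).1 z.2
  have hDalg : IsAlgebraic k D := by rw [hD]; exact hL _
  have htr : Transcendental L X := by
    intro halg
    have h5 : IsAlgebraic k X := by
      -- `X` is algebraic over the constants
      let j : L →+* kbar k K :=
        { toFun := fun z => ⟨algebraMap L (AlgebraicClosure K) z, mem_algebraicClosure_iff.2 (hL z)⟩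
          map_one' := Subtype.ext (map_one _)
          map_mul' := fun a b => Subtype.ext (map_mul _ a b)
          map_zero' := Subtype.ext (map_zero _)
          map_add' := fun a b => Subtype.ext (map_add _ a b) }
      obtain ⟨p, hp, hpX⟩ := halg
      have h6 : IsAlgebraic (kbar k K) X := by
        refine ⟨p.map j, (Polynomial.map_ne_zero_iff j.injective).2 hp, ?_⟩
        rw [aeval_def, eval₂_map]
        exact hpX
      exact h6.restrictScalars k
    have h6 : X₀ = ((r 3 : kbar k K) : AlgebraicClosure K) + D / X := by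
      have h7 := hXr 3
      rw [hX]
      field_simp
      ring
    have h8 : IsAlgebraic k X₀ := by
      rw [h6]
      exact (halgC _).add (hDalg.mul h5.inv)
    exact hx ((isAlgebraic_algebraMap_iff (algebraMap K (AlgebraicClosure K)).injective).1 h8)
  have hξC' : ∀ i, ξ ((r i : kbar k K) : AlgebraicClosure K) =
      ((r i : kbar k K) : AlgebraicClosure K) := by
    intro i
    rw [← hρ]
    exact hξL (ρ i)
  have hρ'r : ∀ i, ρ' ((r i : kbar k K) : AlgebraicClosure K) =
      ((r i : kbar k K) : AlgebraicClosure K) := by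
    intro i
    rw [hρ'C]
    change ((σ (σ (r i)) : kbar k K) : AlgebraicClosure K) = _
    rw [hσr, hσr]
  have hξD : ξ D = D := by rw [hD, hξL]
  have hρ'D : ρ' D = D := by
    rw [hD']
    simp only [map_mul, map_sub, hρ'r]
  have hξX : ξ X = X := by rw [hX, map_div₀, map_sub, hξD, hξX₀, hξC']
  have hξY : ξ Y = Y := by rw [hY, map_div₀, map_pow, map_mul, map_sub, hξD, hξX₀, hξC', hξV]
  have hρ'X : ρ' X = X := by rw [hX, map_div₀, map_sub, hρ'D, hρ'X₀, hρ'r]
  have hρ'Y : ρ' Y = Y := by rw [hY, map_div₀, map_pow, map_mul, map_sub, hρ'D, hρ'X₀, hρ'r, hρ'V]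
  have hX₀K : X₀ ∈ Kur k K := (Kur k K).algebraMap_mem x
  have hDK : D ∈ Kur k K := algebraic_mem_Kur hDalg
  have hXK : X ∈ Kur k K := by
    rw [hX]
    exact div_mem hDK (sub_mem hX₀K (kbar_mem_Kur _))
  have hYK : Y ∈ Kur k K := by
    rw [hY]
    exact div_mem (mul_mem hDK V.2) (pow_mem (sub_mem hX₀K (kbar_mem_Kur _)) 2)
  have hE := isE_baseChange (F := L) (e 0) (e 1) (e 2)
  -- the two-torsion point
  obtain ⟨κ, hκ⟩ := IsAlgClosed.exists_pow_nat_eq
    (algebraMap S L (δ / (t 3 - t 0))) two_pos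
  obtain ⟨g₁, hg₁⟩ : ∃ g₁ : AlgebraicClosure K, g₁ = algebraMap L (AlgebraicClosure K) κ *
      (v (r 0) * v (r 3) / (X₀ - ((r 3 : kbar k K) : AlgebraicClosure K))) := ⟨_, rfl⟩
  have hg₁sq : g₁ ^ 2 = X - algebraMap L (AlgebraicClosure K) (algebraMap S L (e 0)) := by
    rw [hecoe, hXe 0 (by decide), hg₁, mul_pow, ← map_pow, hκ, div_pow, mul_pow, hv, hv, map_div₀,
      map_sub, map_div₀, map_sub, hcoe, hcoe, ← hD]
    have h4 := hXr 3
    have h5 := hrne 0 (by decide)
    field_simp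
  obtain ⟨P, hP, hPg⟩ := exists_root_two hE h two_ne_zero
    (heij' 0 1 (by decide) (by decide) (by decide)) (heij' 0 2 (by decide) (by decide) (by decide))
    (heij' 1 2 (by decide) (by decide) (by decide)) hg₁sq
  have hgen : ∀ P g, RootAt hE h P g → ξ (ρ' g) = ξ g / g * ρ' g := by
    intro P g hg
    have hgK := root_mem_Kur hL hE two_ne_zero
      (heij' 0 1 (by decide) (by decide) (by decide))
      (heij' 0 2 (by decide) (by decide) (by decide))
      (heij' 1 2 (by decide) (by decide) (by decide)) h hXK hYK hg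
    have hg0 := hg.ne_zero hE h htr
    obtain ⟨n, hn0, hn, r', hr', hgr⟩ := hg
    refine root_char s Q hres (hσD.mul hσD) hτ hξ hρ' hgK hg0 hn0 ?_ (fun ζ hζ => hτζ n ζ hn0 hζ)
    rw [hgr]
    exact evR_fixed hE h (ξ : AlgebraicClosure K →+* AlgebraicClosure K) hξL hξX hξY r'
  have hfin := hγ h htr (ξ : AlgebraicClosure K →+* AlgebraicClosure K)
    (ρ' : AlgebraicClosure K →+* AlgebraicClosure K) hξL hξX hξY hρ'L hρ'X hρ'Y hgen P hP g₁ hPg
  have hg₁0 : g₁ ≠ 0 := hPg.ne_zero hE h htr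
  have hneg : ξ g₁ = -g₁ := by
    rw [hg₁, map_mul, map_div₀, map_mul, map_sub, hξL, hξX₀, hξC', hε _ (hr 0), hε _ (hr 3), h0, h3]
    push_cast
    ring
  have h4 : ξ g₁ = g₁ := hfin
  rw [hneg] at h4
  have h5 : 2 * g₁ = 0 := by linear_combination -h4
  exact hg₁0 ((mul_eq_zero.1 h5).resolve_left two_ne_zero)

end Abs

section

variable {F k K : Type u} [Field F] [Field k] [Field K] [Algebra F k] [Algebra k K]
  [Algebra F (kbar k K)] [IsScalarTower F k (kbar k K)]

variable [CharZero k]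

/-- constants algebraic over `F` are fixed by inertia -/
theorem fix_algF {O : ValuationSubring k} (hFO : ∀ a : F, algebraMap F k a ∈ O)
    (Q : IC O (kbar k K)) [hQ : Q.IsPrime] {τ : Gk k K} (hτ : InI Q τ) {z : kbar k K}
    (hz : IsAlgebraic F z) : τ z = z := by
  refine eq_of_cong_algF hFO Q ?_ hz ?_
  · exact hz.algHom ((τ : kbar k K →ₐ[k] kbar k K).restrictScalars F)
  · exact val_inertia Q hτ (coeB_le Q ⟨z, integral_of_algF hFO hz⟩)

variable [CharZero F] (hFG : (⊤ : IntermediateField ℚ F).FG) {O : ValuationSubring k}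
  (hFO : ∀ a : F, algebraMap F k a ∈ O)
  (hresF : ∀ z ∈ O, ∃ a : F, O.valuation (z - algebraMap F k a) < 1)
  (Q : IC O (kbar k K)) [hQ : Q.IsPrime] (hA : Above Q)
  (hres : ∀ n : ℕ, n ≠ 0 → (locW Q).valuation (n : kbar k K) = 1)
  {x y : K} (hx : Transcendental k x)
  {a₀ c₀ : kbar k K} (ha₀ : a₀ ≠ 0) (hc₀ : c₀ ≠ 0) {R : Finset (kbar k K)}
  (heq : (c₀ : AlgebraicClosure K) * (algebraMap K (AlgebraicClosure K) y) ^ 2 =
    a₀ * ∏ r ∈ R, (algebraMap K (AlgebraicClosure K) x - (r : AlgebraicClosure K)))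
  {v : kbar k K → AlgebraicClosure K}
  (hv : ∀ r : kbar k K, v r ^ 2 = algebraMap K (AlgebraicClosure K) x - (r : AlgebraicClosure K))
  (hv0 : ∀ r : kbar k K, v r ≠ 0)
  (s : GaloisSection k K)
  {τ : Gk k K} (hτ : InI Q τ) {ξ : AlgebraicClosure K ≃ₐ[K] AlgebraicClosure K}
  (hξ : ∀ w : Kur k K, ξ w = s.toHom τ w) {ε : kbar k K → ℤˣ}
  (hε : ∀ r ∈ R, ξ (v r) = (((ε r : ℤˣ) : ℤ) : AlgebraicClosure K) * v r)

include hFG hFO hresF hA hres hx ha₀ hc₀ heq hv hv0 hτ hξ hε

theorem no_four (r : Fin 4 → kbar k K) (hinj : Function.Injective r) (hr : ∀ i, r i ∈ R)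
    (hrF : ∀ i, IsAlgebraic F (r i)) (h0 : ε (r 0) = 1) (h1 : ε (r 1) = 1)
    (h2 : ε (r 2) = -1) (h3 : ε (r 3) = -1) : False := by
  have hLgal : IsGalois F (algebraicClosure F (kbar k K)) := by
    have : IsAlgClosure F (algebraicClosure F (kbar k K)) := inferInstance
    exact IsAlgClosure.isGalois F (algebraicClosure F (kbar k K))
  have hLac : IsAlgClosed (algebraicClosure F (kbar k K)) :=
    (inferInstance : IsAlgClosure F (algebraicClosure F (kbar k K))).isAlgClosed
  refine no_four_abs (L := algebraicClosure F (kbar k K)) hFG Q hres ?_ ?_ hx ha₀ hc₀ heq hv hv0 s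
    hτ ?_ hξ ?_ hε r hr (fun i => ⟨r i, mem_algebraicClosure_iff.2 (hrF i)⟩)
    (fun i j hij => hinj (congrArg Subtype.val hij)) (fun _ => rfl) h0 h1 h2 h3
  · intro z
    exact (mem_algebraicClosure_iff).1 (z : kbar k K).2
  · intro γ
    obtain ⟨σ, hσD, hσ⟩ := exists_lift_algF hFO Q hA hresF γ
    refine ⟨σ, hσD, fun z z' hz => ?_⟩
    have h4 : z' = (z : kbar k K) := Subtype.ext hz
    rw [h4]
    exact congrArg Subtype.val (hσ z)
  · intro n ζ hn hζ
    exact fix_algF hFO Q hτ (IsIntegral.of_pow hn (by rw [hζ]; exact isIntegral_one)).isAlgebraic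
  · intro z
    exact (ext_const s hξ (z : kbar k K)).trans (congrArg Subtype.val
      (fix_algF hFO Q hτ (mem_algebraicClosure_iff.1 z.2)))

end

end Pool.Agent.Helper91.Sect
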