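import Pool.Agent.Helper91.Section.Hilbert

/-!
# Sections of curves defined by norm forms
-/

universe u v

namespace Pool.Agent.Helper91.Sect

open Polynomial

section Val

variable {k K : Type u} [Field k] [Field K] [Algebra k K] {L : Type v} [Field L]
  {W : ValuationSubring (AlgebraicClosure K)}
  (hW : ∀ c : k, algebraMap k (AlgebraicClosure K) c ∈ W)
  {f : L →+* AlgebraicClosure K} (hf : ∀ z, IsAlgebraic k (f z))

include hW hf

theorem val_coef_le (z : L) : W.valuation (f z) ≤ 1 :=
  (W.valuation_le_one_iff _).2 (const_mem hW (hf z))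

theorem val_coef_eq {z : L} (hz : z ≠ 0) : W.valuation (f z) = 1 :=
  const_val_eq_one hW (hf z) ((map_ne_zero f).2 hz)

theorem val_eval_le {U : AlgebraicClosure K} (hU : W.valuation U ≤ 1) (Q : L[X]) :
    W.valuation (eval₂ f U Q) ≤ 1 := by
  rw [eval₂_eq_sum_range]
  refine Valuation.map_sum_le _ fun i _ => ?_
  rw [map_mul, map_pow]
  exact mul_le_one' (val_coef_le hW hf _) (pow_le_one' hU i)

theorem val_eval_gt {U : AlgebraicClosure K} (hU : 1 < W.valuation U) {Q : L[X]} (hQ : Q ≠ 0) :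
    W.valuation (eval₂ f U Q) = W.valuation U ^ Q.natDegree := by
  rw [eval₂_eq_sum_range, Finset.sum_range_succ]
  have h1 : W.valuation (f (Q.coeff Q.natDegree) * U ^ Q.natDegree) =
      W.valuation U ^ Q.natDegree := by
    have h2 : Q.coeff Q.natDegree ≠ 0 := leadingCoeff_ne_zero.2 hQ
    rw [map_mul, map_pow, val_coef_eq hW hf h2, one_mul]
  rw [Valuation.map_add_eq_of_lt_right, h1]
  rw [h1]
  refine Valuation.map_sum_lt _ (pow_ne_zero _ (zero_lt_one.trans hU).ne') fun i hi => ?_
  rw [map_mul, map_pow]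
  refine (mul_le_of_le_one_left' (val_coef_le hW hf _)).trans_lt ?_
  exact pow_lt_pow_right₀ hU (Finset.mem_range.1 hi)

theorem val_coprime {U : AlgebraicClosure K} (hU : W.valuation U ≤ 1) {Q R : L[X]}
    (hQR : IsCoprime Q R) (hQ : W.valuation (eval₂ f U Q) < 1) :
    W.valuation (eval₂ f U R) = 1 := by
  obtain ⟨a, b, hab⟩ := hQR
  refine le_antisymm (val_eval_le hW hf hU R) ?_
  by_contra hcon
  push Not at hcon
  have h1 := congrArg (fun T => W.valuation (eval₂ f U T)) hab
  simp only [eval₂_add, eval₂_mul, eval₂_one, map_one] at h1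
  have h2 : W.valuation (eval₂ f U a * eval₂ f U Q + eval₂ f U b * eval₂ f U R) < 1 := by
    refine Valuation.map_add_lt _ ?_ ?_
    · rw [map_mul]; exact (mul_le_of_le_one_left' (val_eval_le hW hf hU a)).trans_lt hQ
    · rw [map_mul]; exact (mul_le_of_le_one_left' (val_eval_le hW hf hU b)).trans_lt hcon
  rw [h1] at h2
  exact lt_irrefl _ h2

end Val

section Main

variable {k K : Type u} [Field k] [Field K] [Algebra k K] [CharZero k] {L : Type v} [Field L]
  [Algebra k L]

/-- evaluation at `u`, with values in `Kur` -/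
noncomputable def evK (j : L →ₐ[k] kbar k K) (u : K) : L[X] →+* Kur k K :=
  eval₂RingHom ((toKur k K).comp (j : L →+* kbar k K)) (algebraMap K (Kur k K) u)

theorem coe_evK (j : L →ₐ[k] kbar k K) (u : K) (Q : L[X]) :
    (evK j u Q : AlgebraicClosure K) =
      eval₂ ((algebraMap (kbar k K) (AlgebraicClosure K)).comp (j : L →+* kbar k K))
        (algebraMap K (AlgebraicClosure K) u) Q := by
  change (Kur k K).val.toRingHom (eval₂ _ _ Q) = _
  rw [hom_eval₂]
  rfl

theorem section_evK (s : GaloisSection k K) (j : L →ₐ[k] kbar k K) (u : K) (σ : Gk k K)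
    (φ : L ≃ₐ[k] L) (hφ : ∀ z, σ (j z) = j (φ z)) (Q : L[X]) :
    s.toHom σ (evK j u Q) = evK j u (Q.map (φ : L →+* L)) := by
  change (s.toHom σ : Kur k K →+* Kur k K) (eval₂ _ _ Q) = eval₂ _ _ (Q.map _)
  rw [hom_eval₂, eval₂_map]
  congr 1
  · ext z
    change ((s.toHom σ (toKur k K (j z)) : Kur k K) : AlgebraicClosure K) = _
    rw [section_toKur, hφ]; rfl
  · exact (s.toHom σ).commutes u

theorem evK_ne_zero (j : L →ₐ[k] kbar k K) {u : K} (hu : Transcendental k u) {Q : L[X]}
    (hQ : Q ≠ 0) : evK j u Q ≠ 0 := by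
  intro h0
  have h1 := congrArg Subtype.val h0
  rw [coe_evK] at h1
  apply hu
  refine (isAlgebraic_algebraMap_iff (algebraMap K (AlgebraicClosure K)).injective).1 ?_
  have h2 : IsAlgebraic (kbar k K) (algebraMap K (AlgebraicClosure K) u) := by
    refine ⟨Q.map (j : L →+* kbar k K), (Polynomial.map_ne_zero_iff (j : L →+* kbar k K).injective).2 hQ, ?_⟩
    rw [aeval_def, eval₂_map]
    exact h1
  exact h2.restrictScalars k

/-- products over a cyclic group -/
theorem prod_cyclic {G A : Type*} [Group G] [Fintype G] [CommMonoid A] {g : G}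
    (hg : ∀ x, x ∈ Subgroup.zpowers g) (f : G → A) :
    ∏ x, f x = ∏ i ∈ Finset.range (orderOf g), f (g ^ i) := by
  classical
  rw [← IsCyclic.image_range_orderOf hg, Finset.prod_image]
  intro a ha b hb hab
  exact pow_injOn_Iio_orderOf (by simpa using ha) (by simpa using hb) hab

variable [FiniteDimensional k L] [IsGalois k L] [IsCyclic (L ≃ₐ[k] L)]

theorem norm_of_section (s : GaloisSection k K) (P : L[X])
    (hcop : ∀ σ : L ≃ₐ[k] L, σ ≠ 1 → IsCoprime P (P.map (σ : L →+* L)))
    (hpar : Even (P.natDegree * (Module.finrank k L - 1))) (N : k[X])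
    (hN : N.map (algebraMap k L) = ∏ σ : L ≃ₐ[k] L, P.map (σ : L →+* L))
    (b : k) (hb0 : b ≠ 0) (u v : K) (hu : Transcendental k u)
    (huv : algebraMap k K b * v ^ Module.finrank k L = aeval u N) :
    ∃ z : L, Algebra.norm k z = b := by
  classical
  obtain ⟨τ₀, hτ₀⟩ := IsCyclic.exists_generator (α := L ≃ₐ[k] L)
  set n := orderOf τ₀ with hn
  have hnL : Module.finrank k L = n := by
    rw [← IsGalois.card_aut_eq_finrank k L, hn, orderOf_eq_card_of_forall_mem_zpowers hτ₀]
  have hnpos : 0 < n := by rw [← hnL]; exact Module.finrank_pos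
  by_cases hn1 : n = 1
  · refine ⟨algebraMap k L b, ?_⟩
    rw [Algebra.norm_algebraMap, hnL, hn1, pow_one]
  have hP0 : P ≠ 0 := by
    rintro rfl
    have h1 : τ₀ ≠ 1 := fun h => hn1 (by rw [hn, h, orderOf_one])
    have h2 := hcop τ₀ h1
    rw [Polynomial.map_zero, isCoprime_zero_left, isUnit_zero_iff] at h2
    exact zero_ne_one h2
  let j : L →ₐ[k] kbar k K := IsAlgClosed.lift
  -- the conjugate functions
  let q : ℕ → L[X] := fun i => P.map ((τ₀ ^ i : L ≃ₐ[k] L) : L →+* L)
  have hq0 : ∀ i, q i ≠ 0 := fun i => (Polynomial.map_ne_zero_iff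
    ((τ₀ ^ i : L ≃ₐ[k] L) : L →+* L).injective).2 hP0
  have hqdeg : ∀ i, (q i).natDegree = P.natDegree := fun i => natDegree_map _
  have hqcop : ∀ i < n, ∀ l < n, i ≠ l → IsCoprime (q i) (q l) := by
    have key : ∀ i l, i < l → l < n → IsCoprime (q i) (q l) := by
      intro i l hil hln
      have h1 : τ₀ ^ (l - i) ≠ 1 := by
        intro h
        have h2 := orderOf_dvd_of_pow_eq_one h
        have h3 := Nat.le_of_dvd (by omega) h2
        omega
      have h2 := (hcop _ h1).map (mapRingHom ((τ₀ ^ i : L ≃ₐ[k] L) : L →+* L))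
      rw [coe_mapRingHom, Polynomial.map_map] at h2
      have h3 : ((τ₀ ^ i : L ≃ₐ[k] L) : L →+* L).comp ((τ₀ ^ (l - i) : L ≃ₐ[k] L) : L →+* L) =
          ((τ₀ ^ l : L ≃ₐ[k] L) : L →+* L) := by
        have h4 : τ₀ ^ l = τ₀ ^ i * τ₀ ^ (l - i) := by rw [← pow_add]; congr 1; omega
        rw [h4]; rfl
      rw [h3] at h2
      exact h2
    intro i hi l hl hne
    rcases lt_or_gt_of_ne hne with h | h
    · exact key i l h hl
    · exact (key l i h hi).symm
  let p : ℕ → Kur k K := fun i => evK j u (q i)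
  have hp0 : ∀ i, p i ≠ 0 := fun i => evK_ne_zero j hu (hq0 i)
  have hpn : p n = p 0 := by
    simp only [p, q, hn, pow_orderOf_eq_one, pow_zero]
  set V : Kur k K := algebraMap K (Kur k K) v with hV
  set β : kbar k K := algebraMap k (kbar k K) b with hβ
  have hprod : ∏ i ∈ Finset.range n, p i = toKur k K β * V ^ n := by
    have h1 : evK j u (N.map (algebraMap k L)) = ∏ i ∈ Finset.range n, p i := by
      rw [hN, map_prod, prod_cyclic hτ₀]
    rw [← h1]
    apply Subtype.ext
    rw [coe_evK, eval₂_map]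
    have h2 := congrArg (algebraMap K (AlgebraicClosure K)) huv
    rw [map_mul, map_pow, aeval_def, hom_eval₂, hnL] at h2
    have h3 : (((algebraMap (kbar k K) (AlgebraicClosure K)).comp (j : L →+* kbar k K)).comp
        (algebraMap k L)) = (algebraMap K (AlgebraicClosure K)).comp (algebraMap k K) := by
      ext z
      change ((j (algebraMap k L z) : kbar k K) : AlgebraicClosure K) =
        algebraMap K (AlgebraicClosure K) (algebraMap k K z)
      rw [j.commutes, ← IsScalarTower.algebraMap_apply k K (AlgebraicClosure K)]; rfl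
    rw [h3, ← h2]
    change _ = (β : AlgebraicClosure K) * (algebraMap K (AlgebraicClosure K) v) ^ n
    congr 1
  have hβ0 : β ≠ 0 := (_root_.map_ne_zero _).2 hb0
  have hβ0' : toKur k K β ≠ 0 := (_root_.map_ne_zero _).2 hβ0
  have hV0 : V ≠ 0 := by
    intro h0
    have h1 : ∏ i ∈ Finset.range n, p i ≠ 0 := Finset.prod_ne_zero_iff.2 fun i _ => hp0 i
    rw [hprod, h0, zero_pow hnpos.ne', mul_zero] at h1
    exact h1 rfl
  -- the function with an unramified root
  set Fn : Kur k K := ∏ i ∈ Finset.range n, p i ^ i with hFn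
  obtain ⟨g, hg⟩ := IsAlgClosed.exists_pow_nat_eq (Fn : AlgebraicClosure K) hnpos
  have hgK : g ∈ Kur k K := by
    intro W hW ϕ hϕ
    have hfix : ∀ z : Kur k K, ϕ (z : AlgebraicClosure K) = z := fun z => z.2 W hW ϕ hϕ
    have hgn : ϕ (g ^ n) = g ^ n := by rw [hg, hfix]
    have halg : ∀ z : L, IsAlgebraic k (((algebraMap (kbar k K) (AlgebraicClosure K)).comp
        (j : L →+* kbar k K)) z) := fun z => (mem_algebraicClosure_iff).1 (j z).2
    have hpow : ∀ {B : AlgebraicClosure K} {e : ℕ},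
        W.valuation (Fn : AlgebraicClosure K) = W.valuation B ^ (n * e) →
        W.valuation g = W.valuation (B ^ e) := by
      intro B e h
      rw [← hg, map_pow, mul_comm, pow_mul] at h
      rw [map_pow]
      exact (pow_left_inj₀ zero_le zero_le hnpos.ne').1 h
    have hFcoe : W.valuation (Fn : AlgebraicClosure K) =
        ∏ i ∈ Finset.range n, W.valuation (p i : AlgebraicClosure K) ^ i := by
      have h1 : (Fn : AlgebraicClosure K) =
          ∏ i ∈ Finset.range n, (p i : AlgebraicClosure K) ^ i := by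
        rw [hFn]
        push_cast
        rfl
      rw [h1, map_prod]
      exact Finset.prod_congr rfl fun i _ => map_pow _ _ _
    set U := algebraMap K (AlgebraicClosure K) u with hU
    have hϕU : ϕ U = U := ϕ.commutes u
    rcases lt_or_ge 1 (W.valuation U) with hUv | hUv
    · -- places at infinity
      obtain ⟨m, hm⟩ := hpar
      rw [hnL] at hm
      refine unit_crit hW hϕ (b := U ^ m) (by rw [map_pow, hϕU]) (hpow ?_) hnpos hgn
      rw [hFcoe]
      have h1 : ∀ i ∈ Finset.range n, W.valuation (p i : AlgebraicClosure K) ^ i =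
          (W.valuation U ^ P.natDegree) ^ i := by
        intro i _
        rw [coe_evK, val_eval_gt hW halg hUv (hq0 i), hqdeg]
      rw [Finset.prod_congr rfl h1, Finset.prod_pow_eq_pow_sum, ← pow_mul]
      congr 1
      have h2 := Finset.sum_range_id_mul_two n
      have h3 : (P.natDegree * ∑ i ∈ Finset.range n, i) * 2 = (n * m) * 2 := by
        calc (P.natDegree * ∑ i ∈ Finset.range n, i) * 2
            = P.natDegree * ((∑ i ∈ Finset.range n, i) * 2) := by ring
          _ = n * (P.natDegree * (n - 1)) := by rw [h2]; ring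
          _ = n * m * 2 := by rw [hm]; ring
      omega
    · by_cases hall : ∀ i < n, W.valuation (p i : AlgebraicClosure K) = 1
      · refine unit_crit hW hϕ (b := (1 : AlgebraicClosure K) ^ 1) (by simp) (hpow ?_) hnpos hgn
        rw [hFcoe, map_one, one_pow]
        exact Finset.prod_eq_one fun i hi => by rw [hall i (Finset.mem_range.1 hi), one_pow]
      · push Not at hall
        obtain ⟨i₀, hi₀, hne⟩ := hall
        have hle : W.valuation (p i₀ : AlgebraicClosure K) ≤ 1 := by
          rw [coe_evK]; exact val_eval_le hW halg hUv _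
        have hlt : W.valuation (p i₀ : AlgebraicClosure K) < 1 := lt_of_le_of_ne hle hne
        have hoth : ∀ l < n, l ≠ i₀ → W.valuation (p l : AlgebraicClosure K) = 1 := by
          intro l hl hli
          rw [coe_evK] at hlt ⊢
          exact val_coprime hW halg hUv (hqcop i₀ hi₀ l hl hli.symm) hlt
        have hmem : i₀ ∈ Finset.range n := Finset.mem_range.2 hi₀
        have h1 : W.valuation (p i₀ : AlgebraicClosure K) =
            W.valuation (algebraMap K (AlgebraicClosure K) v) ^ n := by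
          have h2 : ∏ i ∈ Finset.range n, W.valuation (p i : AlgebraicClosure K) =
              W.valuation (β : AlgebraicClosure K) *
                W.valuation (algebraMap K (AlgebraicClosure K) v) ^ n := by
            have h3 : ((∏ i ∈ Finset.range n, p i : Kur k K) : AlgebraicClosure K) =
                ((toKur k K β * V ^ n : Kur k K) : AlgebraicClosure K) := by rw [hprod]
            have h4 : ((∏ i ∈ Finset.range n, p i : Kur k K) : AlgebraicClosure K) =
                ∏ i ∈ Finset.range n, (p i : AlgebraicClosure K) := by push_cast; rfl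
            rw [← map_prod, ← map_pow, ← map_mul, ← h4, h3]
            rfl
          rw [← Finset.mul_prod_erase _ _ hmem, Finset.prod_eq_one, mul_one,
            const_val_eq_one hW ((mem_algebraicClosure_iff).1 β.2) (by simpa using hβ0),
            one_mul] at h2
          · exact h2
          · intro l hl
            exact hoth l (Finset.mem_range.1 (Finset.mem_of_mem_erase hl))
              (Finset.ne_of_mem_erase hl)
        refine unit_crit hW hϕ (b := algebraMap K (AlgebraicClosure K) v ^ i₀)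
          (by rw [map_pow, ϕ.commutes]) (hpow ?_) hnpos hgn
        rw [hFcoe, ← Finset.mul_prod_erase _ _ hmem, Finset.prod_eq_one, mul_one, h1, ← pow_mul]
        intro l hl
        rw [hoth l (Finset.mem_range.1 (Finset.mem_of_mem_erase hl)) (Finset.ne_of_mem_erase hl),
          one_pow]
  obtain ⟨G, hG⟩ : ∃ G : Kur k K, (G : AlgebraicClosure K) = g := ⟨⟨g, hgK⟩, rfl⟩
  have hGn : G ^ n = Fn := Subtype.ext (by rw [← hg, ← hG]; rfl)
  have hFn0 : Fn ≠ 0 := Finset.prod_ne_zero_iff.2 fun i _ => pow_ne_zero _ (hp0 i)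
  have hG0 : G ≠ 0 := by
    rintro rfl
    rw [zero_pow hnpos.ne'] at hGn
    exact hFn0 hGn.symm
  -- the subgroup fixing `L`
  set M₀ : IntermediateField k (kbar k K) := j.fieldRange with hM₀
  have hM₀fd : FiniteDimensional k M₀ := (AlgEquiv.ofInjectiveField j).toLinearEquiv.finiteDimensional
  have hH : ∀ σ ∈ M₀.fixingSubgroup, ∀ z : L, σ (j z) = j z := by
    intro σ hσ z
    exact (IntermediateField.mem_fixingSubgroup_iff _ _).1 hσ _ ⟨z, rfl⟩
  have hH' : ∀ σ : Gk k K, (∀ z : L, σ (j z) = j z) → σ ∈ M₀.fixingSubgroup := by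
    intro σ hσ
    rw [IntermediateField.mem_fixingSubgroup_iff]
    rintro _ ⟨z, rfl⟩
    exact hσ z
  have hHev : ∀ σ ∈ M₀.fixingSubgroup, ∀ Q : L[X], s.toHom σ (evK j u Q) = evK j u Q := by
    intro σ hσ Q
    have h1 := section_evK s j u σ 1 (hH σ hσ) Q
    rw [h1]
    congr 1
    exact Polynomial.map_id
  -- a lift of the generator
  obtain ⟨τ, hτ⟩ : ∃ τ : Gk k K, ∀ z : L, τ (j z) = j (τ₀ z) := by
    let e₀ : L ≃ₐ[k] M₀ := AlgEquiv.ofInjectiveField j
    obtain ⟨τ, hτ⟩ := exists_lift_hom (k := k) (K := K) M₀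
      ((j.comp (τ₀ : L →ₐ[k] L)).comp (e₀.symm : M₀ →ₐ[k] L))
    refine ⟨τ, fun z => ?_⟩
    have h1 := hτ (e₀ z)
    have h2 : ((e₀ z : M₀) : kbar k K) = j z := rfl
    rw [h2] at h1
    rw [h1]
    change j (τ₀ (e₀.symm (e₀ z))) = _
    rw [AlgEquiv.symm_apply_apply]
  have hτp : ∀ i, s.toHom τ (p i) = p (i + 1) := by
    intro i
    have h1 := section_evK s j u τ τ₀ hτ (q i)
    change s.toHom τ (evK j u (q i)) = evK j u (q (i + 1))
    rw [h1]
    congr 1
    simp only [q]
    rw [Polynomial.map_map, pow_succ']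
    rfl
  have hkey : s.toHom τ Fn * (toKur k K β * V ^ n) = Fn * p 0 ^ n := by
    have h1 : s.toHom τ Fn = ∏ i ∈ Finset.range n, p (i + 1) ^ i := by
      rw [hFn, map_prod]
      exact Finset.prod_congr rfl fun i _ => by rw [map_pow, hτp]
    have h2 : toKur k K β * V ^ n = ∏ i ∈ Finset.range n, p (i + 1) := by
      rw [← hprod]
      have h3 := Finset.prod_range_succ' p n
      have h4 := Finset.prod_range_succ p n
      rw [hpn] at h4
      rw [h4] at h3
      exact mul_right_cancel₀ (hp0 0) h3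
    rw [h1, h2, ← Finset.prod_mul_distrib]
    have h3 : ∏ i ∈ Finset.range n, p (i + 1) ^ i * p (i + 1) =
        ∏ i ∈ Finset.range n, p (i + 1) ^ (i + 1) :=
      Finset.prod_congr rfl fun i _ => (pow_succ _ _).symm
    rw [h3]
    have h4 := Finset.prod_range_succ' (fun i => p i ^ i) n
    have h5 := Finset.prod_range_succ (fun i => p i ^ i) n
    rw [h5, hpn] at h4
    simpa using h4.symm
  -- the fixed multiple
  obtain ⟨e, he0, he⟩ := exists_fixed_mul s M₀ G hG0 (by
    intro σ hσ
    have h1 : (s.toHom σ G) ^ n = G ^ n := by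
      rw [← map_pow, hGn, hFn, map_prod]
      exact Finset.prod_congr rfl fun i _ => by rw [map_pow, hHev σ hσ]
    have h2 : (s.toHom σ G / G) ^ n = 1 := by
      rw [div_pow, h1, div_self (pow_ne_zero n hG0)]
    have h3 : IsAlgebraic k ((s.toHom σ G / G : Kur k K) : AlgebraicClosure K) := by
      refine (IsIntegral.of_pow hnpos ?_).isAlgebraic
      have h4 : ((s.toHom σ G / G : Kur k K) : AlgebraicClosure K) ^ n = 1 :=
        congrArg Subtype.val h2
      rw [h4]; exact isIntegral_one
    refine ⟨⟨((s.toHom σ G / G : Kur k K) : AlgebraicClosure K),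
      mem_algebraicClosure_iff.2 h3⟩, ?_⟩
    have h4 : toKur k K ⟨((s.toHom σ G / G : Kur k K) : AlgebraicClosure K),
      mem_algebraicClosure_iff.2 h3⟩ = s.toHom σ G / G := rfl
    rw [h4, div_mul_cancel₀ _ hG0])
  set w₁ := toKur k K e * G with hw₁
  have hw₁0 : w₁ ≠ 0 := mul_ne_zero ((_root_.map_ne_zero _).2 he0) hG0
  have hsw₁0 : s.toHom τ w₁ ≠ 0 := (_root_.map_ne_zero _).2 hw₁0
  set w := p 0 / V with hw
  set ρ := w * w₁ / s.toHom τ w₁ with hρ
  have hρn : ρ ^ n = toKur k K (β * e ^ n / (τ e) ^ n) := by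
    have h1 : (s.toHom τ w₁) ^ n = toKur k K (τ e) ^ n * s.toHom τ Fn := by
      rw [hw₁, map_mul, section_toKur, mul_pow, ← map_pow (s.toHom τ), hGn]
    have h2 : w₁ ^ n = toKur k K e ^ n * Fn := by rw [hw₁, mul_pow, hGn]
    rw [hρ, div_pow, mul_pow, h1, h2, hw, div_pow, map_div₀, map_mul, map_pow, map_pow]
    have h3 : toKur k K (τ e) ≠ 0 := (_root_.map_ne_zero _).2 ((_root_.map_ne_zero _).2 he0)
    have h4 : s.toHom τ Fn ≠ 0 := (_root_.map_ne_zero _).2 hFn0
    field_simp
    linear_combination (-(toKur k K e) ^ n) * hkey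
  have hρalg : IsAlgebraic k (ρ : AlgebraicClosure K) := by
    have h1 : (ρ : AlgebraicClosure K) ^ n =
        ((β * e ^ n / (τ e) ^ n : kbar k K) : AlgebraicClosure K) := congrArg Subtype.val hρn
    refine (IsIntegral.of_pow hnpos ?_).isAlgebraic
    rw [h1]
    exact ((mem_algebraicClosure_iff).1 (β * e ^ n / (τ e) ^ n : kbar k K).2).isIntegral
  obtain ⟨z₀, hz₀⟩ : ∃ z₀ : kbar k K, toKur k K z₀ = ρ :=
    ⟨⟨ρ, mem_algebraicClosure_iff.2 hρalg⟩, rfl⟩
  have hVfix : ∀ σ : Gk k K, s.toHom σ V = V := fun σ => (s.toHom σ).commutes v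
  have hconj : ∀ σ ∈ M₀.fixingSubgroup, τ⁻¹ * σ * τ ∈ M₀.fixingSubgroup := by
    intro σ hσ
    refine hH' _ fun z => ?_
    change τ⁻¹ (σ (τ (j z))) = j z
    rw [hτ, hH σ hσ, ← hτ]
    change (τ⁻¹ * τ) (j z) = j z
    rw [inv_mul_cancel]; rfl
  have hρfix : ∀ σ ∈ M₀.fixingSubgroup, σ z₀ = z₀ := by
    intro σ hσ
    apply (toKur k K).injective
    rw [← section_toKur s, hz₀, hρ, map_div₀, map_mul, hw, map_div₀, hVfix, he σ hσ]
    have h1 : s.toHom σ (p 0) = p 0 := hHev σ hσ _
    have h2 : s.toHom σ (s.toHom τ w₁) = s.toHom τ w₁ := by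
      have h3 : s.toHom σ (s.toHom τ w₁) = s.toHom τ (s.toHom (τ⁻¹ * σ * τ) w₁) := by
        have h4 : σ * τ = τ * (τ⁻¹ * σ * τ) := by group
        have h5 : s.toHom σ (s.toHom τ w₁) = s.toHom (σ * τ) w₁ := by rw [map_mul s.toHom]; rfl
        rw [h5, h4, map_mul s.toHom]; rfl
      rw [h3, he _ (hconj σ hσ)]
    rw [h1, h2]
  have hz₀M : z₀ ∈ M₀ := by
    rw [← InfiniteGalois.fixedField_fixingSubgroup M₀, IntermediateField.mem_fixedField_iff]
    exact hρfix
  obtain ⟨z, hz⟩ := hz₀M
  refine ⟨z, ?_⟩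
  -- computation of the norm
  have hTρ : ∀ i, toKur k K (j ((τ₀ ^ i) z)) = (s.toHom τ ^ i) ρ := by
    intro i
    induction i with
    | zero =>
      rw [pow_zero, pow_zero, AlgEquiv.one_apply, AlgEquiv.one_apply, ← hz₀, ← hz]; rfl
    | succ i ih =>
      rw [pow_succ', pow_succ', AlgEquiv.mul_apply, AlgEquiv.mul_apply, ← ih, section_toKur, hτ]
  have hTp : ∀ i, (s.toHom τ ^ i) (p 0) = p i := by
    intro i
    induction i with
    | zero => rw [pow_zero, AlgEquiv.one_apply]
    | succ i ih => rw [pow_succ', AlgEquiv.mul_apply, ih, hτp]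
  have hTV : ∀ i, (s.toHom τ ^ i) V = V := by
    intro i
    induction i with
    | zero => rw [pow_zero, AlgEquiv.one_apply]
    | succ i ih => rw [pow_succ', AlgEquiv.mul_apply, ih, hVfix]
  have hTρ' : ∀ i, (s.toHom τ ^ i) ρ = p i / V * ((s.toHom τ ^ i) w₁ / (s.toHom τ ^ (i + 1)) w₁) := by
    intro i
    rw [hρ, map_div₀, map_mul, hw, map_div₀, hTp, hTV, pow_succ, AlgEquiv.mul_apply, mul_div_assoc]
  have hw₁i : ∀ i, (s.toHom τ ^ i) w₁ ≠ 0 := fun i => (_root_.map_ne_zero _).2 hw₁0
  have hτn : (s.toHom τ ^ n) w₁ = w₁ := by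
    rw [← map_pow]
    refine he _ (hH' _ fun z => ?_)
    have h1 : ∀ i, (τ ^ i) (j z) = j ((τ₀ ^ i) z) := by
      intro i
      induction i with
      | zero => rfl
      | succ i ih => rw [pow_succ', pow_succ', AlgEquiv.mul_apply, AlgEquiv.mul_apply, ih, hτ]
    rw [h1, hn, pow_orderOf_eq_one, AlgEquiv.one_apply]
  have htel : ∏ i ∈ Finset.range n, ((s.toHom τ ^ i) w₁ / (s.toHom τ ^ (i + 1)) w₁) = 1 := by
    have h1 : ∀ m : ℕ, ∏ i ∈ Finset.range m, ((s.toHom τ ^ i) w₁ / (s.toHom τ ^ (i + 1)) w₁) =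
        w₁ / (s.toHom τ ^ m) w₁ := by
      intro m
      induction m with
      | zero => rw [Finset.prod_range_zero, pow_zero, AlgEquiv.one_apply, div_self hw₁0]
      | succ m ih =>
        rw [Finset.prod_range_succ, ih, div_mul_div_cancel₀ (hw₁i m)]
    rw [h1, hτn, div_self hw₁0]
  have hfinal : toKur k K (j (algebraMap k L (Algebra.norm k z))) =
      toKur k K (j (algebraMap k L b)) := by
    rw [Algebra.norm_eq_prod_automorphisms, map_prod, map_prod, prod_cyclic hτ₀, ← hn,
      Finset.prod_congr rfl (fun i _ => (hTρ i).trans (hTρ' i)), Finset.prod_mul_distrib, htel,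
      mul_one, Finset.prod_div_distrib, hprod, Finset.prod_const, Finset.card_range,
      mul_div_assoc, div_self (pow_ne_zero n hV0), mul_one, j.commutes]
  have h1 := (toKur k K).injective hfinal
  exact (algebraMap k L).injective (j.toRingHom.injective h1)

end Main

end Pool.Agent.Helper91.Sect
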