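import Pool.Agent.Helper91.Section.Monic
import Pool.Agent.Helper91.Section.Elliptic

/-!
# Normalised roots of functions attached to points of `2`-power order
-/

universe u

namespace Pool.Agent.Helper91.Sect

open Polynomial WeierstrassCurve WeierstrassCurve.Affine
open scoped Polynomial.Bivariate

section Fix

variable {F : Type u} [Field F] {W : WeierstrassCurve.Affine F}

/-- the coordinates of `P` are fixed by `σ` -/
def FixP (σ : F →+* F) : W.Point → Prop
  | Point.zero => True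
  | Point.some x y _ => σ x = x ∧ σ y = y

theorem galR_smul (σ : F →+* F) (hσ : W.map σ = W) (p q : F[X]) :
    galR σ hσ (p • (1 : W.CoordinateRing) + q • CoordinateRing.mk W Y) =
      (p.map σ) • (1 : W.CoordinateRing) + (q.map σ) • CoordinateRing.mk W Y := by
  rw [CoordinateRing.smul, CoordinateRing.smul, CoordinateRing.smul, CoordinateRing.smul, mul_one,
    mul_one, map_add, map_mul, galR_mk, galR_mk, galR_mk]
  simp

theorem galR_isMonR {σ : F →+* F} {hσ : W.map σ = W} {r : W.CoordinateRing} (hr : IsMonR r) :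
    IsMonR (galR σ hσ r) := by
  obtain ⟨p, q, rfl, hcase⟩ := hr
  refine ⟨p.map σ, q.map σ, galR_smul σ hσ p q, ?_⟩
  rw [natDegree_map, natDegree_map]
  rcases hcase with ⟨h1, h2⟩ | ⟨h1, h2⟩
  · refine Or.inl ⟨h1.map σ, ?_⟩
    rcases h2 with h2 | h2
    · left; rw [h2, Polynomial.map_zero]
    · exact Or.inr h2
  · exact Or.inr ⟨h1.map σ, h2⟩

theorem galR_XClass {σ : F →+* F} {hσ : W.map σ = W} {c : F} (hc : σ c = c) :
    galR σ hσ (CoordinateRing.XClass W c) = CoordinateRing.XClass W c := by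
  rw [CoordinateRing.XClass, galR_mk]
  simp [hc]

theorem galR_YClass {σ : F →+* F} {hσ : W.map σ = W} {a b c : F} (ha : σ a = a) (hb : σ b = b)
    (hc : σ c = c) : galR σ hσ (CoordinateRing.YClass W (linePolynomial a b c)) =
      CoordinateRing.YClass W (linePolynomial a b c) := by
  rw [CoordinateRing.YClass, galR_mk]
  have h1 : (linePolynomial a b c).map σ = linePolynomial a b c := by
    rw [← WeierstrassCurve.Affine.map_linePolynomial, ha, hb, hc]
  simp [h1]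

theorem idOf_fix {σ : F →+* F} {hσ : W.map σ = W} {P : W.Point} (hP : FixP σ P) :
    (idOf P).map (galR σ hσ) = idOf P := by
  rcases P with _ | ⟨x, y, h⟩
  · exact Ideal.map_top _
  · obtain ⟨h1, h2⟩ := hP
    change (CoordinateRing.XYIdeal _ x (C y)).map _ = CoordinateRing.XYIdeal _ x (C y)
    rw [CoordinateRing.XYIdeal, Ideal.map_span, Set.image_pair, galR_XClass h1]
    have h3 : galR σ hσ (CoordinateRing.YClass W (C y)) = CoordinateRing.YClass W (C y) := by
      rw [CoordinateRing.YClass, galR_mk]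
      simp [h2]
    rw [h3]

end Fix

section Rel

variable {F : Type u} [Field F] {W : WeierstrassCurve.Affine F} [DecidableEq F]

/-- the relation between the ideals of `P`, `P'` and `P + P'`, by normalised functions -/
theorem ideal_rel_mon (P P' : W.Point) : ∃ a b : W.CoordinateRing, a ≠ 0 ∧ b ≠ 0 ∧
    IsMonR a ∧ IsMonR b ∧
    Ideal.span {a} * (idOf P * idOf P') = Ideal.span {b} * idOf (P + P') ∧
    ∀ (σ : F →+* F) (hσ : W.map σ = W), FixP σ P → FixP σ P' →
      galR σ hσ a = a ∧ galR σ hσ b = b := by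
  rcases P with _ | ⟨x₁, y₁, h₁⟩
  · refine ⟨1, 1, one_ne_zero, one_ne_zero, isMonR_one, isMonR_one, ?_, fun σ hσ _ _ => ?_⟩
    · rw [← Point.zero_def, zero_add, idOf_zero, ← Ideal.one_eq_top, one_mul]
    · rw [map_one]; exact ⟨rfl, rfl⟩
  rcases P' with _ | ⟨x₂, y₂, h₂⟩
  · refine ⟨1, 1, one_ne_zero, one_ne_zero, isMonR_one, isMonR_one, ?_, fun σ hσ _ _ => ?_⟩
    · rw [← Point.zero_def, add_zero, idOf_zero, ← Ideal.one_eq_top, mul_one]
    · rw [map_one]; exact ⟨rfl, rfl⟩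
  by_cases hxy : x₁ = x₂ ∧ y₁ = W.negY x₂ y₂
  · obtain ⟨rfl, rfl⟩ := hxy
    rw [Point.add_of_Y_eq rfl rfl]
    refine ⟨1, CoordinateRing.XClass W x₁, one_ne_zero, CoordinateRing.XClass_ne_zero _,
      isMonR_one, isMonR_XClass _, ?_, fun σ hσ hP _ => ?_⟩
    · rw [Ideal.span_singleton_one, ← Ideal.one_eq_top, one_mul, idOf_zero, ← Ideal.one_eq_top,
        mul_one]
      exact CoordinateRing.XYIdeal_neg_mul h₂
    · rw [map_one]; exact ⟨rfl, galR_XClass hP.1⟩
  · rw [Point.add_some hxy]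
    refine ⟨CoordinateRing.XClass W (W.addX x₁ x₂ <| W.slope x₁ x₂ y₁ y₂),
      CoordinateRing.YClass W (linePolynomial x₁ y₁ <| W.slope x₁ x₂ y₁ y₂),
      CoordinateRing.XClass_ne_zero _, CoordinateRing.YClass_ne_zero _, isMonR_XClass _,
      isMonR_YClass _ _ _, CoordinateRing.XYIdeal_mul_XYIdeal h₁.1 h₂.1 hxy,
      fun σ hσ hP hP' => ?_⟩
    have hsl : σ (W.slope x₁ x₂ y₁ y₂) = W.slope x₁ x₂ y₁ y₂ := by
      have h1 := WeierstrassCurve.Affine.map_slope (W := W) σ x₁ x₂ y₁ y₂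
      rw [hP.1, hP'.1, hP.2, hP'.2] at h1
      exact h1.symm.trans (congrArg (fun V : WeierstrassCurve.Affine F => V.slope x₁ x₂ y₁ y₂) hσ)
    have haddX : σ (W.addX x₁ x₂ (W.slope x₁ x₂ y₁ y₂)) = W.addX x₁ x₂ (W.slope x₁ x₂ y₁ y₂) := by
      have h1 := WeierstrassCurve.Affine.map_addX (W' := W) (f := σ) (x₁ := x₁) (x₂ := x₂)
        (ℓ := W.slope x₁ x₂ y₁ y₂)
      rw [hP.1, hP'.1, hsl] at h1
      exact h1.symm.trans (congrArg (fun V : WeierstrassCurve.Affine F =>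
        V.addX x₁ x₂ (W.slope x₁ x₂ y₁ y₂)) hσ)
    exact ⟨galR_XClass haddX, galR_YClass hP.1 hP.2 hsl⟩

end Rel

section Roots

variable {F : Type u} [Field F] {W : WeierstrassCurve.Affine F}
  {Ω : Type u} [Field Ω] [Algebra F Ω] {e₁ e₂ e₃ : F} (hW : IsE W e₁ e₂ e₃) {x y : Ω}
    (h : y ^ 2 = (x - algebraMap F Ω e₁) * (x - algebraMap F Ω e₂) * (x - algebraMap F Ω e₃))
  [DecidableEq F]

/-- `g` is a `2 ^ m`-th root of the normalised function with divisor `2 ^ m ((P) - (O))`. -/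
def RootM (P : W.Point) (g : Ω) : Prop :=
  ∃ m : ℕ, 2 ^ m • P = 0 ∧ ∃ r : W.CoordinateRing, idOf P ^ (2 ^ m) = Ideal.span {r} ∧
    IsMonR r ∧ g ^ (2 ^ m) = evR hW h r

theorem RootM.rootAt {P : W.Point} {g : Ω} (hg : RootM hW h P g) : RootAt hW h P g := by
  obtain ⟨m, hm, r, hr, -, hgr⟩ := hg
  exact ⟨2 ^ m, pow_pos two_pos m, hm, r, hr, hgr⟩

theorem evR_galR {σ : F →+* F} (hσ : W.map σ = W) (ξ : Ω →+* Ω)
    (hξ : ∀ c : F, ξ (algebraMap F Ω c) = algebraMap F Ω (σ c)) (hξx : ξ x = x) (hξy : ξ y = y)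
    (r : W.CoordinateRing) : ξ (evR hW h r) = evR hW h (galR σ hσ r) := by
  obtain ⟨p, q, rfl⟩ := CoordinateRing.exists_smul_basis_eq r
  have h1 : ∀ p : F[X], ξ (aeval x p) = aeval x (p.map σ) := by
    intro p
    rw [aeval_def, aeval_def, eval₂_map, hom_eval₂, hξx]
    congr 1
    ext c
    exact hξ c
  rw [galR_smul, evR_basis, evR_basis, map_add, map_mul, h1, h1, hξy]

theorem exists_rootM [IsAlgClosed Ω] {P : W.Point} (hP : P ∈ T2 W) : ∃ g, RootM hW h P g := by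
  obtain ⟨m, hm⟩ := hP
  obtain ⟨r, hr0, hr, -⟩ := exists_gen hW h P hm
  obtain ⟨c, hc0, hc⟩ := exists_isMonR hr0
  obtain ⟨g, hg⟩ := IsAlgClosed.exists_pow_nat_eq
    (evR hW h (algebraMap F W.CoordinateRing c * r)) (pow_pos two_pos m)
  refine ⟨g, m, hm, _, ?_, hc, hg⟩
  rw [hr, Ideal.span_singleton_eq_span_singleton]
  have hcu : IsUnit (algebraMap F W.CoordinateRing c) := (isUnit_iff_ne_zero.2 hc0).map _
  refine ⟨hcu.unit, ?_⟩
  rw [mul_comm]; rfl

variable (hx : Transcendental F x)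

include hx in
/-- the normalised generator is unique, hence invariant -/
theorem gen_fix {σ : F →+* F} (hσ : W.map σ = W) (ξ : Ω →+* Ω)
    (hξ : ∀ c : F, ξ (algebraMap F Ω c) = algebraMap F Ω (σ c)) (hξx : ξ x = x) (hξy : ξ y = y)
    {P : W.Point} (hP : FixP σ P) {n : ℕ} {r : W.CoordinateRing}
    (hr : idOf P ^ n = Ideal.span {r}) (hmon : IsMonR r) : ξ (evR hW h r) = evR hW h r := by
  obtain ⟨V, hV, hVx⟩ := exists_inf_place hx
  have h1 : Ideal.span {galR σ hσ r} = Ideal.span {r} := by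
    rw [← Set.image_singleton, ← Ideal.map_span, ← hr, Ideal.map_pow, idOf_fix hP]
  rw [Ideal.span_singleton_eq_span_singleton] at h1
  obtain ⟨ε, hε⟩ := h1
  obtain ⟨c, hc0, hc⟩ := unit_const ε.isUnit
  rw [hc] at hε
  obtain ⟨hT, hT0⟩ := val_T_lt hW h hV hVx
  have h2 := (galR_isMonR (σ := σ) (hσ := hσ) hmon).mon hW h hV hVx
  have h3 := hmon.mon hW h hV hVx
  rw [← hε, map_mul, evR_algebraMap] at h3
  have h4 := Mon.unique hV hT hT0 h2 h3
  rw [h4, map_one, mul_one] at hε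
  rw [evR_galR hW h hσ ξ hξ hξx hξy, hε]

include hx in
/-- The multiplicativity of Kummer characters. -/
theorem RootM.mul_rel {P P' : W.Point} {g g' g'' : Ω} (hg : RootM hW h P g)
    (hg' : RootM hW h P' g') (hg'' : RootM hW h (P + P') g'') {σ : F →+* F} (hσ : W.map σ = W)
    {ξ : Ω →+* Ω}
    (hξ : ∀ c : F, ξ (algebraMap F Ω c) = algebraMap F Ω (σ c)) (hξx : ξ x = x) (hξy : ξ y = y)
    (hP : FixP σ P) (hP' : FixP σ P')
    (hroot : ∀ (m : ℕ) (ζ : Ω), ζ ^ (2 ^ m) = 1 → ξ ζ = ζ) :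
    ξ g / g * (ξ g' / g') = ξ g'' / g'' := by
  have hg0 := hg.rootAt.ne_zero hW h hx
  have hg0' := hg'.rootAt.ne_zero hW h hx
  have hg0'' := hg''.rootAt.ne_zero hW h hx
  obtain ⟨a, b, ha, hb, hamon, hbmon, hab, hfix⟩ := ideal_rel_mon P P'
  obtain ⟨hfa, hfb⟩ := hfix σ hσ hP hP'
  obtain ⟨m, hm, r, hr, hrmon, hgr⟩ := hg
  obtain ⟨m', hm', r', hr', hrmon', hgr'⟩ := hg'
  obtain ⟨m'', hm'', r'', hr'', hrmon'', hgr''⟩ := hg''
  set n := 2 ^ m with hn
  set n' := 2 ^ m' with hn'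
  set n'' := 2 ^ m'' with hn''
  -- compare generators
  have h1 : Ideal.span {a ^ (n * n' * n'') * (r ^ (n' * n'') * r' ^ (n * n''))} =
      Ideal.span {b ^ (n * n' * n'') * r'' ^ (n * n')} := by
    have h2 := congrArg (fun I : Ideal W.CoordinateRing => I ^ (n * n' * n'')) hab
    simp only [mul_pow] at h2
    have e1 : idOf P ^ (n * n' * n'') = Ideal.span {r ^ (n' * n'')} := by
      rw [mul_assoc, pow_mul, hr, Ideal.span_singleton_pow]
    have e2 : idOf P' ^ (n * n' * n'') = Ideal.span {r' ^ (n * n'')} := by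
      have : n * n' * n'' = n' * (n * n'') := by ring
      rw [this, pow_mul, hr', Ideal.span_singleton_pow]
    have e3 : idOf (P + P') ^ (n * n' * n'') = Ideal.span {r'' ^ (n * n')} := by
      rw [mul_comm, pow_mul, hr'', Ideal.span_singleton_pow]
    rw [e1, e2, e3, Ideal.span_singleton_pow, Ideal.span_singleton_pow,
      Ideal.span_singleton_mul_span_singleton, Ideal.span_singleton_mul_span_singleton,
      Ideal.span_singleton_mul_span_singleton] at h2
    exact h2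
  rw [Ideal.span_singleton_eq_span_singleton] at h1
  obtain ⟨ε, hε⟩ := h1
  obtain ⟨c, hc0, hc⟩ := unit_const ε.isUnit
  -- the constant is one
  obtain ⟨V, hV, hVx⟩ := exists_inf_place hx
  obtain ⟨hT, hT0⟩ := val_T_lt hW h hV hVx
  set ra := evR hW h a with hra
  set rb := evR hW h b with hrb
  have hma := hamon.mon hW h hV hVx
  have hmb := hbmon.mon hW h hV hVx
  have hmr := hrmon.mon hW h hV hVx
  have hmr' := hrmon'.mon hW h hV hVx
  have hmr'' := hrmon''.mon hW h hV hVx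
  have h4 := congrArg (evR hW h) hε
  rw [hc] at h4
  simp only [map_mul, map_pow, evR_algebraMap] at h4
  have hm1 : Mon V (x / y) (ra ^ (n * n' * n'') *
      (evR hW h r ^ (n' * n'') * evR hW h r' ^ (n * n''))) :=
    (hma.pow _).mul ((hmr.pow _).mul (hmr'.pow _))
  have hm2 : Mon V (x / y) (rb ^ (n * n' * n'') * evR hW h r'' ^ (n * n')) :=
    (hmb.pow _).mul (hmr''.pow _)
  rw [← h4] at hm2
  have hc1 := Mon.unique hV hT hT0 hm1 hm2
  rw [hc1, map_one, mul_one] at h4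
  have hra0 : ra ≠ 0 := evR_ne_zero hW h hx ha
  have hrb0 : rb ≠ 0 := evR_ne_zero hW h hx hb
  have h3 : (ra * (g * g')) ^ (n * n' * n'') = (rb * g'') ^ (n * n' * n'') := by
    rw [← hgr, ← hgr', ← hgr''] at h4
    calc (ra * (g * g')) ^ (n * n' * n'')
        = ra ^ (n * n' * n'') * ((g ^ n) ^ (n' * n'') * (g' ^ n') ^ (n * n'')) := by
          rw [← pow_mul, ← pow_mul, mul_pow, mul_pow]
          congr 2
          · ring
          · congr 1; ring
      _ = _ := h4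
      _ = _ := by rw [← pow_mul, mul_pow]; congr 2; ring
  -- the ratio is a root of unity
  set ρ := rb * g'' / (ra * (g * g')) with hρ
  have hρN : ρ ^ (n * n' * n'') = 1 := by
    rw [hρ, div_pow, ← h3]
    exact div_self (pow_ne_zero _ (mul_ne_zero hra0 (mul_ne_zero hg0 hg0')))
  have hξρ : ξ ρ = ρ := by
    refine hroot (m + m' + m'') ρ ?_
    rw [← hρN, hn, hn', hn'', pow_add, pow_add]
  have hξra : ξ ra = ra := by rw [hra, evR_galR hW h hσ ξ hξ hξx hξy, hfa]
  have hξrb : ξ rb = rb := by rw [hrb, evR_galR hW h hσ ξ hξ hξx hξy, hfb]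
  have h6 : rb * g'' = ρ * (ra * (g * g')) := by
    rw [hρ, div_mul_cancel₀]
    exact mul_ne_zero hra0 (mul_ne_zero hg0 hg0')
  have h7 := congrArg ξ h6
  rw [map_mul, map_mul, map_mul, map_mul, hξρ, hξra, hξrb] at h7
  rw [div_mul_div_comm, div_eq_div_iff (mul_ne_zero hg0 hg0') hg0'']
  apply mul_left_cancel₀ hrb0
  have hρ0 : ρ ≠ 0 := div_ne_zero (mul_ne_zero hrb0 hg0'') (mul_ne_zero hra0 (mul_ne_zero hg0 hg0'))
  apply mul_left_cancel₀ (mul_ne_zero hρ0 hra0)
  linear_combination (ρ * ra * (ξ g * ξ g')) * h6 - (ρ * ra * (g * g')) * h7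

include hx in
/-- independence of the choice -/
theorem RootM.indep {P : W.Point} {g g' : Ω} (hg : RootM hW h P g)
    (hg' : RootM hW h P g') {σ : F →+* F} (hσ : W.map σ = W)
    {ξ : Ω →+* Ω}
    (hξ : ∀ c : F, ξ (algebraMap F Ω c) = algebraMap F Ω (σ c)) (hξx : ξ x = x) (hξy : ξ y = y)
    (hP : FixP σ P)
    (hroot : ∀ (m : ℕ) (ζ : Ω), ζ ^ (2 ^ m) = 1 → ξ ζ = ζ) :
    ξ g / g = ξ g' / g' := by
  have h1 : RootM hW h (0 : W.Point) (1 : Ω) := by
    refine ⟨0, by simp, 1, ?_, isMonR_one, by simp⟩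
    rw [idOf_zero, pow_zero, pow_one, Ideal.span_singleton_one]
  have h2 := hg.mul_rel hW h hx h1 (by rw [add_zero]; exact hg') hσ hξ hξx hξy hP trivial hroot
  rwa [map_one, div_one, mul_one] at h2

end Roots

section Gal

variable {S L : Type u} [Field S] [Field L] [Algebra S L] {e₁ e₂ e₃ : S} [DecidableEq L]
  {Ω : Type u} [Field Ω] [Algebra L Ω]

variable {x y : Ω} (h : y ^ 2 = (x - algebraMap L Ω (algebraMap S L e₁)) *
    (x - algebraMap L Ω (algebraMap S L e₂)) * (x - algebraMap L Ω (algebraMap S L e₃)))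

theorem RootM.map {P : ((EC e₁ e₂ e₃)⁄L).Point} {g : Ω}
    (hg : RootM (isE_baseChange e₁ e₂ e₃) h P g) (γ : L →ₐ[S] L) (ρ : Ω →+* Ω)
    (hρ : ∀ c : L, ρ (algebraMap L Ω c) = algebraMap L Ω (γ c)) (hx : ρ x = x) (hy : ρ y = y) :
    RootM (isE_baseChange e₁ e₂ e₃) h (Point.map (W' := EC e₁ e₂ e₃) γ P) (ρ g) := by
  obtain ⟨m, hm, r, hr, hmon, hgr⟩ := hg
  refine ⟨m, by rw [← map_nsmul, hm, map_zero],
    galR (γ : L →+* L) (map_baseChange_eq (EC e₁ e₂ e₃) γ) r, ?_, galR_isMonR hmon, ?_⟩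
  · rw [← idOf_map, ← Ideal.map_pow, hr, Ideal.map_span, Set.image_singleton]
  · rw [← map_pow, hgr]
    exact evR_galR _ h _ ρ hρ hx hy r

end Gal

end Pool.Agent.Helper91.Sect
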