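import Pool.Agent.Helper91.Section.Coarse

/-!
# The roots of a polynomial with separable reduction
-/

universe u

namespace Pool.Agent.Helper91.Sect

open Polynomial

section

variable {k C : Type u} [Field k] [Field C] [Algebra k C]
  {O : ValuationSubring k}

theorem integral_root {f : O[X]} (hlc : O.valuation (f.leadingCoeff : k) = 1) {r : C}
    (hr : aeval r f = 0) : IsIntegral O r := by
  have hu : IsUnit f.leadingCoeff := (O.valuation_eq_one_iff _).2 hlc
  obtain ⟨u, hu⟩ := hu
  refine ⟨Polynomial.C (↑u⁻¹ : O) * f, ?_, ?_⟩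
  · rw [Monic, leadingCoeff_mul, leadingCoeff_C, ← hu, Units.inv_mul]
  · rw [← aeval_def, map_mul, hr, mul_zero]

variable [IsGalois k C] (Q : Ideal (integralClosure O C)) [hQ : Q.IsPrime] (hA : Above Q)

include hA in
omit [IsGalois k C] hQ in
theorem aeval_mem_of_coeff {m : O[X]} (hm : ∀ n, O.valuation ((m.coeff n : O) : k) < 1)
    (b : integralClosure O C) : aeval b m ∈ Q := by
  rw [aeval_eq_sum_range]
  refine Q.sum_mem fun i _ => ?_
  rw [Algebra.smul_def]
  exact Q.mul_mem_right _ ((hA _).2 (hm i))

include hA in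
omit [IsGalois k C] in
theorem sub_notMem_of_roots {f a b : O[X]}
    (hm : ∀ n, O.valuation (((a * f + b * derivative f - 1).coeff n : O) : k) < 1)
    {r r' : integralClosure O C} (hr : aeval r f = 0) (hr' : aeval r' f = 0) (hne : r ≠ r') :
    r' - r ∉ Q := by
  intro hmem
  set fB := f.map (algebraMap O (integralClosure O C)) with hfB
  obtain ⟨h, hh⟩ := fB.binomExpansion r (r' - r)
  have e1 : fB.eval r = 0 := by rw [hfB, eval_map_algebraMap, hr]
  have e2 : fB.eval r' = 0 := by rw [hfB, eval_map_algebraMap, hr']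
  rw [add_sub_cancel, e1, e2, zero_add] at hh
  have h1 : (r' - r) * (fB.derivative.eval r + h * (r' - r)) = 0 := by
    rw [eq_comm] at hh
    rw [← hh]; ring
  have h2 : fB.derivative.eval r + h * (r' - r) = 0 :=
    (mul_eq_zero.1 h1).resolve_left (sub_ne_zero.2 hne.symm)
  have h3 : fB.derivative.eval r ∈ Q := by
    rw [eq_neg_of_add_eq_zero_left h2]
    exact Q.neg_mem (Q.mul_mem_left _ hmem)
  have h4 : aeval r (derivative f) ∈ Q := by
    rwa [hfB, derivative_map, eval_map_algebraMap] at h3
  have h5 := aeval_mem_of_coeff Q hA hm r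
  rw [map_sub, map_add, map_mul, map_mul, hr, mul_zero, zero_add, map_one] at h5
  have h6 : (1 : integralClosure O C) ∈ Q := by
    have h7 := Q.sub_mem (Q.mul_mem_left (aeval r b) h4) h5
    rwa [sub_sub_cancel] at h7
  exact hQ.ne_top ((Ideal.eq_top_iff_one Q).2 h6)

include hA in
theorem root_sep {f a b : O[X]} (hlc : O.valuation (f.leadingCoeff : k) = 1)
    (hm : ∀ n, O.valuation (((a * f + b * derivative f - 1).coeff n : O) : k) < 1)
    {r r' : C} (hr : aeval r f = 0) (hr' : aeval r' f = 0) (hne : r ≠ r') :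
    (locW Q).valuation (r - r') = 1 := by
  set rb : integralClosure O C := ⟨r, integral_root hlc hr⟩ with hrb
  set rb' : integralClosure O C := ⟨r', integral_root hlc hr'⟩ with hrb'
  have h1 : ∀ z : integralClosure O C,
      aeval (z : C) f = ((aeval z f : integralClosure O C) : C) := fun z =>
    aeval_algebraMap_apply C z f
  have h2 := sub_notMem_of_roots Q hA hm (r := rb) (r' := rb')
    (Subtype.ext ((h1 rb).symm.trans hr)) (Subtype.ext ((h1 rb').symm.trans hr'))
    (fun h => hne (congrArg Subtype.val h))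
  rw [Valuation.map_sub_swap]
  refine le_antisymm (coeB_le Q (rb' - rb)) ?_
  by_contra hlt
  exact h2 ((val_coe_lt_one_iff Q _).1 (not_le.1 hlt))

include hA in
omit [IsGalois k C] in
theorem aeval_derivative_ne_zero {f a b : O[X]} (hlc : O.valuation (f.leadingCoeff : k) = 1)
    (hm : ∀ n, O.valuation (((a * f + b * derivative f - 1).coeff n : O) : k) < 1)
    {r : C} (hr : aeval r f = 0) : aeval r (derivative f) ≠ 0 := by
  intro h0
  set rb : integralClosure O C := ⟨r, integral_root hlc hr⟩ with hrb
  have h1 : ∀ g : O[X], aeval (rb : C) g = ((aeval rb g : integralClosure O C) : C) := fun g =>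
    aeval_algebraMap_apply C rb g
  have h2 : aeval rb f = 0 := Subtype.ext ((h1 f).symm.trans hr)
  have h3 : aeval rb (derivative f) = 0 := Subtype.ext ((h1 _).symm.trans h0)
  have h5 := aeval_mem_of_coeff Q hA hm rb
  rw [map_sub, map_add, map_mul, map_mul, h2, h3, mul_zero, mul_zero, zero_add, map_one,
    zero_sub] at h5
  exact hQ.ne_top ((Ideal.eq_top_iff_one Q).2 (by simpa using Q.neg_mem h5))

include hA in
/-- inertia fixes the roots of a polynomial with separable reduction -/
theorem inertia_fix_root {f a b : O[X]} (hlc : O.valuation (f.leadingCoeff : k) = 1)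
    (hm : ∀ n, O.valuation (((a * f + b * derivative f - 1).coeff n : O) : k) < 1)
    {r : C} (hr : aeval r f = 0) {σ : C ≃ₐ[k] C} (hσ : InI Q σ) : σ r = r := by
  by_contra hne
  have hσr : aeval (σ r) f = 0 := by
    have h1 := aeval_algHom_apply ((σ : C →ₐ[k] C).restrictScalars O) r f
    rw [hr, map_zero] at h1
    exact h1
  have h1 := root_sep Q hA hlc hm hσr hr hne
  have h2 := val_inertia Q hσ (coeB_le Q ⟨r, integral_root hlc hr⟩)
  rw [h1] at h2
  exact lt_irrefl _ h2

end

section

variable {k : Type u} [Field k] {O O' : ValuationSubring k} (hle : O' ≤ O)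

/-- lifting a polynomial to the smaller valuation ring -/
theorem exists_lift_poly {f : O[X]} (hf : ∀ n, ((f.coeff n : O) : k) ∈ O') :
    ∃ f' : O'[X], f'.map (O'.inclusion O hle) = f := by
  have h1 : f ∈ lifts (O'.inclusion O hle) := by
    rw [lifts_iff_coeff_lifts]
    intro n
    exact ⟨⟨_, hf n⟩, Subtype.ext rfl⟩
  obtain ⟨g, hg⟩ := h1
  exact ⟨g, hg⟩

end

end Pool.Agent.Helper91.Sect
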