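import Pool.Agent.Helper91.Section.Decomp

/-!
# Ramified square roots, and tame inertia in residue characteristic zero
-/

universe u

namespace Pool.Agent.Helper91.Sect

open scoped Pointwise IntermediateField
open Polynomial

section Defs

variable {k C : Type u} [Field k] [Field C] [Algebra k C] {O : ValuationSubring k}

/-- the decomposition group of `Q` -/
def InD (Q : Ideal (integralClosure O C)) (σ : C ≃ₐ[k] C) : Prop :=
  ∀ b : integralClosure O C, σ • b ∈ Q ↔ b ∈ Q

/-- the inertia group of `Q` -/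
def InI (Q : Ideal (integralClosure O C)) (σ : C ≃ₐ[k] C) : Prop :=
  InD Q σ ∧ ∀ b : integralClosure O C, σ • b - b ∈ Q

/-- `Q` lies above the maximal ideal of `O` -/
def Above (Q : Ideal (integralClosure O C)) : Prop :=
  ∀ c : O, algebraMap O (integralClosure O C) c ∈ Q ↔ O.valuation (c : k) < 1

variable {Q : Ideal (integralClosure O C)}

theorem InD.one : InD Q (1 : C ≃ₐ[k] C) := fun b => by rw [one_smul]

theorem InD.mul {σ τ : C ≃ₐ[k] C} (hσ : InD Q σ) (hτ : InD Q τ) : InD Q (σ * τ) := fun b => by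
  rw [mul_smul, hσ, hτ]

theorem InD.inv {σ : C ≃ₐ[k] C} (hσ : InD Q σ) : InD Q σ⁻¹ := fun b => by
  rw [← hσ (σ⁻¹ • b), smul_inv_smul]

theorem InI.one : InI Q (1 : C ≃ₐ[k] C) := ⟨InD.one, fun b => by
  rw [one_smul, sub_self]; exact Q.zero_mem⟩

theorem InI.mul {σ τ : C ≃ₐ[k] C} (hσ : InI Q σ) (hτ : InI Q τ) : InI Q (σ * τ) :=
  ⟨hσ.1.mul hτ.1, fun b => by
    have : (σ * τ) • b - b = σ • (τ • b - b) + (σ • b - b) := by
      rw [mul_smul, smul_sub]; ring
    rw [this]
    exact Q.add_mem ((hσ.1 _).2 (hτ.2 b)) (hσ.2 b)⟩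

theorem InI.inv {σ : C ≃ₐ[k] C} (hσ : InI Q σ) : InI Q σ⁻¹ :=
  ⟨hσ.1.inv, fun b => by
    rw [← hσ.1, smul_sub, smul_inv_smul, ← neg_mem_iff, neg_sub]
    exact hσ.2 b⟩

theorem InI.conj {σ τ : C ≃ₐ[k] C} (hσ : InI Q σ) (hτ : InD Q τ) : InI Q (τ * σ * τ⁻¹) :=
  ⟨(hτ.mul hσ.1).mul hτ.inv, fun b => by
    have : (τ * σ * τ⁻¹) • b - b = τ • (σ • (τ⁻¹ • b) - τ⁻¹ • b) := by
      rw [smul_sub, smul_inv_smul, mul_smul, mul_smul]
    rw [this, hτ]
    exact hσ.2 _⟩

theorem InI.pow {σ : C ≃ₐ[k] C} (hσ : InI Q σ) (n : ℕ) : InI Q (σ ^ n) := by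
  induction n with
  | zero => rw [pow_zero]; exact InI.one
  | succ n ih => rw [pow_succ]; exact ih.mul hσ

end Defs

section Vals

variable {k C : Type u} [Field k] [Field C] [Algebra k C] [IsGalois k C]
  {O : ValuationSubring k} (Q : Ideal (integralClosure O C)) [hQ : Q.IsPrime]

theorem locW_algebraMap_le {Q : Ideal (integralClosure O C)} [hQ : Q.IsPrime] {a : k}
    (ha : O.valuation a ≤ 1) : (locW Q).valuation (algebraMap k C a) ≤ 1 := by
  have h1 : a ∈ O := (O.valuation_le_one_iff a).1 ha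
  have h2 := coe_mem_locW Q (algebraMap O (integralClosure O C) ⟨a, h1⟩)
  exact ((locW Q).valuation_le_one_iff _).2 h2

theorem locW_algebraMap_lt (hA : Above Q) {a : k} (ha : O.valuation a < 1) :
    (locW Q).valuation (algebraMap k C a) < 1 := by
  have h1 : a ∈ O := (O.valuation_le_one_iff a).1 ha.le
  exact (val_coe_lt_one_iff Q (algebraMap O (integralClosure O C) ⟨a, h1⟩)).2 ((hA ⟨a, h1⟩).2 ha)

theorem locW_algebraMap_eq_one (hA : Above Q) {a : k} :
    (locW Q).valuation (algebraMap k C a) = 1 ↔ O.valuation a = 1 := by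
  have key : ∀ a : k, O.valuation a < 1 → (locW Q).valuation (algebraMap k C a) ≠ 1 :=
    fun a ha => (locW_algebraMap_lt Q hA ha).ne
  constructor
  · intro h
    rcases lt_trichotomy (O.valuation a) 1 with h1 | h1 | h1
    · exact absurd h (key a h1)
    · exact h1
    · exfalso
      have h0 : a ≠ 0 := by
        rintro rfl
        rw [map_zero, map_zero] at h
        exact zero_ne_one h
      refine key a⁻¹ ?_ ?_
      · rw [map_inv₀]; exact inv_lt_one_of_one_lt₀ h1
      · rw [map_inv₀, map_inv₀, h, inv_one]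
  · intro h
    refine le_antisymm (locW_algebraMap_le h.le) ?_
    have h0 : (locW Q).valuation (algebraMap k C a) ≠ 0 := by
      intro h2
      have : a = 0 := by simpa using h2
      rw [this, map_zero] at h
      exact zero_ne_one h
    have h1 : O.valuation a⁻¹ ≤ 1 := by rw [map_inv₀, h, inv_one]
    have h2 := locW_algebraMap_le (Q := Q) h1
    rw [map_inv₀, map_inv₀] at h2
    exact (inv_le_one₀ (zero_lt_iff.2 h0)).1 h2

theorem locW_eq_iff (hA : Above Q) {a b : k} (hb : b ≠ 0) :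
    (locW Q).valuation (algebraMap k C a) = (locW Q).valuation (algebraMap k C b) ↔
      O.valuation a = O.valuation b := by
  have h1 : O.valuation b ≠ 0 := by simpa using hb
  have h2 : (locW Q).valuation (algebraMap k C b) ≠ 0 := by simpa using hb
  have h3 := locW_algebraMap_eq_one Q hA (a := a / b)
  rw [map_div₀, map_div₀, map_div₀, div_eq_one_iff_eq h2, div_eq_one_iff_eq h1] at h3
  exact h3

/-- values of a decomposition element -/
theorem val_lt_one_D {σ : C ≃ₐ[k] C} (hσ : InD Q σ) (z : C) :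
    (locW Q).valuation (σ z) < 1 ↔ (locW Q).valuation z < 1 := by
  have h1 : ∀ z : C, (locW Q).valuation z < 1 ↔ (z = 0 ∨ z⁻¹ ∉ locW Q) := fun z =>
    (locW Q).mem_nonunits_iff.symm.trans (locW Q).mem_nonunits_iff_or
  rw [h1, h1, ← map_inv₀, stab_locW Q hσ]
  simp

theorem val_le_one_D {σ : C ≃ₐ[k] C} (hσ : InD Q σ) (z : C) :
    (locW Q).valuation (σ z) ≤ 1 ↔ (locW Q).valuation z ≤ 1 := by
  rw [(locW Q).valuation_le_one_iff, (locW Q).valuation_le_one_iff, stab_locW Q hσ]

theorem val_eq_one_D {σ : C ≃ₐ[k] C} (hσ : InD Q σ) (z : C) :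
    (locW Q).valuation (σ z) = 1 ↔ (locW Q).valuation z = 1 := by
  rw [eq_iff_le_not_lt, eq_iff_le_not_lt, val_lt_one_D Q hσ, val_le_one_D Q hσ]

theorem val_inertia {σ : C ≃ₐ[k] C} (hσ : InI Q σ) {z : C} (hz : (locW Q).valuation z ≤ 1) :
    (locW Q).valuation (σ z - z) < 1 :=
  inertia_locW Q hσ.1 hσ.2 (((locW Q).valuation_le_one_iff z).1 hz)

/-- elements of `B` -/
theorem coeB_le (b : integralClosure O C) : (locW Q).valuation (b : C) ≤ 1 :=
  ((locW Q).valuation_le_one_iff _).2 (coe_mem_locW Q b)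

section R1

variable (hA : Above Q) {c : k} (hodd : ∀ d : k, O.valuation c ≠ O.valuation d ^ 2)
  {w : C} (hw : w ^ 2 = algebraMap k C c)

include hA hodd hw in
theorem val_ne_aux {α β : k} (hβ : β ≠ 0) :
    (locW Q).valuation (algebraMap k C α) ≠ (locW Q).valuation (algebraMap k C β * w) := by
  intro h
  have hc : c ≠ 0 := by
    rintro rfl
    exact hodd 0 (by simp)
  have h2 : (locW Q).valuation (algebraMap k C (α ^ 2)) =
      (locW Q).valuation (algebraMap k C (β ^ 2 * c)) := by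
    rw [map_pow, map_mul (algebraMap k C), map_pow, ← hw, map_pow, h, ← map_pow, mul_pow]
  rw [locW_eq_iff Q hA (mul_ne_zero (pow_ne_zero 2 hβ) hc), map_pow, map_mul, map_pow] at h2
  apply hodd (α / β)
  have h3 : O.valuation β ≠ 0 := by simpa using hβ
  rw [map_div₀, div_pow, h2]
  field_simp

include hA hodd hw in
theorem val_add_aux (α β : k) :
    (locW Q).valuation (algebraMap k C α + algebraMap k C β * w) =
      max ((locW Q).valuation (algebraMap k C α)) ((locW Q).valuation (algebraMap k C β * w)) := by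
  by_cases hβ : β = 0
  · simp [hβ]
  · exact Valuation.map_add_of_distinct_val _ (val_ne_aux Q hA hodd hw hβ)

include hw in
omit hQ in
theorem mem_adjoin_sqrt {x : C} (hx : x ∈ k⟮w⟯) :
    ∃ α β : k, x = algebraMap k C α + algebraMap k C β * w := by
  have hmonic : (X ^ 2 - Polynomial.C c : k[X]).Monic := monic_X_pow_sub_C c two_ne_zero
  have hint : IsIntegral k w := ⟨X ^ 2 - Polynomial.C c, hmonic, by simp [hw]⟩
  have h1 : x ∈ Algebra.adjoin k {w} := by
    rw [← IntermediateField.adjoin_simple_toSubalgebra_of_isAlgebraic hint.isAlgebraic]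
    exact hx
  rw [Algebra.adjoin_singleton_eq_range_aeval] at h1
  obtain ⟨p, rfl⟩ := h1
  have h2 := modByMonic_add_div p (X ^ 2 - Polynomial.C c : k[X])
  have h3 : (p %ₘ (X ^ 2 - Polynomial.C c)).degree < 2 := by
    have := degree_modByMonic_lt p hmonic
    rwa [degree_X_pow_sub_C two_pos] at this
  have h4 : (p %ₘ (X ^ 2 - Polynomial.C c)).degree ≤ 1 := by
    by_cases h0 : (p %ₘ (X ^ 2 - Polynomial.C c)) = 0
    · rw [h0]; simp
    rw [degree_eq_natDegree h0] at h3 ⊢
    have : (p %ₘ (X ^ 2 - Polynomial.C c)).natDegree < 2 := by exact_mod_cast h3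
    exact_mod_cast (by omega : (p %ₘ (X ^ 2 - Polynomial.C c)).natDegree ≤ 1)
  have h5 := eq_X_add_C_of_degree_le_one h4
  refine ⟨(p %ₘ (X ^ 2 - Polynomial.C c)).coeff 0, (p %ₘ (X ^ 2 - Polynomial.C c)).coeff 1, ?_⟩
  have h6 : (aeval w : k[X] →ₐ[k] C) p = aeval w (p %ₘ (X ^ 2 - Polynomial.C c)) := by
    conv_lhs => rw [← h2]
    simp [hw]
  change (aeval w : k[X] →ₐ[k] C) p = _
  rw [h6, h5]
  simp
  ring

include hA hodd hw in
/-- An element of the inertia group moving the square root of an element of odd value. -/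
theorem exists_inertia_neg [CharZero C] : ∃ τ : C ≃ₐ[k] C, InI Q τ ∧ τ w = -w := by
  classical
  have hc : c ≠ 0 := by
    rintro rfl
    exact hodd 0 (by simp)
  have hw0 : w ≠ 0 := by
    rintro rfl
    apply hc
    have : algebraMap k C c = 0 := by rw [← hw]; simp
    simpa using this
  -- an automorphism moving `w`
  obtain ⟨τ0, hτ0⟩ : ∃ τ0 : C ≃ₐ[k] C, τ0 w = -w := by
    by_contra hcon
    push Not at hcon
    have hfix : ∀ τ : C ≃ₐ[k] C, τ w = w := by
      intro τ
      have h1 : (τ w) ^ 2 = w ^ 2 := by rw [← map_pow, hw, AlgEquiv.commutes]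
      rcases sq_eq_sq_iff_eq_or_eq_neg.1 h1 with h | h
      · exact h
      · exact absurd h (hcon τ)
    have h2 := (InfiniteGalois.mem_range_algebraMap_iff_fixed (k := k) w).2 hfix
    obtain ⟨d, hd⟩ := h2
    apply hodd d
    have h3 : algebraMap k C c = algebraMap k C (d ^ 2) := by rw [map_pow, hd, hw]
    rw [(algebraMap k C).injective h3, map_pow]
  set H : Subgroup (C ≃ₐ[k] C) := (k⟮w⟯).fixingSubgroup with hHdef
  have hH : IsClosed (H : Set (C ≃ₐ[k] C)) := InfiniteGalois.fixingSubgroup_isClosed _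
  have hHw : ∀ σ ∈ H, σ w = w := fun σ hσ => by
    exact (mem_fixingSubgroup_iff (C ≃ₐ[k] C)).1 hσ w (IntermediateField.mem_adjoin_simple_self k w)
  have hfixed : ∀ b : integralClosure O C, (∀ σ ∈ H, σ • b = b) →
      ∃ α β : k, (b : C) = algebraMap k C α + algebraMap k C β * w := by
    intro b hb
    apply mem_adjoin_sqrt hw
    rw [← InfiniteGalois.fixedField_fixingSubgroup (k⟮w⟯), IntermediateField.mem_fixedField_iff]
    intro σ hσ
    exact congrArg Subtype.val (hb σ hσ)
  have hτ0b : ∀ α β : k, τ0 (algebraMap k C α + algebraMap k C β * w) =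
      algebraMap k C α + algebraMap k C (-β) * w := by
    intro α β
    rw [map_add, map_mul, AlgEquiv.commutes, AlgEquiv.commutes, hτ0, map_neg]; ring
  have hvneg : ∀ β : k, (locW Q).valuation (algebraMap k C (-β) * w) =
      (locW Q).valuation (algebraMap k C β * w) := by
    intro β
    rw [map_neg, neg_mul, Valuation.map_neg]
  -- first step
  let P : Ideal (integralClosure O C) :=
    Q.comap (MulSemiringAction.toRingHom (C ≃ₐ[k] C) (integralClosure O C) τ0)
  have hP : ∀ b, b ∈ P ↔ τ0 • b ∈ Q := fun b => Iff.rfl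
  have hPprime : P.IsPrime := Ideal.comap_isPrime _ _
  obtain ⟨δ, hδH, hδ⟩ := exists_conj H hH P Q (by
    intro b hb
    obtain ⟨α, β, hαβ⟩ := hfixed b hb
    rw [hP, ← val_coe_lt_one_iff Q, ← val_coe_lt_one_iff Q, coe_smulB, hαβ, hτ0b,
      val_add_aux Q hA hodd hw, val_add_aux Q hA hodd hw, hvneg])
  set τ1 : C ≃ₐ[k] C := τ0 * δ⁻¹ with hτ1
  have hτ1D : InD Q τ1 := by
    intro b
    have h1 := hδ (δ⁻¹ • b)
    rw [smul_inv_smul, hP, ← mul_smul] at h1
    exact h1.symm
  have hτ1w : τ1 w = -w := by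
    have : δ⁻¹ w = w := hHw _ (H.inv_mem hδH)
    rw [hτ1, AlgEquiv.mul_apply, this, hτ0]
  -- the automorphism of the residue ring
  let e : integralClosure O C ≃+* integralClosure O C :=
    MulSemiringAction.toRingEquiv (C ≃ₐ[k] C) (integralClosure O C) τ1
  let φ : (integralClosure O C ⧸ Q) ≃+* (integralClosure O C ⧸ Q) :=
    Ideal.quotientEquiv Q Q e (by
      ext b
      rw [Ideal.map_comap_of_equiv]
      change b ∈ Q ↔ τ1⁻¹ • b ∈ Q
      rw [hτ1D.inv b])
  have hφ : ∀ b, φ (Ideal.Quotient.mk Q b) = Ideal.Quotient.mk Q (τ1 • b) := fun b => rfl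
  obtain ⟨ε, hεH, hεD, hε⟩ := exists_lift H hH Q φ (by
    intro b hb
    obtain ⟨α, β, hαβ⟩ := hfixed b hb
    rw [hφ, Ideal.Quotient.eq, ← val_coe_lt_one_iff Q]
    have h1 : ((τ1 • b - b : integralClosure O C) : C) = -2 * (algebraMap k C β * w) := by
      push_cast
      rw [coe_smulB, hαβ, map_add, map_mul, AlgEquiv.commutes, AlgEquiv.commutes, hτ1w]; ring
    rw [h1, map_mul]
    have h2 : (locW Q).valuation (algebraMap k C β * w) ≤ 1 := by
      have := coeB_le Q b
      rw [hαβ, val_add_aux Q hA hodd hw] at this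
      exact (le_max_right _ _).trans this
    have h3 : (locW Q).valuation (algebraMap k C β * w) ≠ 1 := by
      by_cases hβ : β = 0
      · simp [hβ]
      · have := val_ne_aux Q hA hodd hw (α := 1) hβ
        rw [map_one, map_one] at this
        exact this.symm
    have h4 : (locW Q).valuation (-2 : C) ≤ 1 := by
      rw [Valuation.map_neg, (locW Q).valuation_le_one_iff]
      exact_mod_cast natCast_mem (locW Q) 2
    calc (locW Q).valuation (-2 : C) * (locW Q).valuation (algebraMap k C β * w)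
        ≤ 1 * (locW Q).valuation (algebraMap k C β * w) := by gcongr
      _ = (locW Q).valuation (algebraMap k C β * w) := one_mul _
      _ < 1 := lt_of_le_of_ne h2 h3)
  refine ⟨ε⁻¹ * τ1, ⟨(InD.inv hεD).mul hτ1D, fun b => ?_⟩, ?_⟩
  · rw [← hεD, smul_sub, ← mul_smul, mul_inv_cancel_left, ← Ideal.Quotient.eq, hε b, hφ]
  · rw [AlgEquiv.mul_apply, hτ1w, map_neg, hHw _ (H.inv_mem hεH)]

end R1

end Vals

end Pool.Agent.Helper91.Sect
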